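import Mathlib

/-! Finite averages over shifts, and the shell estimate. -/

namespace Pool.Agent.LegRe

open Set Finset

section avg

variable {ι : Type*} [Fintype ι] [DecidableEq ι] {K : ℕ} [NeZero K]

/-- Average over all families of shifts. -/
noncomputable def avg (f : (ι → Fin K) → ℝ) : ℝ :=
  (∑ τ, f τ) / (Nat.card (ι → Fin K) : ℝ)

omit [DecidableEq ι] in
lemma card_pos' : (0 : ℝ) < (Nat.card (ι → Fin K) : ℝ) := by
  have : 0 < Nat.card (ι → Fin K) := Nat.card_pos
  exact_mod_cast this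

omit [NeZero K] in
lemma avg_eq (f : (ι → Fin K) → ℝ) :
    avg f = (∑ τ, f τ) / (Nat.card (ι → Fin K) : ℝ) := rfl

lemma avg_mono {f g : (ι → Fin K) → ℝ} (h : ∀ τ, f τ ≤ g τ) : avg f ≤ avg g := by
  classical
  rw [avg_eq, avg_eq]
  exact div_le_div_of_nonneg_right (Finset.sum_le_sum fun τ _ => h τ) card_pos'.le

lemma avg_add (f g : (ι → Fin K) → ℝ) : avg (fun τ => f τ + g τ) = avg f + avg g := by
  classical
  rw [avg_eq, avg_eq, avg_eq, Finset.sum_add_distrib, add_div]

lemma avg_const (c : ℝ) : avg (fun _ : ι → Fin K => c) = c := by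
  classical
  rw [avg_eq, Finset.sum_const, nsmul_eq_mul, Finset.card_univ, ← Nat.card_eq_fintype_card,
    mul_div_cancel_left₀ _ (card_pos' (ι := ι) (K := K)).ne']

lemma avg_const_mul (c : ℝ) (f : (ι → Fin K) → ℝ) : avg (fun τ => c * f τ) = c * avg f := by
  classical
  rw [avg_eq, avg_eq, ← Finset.mul_sum, mul_div_assoc]

lemma avg_sum {κ : Type*} (s : Finset κ) (f : κ → (ι → Fin K) → ℝ) :
    avg (fun τ => ∑ j ∈ s, f j τ) = ∑ j ∈ s, avg (f j) := by
  classical
  simp only [avg_eq]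
  rw [Finset.sum_comm, Finset.sum_div]

lemma avg_prod (f : ι → Fin K → ℝ) :
    avg (fun τ => ∏ i, f i (τ i)) = ∏ i, ((∑ k, f i k) / (K : ℝ)) := by
  classical
  rw [avg_eq, Finset.prod_div_distrib]
  have h := Finset.prod_univ_sum (fun _ : ι => (Finset.univ : Finset (Fin K))) f
  rw [h, Fintype.piFinset_univ]
  congr 1
  simp

/-- average of a function of one coordinate -/
lemma avg_coord (i : ι) (f : Fin K → ℝ) : avg (fun τ : ι → Fin K => f (τ i)) = (∑ k, f k) / K := by
  classical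
  have h := avg_prod (K := K) (fun j k => if j = i then f k else 1)
  have hK : (K : ℝ) ≠ 0 := by exact_mod_cast NeZero.ne K
  have e1 : (fun τ : ι → Fin K => ∏ j, (if j = i then f (τ j) else 1)) = fun τ => f (τ i) := by
    funext τ
    rw [Finset.prod_ite_eq' Finset.univ i (fun j => f (τ j))]
    simp
  rw [e1] at h
  rw [h]
  have e2 : ∀ j, ((∑ k : Fin K, if j = i then f k else 1) / (K : ℝ)) =
      if j = i then (∑ k, f k) / K else 1 := by
    intro j
    split_ifs with hj
    · rfl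
    · simp [hK]
  rw [Finset.prod_congr rfl fun j _ => e2 j, Finset.prod_ite_eq']
  simp

lemma exp_le_quad {u : ℝ} (hu : |u| ≤ 1) : Real.exp u ≤ 1 + u + u ^ 2 := by
  have := Real.abs_exp_sub_one_sub_id_le hu
  have := (abs_le.mp this).2
  linarith

lemma mgf_one (X : Fin K → ℝ) (hX : ∑ k, X k = 0) {t c : ℝ}
    (hc : ∀ k, |t * X k| ≤ c) (hc1 : c ≤ 1) :
    (∑ k, Real.exp (t * X k)) / (K : ℝ) ≤ Real.exp (c ^ 2) := by
  have hK : (0:ℝ) < K := by exact_mod_cast Nat.pos_of_ne_zero (NeZero.ne K)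
  have h1 : ∑ k, Real.exp (t * X k) ≤ ∑ k : Fin K, (1 + t * X k + c ^ 2) := by
    apply Finset.sum_le_sum
    intro k _
    have h2 := exp_le_quad ((hc k).trans hc1)
    have h3 : (t * X k) ^ 2 ≤ c ^ 2 := by
      rw [← sq_abs]
      exact pow_le_pow_left₀ (abs_nonneg _) (hc k) 2
    linarith
  have h2 : ∑ k : Fin K, (1 + t * X k + c ^ 2) = K * (1 + c ^ 2) := by
    rw [Finset.sum_add_distrib, Finset.sum_add_distrib, ← Finset.mul_sum, hX]
    simp; ring
  rw [h2] at h1
  rw [div_le_iff₀ hK]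
  have := Real.add_one_le_exp (c ^ 2)
  nlinarith

/-- exponential moment of a sum over a sub-family -/
lemma mgf_sum (F : Finset ι) (X : ι → Fin K → ℝ) (hX : ∀ i ∈ F, ∑ k, X i k = 0) {t c : ℝ}
    (hc : ∀ i ∈ F, ∀ k, |t * X i k| ≤ c) (hc1 : c ≤ 1) :
    avg (fun τ : ι → Fin K => Real.exp (t * ∑ i ∈ F, X i (τ i))) ≤ Real.exp (F.card * c ^ 2) := by
  classical
  have e : (fun τ : ι → Fin K => Real.exp (t * ∑ i ∈ F, X i (τ i))) =
      fun τ => ∏ i, (if i ∈ F then Real.exp (t * X i (τ i)) else 1) := by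
    funext τ
    rw [Finset.mul_sum, Real.exp_sum, Finset.prod_ite_mem]
    simp
  rw [e, avg_prod (fun i k => if i ∈ F then Real.exp (t * X i k) else 1)]
  have hK : (K : ℝ) ≠ 0 := by exact_mod_cast NeZero.ne K
  have hle : ∀ i, ((∑ k : Fin K, if i ∈ F then Real.exp (t * X i k) else 1) / (K : ℝ)) ≤
      if i ∈ F then Real.exp (c ^ 2) else 1 := by
    intro i
    split_ifs with hi
    · exact mgf_one (X i) (hX i hi) (hc i hi) hc1
    · simp [hK]
  calc _ ≤ ∏ i, (if i ∈ F then Real.exp (c ^ 2) else 1) := by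
        apply Finset.prod_le_prod
        · intro i _
          apply div_nonneg _ (Nat.cast_nonneg _)
          apply Finset.sum_nonneg
          intro k _
          split_ifs
          · exact (Real.exp_pos _).le
          · norm_num
        · intro i _; exact hle i
    _ = Real.exp (c ^ 2) ^ F.card := by
        rw [Finset.prod_ite_mem, Finset.univ_inter, Finset.prod_const]
    _ = _ := by rw [← Real.exp_nat_mul]

end avg

lemma net_step {y : ℝ} (hy : 0 < y) {q : ℕ} (hq : q = max 1 ⌊y⌋₊) :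
    1 ≤ q ∧ ((q : ℝ) - 1 ≤ y) ∧ (y / 2 ≤ q) := by
  refine ⟨hq ▸ le_max_left _ _, ?_, ?_⟩
  · rcases le_total ⌊y⌋₊ 1 with h | h
    · rw [hq, max_eq_left h]; simp; exact hy.le
    · rw [hq, max_eq_right h]
      have := Nat.floor_le hy.le
      linarith
  · rcases le_total ⌊y⌋₊ 1 with h | h
    · rw [hq, max_eq_left h]
      have := Nat.lt_floor_add_one y
      have h' : (⌊y⌋₊ : ℝ) ≤ 1 := by exact_mod_cast h
      push_cast; linarith
    · rw [hq, max_eq_right h]
      have := Nat.lt_floor_add_one y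
      have h' : (1 : ℝ) ≤ ⌊y⌋₊ := by exact_mod_cast h
      linarith

/-- shell constants -/
noncomputable def cm (m : ℕ) : ℝ := (66 + 3 * m) * (1 / Real.sqrt 2) ^ m

lemma shell {ι : Type*} [Fintype ι] [DecidableEq ι] {K : ℕ} [NeZero K] (F : Finset ι) (m : ℕ) {ℓ Λ : ℝ}
    (hℓ : 0 < ℓ) (hΛ : 0 < Λ) (hF : (F.card : ℝ) ≤ 8 * 2 ^ m) (X : ι → ℕ → Fin K → ℝ)
    (h1 : ∀ i ∈ F, ∀ n k, |X i n k| ≤ Λ / 2 ^ m)
    (h2 : ∀ i ∈ F, ∀ n d k, |X i (n + d) k - X i n k| ≤ Λ * ℓ * d)
    (h3 : ∀ i ∈ F, ∀ n k, |X i n k| ≤ 6 * Λ * K / ((n + 1) * 2 ^ m * ℓ))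
    (h4 : ∀ i ∈ F, ∀ n, ∑ k, X i n k = 0) :
    ∃ R : (ι → Fin K) → ℝ, (∀ τ n, |∑ i ∈ F, X i n (τ i)| ≤ R τ) ∧
      avg R ≤ Λ * (cm m * (1 + Real.log K)) := by
  have hK1 : (1:ℝ) ≤ K := by exact_mod_cast Nat.pos_of_ne_zero (NeZero.ne K)
  have hK : (0:ℝ) < K := by linarith
  have hlogK : 0 ≤ Real.log K := Real.log_nonneg hK1
  set r : ℝ := Real.sqrt 2 ^ m with hr
  have hs2 : 0 < Real.sqrt 2 := Real.sqrt_pos.mpr (by norm_num)
  have hs1 : 1 ≤ Real.sqrt 2 := by rw [Real.one_le_sqrt]; norm_num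
  have hrpos : 0 < r := by positivity
  have hr1 : 1 ≤ r := one_le_pow₀ hs1
  have hrr : r * r = 2 ^ m := by
    rw [hr, ← mul_pow, Real.mul_self_sqrt (by norm_num)]
  have h2m : (0:ℝ) < 2 ^ m := by positivity
  set t : ℝ := r / Λ with ht
  have htpos : 0 < t := by positivity
  set y : ℝ := 1 / (4 ^ m * ℓ) with hy
  have hypos : 0 < y := by positivity
  obtain ⟨q, hq⟩ : ∃ q : ℕ, q = max 1 ⌊y⌋₊ := ⟨_, rfl⟩
  obtain ⟨hq1, hq2, hq3⟩ := net_step hypos hq
  have hqpos : (0:ℝ) < q := by exact_mod_cast hq1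
  set Nn : ℝ := K * 2 ^ m / ℓ with hN
  have hNpos : 0 < Nn := by positivity
  obtain ⟨J, hJ⟩ : ∃ J : ℕ, J = ⌊Nn / q⌋₊ + 1 := ⟨_, rfl⟩
  have hJle : (J : ℝ) ≤ 3 * K * 8 ^ m := by
    have e1 : Nn / q ≤ 2 * K * 8 ^ m := by
      rw [div_le_iff₀ hqpos]
      have e2 : Nn = 2 * K * 8 ^ m * (y / 2) := by
        rw [hN, hy]
        have : (8:ℝ) ^ m = 2 ^ m * 4 ^ m := by rw [← mul_pow]; norm_num
        rw [this]
        field_simp
      calc Nn = 2 * K * 8 ^ m * (y / 2) := e2
        _ ≤ 2 * K * 8 ^ m * q := mul_le_mul_of_nonneg_left hq3 (by positivity)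
    have e3 : (J : ℝ) ≤ Nn / q + 1 := by
      rw [hJ]; push_cast
      have := Nat.floor_le (show 0 ≤ Nn / q by positivity)
      linarith
    have e4 : (1:ℝ) ≤ K * 8 ^ m := by
      have : (1:ℝ) ≤ 8 ^ m := one_le_pow₀ (by norm_num)
      nlinarith
    linarith
  have hJ0 : (0:ℝ) < J := by rw [hJ]; positivity
  set Z : ℕ → (ι → Fin K) → ℝ := fun n τ => ∑ i ∈ F, X i n (τ i) with hZ
  set U : (ι → Fin K) → ℝ := fun τ => ∑ j ∈ Finset.range J,
    (Real.exp (t * Z (q * j) τ) + Real.exp (-t * Z (q * j) τ)) with hU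
  set c : ℝ := 6 * Real.exp 8 * K * 8 ^ m with hc
  have hcpos : 0 < c := by positivity
  -- exponential moments
  have hmom : ∀ (t' : ℝ), |t'| = t → ∀ n, avg (fun τ => Real.exp (t' * Z n τ)) ≤ Real.exp 8 := by
    intro t' ht' n
    have hb : ∀ i ∈ F, ∀ k, |t' * X i n k| ≤ 1 / r := by
      intro i hi k
      rw [abs_mul, ht', ht]
      calc r / Λ * |X i n k| ≤ r / Λ * (Λ / 2 ^ m) :=
            mul_le_mul_of_nonneg_left (h1 i hi n k) (by positivity)
        _ = 1 / r := by rw [← hrr]; field_simp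
    have h := mgf_sum F (fun i k => X i n k) (fun i hi => h4 i hi n) hb
      (by rw [div_le_one hrpos]; exact hr1)
    refine h.trans (Real.exp_le_exp.mpr ?_)
    calc (F.card : ℝ) * (1 / r) ^ 2 ≤ (8 * 2 ^ m) * (1 / r) ^ 2 :=
          mul_le_mul_of_nonneg_right hF (by positivity)
      _ = 8 := by
        have : (1 / r) ^ 2 = 1 / 2 ^ m := by
          rw [div_pow, one_pow, sq, hrr]
        rw [this]; field_simp
  have hUavg : avg U ≤ c := by
    rw [hU, avg_sum]
    calc ∑ j ∈ Finset.range J, avg (fun τ => Real.exp (t * Z (q * j) τ) + Real.exp (-t * Z (q * j) τ))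
        ≤ ∑ j ∈ Finset.range J, 2 * Real.exp 8 := by
          apply Finset.sum_le_sum
          intro j _
          rw [avg_add]
          have a1 := hmom t (abs_of_pos htpos) (q * j)
          have a2 := hmom (-t) (by rw [abs_neg, abs_of_pos htpos]) (q * j)
          linarith
      _ = J * (2 * Real.exp 8) := by rw [Finset.sum_const, Finset.card_range, nsmul_eq_mul]
      _ ≤ (3 * K * 8 ^ m) * (2 * Real.exp 8) := mul_le_mul_of_nonneg_right hJle (by positivity)
      _ = c := by rw [hc]; ring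
  have hUpos : ∀ τ, 0 < U τ := by
    intro τ
    apply Finset.sum_pos
    · intro j _
      have := Real.exp_pos (t * Z (q * j) τ)
      have := Real.exp_pos (-t * Z (q * j) τ)
      linarith
    · rw [Finset.nonempty_range_iff]
      intro h0; rw [h0] at hJ0; simp at hJ0
  have hnet : ∀ τ, ∀ j ∈ Finset.range J, |Z (q * j) τ| ≤ (1 / t) * (U τ / c - 1 + Real.log c) := by
    intro τ j hj
    have e1 : Real.exp (t * |Z (q * j) τ|) ≤ U τ := by
      have e2 : Real.exp (t * |Z (q * j) τ|) ≤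
          Real.exp (t * Z (q * j) τ) + Real.exp (-t * Z (q * j) τ) := by
        rcases abs_cases (Z (q * j) τ) with ⟨e, _⟩ | ⟨e, _⟩
        · rw [e]; have := Real.exp_pos (-t * Z (q * j) τ); linarith
        · rw [e]
          have := Real.exp_pos (t * Z (q * j) τ)
          have e3 : t * -Z (q * j) τ = -t * Z (q * j) τ := by ring
          rw [e3]; linarith
      refine e2.trans ?_
      apply Finset.single_le_sum (f := fun j => Real.exp (t * Z (q * j) τ) +
        Real.exp (-t * Z (q * j) τ)) _ hj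
      intro j _
      have := Real.exp_pos (t * Z (q * j) τ)
      have := Real.exp_pos (-t * Z (q * j) τ)
      positivity
    have e4 : t * |Z (q * j) τ| ≤ Real.log (U τ) := by
      rw [Real.le_log_iff_exp_le (hUpos τ)]; exact e1
    have e5 : Real.log (U τ) ≤ U τ / c - 1 + Real.log c := by
      have := Real.log_le_sub_one_of_pos (div_pos (hUpos τ) hcpos)
      rw [Real.log_div (hUpos τ).ne' hcpos.ne'] at this
      linarith
    rw [div_mul_eq_mul_div, le_div_iff₀ htpos]
    linarith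
  refine ⟨fun τ => (1 / t) * (U τ / c - 1 + Real.log c) + 56 * Λ / 2 ^ m, ?_, ?_⟩
  · intro τ n
    have hnn : 0 ≤ (1 / t) * (U τ / c - 1 + Real.log c) := by
      have := hnet τ 0 (Finset.mem_range.mpr (by exact_mod_cast hJ0))
      exact (abs_nonneg _).trans this
    rcases lt_or_ge (n : ℝ) Nn with hn | hn
    · -- net part
      set j : ℕ := n / q with hj
      have hjJ : j ∈ Finset.range J := by
        rw [Finset.mem_range, hJ, Nat.lt_succ_iff, Nat.le_floor_iff (by positivity)]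
        rw [le_div_iff₀ hqpos]
        have : j * q ≤ n := Nat.div_mul_le_self n q
        have : ((j * q : ℕ) : ℝ) ≤ n := by exact_mod_cast this
        push_cast at this
        linarith
      have hmod : q * j + n % q = n := Nat.div_add_mod n q
      have hmodlt : n % q < q := Nat.mod_lt n hq1
      have hd : |Z n τ - Z (q * j) τ| ≤ 8 * 2 ^ m * (Λ * ℓ * y) := by
        have e : Z n τ - Z (q * j) τ = ∑ i ∈ F, (X i n (τ i) - X i (q * j) (τ i)) := by
          rw [hZ]; simp only; rw [Finset.sum_sub_distrib]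
        rw [e]
        refine (Finset.abs_sum_le_sum_abs _ _).trans ?_
        have hterm : ∀ i ∈ F, |X i n (τ i) - X i (q * j) (τ i)| ≤ Λ * ℓ * y := by
          intro i hi
          have := h2 i hi (q * j) (n % q) (τ i)
          rw [hmod] at this
          refine this.trans ?_
          apply mul_le_mul_of_nonneg_left _ (by positivity)
          have : ((n % q : ℕ) : ℝ) ≤ q - 1 := by
            have : n % q + 1 ≤ q := hmodlt
            have : ((n % q + 1 : ℕ) : ℝ) ≤ q := by exact_mod_cast this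
            push_cast at this; linarith
          linarith
        calc ∑ i ∈ F, |X i n (τ i) - X i (q * j) (τ i)| ≤ ∑ i ∈ F, Λ * ℓ * y :=
              Finset.sum_le_sum hterm
          _ = F.card * (Λ * ℓ * y) := by rw [Finset.sum_const, nsmul_eq_mul]
          _ ≤ 8 * 2 ^ m * (Λ * ℓ * y) := mul_le_mul_of_nonneg_right hF (by positivity)
      have he : 8 * 2 ^ m * (Λ * ℓ * y) = 8 * Λ / 2 ^ m := by
        rw [hy]
        have : (4:ℝ) ^ m = 2 ^ m * 2 ^ m := by rw [← mul_pow]; norm_num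
        rw [this]
        field_simp
      rw [he] at hd
      have hz := hnet τ j hjJ
      have : |Z n τ| ≤ |Z (q * j) τ| + |Z n τ - Z (q * j) τ| := by
        have := abs_sub_abs_le_abs_sub (Z n τ) (Z (q * j) τ)
        linarith
      have h56 : 8 * Λ / 2 ^ m ≤ 56 * Λ / 2 ^ m :=
        div_le_div_of_nonneg_right (by linarith) h2m.le
      change |Z n τ| ≤ _
      linarith
    · -- tail part
      have hterm : ∀ i ∈ F, |X i n (τ i)| ≤ 6 * Λ / 4 ^ m := by
        intro i hi
        refine (h3 i hi n (τ i)).trans ?_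
        rw [div_le_div_iff₀ (by positivity) (by positivity)]
        have h5 : (K:ℝ) * 2 ^ m ≤ n * ℓ := by
          rw [hN, div_le_iff₀ hℓ] at hn; exact hn
        have e4 : (4:ℝ) ^ m = 2 ^ m * 2 ^ m := by rw [← mul_pow]; norm_num
        calc 6 * Λ * K * 4 ^ m = 6 * Λ * 2 ^ m * (K * 2 ^ m) := by rw [e4]; ring
          _ ≤ 6 * Λ * 2 ^ m * (n * ℓ) := mul_le_mul_of_nonneg_left h5 (by positivity)
          _ ≤ 6 * Λ * 2 ^ m * ((n + 1) * ℓ) := by
              apply mul_le_mul_of_nonneg_left _ (by positivity)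
              apply mul_le_mul_of_nonneg_right _ hℓ.le
              linarith
          _ = 6 * Λ * ((n + 1) * 2 ^ m * ℓ) := by ring
      have : |∑ i ∈ F, X i n (τ i)| ≤ 56 * Λ / 2 ^ m := by
        refine (Finset.abs_sum_le_sum_abs _ _).trans ?_
        calc ∑ i ∈ F, |X i n (τ i)| ≤ ∑ i ∈ F, 6 * Λ / 4 ^ m := Finset.sum_le_sum hterm
          _ = F.card * (6 * Λ / 4 ^ m) := by rw [Finset.sum_const, nsmul_eq_mul]
          _ ≤ 8 * 2 ^ m * (6 * Λ / 4 ^ m) := mul_le_mul_of_nonneg_right hF (by positivity)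
          _ = 48 * Λ / 2 ^ m := by
              have : (4:ℝ) ^ m = 2 ^ m * 2 ^ m := by rw [← mul_pow]; norm_num
              rw [this]; field_simp; ring
          _ ≤ 56 * Λ / 2 ^ m := div_le_div_of_nonneg_right (by linarith) h2m.le
      linarith
  · have e1 : (fun τ => (1 / t) * (U τ / c - 1 + Real.log c) + 56 * Λ / 2 ^ m) =
        fun τ => (1 / (t * c)) * U τ + ((1 / t) * (Real.log c - 1) + 56 * Λ / 2 ^ m) := by
      funext τ
      field_simp
      ring
    rw [e1, avg_add, avg_const_mul, avg_const]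
    have e2 : 1 / (t * c) * avg U ≤ 1 / t := by
      calc 1 / (t * c) * avg U ≤ 1 / (t * c) * c := mul_le_mul_of_nonneg_left hUavg (by positivity)
        _ = 1 / t := by field_simp
    have hlogc : Real.log c ≤ 2 + 8 + Real.log K + 3 * m := by
      rw [hc, Real.log_mul (by positivity) (by positivity), Real.log_mul (by positivity) (by positivity),
        Real.log_mul (by positivity) (by positivity), Real.log_exp, Real.log_pow]
      have l6 : Real.log 6 ≤ 2 := by
        rw [Real.log_le_iff_le_exp (by norm_num)]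
        have := Real.add_one_le_exp (1:ℝ)
        have h2 : Real.exp 2 = Real.exp 1 * Real.exp 1 := by rw [← Real.exp_add]; norm_num
        have := Real.exp_one_gt_d9
        nlinarith
      have l8 : Real.log 8 ≤ 3 := by
        rw [Real.log_le_iff_le_exp (by norm_num)]
        have h3 : Real.exp 3 = Real.exp 1 * Real.exp 1 * Real.exp 1 := by
          rw [← Real.exp_add, ← Real.exp_add]; norm_num
        have h1 := Real.exp_one_gt_d9
        have h4 : (2:ℝ) ≤ Real.exp 1 := by linarith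
        rw [h3]
        nlinarith [mul_le_mul h4 h4 (by norm_num) (by linarith)]
      have : (m : ℝ) * Real.log 8 ≤ 3 * m := by
        have hm : (0:ℝ) ≤ m := Nat.cast_nonneg m
        nlinarith
      linarith
    have h1t : 1 / t = Λ * (1 / r) := by rw [ht]; field_simp
    have h2m' : 56 * Λ / 2 ^ m ≤ 56 * (Λ * (1 / r)) := by
      have : 1 / 2 ^ m ≤ 1 / r := by
        rw [← hrr]
        apply one_div_le_one_div_of_le hrpos
        nlinarith
      calc 56 * Λ / 2 ^ m = 56 * (Λ * (1 / 2 ^ m)) := by ring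
        _ ≤ _ := by
          apply mul_le_mul_of_nonneg_left _ (by norm_num)
          exact mul_le_mul_of_nonneg_left this hΛ.le
    have hcm : cm m = (66 + 3 * m) * (1 / r) := by
      unfold cm
      rw [hr, div_pow, one_pow]
    have hΛr : 0 < Λ * (1 / r) := by positivity
    calc _ ≤ 1 / t + ((1 / t) * (Real.log c - 1) + 56 * Λ / 2 ^ m) := by linarith
      _ = (1 / t) * Real.log c + 56 * Λ / 2 ^ m := by ring
      _ ≤ Λ * (1 / r) * (2 + 8 + Real.log K + 3 * m) + 56 * (Λ * (1 / r)) := by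
          rw [h1t]
          have := mul_le_mul_of_nonneg_left hlogc hΛr.le
          linarith
      _ = Λ * (1 / r) * (66 + 3 * m + Real.log K) := by ring
      _ ≤ Λ * (1 / r) * ((66 + 3 * m) * (1 + Real.log K)) := by
          apply mul_le_mul_of_nonneg_left _ hΛr.le
          have hm : (0:ℝ) ≤ m := Nat.cast_nonneg m
          nlinarith [mul_nonneg hm hlogK]
      _ = _ := by rw [hcm]; ring

lemma cm_nonneg (m : ℕ) : 0 ≤ cm m := by unfold cm; positivity

lemma summable_cm : Summable cm := by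
  have hs : ‖(1 / Real.sqrt 2 : ℝ)‖ < 1 := by
    rw [Real.norm_eq_abs, abs_of_pos (by positivity), div_lt_one (by positivity)]
    rw [Real.lt_sqrt (by norm_num)]; norm_num
  have h1 : Summable (fun m : ℕ => (1 / Real.sqrt 2 : ℝ) ^ m) :=
    summable_geometric_of_norm_lt_one hs
  have h2 : Summable (fun m : ℕ => (m : ℝ) ^ 1 * (1 / Real.sqrt 2 : ℝ) ^ m) :=
    summable_pow_mul_geometric_of_norm_lt_one 1 hs
  have : cm = fun m : ℕ => 66 * (1 / Real.sqrt 2 : ℝ) ^ m +
      3 * ((m : ℝ) ^ 1 * (1 / Real.sqrt 2 : ℝ) ^ m) := by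
    funext m
    unfold cm; ring
  rw [this]
  exact (h1.mul_left 66).add (h2.mul_left 3)

/-- harmonic type sum -/
lemma sum_inv_le (K : ℕ) (hK : 1 ≤ K) (p : ℝ) :
    ∑ k ∈ Finset.range K, (max 1 |(k : ℝ) - p|)⁻¹ ≤ 6 * (1 + Real.log K) := by
  set j : ℤ := ⌊p⌋ with hj
  set jn : ℕ := min j.toNat K with hjn
  have hp1 : (j : ℝ) ≤ p := Int.floor_le p
  have hp2 : p < j + 1 := Int.lt_floor_add_one p
  -- termwise bound
  have hH : ∀ n : ℕ, n ≤ K → ∑ k ∈ Finset.range n, (1 / ((k : ℝ) + 1)) ≤ 1 + Real.log K := by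
    intro n hn
    have h1 : ∑ k ∈ Finset.range n, (1 / ((k : ℝ) + 1)) ≤
        ∑ k ∈ Finset.range K, (1 / ((k : ℝ) + 1)) := by
      apply Finset.sum_le_sum_of_subset_of_nonneg
      · exact Finset.range_mono hn
      · intro k _ _; positivity
    have h2 := harmonic_le_one_add_log K
    have h3 : ((harmonic K : ℚ) : ℝ) = ∑ k ∈ Finset.range K, (1 / ((k : ℝ) + 1)) := by
      unfold harmonic
      push_cast
      apply Finset.sum_congr rfl
      intro k _
      rw [one_div]
    rw [h3] at h2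
    linarith
  have hA : ∀ k ∈ Finset.range K, jn ≤ k →
      (max 1 |(k : ℝ) - p|)⁻¹ ≤ 3 * (1 / (((k - jn : ℕ) : ℝ) + 1)) := by
    intro k hk hle
    have hkK := Finset.mem_range.mp hk
    have hb : ((k - jn : ℕ) : ℝ) ≤ |(k : ℝ) - p| + 1 := by
      rw [Nat.cast_sub hle]
      have : (j : ℝ) ≤ jn := by
        have h1 : jn = j.toNat := by
          rcases le_total j.toNat K with h | h
          · rw [hjn, min_eq_left h]
          · rw [hjn, min_eq_right h] at hle
            omega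
        rw [h1]
        have := Int.self_le_toNat j
        exact_mod_cast this
      have := le_abs_self ((k : ℝ) - p)
      linarith
    have hmax : ((k - jn : ℕ) : ℝ) + 1 ≤ 3 * max 1 |(k : ℝ) - p| := by
      have m1 := le_max_left 1 |(k : ℝ) - p|
      have m2 := le_max_right 1 |(k : ℝ) - p|
      linarith
    rw [mul_one_div, inv_eq_one_div, div_le_div_iff₀ (by positivity) (by positivity)]
    linarith
  have hB : ∀ k ∈ Finset.range K, k < jn →
      (max 1 |(k : ℝ) - p|)⁻¹ ≤ 3 * (1 / (((jn - 1 - k : ℕ) : ℝ) + 1)) := by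
    intro k hk hlt
    have hb : ((jn - 1 - k : ℕ) : ℝ) ≤ |(k : ℝ) - p| + 1 := by
      have h1 : ((jn - 1 - k : ℕ) : ℝ) = (jn : ℝ) - 1 - k := by
        rw [Nat.cast_sub (by omega), Nat.cast_sub (by omega)]; simp
      rw [h1]
      have h2 : jn ≤ j.toNat := min_le_left _ _
      have h3 : (j.toNat : ℤ) = j := by
        apply Int.toNat_of_nonneg
        by_contra hcon
        push Not at hcon
        have : j.toNat = 0 := Int.toNat_of_nonpos hcon.le
        omega
      have h4 : (jn : ℝ) ≤ j := by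
        have : (jn : ℤ) ≤ j := by rw [← h3]; exact_mod_cast h2
        exact_mod_cast this
      have := neg_abs_le ((k : ℝ) - p)
      linarith
    have hmax : ((jn - 1 - k : ℕ) : ℝ) + 1 ≤ 3 * max 1 |(k : ℝ) - p| := by
      have m1 := le_max_left 1 |(k : ℝ) - p|
      have m2 := le_max_right 1 |(k : ℝ) - p|
      linarith
    rw [mul_one_div, inv_eq_one_div, div_le_div_iff₀ (by positivity) (by positivity)]
    linarith
  have hjnK : jn ≤ K := min_le_right _ _
  have hsplit : ∑ k ∈ Finset.range K, (max 1 |(k : ℝ) - p|)⁻¹ =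
      ∑ k ∈ Finset.range jn, (max 1 |(k : ℝ) - p|)⁻¹ +
      ∑ k ∈ Finset.Ico jn K, (max 1 |(k : ℝ) - p|)⁻¹ := by
    rw [Finset.sum_range_add_sum_Ico _ hjnK]
  rw [hsplit]
  have s1 : ∑ k ∈ Finset.range jn, (max 1 |(k : ℝ) - p|)⁻¹ ≤ 3 * (1 + Real.log K) := by
    calc _ ≤ ∑ k ∈ Finset.range jn, 3 * (1 / (((jn - 1 - k : ℕ) : ℝ) + 1)) := by
          apply Finset.sum_le_sum
          intro k hk
          have hk' := Finset.mem_range.mp hk
          exact hB k (Finset.mem_range.mpr (by omega)) hk'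
      _ = ∑ k ∈ Finset.range jn, 3 * (1 / ((k : ℝ) + 1)) :=
          Finset.sum_range_reflect (fun k => 3 * (1 / ((k : ℝ) + 1))) jn
      _ = 3 * ∑ k ∈ Finset.range jn, (1 / ((k : ℝ) + 1)) := by rw [Finset.mul_sum]
      _ ≤ _ := mul_le_mul_of_nonneg_left (hH jn hjnK) (by norm_num)
  have s2 : ∑ k ∈ Finset.Ico jn K, (max 1 |(k : ℝ) - p|)⁻¹ ≤ 3 * (1 + Real.log K) := by
    calc _ ≤ ∑ k ∈ Finset.Ico jn K, 3 * (1 / (((k - jn : ℕ) : ℝ) + 1)) := by
          apply Finset.sum_le_sum
          intro k hk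
          have hk' := Finset.mem_Ico.mp hk
          exact hA k (Finset.mem_range.mpr hk'.2) hk'.1
      _ = ∑ k ∈ Finset.range (K - jn), 3 * (1 / ((k : ℝ) + 1)) := by
          rw [Finset.sum_Ico_eq_sum_range]
          apply Finset.sum_congr rfl
          intro k _
          rw [Nat.add_sub_cancel_left]
      _ = 3 * ∑ k ∈ Finset.range (K - jn), (1 / ((k : ℝ) + 1)) := by rw [Finset.mul_sum]
      _ ≤ _ := mul_le_mul_of_nonneg_left (hH _ (Nat.sub_le _ _)) (by norm_num)
  linarith

end Pool.Agent.LegRe
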