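import Pool.Agent.LegRe.Mono
import Pool.Agent.LegRe.Prob

/-! Kernel estimates for step functions on a cell. -/

namespace Pool.Agent.LegRe

open MeasureTheory Set ENNReal Filter Topology

/-- A step function with `K` equal slots on `[a, a+ℓ)`. -/
noncomputable def cellFn (a ℓ : ℝ) (K : ℕ) (φ : Fin K → ℝ) (y : ℝ) : ℝ :=
  ∑ k : Fin K, φ k * ind (a + (k : ℝ) * (ℓ / K)) (a + ((k : ℝ) + 1) * (ℓ / K)) y

lemma integrable_cellFn (a ℓ : ℝ) (K : ℕ) (φ : Fin K → ℝ) : Integrable (cellFn a ℓ K φ) mu := by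
  unfold cellFn
  exact integrable_finset_sum _ fun k _ => (integrable_ind _ _).const_mul _

lemma S_cellFn (n : ℕ) (a ℓ : ℝ) (K : ℕ) (φ : Fin K → ℝ) (x : ℝ) :
    S n (cellFn a ℓ K φ) x = ∑ k : Fin K, φ k *
      S n (ind (a + (k : ℝ) * (ℓ / K)) (a + ((k : ℝ) + 1) * (ℓ / K))) x := by
  unfold cellFn
  rw [S_sum n Finset.univ _ (fun k _ => (integrable_ind _ _).const_mul _)]
  apply Finset.sum_congr rfl
  intro k _
  rw [S_const_mul]

lemma K_pos_of_fin {K : ℕ} (k : Fin K) : (0:ℝ) < K := by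
  have : 0 < K := lt_of_le_of_lt (Nat.zero_le _) k.2
  exact_mod_cast this

lemma slot_facts {a ℓ : ℝ} {K : ℕ} (hℓ : 0 < ℓ) (k : Fin K) : a ≤ a + (k : ℝ) * (ℓ / K) ∧
    a + (k : ℝ) * (ℓ / K) < a + ((k : ℝ) + 1) * (ℓ / K) ∧ a + ((k : ℝ) + 1) * (ℓ / K) ≤ a + ℓ ∧
    (a + ((k : ℝ) + 1) * (ℓ / K)) - (a + (k : ℝ) * (ℓ / K)) = ℓ / K := by
  have hK : (0:ℝ) < K := K_pos_of_fin k
  have hσ : 0 < ℓ / K := by positivity
  have hk0 : (0:ℝ) ≤ (k : ℕ) := Nat.cast_nonneg _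
  have hk1 : ((k : ℕ) : ℝ) + 1 ≤ K := by
    have : (k : ℕ) + 1 ≤ K := k.2
    exact_mod_cast this
  refine ⟨by nlinarith [mul_nonneg hk0 hσ.le], by nlinarith, ?_, by ring⟩
  have : ((k : ℝ) + 1) * (ℓ / K) ≤ K * (ℓ / K) := mul_le_mul_of_nonneg_right hk1 hσ.le
  have e : K * (ℓ / K) = ℓ := by field_simp
  linarith

lemma sum_mul_le {K : ℕ} (φ κ : Fin K → ℝ) {M : ℝ} (h : ∀ k, |κ k| ≤ M) :
    |∑ k, φ k * κ k| ≤ (∑ k, |φ k|) * M := by
  refine (Finset.abs_sum_le_sum_abs _ _).trans ?_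
  rw [Finset.sum_mul]
  apply Finset.sum_le_sum
  intro k _
  rw [abs_mul]
  exact mul_le_mul_of_nonneg_left (h k) (abs_nonneg _)

lemma cell_c1 {n : ℕ} {a ℓ x δ W : ℝ} {K : ℕ} (φ : Fin K → ℝ) (hℓ : 0 < ℓ)
    (hx : x ∈ Ioo (-1 : ℝ) 1) (ha : -1 < a) (hb : a + ℓ < 1) (hδ : 0 < δ)
    (hd : ∀ y ∈ Icc a (a + ℓ), δ ≤ |x - y|) (hW : ∀ y ∈ Icc a (a + ℓ), w y ≤ W) :
    |S n (cellFn a ℓ K φ) x| ≤ (∑ k, |φ k|) * ((w x * W) * (ℓ / K / δ)) := by
  rw [S_cellFn]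
  apply sum_mul_le
  intro k
  obtain ⟨f1, f2, f3, f4⟩ := slot_facts (a := a) hℓ k
  rw [S_ind n (by linarith) f2.le (by linarith)]
  have := integral_K_dist (n := n) (W := W) hx hδ f2.le (by linarith) (by linarith)
    (fun y hy => hd y ⟨by linarith [hy.1], by linarith [hy.2]⟩)
    (fun y hy => hW y ⟨by linarith [hy.1], by linarith [hy.2]⟩)
  rwa [f4] at this

lemma cell_c3 {n : ℕ} {a ℓ x δ W : ℝ} {K : ℕ} (φ : Fin K → ℝ) (hℓ : 0 < ℓ)
    (hx : x ∈ Ioo (-1 : ℝ) 1) (ha : -1 < a) (hb : a + ℓ < 1) (hδ : 0 < δ)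
    (hd : ∀ y ∈ Icc a (a + ℓ), δ ≤ |x - y|) (hW : ∀ y ∈ Icc a (a + ℓ), w y ≤ W) :
    |S n (cellFn a ℓ K φ) x| ≤ (∑ k, |φ k|) * (6 * (w x * W) / ((n + 1) * δ)) := by
  rw [S_cellFn]
  apply sum_mul_le
  intro k
  obtain ⟨f1, f2, f3, f4⟩ := slot_facts (a := a) hℓ k
  rw [S_ind n (by linarith) f2.le (by linarith)]
  apply integral_K_far hx hδ f2.le (by linarith) (by linarith)
  · intro y hy; exact hd y ⟨by linarith [hy.1], by linarith [hy.2]⟩
  · intro y hy; exact hW y ⟨by linarith [hy.1], by linarith [hy.2]⟩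

lemma slot_lip {n d : ℕ} {x c e W : ℝ} (hx1 : x ∈ Ioo (-1 : ℝ) 1) (hce : c ≤ e)
    (hc : -1 < c) (he : e < 1) (hW : ∀ y ∈ Icc c e, w y ≤ W) :
    |S (n + d) (ind c e) x - S n (ind c e) x| ≤ (d * (w x * W)) * (e - c) := by
  rw [S_ind _ hc.le hce he.le, S_ind _ hc.le hce he.le]
  rw [← intervalIntegral.integral_sub ((continuous_K _ x).intervalIntegrable _ _)
    ((continuous_K _ x).intervalIntegrable _ _)]
  have hb : ∀ y ∈ Icc c e, |K (n + d) x y - K n x y| ≤ d * (w x * W) := by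
    intro y hy
    have hy1 : y ∈ Ioo (-1 : ℝ) 1 := ⟨by linarith [hy.1], by linarith [hy.2]⟩
    refine (K_sub_le n d hx1 hy1).trans ?_
    apply mul_le_mul_of_nonneg_left _ (by positivity)
    exact mul_le_mul_of_nonneg_left (hW y hy) (w_nonneg x)
  calc |∫ y in c..e, (K (n + d) x y - K n x y)| ≤ ∫ y in c..e, |K (n + d) x y - K n x y| :=
        intervalIntegral.abs_integral_le_integral_abs hce
    _ ≤ ∫ _ in c..e, d * (w x * W) := by
        apply intervalIntegral.integral_mono_on hce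
        · exact (((continuous_K _ x).sub (continuous_K _ x)).abs).intervalIntegrable _ _
        · exact intervalIntegrable_const
        · exact hb
    _ = _ := by rw [intervalIntegral.integral_const]; simp; ring

lemma cell_c2 {n d : ℕ} {a ℓ x W : ℝ} {K : ℕ} (φ : Fin K → ℝ) (hℓ : 0 < ℓ)
    (hx : x ∈ Ioo (-1 : ℝ) 1) (ha : -1 < a) (hb : a + ℓ < 1)
    (hW : ∀ y ∈ Icc a (a + ℓ), w y ≤ W) :
    |S (n + d) (cellFn a ℓ K φ) x - S n (cellFn a ℓ K φ) x| ≤
      (∑ k, |φ k|) * ((d * (w x * W)) * (ℓ / K)) := by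
  rw [S_cellFn, S_cellFn, ← Finset.sum_sub_distrib]
  have : ∀ k : Fin K, φ k * S (n + d) (ind (a + (k : ℝ) * (ℓ / K)) (a + ((k : ℝ) + 1) * (ℓ / K))) x -
      φ k * S n (ind (a + (k : ℝ) * (ℓ / K)) (a + ((k : ℝ) + 1) * (ℓ / K))) x =
      φ k * (S (n + d) (ind (a + (k : ℝ) * (ℓ / K)) (a + ((k : ℝ) + 1) * (ℓ / K))) x -
        S n (ind (a + (k : ℝ) * (ℓ / K)) (a + ((k : ℝ) + 1) * (ℓ / K))) x) := by
    intro k; ring
  rw [Finset.sum_congr rfl fun k _ => this k]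
  apply sum_mul_le
  intro k
  obtain ⟨f1, f2, f3, f4⟩ := slot_facts (a := a) hℓ k
  have := slot_lip (n := n) (d := d) (W := W) hx f2.le (by linarith) (by linarith)
    (fun y hy => hW y ⟨by linarith [hy.1], by linarith [hy.2]⟩)
  rwa [f4] at this

lemma cell_near {n : ℕ} {a ℓ x W : ℝ} {K : ℕ} (φ : Fin K → ℝ) (hℓ : 0 < ℓ)
    (hx : x ∈ Ioo (-1 : ℝ) 1) (ha : -1 < a) (hb : a + ℓ < 1)
    (hW : ∀ y ∈ Icc a (a + ℓ), w y ≤ W) :
    |S n (cellFn a ℓ K φ) x| ≤ ∑ k : Fin K, |φ k| * (28 * (w x * W) *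
      (max 1 |((k : ℕ) : ℝ) - (x - a) / (ℓ / K)|)⁻¹) := by
  rw [S_cellFn]
  refine (Finset.abs_sum_le_sum_abs _ _).trans ?_
  apply Finset.sum_le_sum
  intro k _
  rw [abs_mul]
  apply mul_le_mul_of_nonneg_left _ (abs_nonneg _)
  obtain ⟨f1, f2, f3, f4⟩ := slot_facts (a := a) hℓ k
  have hK : (0:ℝ) < K := K_pos_of_fin k
  have hσ : 0 < ℓ / K := by positivity
  set σ : ℝ := ℓ / K with hσdef
  set p : ℝ := (x - a) / σ with hp
  have hW0 : 0 ≤ W := (w_nonneg a).trans (hW a ⟨le_rfl, by linarith⟩)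
  have hw0 := w_nonneg x
  have hA : 0 ≤ w x * W := by positivity
  have hWs : ∀ y ∈ Icc (a + (k : ℝ) * σ) (a + ((k : ℝ) + 1) * σ), w y ≤ W :=
    fun y hy => hW y ⟨by linarith [hy.1], by linarith [hy.2]⟩
  rw [S_ind n (by linarith) f2.le (by linarith)]
  have hxp : x = a + p * σ := by rw [hp]; field_simp; ring
  rcases lt_or_ge |((k : ℕ) : ℝ) - p| 2 with h | h
  · have b0 := integral_K_le (n := n) hx f2.le (by linarith) (by linarith) hWs
    have : (1/2 : ℝ) ≤ (max 1 |((k : ℕ) : ℝ) - p|)⁻¹ := by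
      rw [le_inv_comm₀ (by norm_num) (by positivity)]
      apply max_le (by norm_num)
      linarith
    calc _ ≤ 14 * (w x * W) := b0
      _ = 28 * (w x * W) * (1/2) := by ring
      _ ≤ _ := mul_le_mul_of_nonneg_left this (by positivity)
  · set r : ℝ := |((k : ℕ) : ℝ) - p| with hr
    have hmax : max 1 r = r := max_eq_right (by linarith)
    rw [hmax]
    have hδ : 0 < σ * (r / 2) := by positivity
    have hdist : ∀ y ∈ Icc (a + (k : ℝ) * σ) (a + ((k : ℝ) + 1) * σ), σ * (r / 2) ≤ |x - y| := by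
      intro y hy
      have h1 : |x - y| ≥ σ * (r - 1) := by
        rcases abs_cases (((k : ℕ) : ℝ) - p) with ⟨e, he⟩ | ⟨e, he⟩
        · have hr' : r = (k : ℝ) - p := by rw [hr, e]
          have : y - x ≥ σ * (r - 1) := by
            rw [hr', hxp]
            have := hy.1
            nlinarith
          have := neg_le_abs (x - y)
          linarith
        · have hr' : r = p - (k : ℝ) := by rw [hr, e]; ring
          have : x - y ≥ σ * (r - 1) := by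
            rw [hr', hxp]
            have := hy.2
            nlinarith
          have := le_abs_self (x - y)
          linarith
      have h2 : r / 2 ≤ r - 1 := by linarith
      have := mul_le_mul_of_nonneg_left h2 hσ.le
      linarith
    have b1 := integral_K_dist (n := n) hx hδ f2.le (by linarith) (by linarith) hdist hWs
    rw [f4] at b1
    refine b1.trans ?_
    have e1 : σ / (σ * (r / 2)) = 2 * r⁻¹ := by
      have : r ≠ 0 := by linarith
      field_simp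
    rw [e1]
    have : 0 ≤ r⁻¹ := by positivity
    nlinarith [mul_nonneg hA this]

end Pool.Agent.LegRe
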