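import Mathlib

/-! Greedy choice of the pulses. -/

namespace Pool.Agent.LegRe

open Set Finset

lemma greedy_exists {K : ℕ} (hK : 0 < K) {γ A B2 : ℝ} (hγ : 0 < γ) (hA : 0 ≤ A) (hAγ : 2 * A ≤ γ)
    (v g u : ℕ → ℝ) (hg : ∀ q, v q ≤ g q ∧ g q ≤ v q + A) (huv : ∀ q n, γ ≤ v q - u n)
    (hB : ∀ q n, v q - u n ≤ B2) :
    ∃ t o : ℕ → ℕ, o 0 = 0 ∧ (∀ q, o (q + 1) = o q + t q) ∧ (∀ q, (t q : ℝ) ≤ K * A / γ) ∧
      (∀ q, (t q : ℝ) ≤ K / 2) ∧
      (∀ q, ∑ j ∈ range (t q), (v q - u (o q + j)) ≤ (K - t q) * (g q - v q)) ∧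
      (∀ q, (K - t q) * (g q - v q) - (A + B2) ≤ ∑ j ∈ range (t q), (v q - u (o q + j))) := by
  classical
  -- the greedy choice given the offset
  set Pq : ℕ → ℕ → ℕ → Prop := fun q o t =>
    ∑ j ∈ range t, (v q - u (o + j)) ≤ (K - t) * (g q - v q) with hPq
  set T : ℕ → ℕ → ℕ := fun q o => Nat.findGreatest (Pq q o) K with hT
  have hP0 : ∀ q o, Pq q o 0 := by
    intro q o
    simp only [hPq, range_zero, sum_empty, Nat.cast_zero, sub_zero]
    have := (hg q).1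
    have hK' : (0:ℝ) ≤ K := Nat.cast_nonneg _
    nlinarith
  have hPT : ∀ q o, Pq q o (T q o) := fun q o =>
    Nat.findGreatest_spec (P := Pq q o) (Nat.zero_le K) (hP0 q o)
  have hTK : ∀ q o, T q o ≤ K := fun q o => Nat.findGreatest_le K
  have hTbd : ∀ q o, (T q o : ℝ) * γ ≤ K * A := by
    intro q o
    have h1 : Pq q o (T q o) := hPT q o
    simp only [hPq] at h1
    have h2 : (T q o : ℝ) * γ ≤ ∑ j ∈ range (T q o), (v q - u (o + j)) := by
      calc (T q o : ℝ) * γ = ∑ _j ∈ range (T q o), γ := by simp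
        _ ≤ _ := sum_le_sum fun j _ => huv q _
    have h3 : ((K : ℝ) - T q o) * (g q - v q) ≤ K * A := by
      have a1 := (hg q).1
      have a2 := (hg q).2
      have a3 : (T q o : ℝ) ≤ K := by exact_mod_cast hTK q o
      have a4 : (0:ℝ) ≤ T q o := Nat.cast_nonneg _
      calc ((K : ℝ) - T q o) * (g q - v q) ≤ (K - 0) * A := by
            apply mul_le_mul <;> linarith
        _ = K * A := by ring
    linarith
  have hKpos : (0:ℝ) < K := by exact_mod_cast hK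
  have hThalf : ∀ q o, (T q o : ℝ) ≤ K / 2 := by
    intro q o
    have h1 := hTbd q o
    have h2 : (K:ℝ) * A ≤ K / 2 * γ := by nlinarith
    have h3 : (T q o : ℝ) * γ ≤ K / 2 * γ := h1.trans h2
    exact le_of_mul_le_mul_right h3 hγ
  have hTlt : ∀ q o, T q o < K := by
    intro q o
    have := hThalf q o
    have : (T q o : ℝ) < K := by linarith
    exact_mod_cast this
  have hmax : ∀ q o, (K - (T q o : ℝ)) * (g q - v q) - (A + B2) ≤
      ∑ j ∈ range (T q o), (v q - u (o + j)) := by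
    intro q o
    have h1 : ¬ Pq q o (T q o + 1) :=
      Nat.findGreatest_is_greatest (P := Pq q o) (Nat.lt_succ_self _) (hTlt q o)
    simp only [hPq, not_le] at h1
    rw [sum_range_succ] at h1
    push_cast at h1
    have a1 := (hg q).1
    have a2 := (hg q).2
    have a3 := hB q (o + T q o)
    nlinarith
  -- define offsets by recursion
  set o : ℕ → ℕ := fun q => Nat.rec 0 (fun q oq => oq + T q oq) q with ho
  refine ⟨fun q => T q (o q), o, rfl, fun q => rfl, ?_, ?_, ?_, ?_⟩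
  · intro q
    rw [le_div_iff₀ hγ]; exact hTbd q (o q)
  · intro q; exact hThalf q (o q)
  · intro q; exact hPT q (o q)
  · intro q; exact hmax q (o q)

/-- the pulse vector -/
lemma pulse_vec {K t : ℕ} (hK : 0 < K) (ht : (t : ℝ) ≤ K / 2) (f : ℕ → ℝ) (hf : ∀ j, j < t → 0 ≤ f j)
    {A h : ℝ} (h0 : 0 ≤ h) (hA : h ≤ A) (hsum : ∑ j ∈ range t, f j ≤ (K - t) * h) {E : ℝ}
    (hsum2 : (K - t) * h - E ≤ ∑ j ∈ range t, f j) (hE : 0 ≤ E) :
    ∃ (c : ℝ) (ψ : Fin K → ℝ), (∀ k : Fin K, (k : ℕ) < t → ψ k = - f k) ∧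
      (∀ k : Fin K, t ≤ (k : ℕ) → ψ k = c) ∧ ∑ k, ψ k = 0 ∧ ∑ k, |ψ k| ≤ 2 * A * K ∧
      0 ≤ c ∧ c ≤ h ∧ h - 2 * E / K ≤ c := by
  have hKpos : (0:ℝ) < K := by exact_mod_cast hK
  have htK : t < K := by
    have : (t:ℝ) < K := by linarith
    exact_mod_cast this
  have hKt : (0:ℝ) < K - t := by linarith
  set Sg : ℝ := ∑ j ∈ range t, f j with hSg
  have hSg0 : 0 ≤ Sg := sum_nonneg fun j hj => hf j (mem_range.mp hj)
  set c : ℝ := Sg / (K - t) with hc
  have hcm : c * (K - t) = Sg := by rw [hc]; field_simp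
  have hc0 : 0 ≤ c := by positivity
  set F : ℕ → ℝ := fun k => if k < t then - f k else c with hF
  have split : ∀ G : ℕ → ℝ, ∑ k : Fin K, G k = ∑ k ∈ range t, G k + ∑ k ∈ Ico t K, G k := by
    intro G
    rw [Fin.sum_univ_eq_sum_range (fun k => G k) K, sum_range_add_sum_Ico _ htK.le]
  have s1 : ∀ G : ℕ → ℝ, ∀ d : ℝ, (∀ k, t ≤ k → G k = d) → ∑ k ∈ Ico t K, G k = (K - t) * d := by
    intro G d hd
    rw [sum_congr rfl fun k hk => hd k (mem_Ico.mp hk).1]
    rw [sum_const, Nat.card_Ico, nsmul_eq_mul, Nat.cast_sub htK.le]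
  refine ⟨c, fun k => F k, ?_, ?_, ?_, ?_, hc0, ?_, ?_⟩
  · intro k hk; simp [hF, hk]
  · intro k hk; simp [hF, not_lt.mpr hk]
  · rw [split F, s1 F c (fun k hk => by simp [hF, not_lt.mpr hk])]
    have : ∑ k ∈ range t, F k = - Sg := by
      rw [hSg, ← sum_neg_distrib]
      exact sum_congr rfl fun k hk => by simp [hF, mem_range.mp hk]
    rw [this]; linarith
  · rw [split (fun k => |F k|), s1 (fun k => |F k|) c (fun k hk => by
      simp [hF, not_lt.mpr hk, abs_of_nonneg hc0])]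
    have : ∑ k ∈ range t, |F k| = Sg := by
      rw [hSg]
      exact sum_congr rfl fun k hk => by
        have hk' := mem_range.mp hk
        simp only [hF, hk', if_true, abs_neg, abs_of_nonneg (hf k hk')]
    rw [this]
    have ht0 : (0:ℝ) ≤ t := Nat.cast_nonneg _
    have h1 : ((K:ℝ) - t) * h ≤ K * A := by
      apply mul_le_mul <;> linarith
    nlinarith
  · rw [hc, div_le_iff₀ hKt]; linarith
  · have e1 : h * (K - t) - E ≤ c * (K - t) := by rw [hcm]; linarith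
    have e2 : E ≤ 2 * E / K * (K - t) := by
      rw [div_mul_eq_mul_div, le_div_iff₀ hKpos]
      nlinarith
    nlinarith

/-- Assignment of reservoir slots to cells. -/
lemma assign {κ ρ : Type} [Fintype κ] [Fintype ρ] {K : ℕ} (hK : 0 < K) {γ A B2 : ℝ} (hγ : 0 < γ)
    (hA : 0 < A) (hAγ : 2 * A ≤ γ) (v g : κ → ℝ) (u : ρ → ℝ)
    (hg : ∀ i, v i ≤ g i ∧ g i ≤ v i + A) (huv : ∀ i n, γ ≤ v i - u n)
    (hB : ∀ i n, v i - u n ≤ B2) (hB2 : γ ≤ B2)
    (hcard : (Fintype.card κ : ℝ) * (K * A / γ) ≤ Fintype.card ρ) :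
    ∃ (t : κ → ℕ) (slot : (Σ i : κ, Fin (t i)) → ρ) (c : κ → ℝ) (ψ : κ → Fin K → ℝ),
      Function.Injective slot ∧ (∀ i, t i ≤ K) ∧
      (∀ i (j : Fin (t i)) (k : Fin K), (k : ℕ) = j → ψ i k = u (slot ⟨i, j⟩) - v i) ∧
      (∀ i (k : Fin K), t i ≤ (k : ℕ) → ψ i k = c i) ∧
      (∀ i, ∑ k, ψ i k = 0) ∧ (∀ i, ∑ k, |ψ i k| ≤ 2 * A * K) ∧
      (∀ i, 0 ≤ c i) ∧ (∀ i, c i ≤ g i - v i) ∧ (∀ i, g i - v i - 2 * (A + B2) / K ≤ c i) := by
  classical
  set Q := Fintype.card κ with hQ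
  set M := Fintype.card ρ with hM
  let eκ : κ ≃ Fin Q := Fintype.equivFin κ
  let eρ : ρ ≃ Fin M := Fintype.equivFin ρ
  -- trivial case of no cells
  rcases isEmpty_or_nonempty κ with hemp | hne
  · refine ⟨fun _ => 0, fun p => (hemp.false p.1).elim, fun _ => 0, fun _ _ => 0, ?_, ?_, ?_, ?_, ?_,
      ?_, ?_, ?_, ?_⟩
    · intro p; exact (hemp.false p.1).elim
    all_goals intro i; exact (hemp.false i).elim
  obtain ⟨i0⟩ := hne
  set m0 : ℝ := v i0 with hm0
  set vN : ℕ → ℝ := fun q => if h : q < Q then v (eκ.symm ⟨q, h⟩) else m0 with hvN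
  set gN : ℕ → ℝ := fun q => if h : q < Q then g (eκ.symm ⟨q, h⟩) else g i0 with hgN
  -- extension of u: use a value at a slot if there is one
  rcases isEmpty_or_nonempty ρ with hempρ | hneρ
  · exfalso
    have h1 : M = 0 := Fintype.card_eq_zero
    have h2 : 0 < Q := Fintype.card_pos_iff.mpr ⟨i0⟩
    have h3 : (0:ℝ) < Q := by exact_mod_cast h2
    have h4 : (0:ℝ) < K := by exact_mod_cast hK
    rw [h1] at hcard
    have : 0 < (Q:ℝ) * (K * A / γ) := by positivity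
    simp at hcard
    linarith
  obtain ⟨n0⟩ := hneρ
  set uN : ℕ → ℝ := fun n => if h : n < M then u (eρ.symm ⟨n, h⟩) else u n0 with huN
  have hgv : ∀ q, vN q ≤ gN q ∧ gN q ≤ vN q + A := by
    intro q
    simp only [hvN, hgN]
    split_ifs with h
    · exact hg _
    · exact hg _
  have huvN : ∀ q n, γ ≤ vN q - uN n := by
    intro q n
    simp only [hvN, huN]
    split_ifs <;> exact huv _ _
  have hBN : ∀ q n, vN q - uN n ≤ B2 := by
    intro q n
    simp only [hvN, huN]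
    split_ifs <;> exact hB _ _
  obtain ⟨t, o, ho0, hos, ht1, ht2, hs1, hs2⟩ := greedy_exists hK hγ hA.le hAγ vN gN uN hgv huvN hBN
  have homono : Monotone o := monotone_nat_of_le_succ fun q => by rw [hos q]; omega
  have hoQ : ∀ q : ℕ, (o q : ℝ) ≤ q * (K * A / γ) := by
    intro q
    induction q with
    | zero => simp [ho0]
    | succ q ih =>
      rw [hos q]
      push_cast
      have := ht1 q
      linarith
  have hoM : o Q ≤ M := by
    have : (o Q : ℝ) ≤ M := (hoQ Q).trans hcard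
    exact_mod_cast this
  have hlt : ∀ (i : κ) (j : ℕ), j < t (eκ i) → o (eκ i) + j < M := by
    intro i j hj
    have h1 : o ((eκ i : ℕ) + 1) ≤ o Q := homono (eκ i).2
    rw [hos] at h1
    omega
  have hvi : ∀ i, vN (eκ i) = v i := by
    intro i; simp [hvN, (eκ i).2]
  have hgi : ∀ i, gN (eκ i) = g i := by
    intro i; simp [hgN, (eκ i).2]
  have hvec : ∀ i : κ, ∃ (c : ℝ) (ψ : Fin K → ℝ),
      (∀ k : Fin K, (k : ℕ) < t (eκ i) → ψ k = - (vN (eκ i) - uN (o (eκ i) + k))) ∧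
      (∀ k : Fin K, t (eκ i) ≤ (k : ℕ) → ψ k = c) ∧ ∑ k, ψ k = 0 ∧ ∑ k, |ψ k| ≤ 2 * A * K ∧
      0 ≤ c ∧ c ≤ g i - v i ∧ (g i - v i) - 2 * (A + B2) / K ≤ c := by
    intro i
    have h1 := hs1 (eκ i)
    have h2 := hs2 (eκ i)
    rw [hgi i, hvi i] at h1 h2
    rw [hvi i]
    apply pulse_vec hK (ht2 (eκ i)) (fun j => v i - uN (o (eκ i) + j))
    · intro j _
      have := huvN (eκ i) (o (eκ i) + j)
      rw [hvi i] at this
      linarith
    · linarith [(hg i).1]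
    · linarith [(hg i).2]
    · exact h1
    · exact h2
    · linarith
  choose c ψ hψ1 hψ2 hψ3 hψ4 hc1 hc2 hc3 using hvec
  refine ⟨fun i => t (eκ i), fun p => eρ.symm ⟨o (eκ p.1) + p.2, hlt p.1 p.2 p.2.2⟩, c, ψ,
    ?_, ?_, ?_, hψ2, hψ3, hψ4, hc1, hc2, hc3⟩
  · rintro ⟨i, j⟩ ⟨i', j'⟩ h
    have h1 := eρ.symm.injective h
    simp only [Fin.mk.injEq] at h1
    have hi : i = i' := by
      by_contra hne
      have hne' : (eκ i : ℕ) ≠ eκ i' := fun he => hne (eκ.injective (Fin.ext he))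
      rcases lt_or_gt_of_ne hne' with hlt' | hlt'
      · have h2 : o ((eκ i : ℕ) + 1) ≤ o (eκ i') := homono hlt'
        rw [hos] at h2
        have := j.2
        omega
      · have h2 : o ((eκ i' : ℕ) + 1) ≤ o (eκ i) := homono hlt'
        rw [hos] at h2
        have := j'.2
        omega
    subst hi
    have hj : j = j' := Fin.ext (by omega)
    rw [hj]
  · intro i
    have := ht2 (eκ i)
    have h4 : (0:ℝ) ≤ K := Nat.cast_nonneg _
    have : (t (eκ i) : ℝ) ≤ K := by linarith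
    exact_mod_cast this
  · intro i j k hkj
    rw [hψ1 i k (by rw [hkj]; exact j.2), hvi i]
    have : uN (o (eκ i) + k) = u (eρ.symm ⟨o (eκ i) + j, hlt i j j.2⟩) := by
      simp only [huN]
      rw [dif_pos (by rw [hkj]; exact hlt i j j.2)]
      congr 2
      simp [hkj]
    rw [this]; ring

end Pool.Agent.LegRe
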