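import Pool.Agent.LegRe.Maximal

/-! Measure preserving a.e. invertible maps of `([-1,1], mu)`. -/

namespace Pool.Agent.LegRe

open MeasureTheory Set ENNReal Filter Topology

/-- measure-preserving and a.e. invertible maps of `([-1,1], mu)`, as functions on `ℝ` -/
def Iso (u : ℝ → ℝ) : Prop :=
  MeasurePreserving u mu mu ∧ ∃ v : ℝ → ℝ, MeasurePreserving v mu mu ∧
    (∀ᵐ x ∂mu, v (u x) = x) ∧ (∀ᵐ x ∂mu, u (v x) = x)

/-- iterated compositions: `comps e j = e 0 ∘ e 1 ∘ ⋯ ∘ e (j-1)` -/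
def comps (e : ℕ → ℝ → ℝ) : ℕ → ℝ → ℝ
  | 0 => id
  | (j + 1) => comps e j ∘ e j

/-- Lebesgue measure on the subtype `[-1,1]` -/
noncomputable def nuI : Measure (Icc (-1 : ℝ) 1) := (volume : Measure ℝ).comap Subtype.val

end Pool.Agent.LegRe
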