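import Pool.Agent.LegRe.IsoDefs

/-! An a.e. invertible measure preserving map of `[-1,1]` agrees a.e. with a measure preserving
measurable bijection. -/

namespace Pool.Agent.LegRe

open MeasureTheory Set ENNReal Filter Topology

lemma volume_cantorSet : volume cantorSet = 0 := by
  have h0 : volume cantorSet ≤ 1 := by
    calc volume cantorSet ≤ volume (Icc (0:ℝ) 1) := measure_mono cantorSet_subset_unitInterval
      _ = 1 := by simp
  have hfin : volume cantorSet ≠ ∞ := ne_top_of_le_ne_top ENNReal.one_ne_top h0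
  have e1 : (fun x : ℝ => x / 3) '' cantorSet = (fun x : ℝ => x * 3) ⁻¹' cantorSet := by
    ext y
    simp only [mem_image, mem_preimage]
    constructor
    · rintro ⟨x, hx, rfl⟩
      simpa using hx
    · intro hy
      exact ⟨y * 3, hy, by ring⟩
  have e2 : (fun x : ℝ => (2 + x) / 3) '' cantorSet =
      (fun x : ℝ => x * 3) ⁻¹' ((fun x : ℝ => x + (-2)) ⁻¹' cantorSet) := by
    ext y
    simp only [mem_image, mem_preimage]
    constructor
    · rintro ⟨x, hx, rfl⟩
      have : (2 + x) / 3 * 3 + -2 = x := by ring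
      rw [this]; exact hx
    · intro hy
      exact ⟨y * 3 + -2, hy, by ring⟩
  have h1 : volume cantorSet ≤ ENNReal.ofReal (1 / 3) * volume cantorSet +
      ENNReal.ofReal (1 / 3) * volume cantorSet := by
    conv_lhs => rw [cantorSet_eq_union_halves]
    refine (measure_union_le _ _).trans ?_
    rw [e1, e2, Real.volume_preimage_mul_right (by norm_num),
      Real.volume_preimage_mul_right (by norm_num), measure_preimage_add_right]
    norm_num
  have h2 : (volume cantorSet).toReal ≤ (1 / 3) * (volume cantorSet).toReal +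
      (1 / 3) * (volume cantorSet).toReal := by
    have := ENNReal.toReal_mono (by
      exact ENNReal.add_ne_top.mpr ⟨ENNReal.mul_ne_top ENNReal.ofReal_ne_top hfin,
        ENNReal.mul_ne_top ENNReal.ofReal_ne_top hfin⟩) h1
    rwa [ENNReal.toReal_add (ENNReal.mul_ne_top ENNReal.ofReal_ne_top hfin)
      (ENNReal.mul_ne_top ENNReal.ofReal_ne_top hfin), ENNReal.toReal_mul,
      ENNReal.toReal_ofReal (by norm_num)] at this
  have h3 : (volume cantorSet).toReal = 0 := by
    have := ENNReal.toReal_nonneg (a := volume cantorSet)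
    linarith
  rcases (ENNReal.toReal_eq_zero_iff _).mp h3 with h | h
  · exact h
  · exact absurd h hfin

lemma not_countable_cantorSet : ¬ Countable cantorSet := by
  rw [cantorSetEquivNatToBool.countable_iff]
  intro h
  have h1 : Cardinal.mk (ℕ → Bool) ≤ Cardinal.aleph0 := Cardinal.mk_le_aleph0
  simp only [Cardinal.mk_pi, Cardinal.mk_bool, Cardinal.prod_const, Cardinal.mk_nat,
    Cardinal.lift_aleph0, Cardinal.lift_ofNat] at h1
  exact absurd h1 (not_le.mpr (Cardinal.cantor _))

/-- the general construction -/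
theorem exists_equiv_general {X : Type*} [MeasurableSpace X] [StandardBorelSpace X] {ν : Measure X}
    {U V : X → X} (hU : MeasurePreserving U ν ν) (hV : MeasurePreserving V ν ν)
    (hVU : ∀ᵐ x ∂ν, V (U x) = x) {N0 : Set X}
    (hN0 : MeasurableSet N0) (hN0' : ν N0 = 0) (hN0'' : ¬ Countable N0) :
    ∃ ω : X ≃ᵐ X, MeasurePreserving ω ν ν ∧ ∀ᵐ x ∂ν, ω x = U x := by
  classical
  set E : Set X := {x | V (U x) = x} ∩ (N0 ∪ U ⁻¹' N0)ᶜ with hE
  have mE : MeasurableSet E :=
    (measurableSet_eq_fun (hV.measurable.comp hU.measurable) measurable_id).inter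
      (hN0.union (hU.measurable hN0)).compl
  have aeE : ∀ᵐ x ∂ν, x ∈ E := by
    have h1 : ∀ᵐ x ∂ν, x ∉ N0 := measure_eq_zero_iff_ae_notMem.mp hN0'
    have h2 : ∀ᵐ x ∂ν, U x ∉ N0 := hU.quasiMeasurePreserving.ae h1
    filter_upwards [hVU, h1, h2] with x a1 a2 a3
    refine ⟨a1, ?_⟩
    rintro (h | h)
    · exact a2 h
    · exact a3 h
  set E' : Set X := V ⁻¹' E ∩ {y | U (V y) = y} with hE'
  have mE' : MeasurableSet E' :=
    (hV.measurable mE).inter (measurableSet_eq_fun (hU.measurable.comp hV.measurable) measurable_id)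
  have hUE : ∀ x ∈ E, U x ∈ E' := by
    intro x hx
    have h1 : V (U x) = x := hx.1
    refine ⟨?_, ?_⟩
    · change V (U x) ∈ E
      rw [h1]; exact hx
    · change U (V (U x)) = U x
      rw [h1]
  have hVE : ∀ y ∈ E', V y ∈ E := fun y hy => hy.1
  have hN1 : N0 ⊆ Eᶜ := fun x hx hxE => hxE.2 (Or.inl hx)
  have hN2 : N0 ⊆ E'ᶜ := by
    intro y hy hyE
    have h1 : V y ∈ E := hyE.1
    have h2 : U (V y) = y := hyE.2
    apply h1.2
    right
    change U (V y) ∈ N0
    rw [h2]; exact hy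
  have s1 : StandardBorelSpace (Eᶜ : Set X) := mE.compl.standardBorel
  have s2 : StandardBorelSpace (E'ᶜ : Set X) := mE'.compl.standardBorel
  have c1 : ¬ Countable (Eᶜ : Set X) := fun h => hN0'' (by
    have := (Set.countable_coe_iff.mp h).mono hN1
    exact Set.countable_coe_iff.mpr this)
  have c2 : ¬ Countable (E'ᶜ : Set X) := fun h => hN0'' (by
    have := (Set.countable_coe_iff.mp h).mono hN2
    exact Set.countable_coe_iff.mpr this)
  let φ : (Eᶜ : Set X) ≃ᵐ (E'ᶜ : Set X) := PolishSpace.measurableEquivOfNotCountable c1 c2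
  let ψ : E ≃ᵐ E' :=
    { toFun := fun x => ⟨U x, hUE x x.2⟩
      invFun := fun y => ⟨V y, hVE y y.2⟩
      left_inv := fun x => Subtype.ext x.2.1
      right_inv := fun y => Subtype.ext y.2.2
      measurable_toFun := (hU.measurable.comp measurable_subtype_coe).subtype_mk
      measurable_invFun := (hV.measurable.comp measurable_subtype_coe).subtype_mk }
  let ω : X ≃ᵐ X := (MeasurableEquiv.sumCompl mE).symm.trans
    ((MeasurableEquiv.sumCongr ψ φ).trans (MeasurableEquiv.sumCompl mE'))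
  have hω : ∀ x ∈ E, ω x = U x := by
    intro x hx
    have h1 : (MeasurableEquiv.sumCompl mE).symm x = Sum.inl ⟨x, hx⟩ := by
      rw [MeasurableEquiv.symm_apply_eq]
      rfl
    change (MeasurableEquiv.sumCompl mE') ((MeasurableEquiv.sumCongr ψ φ)
      ((MeasurableEquiv.sumCompl mE).symm x)) = U x
    rw [h1]
    rfl
  have hae : ∀ᵐ x ∂ν, ω x = U x := by
    filter_upwards [aeE] with x hx
    exact hω x hx
  refine ⟨ω, ⟨ω.measurable, ?_⟩, hae⟩
  rw [Measure.map_congr hae]
  exact hU.map_eq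

lemma mpv' : MeasurePreserving (Subtype.val : Icc (-1:ℝ) 1 → ℝ) nuI mu := by
  unfold nuI mu
  exact measurePreserving_subtype_coe measurableSet_Icc

lemma mp_projIcc : MeasurePreserving (projIcc (-1:ℝ) 1 (by norm_num)) mu nuI := by
  have hm : Measurable (projIcc (-1:ℝ) 1 (by norm_num)) := continuous_projIcc.measurable
  refine ⟨hm, ?_⟩
  rw [← mpv'.map_eq, Measure.map_map hm measurable_subtype_coe]
  have : (projIcc (-1:ℝ) 1 (by norm_num)) ∘ (Subtype.val : Icc (-1:ℝ) 1 → ℝ) = id := by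
    funext x
    simp [projIcc_val]
  rw [this, Measure.map_id]

theorem Iso.exists_equiv {u : ℝ → ℝ} (hu : Iso u) :
    ∃ ω : Icc (-1 : ℝ) 1 ≃ᵐ Icc (-1 : ℝ) 1, MeasurePreserving ω nuI nuI ∧
      ∀ᵐ x : Icc (-1 : ℝ) 1 ∂nuI, (ω x : ℝ) = u x := by
  obtain ⟨hu1, v, hv1, hvu, -⟩ := hu
  set π : ℝ → Icc (-1:ℝ) 1 := projIcc (-1:ℝ) 1 (by norm_num) with hπ
  set U : Icc (-1:ℝ) 1 → Icc (-1:ℝ) 1 := fun x => π (u x) with hU
  set V : Icc (-1:ℝ) 1 → Icc (-1:ℝ) 1 := fun x => π (v x) with hV
  have hUm : MeasurePreserving U nuI nuI := mp_projIcc.comp (hu1.comp mpv')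
  have hVm : MeasurePreserving V nuI nuI := mp_projIcc.comp (hv1.comp mpv')
  have hmem : ∀ᵐ x ∂mu, x ∈ Icc (-1:ℝ) 1 := ae_restrict_mem measurableSet_Icc
  have hπv : ∀ x ∈ Icc (-1:ℝ) 1, ((π x : Icc (-1:ℝ) 1) : ℝ) = x := by
    intro x hx
    rw [hπ, projIcc_of_mem _ hx]
  have hUv : ∀ᵐ x : Icc (-1:ℝ) 1 ∂nuI, (U x : ℝ) = u x := by
    have h1 : ∀ᵐ x ∂mu, u x ∈ Icc (-1:ℝ) 1 := hu1.quasiMeasurePreserving.ae hmem
    have h2 := mpv'.quasiMeasurePreserving.ae h1
    filter_upwards [h2] with x hx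
    exact hπv _ hx
  have hVU : ∀ᵐ x ∂nuI, V (U x) = x := by
    have h1 := mpv'.quasiMeasurePreserving.ae hvu
    filter_upwards [hUv, h1] with x a1 a2
    apply Subtype.ext
    simp only [hV]
    rw [a1, a2]
    exact hπv _ x.2
  set N0 : Set (Icc (-1:ℝ) 1) := Subtype.val ⁻¹' cantorSet with hN0
  have hsub : cantorSet ⊆ Icc (-1:ℝ) 1 :=
    cantorSet_subset_unitInterval.trans (Icc_subset_Icc (by norm_num) le_rfl)
  have mC : MeasurableSet cantorSet := isClosed_cantorSet.measurableSet
  have mN0 : MeasurableSet N0 := measurable_subtype_coe mC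
  have nN0 : nuI N0 = 0 := by
    rw [hN0, mpv'.measure_preimage mC.nullMeasurableSet]
    unfold mu
    exact le_antisymm ((Measure.restrict_apply_le _ _).trans volume_cantorSet.le) zero_le
  have cN0 : ¬ Countable N0 := by
    intro h
    apply not_countable_cantorSet
    have h1 : N0.Countable := Set.countable_coe_iff.mp h
    have h2 : (Subtype.val '' N0).Countable := h1.image _
    have h3 : Subtype.val '' N0 = cantorSet := by
      rw [hN0, Subtype.image_preimage_coe, inter_eq_right]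
      exact hsub
    rw [h3] at h2
    exact Set.countable_coe_iff.mpr h2
  obtain ⟨ω, h1, h2⟩ := exists_equiv_general hUm hVm hVU mN0 nN0 cN0
  refine ⟨ω, h1, ?_⟩
  filter_upwards [h2, hUv] with x a1 a2
  rw [a1, a2]

end Pool.Agent.LegRe
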