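import Pool.Agent.LegRe.IsoDefs

/-! Limits of compositions of a.e. invertible measure preserving maps. -/

namespace Pool.Agent.LegRe

open MeasureTheory Set ENNReal Filter Topology

/-- A sequence of measurable maps with summable changes converges a.e. (it is eventually constant). -/
lemma exists_ev_limit (c : ℕ → ℝ → ℝ) (hc : ∀ j, MeasurePreserving (c j) mu mu)
    (hsum : ∑' j, mu {x | c (j + 1) x ≠ c j x} ≠ ∞) :
    ∃ ω : ℝ → ℝ, Measurable ω ∧ ∀ᵐ x ∂mu, ∀ᶠ j in atTop, ω x = c j x := by
  have h1 : ∀ᵐ x ∂mu, ∀ᶠ j in atTop, c (j + 1) x = c j x := by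
    have := measure_setOf_frequently_eq_zero (μ := mu) (p := fun j x => c (j + 1) x ≠ c j x) hsum
    rw [← compl_compl {x | _}, ← mem_ae_iff] at this
    filter_upwards [this] with x hx
    simpa [Filter.Frequently] using hx
  have h2 : ∀ᵐ x ∂mu, ∃ y, ∀ᶠ j in atTop, c j x = y := by
    filter_upwards [h1] with x hx
    obtain ⟨J, hJ⟩ := eventually_atTop.mp hx
    refine ⟨c J x, ?_⟩
    rw [eventually_atTop]
    refine ⟨J, fun j hj => ?_⟩
    induction j, hj using Nat.le_induction with
    | base => rfl
    | succ j hj ih => rw [hJ j hj, ih]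
  have h3 : ∀ᵐ x ∂mu, ∃ l : ℝ, Tendsto (fun n => c n x) atTop (𝓝 l) := by
    filter_upwards [h2] with x hx
    obtain ⟨y, hy⟩ := hx
    exact ⟨y, tendsto_const_nhds.congr' (by filter_upwards [hy] with j hj; rw [hj])⟩
  obtain ⟨ω, hω, hlim⟩ := measurable_limit_of_tendsto_metrizable_ae
    (fun n => (hc n).measurable.aemeasurable) h3
  refine ⟨ω, hω, ?_⟩
  filter_upwards [h2, hlim] with x a1 a2
  obtain ⟨y, hy⟩ := a1
  have h4 : Tendsto (fun n => c n x) atTop (𝓝 y) :=
    tendsto_const_nhds.congr' (by filter_upwards [hy] with j hj; rw [hj])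
  have h5 : ω x = y := tendsto_nhds_unique a2 h4
  filter_upwards [hy] with j hj
  rw [h5, hj]

lemma mp_of_ev_limit {c : ℕ → ℝ → ℝ} (hc : ∀ j, MeasurePreserving (c j) mu mu) {ω : ℝ → ℝ}
    (hω : Measurable ω) (hev : ∀ᵐ x ∂mu, ∀ᶠ j in atTop, ω x = c j x) :
    MeasurePreserving ω mu mu := by
  have key : ∀ s : Set ℝ, MeasurableSet s → mu (ω ⁻¹' s) ≤ mu s := by
    intro s hs
    have hr : Tendsto (fun j => mu {x | ω x ≠ c j x}) atTop (𝓝 0) := by
      -- dominated convergence for indicators
      have hm : ∀ j, MeasurableSet {x | ω x ≠ c j x} := fun j =>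
        (measurableSet_eq_fun hω (hc j).measurable).compl
      have h1 : Tendsto (fun j => ∫⁻ x, ({x | ω x ≠ c j x}.indicator (fun _ => (1:ℝ≥0∞))) x ∂mu)
          atTop (𝓝 (∫⁻ _, 0 ∂mu)) := by
        apply tendsto_lintegral_of_dominated_convergence (fun _ => (1:ℝ≥0∞))
        · intro j
          exact measurable_const.indicator (hm j)
        · intro j
          filter_upwards with x
          by_cases hx : x ∈ {x | ω x ≠ c j x}
          · rw [indicator_of_mem hx]
          · rw [indicator_of_notMem hx]; exact zero_le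
        · rw [lintegral_const, one_mul]
          exact measure_ne_top _ _
        · filter_upwards [hev] with x hx
          apply tendsto_const_nhds.congr'
          filter_upwards [hx] with j hj
          rw [indicator_of_notMem]
          exact fun h => h hj
      rw [lintegral_zero] at h1
      refine h1.congr fun j => ?_
      rw [lintegral_indicator_const (hm j), one_mul]
    have h2 : ∀ j, mu (ω ⁻¹' s) ≤ mu s + mu {x | ω x ≠ c j x} := by
      intro j
      have hsub : ω ⁻¹' s ⊆ (c j ⁻¹' s) ∪ {x | ω x ≠ c j x} := by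
        intro x hx
        by_cases h : ω x = c j x
        · left
          change c j x ∈ s
          rw [← h]; exact hx
        · right; exact h
      calc mu (ω ⁻¹' s) ≤ mu (c j ⁻¹' s) + mu {x | ω x ≠ c j x} :=
            (measure_mono hsub).trans (measure_union_le _ _)
        _ = _ := by rw [(hc j).measure_preimage hs.nullMeasurableSet]
    have h3 : Tendsto (fun j => mu s + mu {x | ω x ≠ c j x}) atTop (𝓝 (mu s + 0)) :=
      hr.const_add _
    rw [add_zero] at h3
    exact ge_of_tendsto' h3 h2
  refine ⟨hω, ?_⟩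
  ext s hs
  rw [Measure.map_apply hω hs]
  apply le_antisymm (key s hs)
  have h1 := key sᶜ hs.compl
  have e1 : mu (ω ⁻¹' s) + mu (ω ⁻¹' sᶜ) = mu univ := by
    rw [preimage_compl]
    exact measure_add_measure_compl (hω hs)
  have e2 : mu s + mu sᶜ = mu univ := measure_add_measure_compl hs
  have hfin : mu sᶜ ≠ ∞ := measure_ne_top _ _
  have h2 : mu s + mu sᶜ ≤ mu (ω ⁻¹' s) + mu sᶜ := by
    rw [e2, ← e1]
    exact add_le_add le_rfl h1
  exact (ENNReal.add_le_add_iff_right hfin).mp h2

/-- compositions in the reverse order: `rcomps v j = v (j-1) ∘ ⋯ ∘ v 0` -/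
def rcomps (v : ℕ → ℝ → ℝ) : ℕ → ℝ → ℝ
  | 0 => id
  | (j + 1) => v j ∘ rcomps v j

theorem exists_iso_limit (e : ℕ → ℝ → ℝ) (he : ∀ j, Iso (e j))
    (hsum : ∑' j, mu {x | e j x ≠ x} ≠ ∞) :
    ∃ ω : ℝ → ℝ, Iso ω ∧ (∀ᵐ x ∂mu, ∀ᶠ j in atTop, ω x = comps e j x) ∧
      mu {x | ω x ≠ x} ≤ ∑' j, mu {x | e j x ≠ x} := by
  choose he1 v hv hve hev using he
  have hc : ∀ j, MeasurePreserving (comps e j) mu mu := by
    intro j
    induction j with
    | zero => exact MeasurePreserving.id _
    | succ j ih => exact ih.comp (he1 j)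
  have hd : ∀ j, MeasurePreserving (rcomps v j) mu mu := by
    intro j
    induction j with
    | zero => exact MeasurePreserving.id _
    | succ j ih => exact (hv j).comp ih
  have hdc : ∀ j, ∀ᵐ x ∂mu, rcomps v j (comps e j x) = x := by
    intro j
    induction j with
    | zero => exact Eventually.of_forall fun x => rfl
    | succ j ih =>
      have h1 := (he1 j).quasiMeasurePreserving.ae ih
      filter_upwards [h1, hve j] with x a1 a2
      change v j (rcomps v j (comps e j (e j x))) = x
      rw [a1, a2]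
  have hcd : ∀ j, ∀ᵐ x ∂mu, comps e j (rcomps v j x) = x := by
    intro j
    induction j with
    | zero => exact Eventually.of_forall fun x => rfl
    | succ j ih =>
      have h1 := (hd j).quasiMeasurePreserving.ae (hev j)
      filter_upwards [h1, ih] with x a1 a2
      change comps e j (e j (v j (rcomps v j x))) = x
      rw [a1, a2]
  have hs1 : ∑' j, mu {x | comps e (j + 1) x ≠ comps e j x} ≠ ∞ := by
    refine ne_top_of_le_ne_top hsum (ENNReal.tsum_le_tsum fun j => measure_mono ?_)
    intro x hx h
    apply hx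
    change comps e j (e j x) = comps e j x
    rw [h]
  have hs2 : ∑' j, mu {x | rcomps v (j + 1) x ≠ rcomps v j x} ≠ ∞ := by
    refine ne_top_of_le_ne_top hsum (ENNReal.tsum_le_tsum fun j => ?_)
    have m1 : MeasurableSet {y : ℝ | v j y ≠ y} :=
      (measurableSet_eq_fun (hv j).measurable measurable_id).compl
    have e1 : {x | rcomps v (j + 1) x ≠ rcomps v j x} = rcomps v j ⁻¹' {y | v j y ≠ y} := rfl
    rw [e1, (hd j).measure_preimage m1.nullMeasurableSet,
      ← (he1 j).measure_preimage m1.nullMeasurableSet]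
    apply measure_mono_ae
    filter_upwards [hve j] with x hx hne h
    apply hne
    change v j (e j x) = e j x
    rw [hx, h]
  obtain ⟨ω, hω, hωe⟩ := exists_ev_limit (comps e) hc hs1
  obtain ⟨ν, hν, hνe⟩ := exists_ev_limit (rcomps v) hd hs2
  have mω := mp_of_ev_limit hc hω hωe
  have mν := mp_of_ev_limit hd hν hνe
  refine ⟨ω, ⟨mω, ν, mν, ?_, ?_⟩, hωe, ?_⟩
  · have h1 := mω.quasiMeasurePreserving.ae hνe
    filter_upwards [hωe, h1, ae_all_iff.mpr hdc] with x a1 a2 a3
    obtain ⟨j, b1, b2⟩ := (a1.and a2).exists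
    rw [b2, b1, a3]
  · have h1 := mν.quasiMeasurePreserving.ae hωe
    filter_upwards [hνe, h1, ae_all_iff.mpr hcd] with x a1 a2 a3
    obtain ⟨j, b1, b2⟩ := (a1.and a2).exists
    rw [b2, b1, a3]
  · calc mu {x | ω x ≠ x} ≤ mu (⋃ j, {x | e j x ≠ x}) := by
          apply measure_mono_ae
          filter_upwards [hωe] with x hx hne
          by_contra hcon
          apply hne
          have h1 : ∀ j, e j x = x := by
            intro j
            by_contra h
            exact hcon (mem_iUnion.mpr ⟨j, h⟩)
          have h2 : ∀ j, comps e j x = x := by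
            intro j
            induction j with
            | zero => rfl
            | succ j ih =>
              change comps e j (e j x) = x
              rw [h1, ih]
          obtain ⟨j, hj⟩ := hx.exists
          rw [hj, h2]
      _ ≤ _ := measure_iUnion_le _

end Pool.Agent.LegRe
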