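import Pool.Agent.LegRe.IsoDefs

/-! Measure-theoretic isomorphisms of `([-1,1], mu)`: partitions, limits, upgrade to Borel
isomorphisms (MP_03befd_an). -/

namespace Pool.Agent.LegRe

open MeasureTheory Set ENNReal Filter Topology

instance instFiniteMu : IsFiniteMeasure mu := by
  unfold mu; infer_instance

theorem ae_mem_I : ∀ᵐ x ∂mu, x ∈ Icc (-1 : ℝ) 1 := by
  unfold mu
  exact ae_restrict_mem measurableSet_Icc

theorem Iso.id : Iso (fun x => x) :=
  ⟨MeasurePreserving.id mu, fun x => x, MeasurePreserving.id mu, by simp, by simp⟩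

theorem Iso.comp {u u' : ℝ → ℝ} (hu : Iso u) (hu' : Iso u') : Iso (u ∘ u') := by
  obtain ⟨hu1, v, hv1, hvu, huv⟩ := hu
  obtain ⟨hu1', v', hv1', hvu', huv'⟩ := hu'
  refine ⟨hu1.comp hu1', v' ∘ v, hv1'.comp hv1, ?_, ?_⟩
  · have h := hu1'.quasiMeasurePreserving.ae hvu
    filter_upwards [h, hvu'] with x h1 h2
    simp only [Function.comp_apply]
    rw [h1, h2]
  · have h := hv1.quasiMeasurePreserving.ae huv'
    filter_upwards [h, huv] with x h1 h2
    simp only [Function.comp_apply]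
    rw [h1, h2]

/-! ### distribution functions -/

/-- distribution function of `mu` on `T` -/
noncomputable def dfun (T : Set ℝ) (x : ℝ) : ℝ := (mu (T ∩ Iic x)).toReal

theorem dfun_mono (T : Set ℝ) : Monotone (dfun T) := by
  intro x y hxy
  unfold dfun
  exact ENNReal.toReal_mono (measure_ne_top mu _)
    (measure_mono (inter_subset_inter_right _ (Iic_subset_Iic.2 hxy)))

theorem dfun_nonneg (T : Set ℝ) (x : ℝ) : 0 ≤ dfun T x := ENNReal.toReal_nonneg

theorem dfun_le (T : Set ℝ) (x : ℝ) : dfun T x ≤ (mu T).toReal :=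
  ENNReal.toReal_mono (measure_ne_top mu _) (measure_mono inter_subset_left)

theorem mu_Ioc_le (x y : ℝ) : mu (Ioc x y) ≤ ENNReal.ofReal (y - x) := by
  unfold mu
  calc volume.restrict (Icc (-1) 1) (Ioc x y) ≤ volume (Ioc x y) := Measure.restrict_apply_le _ _
    _ = ENNReal.ofReal (y - x) := Real.volume_Ioc

theorem dfun_lip (T : Set ℝ) {x y : ℝ} (hxy : x ≤ y) : dfun T y ≤ dfun T x + (y - x) := by
  unfold dfun
  have h1 : T ∩ Iic y ⊆ (T ∩ Iic x) ∪ Ioc x y := by
    rintro z ⟨hz, hzy⟩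
    by_cases h : z ≤ x
    · exact Or.inl ⟨hz, h⟩
    · exact Or.inr ⟨not_le.1 h, hzy⟩
  have h2 : mu (T ∩ Iic y) ≤ mu (T ∩ Iic x) + ENNReal.ofReal (y - x) :=
    (measure_mono h1).trans ((measure_union_le _ _).trans (by gcongr; exact mu_Ioc_le x y))
  have h3 := ENNReal.toReal_mono (by finiteness) h2
  rwa [ENNReal.toReal_add (by finiteness) (by finiteness),
    ENNReal.toReal_ofReal (by linarith)] at h3

theorem dfun_continuous (T : Set ℝ) : Continuous (dfun T) := by
  have : LipschitzWith 1 (dfun T) := by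
    apply LipschitzWith.of_le_add_mul
    intro x y
    simp only [NNReal.coe_one, one_mul]
    rcases le_total x y with h | h
    · have := dfun_mono T h
      have h2 : 0 ≤ dist x y := dist_nonneg
      linarith
    · have := dfun_lip T h
      rw [Real.dist_eq, abs_of_nonneg (by linarith)]
      exact this
  exact this.continuous

theorem dfun_neg_one (T : Set ℝ) : dfun T (-1) = 0 := by
  unfold dfun
  have : mu (T ∩ Iic (-1)) = 0 := by
    apply measure_mono_null inter_subset_right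
    unfold mu
    rw [Measure.restrict_apply measurableSet_Iic]
    apply measure_mono_null (t := Icc (-1 : ℝ) (-1))
    · rintro z ⟨hz, hz1, _⟩
      exact ⟨hz1, hz⟩
    · simp
  rw [this]; rfl

theorem dfun_one (T : Set ℝ) : dfun T 1 = (mu T).toReal := by
  unfold dfun
  congr 1
  apply measure_congr
  filter_upwards [ae_mem_I] with x hx
  change (x ∈ T ∩ Iic 1) = (x ∈ T)
  simp only [mem_inter_iff, mem_Iic, eq_iff_iff, and_iff_left_iff_imp]
  exact fun _ => hx.2

/-- quantile function of `mu` on `T` -/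
noncomputable def rfun (T : Set ℝ) (y : ℝ) : ℝ :=
  sInf {x | x ∈ Icc (-1 : ℝ) 1 ∧ (y ≤ dfun T x ∨ x = 1)}

theorem rfun_set_nonempty (T : Set ℝ) (y : ℝ) :
    ({x | x ∈ Icc (-1 : ℝ) 1 ∧ (y ≤ dfun T x ∨ x = 1)}).Nonempty :=
  ⟨1, ⟨by norm_num, le_refl _⟩, Or.inr rfl⟩

theorem rfun_set_bddBelow (T : Set ℝ) (y : ℝ) :
    BddBelow {x | x ∈ Icc (-1 : ℝ) 1 ∧ (y ≤ dfun T x ∨ x = 1)} :=
  ⟨-1, fun _ hx => hx.1.1⟩

theorem rfun_set_closed (T : Set ℝ) (y : ℝ) :
    IsClosed {x | x ∈ Icc (-1 : ℝ) 1 ∧ (y ≤ dfun T x ∨ x = 1)} :=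
  isClosed_Icc.inter ((isClosed_le continuous_const (dfun_continuous T)).union
    (isClosed_eq continuous_id continuous_const))

theorem rfun_mem (T : Set ℝ) (y : ℝ) :
    rfun T y ∈ {x | x ∈ Icc (-1 : ℝ) 1 ∧ (y ≤ dfun T x ∨ x = 1)} :=
  (rfun_set_closed T y).csInf_mem (rfun_set_nonempty T y) (rfun_set_bddBelow T y)

theorem rfun_mono (T : Set ℝ) : Monotone (rfun T) := by
  intro y y' h
  apply csInf_le_csInf (rfun_set_bddBelow T y) (rfun_set_nonempty T y')
  rintro x ⟨hx, h1 | h1⟩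
  · exact ⟨hx, Or.inl (h.trans h1)⟩
  · exact ⟨hx, Or.inr h1⟩

theorem le_dfun_rfun {T : Set ℝ} {y : ℝ} (hy : y ≤ (mu T).toReal) : y ≤ dfun T (rfun T y) := by
  rcases (rfun_mem T y).2 with h | h
  · exact h
  · rw [h, dfun_one]; exact hy

theorem rfun_le_iff {T : Set ℝ} {y x : ℝ} (hy0 : 0 < y) (hy : y ≤ (mu T).toReal)
    : rfun T y ≤ x ↔ y ≤ dfun T x := by
  constructor
  · intro h
    exact (le_dfun_rfun hy).trans (dfun_mono T h)
  · intro h
    by_cases hx1 : x ≤ 1
    · have hx0 : -1 ≤ x := by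
        by_contra hx
        have := dfun_mono T (not_le.1 hx).le
        rw [dfun_neg_one] at this
        linarith
      exact csInf_le (rfun_set_bddBelow T y) ⟨⟨hx0, hx1⟩, Or.inl h⟩
    · exact (rfun_mem T y).1.2.trans (not_le.1 hx1).le

theorem dfun_rfun {T : Set ℝ} {y : ℝ} (hy0 : 0 < y) (hy : y ≤ (mu T).toReal) :
    dfun T (rfun T y) = y := by
  refine le_antisymm ?_ (le_dfun_rfun hy)
  by_contra h
  push Not at h
  obtain ⟨z, hz, hz'⟩ : ∃ z ∈ Icc (-1 : ℝ) (rfun T y), dfun T z = y := by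
    have := intermediate_value_Icc (rfun_mem T y).1.1 (dfun_continuous T).continuousOn
    have h2 : y ∈ Icc (dfun T (-1)) (dfun T (rfun T y)) := by
      rw [dfun_neg_one]; exact ⟨hy0.le, h.le⟩
    exact this h2
  have h3 : rfun T y ≤ z := (rfun_le_iff hy0 hy).2 hz'.ge
  have h4 : z = rfun T y := le_antisymm hz.2 h3
  rw [← h4, hz'] at h
  exact lt_irrefl _ h

theorem map_rfun (T : Set ℝ) :
    (volume.restrict (Ioc 0 (mu T).toReal)).map (rfun T) = mu.restrict T := by
  have hr : Measurable (rfun T) := (rfun_mono T).measurable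
  have : IsFiniteMeasure ((volume.restrict (Ioc 0 (mu T).toReal)).map (rfun T)) :=
    Measure.isFiniteMeasure_map _ _
  apply Measure.ext_of_Iic
  intro x
  rw [Measure.map_apply hr measurableSet_Iic,
    Measure.restrict_apply (hr measurableSet_Iic), Measure.restrict_apply measurableSet_Iic]
  have h1 : rfun T ⁻¹' Iic x ∩ Ioc 0 (mu T).toReal = Ioc 0 (dfun T x) := by
    ext y
    simp only [mem_inter_iff, mem_preimage, mem_Iic, mem_Ioc]
    constructor
    · rintro ⟨h1, h2, h3⟩
      exact ⟨h2, (rfun_le_iff h2 h3).1 h1⟩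
    · rintro ⟨h1, h2⟩
      have h3 := h2.trans (dfun_le T x)
      exact ⟨(rfun_le_iff h1 h3).2 h2, h1, h3⟩
  rw [h1, Real.volume_Ioc, sub_zero, dfun, ENNReal.ofReal_toReal (measure_ne_top _ _),
    inter_comm]

theorem rfun_dfun_ae (T : Set ℝ) : ∀ᵐ x ∂(mu.restrict T), rfun T (dfun T x) = x := by
  have hr : Measurable (rfun T) := (rfun_mono T).measurable
  have hg : Measurable (dfun T) := (dfun_continuous T).measurable
  have hm : MeasurableSet {x | rfun T (dfun T x) = x} :=
    measurableSet_eq_fun (hr.comp hg) measurable_id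
  rw [← map_rfun, ae_map_iff hr.aemeasurable hm]
  filter_upwards [ae_restrict_mem measurableSet_Ioc] with y hy
  rw [dfun_rfun hy.1 hy.2]

theorem map_dfun (T : Set ℝ) :
    (mu.restrict T).map (dfun T) = volume.restrict (Ioc 0 (mu T).toReal) := by
  have hr : Measurable (rfun T) := (rfun_mono T).measurable
  have hg : Measurable (dfun T) := (dfun_continuous T).measurable
  rw [← map_rfun, Measure.map_map hg hr]
  conv_rhs => rw [← Measure.map_id (μ := volume.restrict (Ioc 0 (mu T).toReal))]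
  apply Measure.map_congr
  filter_upwards [ae_restrict_mem measurableSet_Ioc] with y hy
  exact dfun_rfun hy.1 hy.2

/-- sets of prescribed measure (used to choose contents) -/
theorem exists_slices {T : Set ℝ} (_hT : MeasurableSet T) :
    ∃ g : ℝ → ℝ, Measurable g ∧ ∀ α β : ℝ, 0 ≤ α → α ≤ β → ENNReal.ofReal β ≤ mu T →
      mu (T ∩ g ⁻¹' (Ioc α β)) = ENNReal.ofReal (β - α) := by
  have hg : Measurable (dfun T) := (dfun_continuous T).measurable
  refine ⟨dfun T, hg, fun α β hα hαβ hβ => ?_⟩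
  have h1 : (mu.restrict T).map (dfun T) (Ioc α β) = mu (T ∩ dfun T ⁻¹' (Ioc α β)) := by
    rw [Measure.map_apply hg measurableSet_Ioc, Measure.restrict_apply (hg measurableSet_Ioc),
      inter_comm]
  rw [← h1, map_dfun, Measure.restrict_apply measurableSet_Ioc]
  have h2 : β ≤ (mu T).toReal := by
    have := ENNReal.toReal_mono (measure_ne_top mu T) hβ
    rwa [ENNReal.toReal_ofReal (hα.trans hαβ)] at this
  have h3 : Ioc α β ∩ Ioc 0 (mu T).toReal = Ioc α β := by
    apply inter_eq_left.2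
    intro x hx
    exact ⟨lt_of_le_of_lt hα hx.1, hx.2.trans h2⟩
  rw [h3, Real.volume_Ioc]

/-- transport between two sets of the same measure -/
theorem exists_transport {C D : Set ℝ} (h : mu C = mu D) :
    ∃ s t : ℝ → ℝ, Measurable s ∧ Measurable t ∧ (mu.restrict C).map s = mu.restrict D ∧
      (mu.restrict D).map t = mu.restrict C ∧ (∀ᵐ x ∂(mu.restrict C), t (s x) = x) ∧
      (∀ᵐ x ∂(mu.restrict D), s (t x) = x) := by
  have hr : ∀ T, Measurable (rfun T) := fun T => (rfun_mono T).measurable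
  have hg : ∀ T, Measurable (dfun T) := fun T => (dfun_continuous T).measurable
  have key : ∀ {C D : Set ℝ}, mu C = mu D →
      (∀ᵐ x ∂(mu.restrict C), rfun C (dfun D (rfun D (dfun C x))) = x) := by
    intro C D h
    have h1 : ∀ᵐ y ∂(volume.restrict (Ioc 0 (mu C).toReal)), dfun D (rfun D y) = y := by
      filter_upwards [ae_restrict_mem measurableSet_Ioc] with y hy
      exact dfun_rfun hy.1 (h ▸ hy.2)
    have hm : MeasurableSet {y | dfun D (rfun D y) = y} :=
      measurableSet_eq_fun ((hg D).comp (hr D)) measurable_id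
    rw [← map_dfun, ae_map_iff (hg C).aemeasurable hm] at h1
    filter_upwards [h1, rfun_dfun_ae C] with x hx1 hx2
    rw [hx1, hx2]
  refine ⟨rfun D ∘ dfun C, rfun C ∘ dfun D, (hr D).comp (hg C), (hr C).comp (hg D), ?_, ?_,
    key h, key h.symm⟩
  · rw [← Measure.map_map (hr D) (hg C), map_dfun, h, map_rfun]
  · rw [← Measure.map_map (hr C) (hg D), map_dfun, ← h, map_rfun]


/-- countable gluing of transports -/
theorem exists_glue {Λ : Type} [Countable Λ] (P Q : Λ → Set ℝ) (s t : Λ → ℝ → ℝ)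
    (hP : ∀ i, MeasurableSet (P i)) (hQ : ∀ i, MeasurableSet (Q i))
    (hPd : Pairwise (Function.onFun Disjoint P)) (hQd : Pairwise (Function.onFun Disjoint Q))
    (hPU : ⋃ i, P i = univ) (hQU : ⋃ i, Q i = univ)
    (hs : ∀ i, Measurable (s i)) (ht : ∀ i, Measurable (t i))
    (hms : ∀ i, (mu.restrict (P i)).map (s i) = mu.restrict (Q i))
    (hmt : ∀ i, (mu.restrict (Q i)).map (t i) = mu.restrict (P i))
    (hts : ∀ i, ∀ᵐ x ∂(mu.restrict (P i)), t i (s i x) = x)
    (hst : ∀ i, ∀ᵐ x ∂(mu.restrict (Q i)), s i (t i x) = x) :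
    ∃ u : ℝ → ℝ, Iso u ∧ (∀ i, ∀ x ∈ P i, u x = s i x) := by
  -- one-sided construction
  have aux : ∀ (P Q : Λ → Set ℝ) (s : Λ → ℝ → ℝ) (_ : ∀ i, MeasurableSet (P i))
      (_ : ∀ i, MeasurableSet (Q i))
      (_ : Pairwise (Function.onFun Disjoint P)) (_ : Pairwise (Function.onFun Disjoint Q))
      (_ : ⋃ i, P i = univ) (_ : ⋃ i, Q i = univ) (_ : ∀ i, Measurable (s i))
      (_ : ∀ i, (mu.restrict (P i)).map (s i) = mu.restrict (Q i)),
      ∃ u : ℝ → ℝ, MeasurePreserving u mu mu ∧ (∀ i, ∀ x ∈ P i, u x = s i x) := by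
    intro P Q s hP hQ hPd hQd hPU hQU hs hms
    have hx : ∀ x : ℝ, ∃ i, x ∈ P i := fun x => by
      have : x ∈ ⋃ i, P i := hPU ▸ mem_univ x
      exact mem_iUnion.1 this
    choose idx hidx using hx
    have hidx' : ∀ i, ∀ x ∈ P i, idx x = i := by
      intro i x hx
      by_contra h
      exact Set.disjoint_left.1 (hPd h) (hidx x) hx
    have hu : ∀ i, ∀ x ∈ P i, s (idx x) x = s i x := by
      intro i x hx
      rw [hidx' i x hx]
    have hpre : ∀ S : Set ℝ, (fun x => s (idx x) x) ⁻¹' S = ⋃ i, (s i ⁻¹' S ∩ P i) := by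
      intro S
      ext x
      simp only [mem_preimage, mem_iUnion, mem_inter_iff]
      constructor
      · intro h
        exact ⟨idx x, h, hidx x⟩
      · rintro ⟨i, h1, h2⟩
        rw [hu i x h2]; exact h1
    have hmeas : Measurable (fun x => s (idx x) x) := by
      intro S hS
      rw [hpre]
      exact MeasurableSet.iUnion fun i => (hs i hS).inter (hP i)
    refine ⟨fun x => s (idx x) x, ⟨hmeas, ?_⟩, hu⟩
    ext S hS
    rw [Measure.map_apply hmeas hS, hpre, measure_iUnion]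
    · have h1 : ∀ i, mu (s i ⁻¹' S ∩ P i) = mu (S ∩ Q i) := by
        intro i
        have := congrArg (fun m : Measure ℝ => m S) (hms i)
        rwa [Measure.map_apply (hs i) hS, Measure.restrict_apply (hs i hS),
          Measure.restrict_apply hS] at this
      simp_rw [h1]
      rw [← measure_iUnion, ← inter_iUnion, hQU, inter_univ]
      · intro i j hij
        exact (hQd hij).mono inter_subset_right inter_subset_right
      · exact fun i => hS.inter (hQ i)
    · intro i j hij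
      exact (hPd hij).mono inter_subset_right inter_subset_right
    · exact fun i => (hs i hS).inter (hP i)
  obtain ⟨u, hu, hus⟩ := aux P Q s hP hQ hPd hQd hPU hQU hs hms
  obtain ⟨v, hv, hvt⟩ := aux Q P t hQ hP hQd hPd hQU hPU ht hmt
  have fin : ∀ (P Q : Λ → Set ℝ) (s t : Λ → ℝ → ℝ) (u v : ℝ → ℝ)
      (_ : ∀ i, MeasurableSet (P i)) (_ : ∀ i, MeasurableSet (Q i))
      (_ : ⋃ i, P i = univ) (_ : ∀ i, Measurable (s i))
      (_ : ∀ i, (mu.restrict (P i)).map (s i) = mu.restrict (Q i))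
      (_ : ∀ i, ∀ᵐ x ∂(mu.restrict (P i)), t i (s i x) = x)
      (_ : ∀ i, ∀ x ∈ P i, u x = s i x) (_ : ∀ i, ∀ x ∈ Q i, v x = t i x),
      ∀ᵐ x ∂mu, v (u x) = x := by
    intro P Q s t u v hP hQ hPU hs hms hts hus hvt
    rw [← Measure.restrict_univ (μ := mu), ← hPU, ae_restrict_iUnion_iff]
    intro i
    have h1 : ∀ᵐ x ∂(mu.restrict (P i)), s i x ∈ Q i := by
      have : ∀ᵐ y ∂(mu.restrict (Q i)), y ∈ Q i := ae_restrict_mem (hQ i)
      rw [← hms i] at this
      exact ae_of_ae_map (hs i).aemeasurable this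
    filter_upwards [hts i, h1, ae_restrict_mem (hP i)] with x h1 h2 h3
    rw [hus i x h3, hvt i _ h2, h1]
  exact ⟨u, ⟨hu, v, hv, fin P Q s t u v hP hQ hPU hs hms hts hus hvt,
    fin Q P t s v u hQ hP hQU ht hmt hst hvt hus⟩, hus⟩

theorem exists_iso_of_partition {Λ : Type} [Countable Λ] (A B : Λ → Set ℝ)
    (hA : ∀ i, MeasurableSet (A i)) (hB : ∀ i, MeasurableSet (B i))
    (hAd : Pairwise (Function.onFun Disjoint A)) (hBd : Pairwise (Function.onFun Disjoint B))
    (hAB : ∀ i, mu (A i) = mu (B i)) (hU : ⋃ i, A i = ⋃ i, B i) :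
    ∃ u : ℝ → ℝ, Iso u ∧ (∀ i, ∀ᵐ x ∂mu, x ∈ A i → u x ∈ B i) ∧
      (∀ i, ∀ᵐ x ∂mu, x ∈ A i → x ∈ B i → u x = x) ∧
      (∀ᵐ x ∂mu, x ∉ ⋃ i, A i → u x = x) := by
  have hCD : ∀ i, mu (A i \ B i) = mu (B i \ A i) := by
    intro i
    have h1 := measure_inter_add_sdiff (μ := mu) (A i) (hB i)
    have h2 := measure_inter_add_sdiff (μ := mu) (B i) (hA i)
    rw [inter_comm] at h2
    have h3 : mu (A i ∩ B i) + mu (A i \ B i) = mu (A i ∩ B i) + mu (B i \ A i) := by
      rw [h1, h2, hAB i]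
    exact (ENNReal.add_right_inj (measure_ne_top mu _)).1 h3
  choose s t hs ht hms hmt hts hst using fun i => exists_transport (hCD i)
  -- the exceptional piece
  set V : Set ℝ := ⋃ i, (A i \ B i) with hV
  have hVD : V = ⋃ i, (B i \ A i) := by
    apply Subset.antisymm
    · rw [hV]
      apply iUnion_subset
      rintro i x ⟨hx1, hx2⟩
      have : x ∈ ⋃ i, B i := hU ▸ mem_iUnion.2 ⟨i, hx1⟩
      obtain ⟨j, hj⟩ := mem_iUnion.1 this
      refine mem_iUnion.2 ⟨j, hj, fun hA' => ?_⟩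
      have hij : i ≠ j := by rintro rfl; exact hx2 hj
      exact Set.disjoint_left.1 (hAd hij) hx1 hA'
    · apply iUnion_subset
      rintro i x ⟨hx1, hx2⟩
      have : x ∈ ⋃ i, A i := hU ▸ mem_iUnion.2 ⟨i, hx1⟩
      obtain ⟨j, hj⟩ := mem_iUnion.1 this
      refine mem_iUnion.2 ⟨j, hj, fun hB' => ?_⟩
      have hij : i ≠ j := by rintro rfl; exact hx2 hj
      exact Set.disjoint_left.1 (hBd hij) hx1 hB'
  have hVm : MeasurableSet V := MeasurableSet.iUnion fun i => (hA i).diff (hB i)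
  let P : Option Λ → Set ℝ := fun o => o.elim Vᶜ (fun i => A i \ B i)
  let Q : Option Λ → Set ℝ := fun o => o.elim Vᶜ (fun i => B i \ A i)
  let S : Option Λ → ℝ → ℝ := fun o => o.elim (fun x => x) s
  let T : Option Λ → ℝ → ℝ := fun o => o.elim (fun x => x) t
  have hPsub : ∀ i, A i \ B i ⊆ V := fun i => subset_iUnion (fun i => A i \ B i) i
  have hQsub : ∀ i, B i \ A i ⊆ V := fun i => hVD ▸ subset_iUnion (fun i => B i \ A i) i
  have hPd : Pairwise (Function.onFun Disjoint P) := by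
    rintro (_ | i) (_ | j) hij
    · exact absurd rfl hij
    · exact disjoint_compl_left.mono_right (hPsub j)
    · exact disjoint_compl_right.mono_left (hPsub i)
    · have : i ≠ j := fun h => hij (by rw [h])
      exact (hAd this).mono sdiff_subset sdiff_subset
  have hQd : Pairwise (Function.onFun Disjoint Q) := by
    rintro (_ | i) (_ | j) hij
    · exact absurd rfl hij
    · exact disjoint_compl_left.mono_right (hQsub j)
    · exact disjoint_compl_right.mono_left (hQsub i)
    · have : i ≠ j := fun h => hij (by rw [h])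
      exact (hBd this).mono sdiff_subset sdiff_subset
  have hPU : ⋃ o, P o = univ := by
    rw [iUnion_option]
    change Vᶜ ∪ ⋃ i, (A i \ B i) = univ
    rw [← hV, compl_union_self]
  have hQU : ⋃ o, Q o = univ := by
    rw [iUnion_option]
    change Vᶜ ∪ ⋃ i, (B i \ A i) = univ
    rw [← hVD, compl_union_self]
  obtain ⟨u, hu, hus⟩ := exists_glue P Q S T
    (by rintro (_ | i); exacts [hVm.compl, (hA i).diff (hB i)])
    (by rintro (_ | i); exacts [hVm.compl, (hB i).diff (hA i)]) hPd hQd hPU hQU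
    (by rintro (_ | i); exacts [measurable_id, hs i])
    (by rintro (_ | i); exacts [measurable_id, ht i])
    (by rintro (_ | i); exacts [Measure.map_id, hms i])
    (by rintro (_ | i); exacts [Measure.map_id, hmt i])
    (by rintro (_ | i); exacts [ae_of_all _ fun x => rfl, hts i])
    (by rintro (_ | i); exacts [ae_of_all _ fun x => rfl, hst i])
  have hid : ∀ x, x ∉ V → u x = x := fun x hx => hus none x hx
  have hAV : ∀ i, ∀ x ∈ A i, x ∈ B i → x ∉ V := by
    intro i x hx1 hx2 hxV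
    obtain ⟨j, hj1, hj2⟩ := mem_iUnion.1 hxV
    by_cases hij : i = j
    · subst hij; exact hj2 hx2
    · exact Set.disjoint_left.1 (hAd hij) hx1 hj1
  refine ⟨u, hu, ?_, ?_, ?_⟩
  · intro i
    have h1 : ∀ᵐ x ∂(mu.restrict (A i \ B i)), s i x ∈ B i \ A i := by
      have : ∀ᵐ y ∂(mu.restrict (B i \ A i)), y ∈ B i \ A i :=
        ae_restrict_mem ((hB i).diff (hA i))
      rw [← hms i] at this
      exact ae_of_ae_map (hs i).aemeasurable this
    rw [ae_restrict_iff' ((hA i).diff (hB i))] at h1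
    filter_upwards [h1] with x hx hxA
    by_cases hxB : x ∈ B i
    · rw [hid x (hAV i x hxA hxB)]; exact hxB
    · rw [hus (some i) x ⟨hxA, hxB⟩]
      exact (hx ⟨hxA, hxB⟩).1
  · intro i
    exact ae_of_all _ fun x hx1 hx2 => hid x (hAV i x hx1 hx2)
  · refine ae_of_all _ fun x hx => hid x fun hxV => hx ?_
    obtain ⟨j, hj1, hj2⟩ := mem_iUnion.1 hxV
    exact mem_iUnion.2 ⟨j, hj1⟩

end Pool.Agent.LegRe
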