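import Pool.Agent.LegRe.Subdiv
import Pool.Agent.LegRe.Greedy
import Pool.Agent.LegRe.IsoDefs
import Pool.Agent.LegRe.MeasIso
import Pool.Agent.LegRe.IsoLimit
import Pool.Agent.LegRe.IsoEquiv

/-! Families of intervals, step functions, and basic facts about `Iso`. -/

namespace Pool.Agent.LegRe

open MeasureTheory Set ENNReal Filter Topology

/-- On `R` (a finite disjoint union of intervals) `G` is a step function with values `≥ m` and
`G ≤ F ≤ G + acc` almost everywhere. -/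
def High (F G : ℝ → ℝ) (m acc : ℝ) (R : Set ℝ) : Prop :=
  ∃ (ι : Type) (_ : Fintype ι) (a b v : ι → ℝ), (∀ i, a i ≤ b i) ∧
    Pairwise (Function.onFun Disjoint fun i => Ico (a i) (b i)) ∧
    (⋃ i, Ico (a i) (b i)) = R ∧ (∀ i, m ≤ v i) ∧ (∀ i, ∀ x ∈ Ico (a i) (b i), G x = v i) ∧
    ∀ i, ∀ᵐ x ∂mu, x ∈ Ico (a i) (b i) → v i ≤ F x ∧ F x ≤ v i + acc

/-- The symmetric notion. -/
def Low (F G : ℝ → ℝ) (m acc : ℝ) (R : Set ℝ) : Prop :=
  High (fun x => - F x) (fun x => - G x) (-m) acc R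

lemma High.measurableSet {F G : ℝ → ℝ} {m acc : ℝ} {R : Set ℝ} (h : High F G m acc R) :
    MeasurableSet R := by
  obtain ⟨ι, _, a, b, v, _, _, hR, _⟩ := h
  rw [← hR]
  exact MeasurableSet.iUnion fun i => measurableSet_Ico

lemma High.ae {F G : ℝ → ℝ} {m acc : ℝ} {R : Set ℝ} (h : High F G m acc R) :
    ∀ᵐ x ∂mu, x ∈ R → m ≤ G x ∧ G x ≤ F x ∧ F x ≤ G x + acc := by
  obtain ⟨ι, _, a, b, v, _, _, hR, hm, hG, hF⟩ := h
  have : ∀ᵐ x ∂mu, ∀ i, x ∈ Ico (a i) (b i) → v i ≤ F x ∧ F x ≤ v i + acc := ae_all_iff.mpr hF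
  filter_upwards [this] with x hx hxR
  rw [← hR] at hxR
  obtain ⟨i, hi⟩ := mem_iUnion.mp hxR
  rw [hG i x hi]
  exact ⟨hm i, hx i hi⟩

lemma Iso.mp {u : ℝ → ℝ} (hu : Iso u) : MeasurePreserving u mu mu := hu.1

lemma Iso.ae {u : ℝ → ℝ} (hu : Iso u) {p : ℝ → Prop} (h : ∀ᵐ x ∂mu, p x) :
    ∀ᵐ x ∂mu, p (u x) :=
  hu.1.quasiMeasurePreserving.ae h

/-- An isomorphism that is the identity off `T` maps `T` to itself. -/
lemma Iso.maps {u : ℝ → ℝ} (hu : Iso u) {T : Set ℝ} (hT : MeasurableSet T)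
    (h : ∀ᵐ x ∂mu, x ∉ T → u x = x) : ∀ᵐ x ∂mu, x ∈ T → u x ∈ T := by
  have hm := hu.1.measure_preimage hT.compl.nullMeasurableSet
  -- u⁻¹ Tᶜ = Tᶜ ∪ bad a.e.
  set bad : Set ℝ := {x | x ∈ T ∧ u x ∉ T} with hbad
  have hmeas : MeasurableSet bad := by
    have : bad = T ∩ (u ⁻¹' T)ᶜ := by ext x; simp [hbad]
    rw [this]
    exact hT.inter (hu.1.measurable hT).compl
  have h1 : u ⁻¹' Tᶜ =ᵐ[mu] (Tᶜ ∪ bad : Set ℝ) := by
    filter_upwards [h] with x hx
    apply propext
    constructor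
    · intro hxu
      by_cases hxT : x ∈ T
      · exact Or.inr ⟨hxT, hxu⟩
      · exact Or.inl hxT
    · rintro (hxT | hxb)
      · change u x ∉ T
        rw [hx hxT]; exact hxT
      · exact hxb.2
  have h2 : Disjoint Tᶜ bad := by
    rw [Set.disjoint_left]
    intro x hx hxb
    exact hx hxb.1
  rw [measure_congr h1, measure_union h2 hmeas] at hm
  have h3 : mu bad = 0 := by
    have hfin : mu Tᶜ ≠ ∞ := measure_ne_top _ _
    have : mu Tᶜ + mu bad = mu Tᶜ + 0 := by rw [hm, add_zero]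
    exact (ENNReal.add_right_inj hfin).mp this
  rw [ae_iff]
  have : {a | ¬(a ∈ T → u a ∈ T)} = bad := by
    ext x; simp [hbad]
  rw [this]; exact h3

/-- distribution is preserved on an invariant set -/
lemma Iso.measure_inter {u : ℝ → ℝ} (hu : Iso u) {T : Set ℝ} (hT : MeasurableSet T)
    (h : ∀ᵐ x ∂mu, x ∉ T → u x = x) {V : Set ℝ} (hV : MeasurableSet V) :
    mu (T ∩ u ⁻¹' V) = mu (T ∩ V) := by
  have h1 := hu.maps hT h
  have h2 : (T ∩ u ⁻¹' V : Set ℝ) =ᵐ[mu] u ⁻¹' (T ∩ V) := by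
    filter_upwards [h, h1] with x hx hx1
    apply propext
    constructor
    · rintro ⟨a, b⟩
      exact ⟨hx1 a, b⟩
    · rintro ⟨a, b⟩
      refine ⟨?_, b⟩
      by_contra hxT
      rw [hx hxT] at a
      exact hxT a
  rw [measure_congr h2, hu.1.measure_preimage (hT.inter hV).nullMeasurableSet]

/-- gluing isomorphisms with disjoint supports -/
lemma Iso.glue {J : Type*} (s : Finset J) (T : J → Set ℝ)
    (hT : ∀ j, MeasurableSet (T j)) (hd : Pairwise (Function.onFun Disjoint T)) (e : J → ℝ → ℝ)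
    (he : ∀ j ∈ s, Iso (e j)) (hoff : ∀ j ∈ s, ∀ᵐ x ∂mu, x ∉ T j → e j x = x) :
    ∃ E : ℝ → ℝ, Iso E ∧ (∀ j ∈ s, ∀ᵐ x ∂mu, x ∈ T j → E x = e j x) ∧
      (∀ᵐ x ∂mu, x ∉ (⋃ j ∈ s, T j) → E x = x) ∧
      mu {x | E x ≠ x} ≤ ∑ j ∈ s, mu {x | e j x ≠ x} := by
  classical
  induction s using Finset.induction_on with
  | empty =>
    refine ⟨fun x => x, Iso.id, by simp, by simp, by simp⟩
  | insert a s ha ih =>
    obtain ⟨E, hE, hE1, hE2, hE3⟩ := ih (fun j hj => he j (Finset.mem_insert_of_mem hj))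
      (fun j hj => hoff j (Finset.mem_insert_of_mem hj))
    have hea := he a (Finset.mem_insert_self _ _)
    have hoa := hoff a (Finset.mem_insert_self _ _)
    have hma := hea.maps (hT a) hoa
    refine ⟨E ∘ e a, hE.comp hea, ?_, ?_, ?_⟩
    · intro j hj
      rcases Finset.mem_insert.mp hj with rfl | hjs
      · have h2 := hea.ae hE2
        filter_upwards [hma, h2] with x hx1 hx2 hxT
        apply hx2
        intro hmem
        simp only [mem_iUnion] at hmem
        obtain ⟨i, hi, hxi⟩ := hmem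
        have hne : j ≠ i := fun h => ha (h ▸ hi)
        exact Set.disjoint_left.mp (hd hne) (hx1 hxT) hxi
      · filter_upwards [hoa, hE1 j hjs] with x hx1 hx2 hxT
        have hne : a ≠ j := fun h => ha (h ▸ hjs)
        have : x ∉ T a := fun h => Set.disjoint_left.mp (hd hne) h hxT
        simp only [Function.comp_apply]
        rw [hx1 this, hx2 hxT]
    · filter_upwards [hoa, hE2] with x hx1 hx2 hx
      have h1 : x ∉ T a := fun h => hx (by simp [h])
      have h2 : x ∉ ⋃ j ∈ s, T j := fun h => hx (by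
        simp only [mem_iUnion] at h ⊢
        obtain ⟨i, hi, hxi⟩ := h
        exact ⟨i, Finset.mem_insert_of_mem hi, hxi⟩)
      simp only [Function.comp_apply]
      rw [hx1 h1, hx2 h2]
    · rw [Finset.sum_insert ha]
      have hsub : {x | (E ∘ e a) x ≠ x} ⊆ {x | e a x ≠ x} ∪ {x | E x ≠ x} := by
        intro x hx
        by_contra hcon
        simp only [mem_union, mem_setOf_eq, not_or, not_not] at hcon
        apply hx
        simp only [Function.comp_apply]
        rw [hcon.1, hcon.2]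
      exact (measure_mono hsub).trans ((measure_union_le _ _).trans (add_le_add le_rfl hE3))

end Pool.Agent.LegRe
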