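import Pool.Agent.LegRe.Levels

/-! Placing contents at positions. -/

namespace Pool.Agent.LegRe

open MeasureTheory Set ENNReal Filter Topology

/-- Moving disjoint contents `B i` to disjoint positions `A i`. -/
theorem exists_placement {Λ : Type} [Countable Λ] (A B : Λ → Set ℝ)
    (hA : ∀ i, MeasurableSet (A i)) (hB : ∀ i, MeasurableSet (B i))
    (hAd : Pairwise (Function.onFun Disjoint A)) (hBd : Pairwise (Function.onFun Disjoint B))
    (hAB : ∀ i, mu (A i) = mu (B i)) :
    ∃ u : ℝ → ℝ, Iso u ∧ (∀ i, ∀ᵐ x ∂mu, x ∈ A i → u x ∈ B i) ∧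
      (∀ i, ∀ᵐ x ∂mu, u x ∈ B i → x ∈ A i) ∧
      (∀ᵐ x ∂mu, x ∉ (⋃ i, A i) → x ∉ (⋃ i, B i) → u x = x) ∧
      (∀ᵐ x ∂mu, x ∉ (⋃ i, A i) → x ∈ (⋃ i, B i) → u x ∉ (⋃ i, B i)) ∧
      mu {x | u x ≠ x} ≤ 2 * mu (⋃ i, A i) := by
  set UA := ⋃ i, A i with hUA
  set UB := ⋃ i, B i with hUB
  have mUA : MeasurableSet UA := MeasurableSet.iUnion hA
  have mUB : MeasurableSet UB := MeasurableSet.iUnion hB
  have hmeas : mu UA = mu UB := by
    rw [hUA, hUB, measure_iUnion hAd hA, measure_iUnion hBd hB]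
    congr 1; funext i; exact hAB i
  let A' : Option Λ → Set ℝ := fun o => o.elim (UB \ UA) A
  let B' : Option Λ → Set ℝ := fun o => o.elim (UA \ UB) B
  have hsubA : ∀ i, A i ⊆ UA := fun i => subset_iUnion A i
  have hsubB : ∀ i, B i ⊆ UB := fun i => subset_iUnion B i
  have hA'd : Pairwise (Function.onFun Disjoint A') := by
    rintro (_ | i) (_ | j) hne
    · exact absurd rfl hne
    · exact disjoint_sdiff_left.mono_right (hsubA j)
    · exact disjoint_sdiff_right.mono_left (hsubA i)
    · exact hAd (fun h => hne (by rw [h]))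
  have hB'd : Pairwise (Function.onFun Disjoint B') := by
    rintro (_ | i) (_ | j) hne
    · exact absurd rfl hne
    · exact disjoint_sdiff_left.mono_right (hsubB j)
    · exact disjoint_sdiff_right.mono_left (hsubB i)
    · exact hBd (fun h => hne (by rw [h]))
  have hUA' : (⋃ o, A' o) = UA ∪ UB := by
    rw [iUnion_option]
    change (UB \ UA) ∪ (⋃ i, A i) = UA ∪ UB
    rw [← hUA, diff_union_self, union_comm]
  have hUB' : (⋃ o, B' o) = UA ∪ UB := by
    rw [iUnion_option]
    change (UA \ UB) ∪ (⋃ i, B i) = UA ∪ UB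
    rw [← hUB, diff_union_self]
  have hdm : mu (UB \ UA) = mu (UA \ UB) := by
    have h1 := measure_diff_add_inter (μ := mu) UB mUA
    have h2 := measure_diff_add_inter (μ := mu) UA mUB
    rw [inter_comm UB UA] at h1
    have hfin : mu (UA ∩ UB) ≠ ∞ := measure_ne_top _ _
    have : mu (UB \ UA) + mu (UA ∩ UB) = mu (UA \ UB) + mu (UA ∩ UB) := by
      rw [h1, h2, hmeas]
    exact (ENNReal.add_left_inj hfin).mp this
  obtain ⟨u, hu, h1, h2, h3⟩ := exists_iso_of_partition A' B'
    (by rintro (_ | i); exacts [mUB.diff mUA, hA i]) (by rintro (_ | i); exacts [mUA.diff mUB, hB i])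
    hA'd hB'd (by rintro (_ | i); exacts [hdm, hAB i]) (by rw [hUA', hUB'])
  rw [hUA'] at h3
  have h1all : ∀ᵐ x ∂mu, ∀ o, x ∈ A' o → u x ∈ B' o := ae_all_iff.mpr h1
  have hidoff : ∀ᵐ x ∂mu, x ∉ UA → x ∉ UB → u x = x := by
    filter_upwards [h3] with x hx a1 a2
    apply hx
    rintro (h | h)
    · exact a1 h
    · exact a2 h
  refine ⟨u, hu, fun i => h1 (some i), ?_, hidoff, ?_, ?_⟩
  · intro i
    filter_upwards [h1all, h3] with x hx hx3 hxB
    by_cases hmem : x ∈ UA ∪ UB
    · rw [← hUA'] at hmem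
      obtain ⟨o, ho⟩ := mem_iUnion.mp hmem
      have h4 := hx o ho
      have : o = some i := by
        by_contra hne
        exact Set.disjoint_left.mp (hB'd hne) h4 hxB
      rw [this] at ho
      exact ho
    · rw [hx3 hmem] at hxB
      exact absurd (Or.inr (hsubB i hxB)) hmem
  · filter_upwards [h1 none] with x hx a1 a2
    exact (hx ⟨a2, a1⟩).2
  · calc mu {x | u x ≠ x} ≤ mu (UA ∪ UB) := by
          apply measure_mono_ae
          filter_upwards [h3] with x hx hne
          by_contra hcon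
          exact hne (hx hcon)
      _ ≤ mu UA + mu UB := measure_union_le _ _
      _ = 2 * mu UA := by rw [← hmeas]; ring

/-- telescoping family of a decreasing sequence of sets -/
def tel (D : ℕ → Set ℝ) : Option ℕ → Set ℝ
  | none => ⋂ j, D j
  | some j => D j \ D (j + 1)

lemma tel_disj {D : ℕ → Set ℝ} (hD : Antitone D) : Pairwise (Function.onFun Disjoint (tel D)) := by
  have key : ∀ i j, i < j → Disjoint (tel D (some i)) (tel D (some j)) := by
    intro i j hij
    rw [Set.disjoint_left]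
    rintro x ⟨_, h2⟩ ⟨h3, _⟩
    exact h2 (hD hij h3)
  rintro (_ | i) (_ | j) hne
  · exact absurd rfl hne
  · rw [Function.onFun, Set.disjoint_left]
    intro x h1 h2
    exact h2.2 (mem_iInter.mp h1 (j + 1))
  · rw [Function.onFun, Set.disjoint_left]
    intro x h1 h2
    exact h1.2 (mem_iInter.mp h2 (i + 1))
  · have : i ≠ j := fun h => hne (by rw [h])
    rcases lt_or_gt_of_ne this with h | h
    · exact key i j h
    · exact (key j i h).symm

lemma tel_sub {D : ℕ → Set ℝ} (hD : Antitone D) (o : Option ℕ) : tel D o ⊆ D 0 := by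
  rcases o with _ | i
  · exact fun x hx => mem_iInter.mp hx 0
  · exact fun x hx => hD (Nat.zero_le i) hx.1

lemma mem_tel {D : ℕ → Set ℝ} {D' : ℕ → Set ℝ} (hD : Antitone D) (hD' : Antitone D') (j : ℕ)
    {x : ℝ} (hx : x ∈ D j) : ∃ o, x ∈ tel D o ∧ tel D' o ⊆ D' j := by
  classical
  by_cases h2 : ∃ i, x ∉ D i
  · have hspec := Nat.find_spec h2
    have hmin := fun k (hk : k < Nat.find h2) => Nat.find_min h2 hk
    set n := Nat.find h2 with hn
    have hjn : j < n := by
      by_contra hcon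
      push Not at hcon
      exact hspec (hD hcon hx)
    obtain ⟨k, hk⟩ : ∃ k, n = k + 1 := ⟨n - 1, by omega⟩
    have hxk : x ∈ D k := by
      have := hmin k (by omega)
      push Not at this
      exact this
    refine ⟨some k, ⟨hxk, by rw [← hk]; exact hspec⟩, ?_⟩
    intro y hy
    exact hD' (by omega) hy.1
  · push Not at h2
    exact ⟨none, mem_iInter.mpr h2, fun y hy => mem_iInter.mp hy j⟩

lemma measurableSet_tel {D : ℕ → Set ℝ} (hm : ∀ j, MeasurableSet (D j)) (o : Option ℕ) :
    MeasurableSet (tel D o) := by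
  rcases o with _ | i
  · exact MeasurableSet.iInter hm
  · exact (hm i).diff (hm (i + 1))

lemma tel_measure {D D' : ℕ → Set ℝ} (hD : Antitone D) (hD' : Antitone D')
    (hm : ∀ j, MeasurableSet (D j)) (hm' : ∀ j, MeasurableSet (D' j))
    (h : ∀ j, mu (D j) = mu (D' j)) (o : Option ℕ) : mu (tel D o) = mu (tel D' o) := by
  rcases o with _ | i
  · have h1 := tendsto_measure_iInter_atTop (μ := mu) (fun j => (hm j).nullMeasurableSet) hD
      ⟨0, measure_ne_top _ _⟩
    have h2 := tendsto_measure_iInter_atTop (μ := mu) (fun j => (hm' j).nullMeasurableSet) hD'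
      ⟨0, measure_ne_top _ _⟩
    have e : (mu ∘ D) = (mu ∘ D') := by funext j; exact h j
    rw [e] at h1
    exact tendsto_nhds_unique h1 h2
  · change mu (D i \ D (i + 1)) = mu (D' i \ D' (i + 1))
    rw [measure_diff (hD (Nat.le_succ i)) (hm _).nullMeasurableSet (measure_ne_top _ _),
      measure_diff (hD' (Nat.le_succ i)) (hm' _).nullMeasurableSet (measure_ne_top _ _), h, h]

end Pool.Agent.LegRe
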