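import Pool.Agent.LegRe.Init1

/-! Initial placement. -/

namespace Pool.Agent.LegRe

open MeasureTheory Set ENNReal Filter Topology

lemma mu_zone {s : ℝ} (h0 : 0 ≤ s) (h1 : s ≤ 1 / 4) : mu (zone s) = ENNReal.ofReal (2 * s) := by
  unfold zone
  rw [measure_union _ measurableSet_Ico, mu_Ico le_rfl (by linarith), mu_Ico (by linarith) le_rfl,
    ← ENNReal.ofReal_add (by linarith) (by linarith)]
  · congr 1; ring
  · rw [Set.disjoint_left]
    intro x h2 h3
    linarith [h2.2, h3.1]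

lemma geom16 (j : ℕ) : ∑ i ∈ Finset.range j, (1 / 16 : ℝ) ^ i ≤ 2 := by
  have : ∑ i ∈ Finset.range j, (1 / 16 : ℝ) ^ i = 16 / 15 * (1 - (1 / 16) ^ j) := by
    induction j with
    | zero => simp
    | succ j ih => rw [Finset.sum_range_succ, ih, pow_succ]; ring
  rw [this]
  have : (0:ℝ) ≤ (1 / 16) ^ j := by positivity
  linarith

lemma choose_t {f : ℝ → ℝ} {α β m γ I p ε : ℝ} (hα : 0 < mu {x | f x < α})
    (hβ : 0 < mu {x | β < f x}) (hp : 1 < p) (hI : 0 ≤ I) (hε : 0 < ε) :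
    ∃ t : ℝ, |m| + γ ≤ t ∧ 1 ≤ t ∧ 0 < mu ({x | f x < α} ∩ {x | |f x| ≤ t}) ∧
      0 < mu ({x | β < f x} ∩ {x | |f x| ≤ t}) ∧ I * t ^ (-p) ≤ ε := by
  have key : ∀ V : Set ℝ, 0 < mu V → ∃ n : ℕ, 0 < mu (V ∩ {x | |f x| ≤ n}) := by
    intro V hV
    have h1 : (⋃ n : ℕ, V ∩ {x | |f x| ≤ (n:ℝ)}) = V := by
      ext x
      simp only [mem_iUnion, mem_inter_iff, exists_and_left]
      constructor
      · exact fun h => h.1
      · intro h
        obtain ⟨n, hn⟩ := exists_nat_ge |f x|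
        exact ⟨h, n, hn⟩
    have h2 : mu (⋃ n : ℕ, V ∩ {x | |f x| ≤ (n:ℝ)}) ≠ 0 := by rw [h1]; exact hV.ne'
    exact exists_measure_pos_of_not_measure_iUnion_null h2
  obtain ⟨n1, hn1⟩ := key _ hα
  obtain ⟨n2, hn2⟩ := key _ hβ
  have h3 : Tendsto (fun t : ℝ => I * t ^ (-p)) atTop (𝓝 0) := by
    have := (tendsto_rpow_neg_atTop (by linarith : 0 < p)).const_mul I
    rwa [mul_zero] at this
  have h4 := (h3.eventually (gt_mem_nhds hε)).and
    ((eventually_ge_atTop (|m| + γ)).and ((eventually_ge_atTop (1:ℝ)).and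
      ((eventually_ge_atTop (n1:ℝ)).and (eventually_ge_atTop (n2:ℝ)))))
  obtain ⟨t, a1, a2, a3, a4, a5⟩ := h4.exists
  refine ⟨t, a2, a3, ?_, ?_, a1.le⟩
  · refine lt_of_lt_of_le hn1 (measure_mono ?_)
    rintro x ⟨h1, h2⟩
    exact ⟨h1, le_trans (show |f x| ≤ (n1:ℝ) from h2) a4⟩
  · refine lt_of_lt_of_le hn2 (measure_mono ?_)
    rintro x ⟨h1, h2⟩
    exact ⟨h1, le_trans (show |f x| ≤ (n2:ℝ) from h2) a5⟩

lemma mem_big {t y : ℝ} (ht : 0 < t) (hy : t < y) : ∃ j : ℕ, t * 2 ^ j < y ∧ y ≤ t * 2 ^ (j + 1) := by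
  have hex : ∃ n : ℕ, y ≤ t * 2 ^ n := by
    obtain ⟨n, hn⟩ := pow_unbounded_of_one_lt (y / t) (by norm_num : (1:ℝ) < 2)
    rw [div_lt_iff₀ ht] at hn
    exact ⟨n, by linarith⟩
  classical
  have h1 := Nat.find_spec hex
  have h2 := fun k (hk : k < Nat.find hex) => Nat.find_min hex hk
  set n := Nat.find hex with hn
  have h0 : n ≠ 0 := by
    intro h
    rw [h] at h1
    simp at h1
    linarith
  obtain ⟨j, hj⟩ : ∃ j, n = j + 1 := ⟨n - 1, by omega⟩
  refine ⟨j, ?_, by rw [← hj]; exact h1⟩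
  have := h2 j (by omega)
  push Not at this
  exact this

theorem exists_init {f : ℝ → ℝ} (hf : Measurable f) {p : ℝ} (hp : 1 < p) (hp2 : p ≤ 2)
    (hfp : ∫⁻ x, ‖f x‖ₑ ^ p ∂mu ≠ ∞) (hnc : ¬ ∃ c : ℝ, f =ᵐ[mu] fun _ => c) {ε : ℝ} (hε : 0 < ε)
    (hε1 : ε ≤ 1) :
    ∃ (ω0 : ℝ → ℝ) (m γ cinf t A0 M : ℝ) (s c v : ℕ → ℝ),
      Iso ω0 ∧ mu {x | ω0 x ≠ x} ≤ ENNReal.ofReal (ε / 8) ∧ 0 < γ ∧ 0 < A0 ∧ 2 * A0 ≤ γ ∧ 0 < t ∧
      |m| + γ ≤ t ∧ (∀ j, 0 < s j) ∧ (∀ j, s (j + 1) ≤ s j) ∧ (∀ j, s j ≤ 1 / 4) ∧ c 0 = 0 ∧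
      (∀ j, c j < c (j + 1)) ∧ (∀ j, c j ≤ cinf) ∧ cinf ≤ ε / 32 ∧ Tendsto c atTop (𝓝 cinf) ∧
      (∀ j, m ≤ v j) ∧ (∀ j, |v (j + 1) - v j| ≤ A0 / 16 ^ j) ∧
      (∀ j, v j + A0 / 16 ^ j ≤ 2 * t) ∧ 0 ≤ M ∧
      (∀ j, c (j + 1) - c j ≤ M * ((2:ℝ) ^ (-p)) ^ j) ∧
      (∀ j, ∀ᵐ x ∂mu, x ∈ zone (s j) → v j ≤ f (ω0 x) ∧ f (ω0 x) ≤ v j + A0 / 16 ^ j) ∧
      (∀ j, ∀ᵐ x ∂mu, x ∈ Ico (c j) (c (j + 1)) → |f (ω0 x)| ≤ t * 2 ^ (j + 1)) ∧
      (∀ᵐ x ∂mu, x ∈ act (s 0) (c 0) cinf → |f (ω0 x)| ≤ t) ∧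
      (∀ j, ENNReal.ofReal (3 * (A0 / 16 ^ j) / γ) ≤
        mu (Ico (c j) (c (j + 1)) ∩ {x | f (ω0 x) < m - γ})) ∧
      (∀ j, ENNReal.ofReal (3 * (A0 / 16 ^ j) / γ) ≤
        mu (Ico (c j) (c (j + 1)) ∩ {x | m + γ < f (ω0 x)})) := by
  obtain ⟨α, β, hαβ, hα, hβ⟩ := exists_levels hnc
  obtain ⟨I, hI, hcheb⟩ := cheb hf hp hfp
  set m : ℝ := (α + β) / 2 with hm
  set γ : ℝ := (β - α) / 2 with hγdef
  have hγ : 0 < γ := by rw [hγdef]; linarith
  have hmα : m - γ = α := by rw [hm, hγdef]; ring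
  have hmβ : m + γ = β := by rw [hm, hγdef]; ring
  obtain ⟨t, ht1, ht2, ht3, ht4, ht5⟩ := choose_t (m := m) (γ := γ) (p := p) hα hβ hp hI
    (by positivity : 0 < ε / 64)
  have htpos : 0 < t := by linarith
  set LoS : Set ℝ := {x | f x < α} ∩ {x | |f x| ≤ t} with hLoS
  set HiS : Set ℝ := {x | β < f x} ∩ {x | |f x| ≤ t} with hHiS
  have mLoS : MeasurableSet LoS :=
    (measurableSet_lt hf measurable_const).inter (measurableSet_le (by fun_prop) measurable_const)
  have mHiS : MeasurableSet HiS :=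
    (measurableSet_lt measurable_const hf).inter (measurableSet_le (by fun_prop) measurable_const)
  set lam : ℝ := (mu LoS).toReal with hlam
  set h : ℝ := (mu HiS).toReal with hh
  have hlampos : 0 < lam := ENNReal.toReal_pos ht3.ne' (measure_ne_top _ _)
  have hhpos : 0 < h := ENNReal.toReal_pos ht4.ne' (measure_ne_top _ _)
  have hmuLo : mu LoS = ENNReal.ofReal lam := (ENNReal.ofReal_toReal (measure_ne_top _ _)).symm
  have hmuHi : mu HiS = ENNReal.ofReal h := (ENNReal.ofReal_toReal (measure_ne_top _ _)).symm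
  set y0 : ℝ := min (h / 2) (ε / 64) with hy0
  have hy0pos : 0 < y0 := lt_min (by positivity) (by positivity)
  have hy0h : y0 ≤ h / 2 := min_le_left _ _
  have hy0ε : y0 ≤ ε / 64 := min_le_right _ _
  set qq : ℝ := min (min lam (h / 2)) (ε / 128) with hqq
  have hqqpos : 0 < qq := lt_min (lt_min hlampos (by positivity)) (by positivity)
  have hqqlam : qq ≤ lam := (min_le_left _ _).trans (min_le_left _ _)
  have hqqh : qq ≤ h / 2 := (min_le_left _ _).trans (min_le_right _ _)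
  have hqqε : qq ≤ ε / 128 := min_le_right _ _
  set A0 : ℝ := min (min (γ / 2) t) (γ / 6 * qq) with hA0
  have hA0pos : 0 < A0 := lt_min (lt_min (by positivity) htpos) (by positivity)
  have hA0γ : 2 * A0 ≤ γ := by
    have : A0 ≤ γ / 2 := (min_le_left _ _).trans (min_le_left _ _)
    linarith
  have hA0t : A0 ≤ t := (min_le_left _ _).trans (min_le_right _ _)
  have hA0q : 6 * A0 / γ ≤ qq := by
    have : A0 ≤ γ / 6 * qq := min_le_right _ _
    rw [div_le_iff₀ hγ]; linarith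
  set r : ℕ → ℝ := fun j => 3 * (A0 / 16 ^ j) / γ with hr
  have hrpos : ∀ j, 0 < r j := fun j => by simp only [hr]; positivity
  set P : ℕ → ℝ := fun j => ∑ i ∈ Finset.range j, r i with hP
  have hPs : ∀ j, P (j + 1) = P j + r j := fun j => Finset.sum_range_succ _ _
  have hP0 : ∀ j, 0 ≤ P j := fun j => Finset.sum_nonneg fun i _ => (hrpos i).le
  have hPmono : Monotone P := monotone_nat_of_le_succ fun j => by rw [hPs]; linarith [hrpos j]
  have hPle : ∀ j, P j ≤ qq := by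
    intro j
    have e : P j = (3 * A0 / γ) * ∑ i ∈ Finset.range j, (1 / 16 : ℝ) ^ i := by
      simp only [hP, hr]
      rw [Finset.mul_sum]
      apply Finset.sum_congr rfl
      intro i _
      rw [div_pow, one_pow]
      ring
    rw [e]
    calc (3 * A0 / γ) * ∑ i ∈ Finset.range j, (1 / 16 : ℝ) ^ i ≤ (3 * A0 / γ) * 2 :=
          mul_le_mul_of_nonneg_left (geom16 j) (by positivity)
      _ = 6 * A0 / γ := by ring
      _ ≤ qq := hA0q
  obtain ⟨gl, mgl, hgl⟩ := exists_slices mLoS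
  obtain ⟨gh, mgh, hgh⟩ := exists_slices mHiS
  set Y : Set ℝ := HiS ∩ gh ⁻¹' (Ioc 0 y0) with hY
  set Rl : ℕ → Set ℝ := fun j => LoS ∩ gl ⁻¹' (Ioc (P j) (P (j + 1))) with hRl
  set Rh : ℕ → Set ℝ := fun j => HiS ∩ gh ⁻¹' (Ioc (y0 + P j) (y0 + P (j + 1))) with hRh
  set Bg : ℕ → Set ℝ := fun j => {x | t * 2 ^ j < |f x|} ∩ {x | |f x| ≤ t * 2 ^ (j + 1)} with hBg
  have mY : MeasurableSet Y := mHiS.inter (mgh measurableSet_Ioc)
  have mRl : ∀ j, MeasurableSet (Rl j) := fun j => mLoS.inter (mgl measurableSet_Ioc)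
  have mRh : ∀ j, MeasurableSet (Rh j) := fun j => mHiS.inter (mgh measurableSet_Ioc)
  have mBg : ∀ j, MeasurableSet (Bg j) := fun j =>
    (measurableSet_lt measurable_const (by fun_prop)).inter
      (measurableSet_le (by fun_prop) measurable_const)
  have hmuY : mu Y = ENNReal.ofReal y0 := by
    have := hgh 0 y0 le_rfl hy0pos.le (by
      rw [hmuHi]; exact ENNReal.ofReal_le_ofReal (by linarith))
    rw [sub_zero] at this
    exact this
  have hmuRl : ∀ j, mu (Rl j) = ENNReal.ofReal (r j) := by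
    intro j
    have := hgl (P j) (P (j + 1)) (hP0 j) (hPmono (Nat.le_succ j)) (by
      rw [hmuLo]; exact ENNReal.ofReal_le_ofReal ((hPle _).trans hqqlam))
    rw [hPs, add_sub_cancel_left] at this
    simp only [hRl]
    rw [hPs]; exact this
  have hmuRh : ∀ j, mu (Rh j) = ENNReal.ofReal (r j) := by
    intro j
    have h1 := hPmono (Nat.le_succ j)
    have := hgh (y0 + P j) (y0 + P (j + 1)) (by linarith [hP0 j])
      (by linarith [hPmono (Nat.le_succ j)]) (by
      rw [hmuHi]; exact ENNReal.ofReal_le_ofReal (by linarith [hPle (j + 1)]))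
    simp only [hRh]
    rw [this]
    congr 1
    rw [hPs]; ring
  -- elementary facts on membership
  have fRl : ∀ j, ∀ x ∈ Rl j, f x < α ∧ |f x| ≤ t ∧ gl x ∈ Ioc (P j) (P (j + 1)) := by
    rintro j x ⟨⟨h1, h2⟩, h3⟩; exact ⟨h1, h2, h3⟩
  have fRh : ∀ j, ∀ x ∈ Rh j, β < f x ∧ |f x| ≤ t ∧ gh x ∈ Ioc (y0 + P j) (y0 + P (j + 1)) := by
    rintro j x ⟨⟨h1, h2⟩, h3⟩; exact ⟨h1, h2, h3⟩
  have fBg : ∀ j, ∀ x ∈ Bg j, t * 2 ^ j < |f x| ∧ |f x| ≤ t * 2 ^ (j + 1) := by
    rintro j x ⟨h1, h2⟩; exact ⟨h1, h2⟩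
  have fBg' : ∀ j, ∀ x ∈ Bg j, t < |f x| := by
    intro j x hx
    have h1 := (fBg j x hx).1
    have h2 : (1:ℝ) ≤ 2 ^ j := one_le_pow₀ (by norm_num)
    nlinarith
  have fY : ∀ x ∈ Y, β < f x ∧ |f x| ≤ t ∧ gh x ∈ Ioc 0 y0 := by
    rintro x ⟨⟨h1, h2⟩, h3⟩; exact ⟨h1, h2, h3⟩
  set Cc : ℕ → Set ℝ := fun j => (Rl j ∪ Rh j) ∪ Bg j with hCc
  have mCc : ∀ j, MeasurableSet (Cc j) := fun j => ((mRl j).union (mRh j)).union (mBg j)
  have hpow2 : ∀ i j : ℕ, i < j → t * 2 ^ (i + 1) ≤ t * 2 ^ j := by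
    intro i j hij
    apply mul_le_mul_of_nonneg_left _ htpos.le
    exact pow_le_pow_right₀ (by norm_num) hij
  have hCd : Pairwise (Function.onFun Disjoint Cc) := by
    have key : ∀ i j, i < j → Disjoint (Cc i) (Cc j) := by
      intro i j hij
      have hPij := hPmono (show i + 1 ≤ j from hij)
      rw [Set.disjoint_left]
      rintro x ((h1 | h1) | h1) ((h2 | h2) | h2)
      · linarith [(fRl i x h1).2.2.2, (fRl j x h2).2.2.1]
      · linarith [(fRl i x h1).1, (fRh j x h2).1]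
      · linarith [(fRl i x h1).2.1, fBg' j x h2]
      · linarith [(fRh i x h1).1, (fRl j x h2).1]
      · linarith [(fRh i x h1).2.2.2, (fRh j x h2).2.2.1]
      · linarith [(fRh i x h1).2.1, fBg' j x h2]
      · linarith [fBg' i x h1, (fRl j x h2).2.1]
      · linarith [fBg' i x h1, (fRh j x h2).2.1]
      · linarith [(fBg i x h1).2, (fBg j x h2).1, hpow2 i j hij]
    intro i j hne
    rcases lt_or_gt_of_ne hne with h | h
    · exact key i j h
    · exact (key j i h).symm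
  have hBd : Pairwise (Function.onFun Disjoint Bg) := by
    intro i j hne
    exact (hCd hne).mono subset_union_right subset_union_right
  have hYC : ∀ j, Disjoint Y (Cc j) := by
    intro j
    rw [Set.disjoint_left]
    rintro x h1 ((h2 | h2) | h2)
    · linarith [(fY x h1).1, (fRl j x h2).1]
    · linarith [(fY x h1).2.2.2, (fRh j x h2).2.2.1, hP0 j]
    · linarith [(fY x h1).2.1, fBg' j x h2]
  set u : ℕ → ℝ := fun j => (mu (Cc j)).toReal with hu
  have hmuC : ∀ j, mu (Cc j) = ENNReal.ofReal (u j) := fun j =>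
    (ENNReal.ofReal_toReal (measure_ne_top _ _)).symm
  have hru : ∀ j, r j ≤ u j := by
    intro j
    have : mu (Rl j) ≤ mu (Cc j) :=
      measure_mono (subset_union_left.trans subset_union_left)
    rw [hmuRl, hmuC] at this
    exact (ENNReal.ofReal_le_ofReal_iff ENNReal.toReal_nonneg).mp this
  have hupos : ∀ j, 0 < u j := fun j => lt_of_lt_of_le (hrpos j) (hru j)
  have hCle : ∀ j, mu (Cc j) ≤ ENNReal.ofReal (2 * r j) + mu (Bg j) := by
    intro j
    calc mu (Cc j) ≤ (mu (Rl j) + mu (Rh j)) + mu (Bg j) :=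
          (measure_union_le _ _).trans (add_le_add (measure_union_le _ _) le_rfl)
      _ = _ := by
          rw [hmuRl, hmuRh, ← ENNReal.ofReal_add (hrpos j).le (hrpos j).le]
          congr 2; ring
  have hBle : ∀ j, mu (Bg j) ≤ ENNReal.ofReal (I * (t * 2 ^ j) ^ (-p)) := by
    intro j
    refine (measure_mono inter_subset_left).trans ?_
    exact hcheb _ (by positivity)
  have hufin : ∀ n, ∑ j ∈ Finset.range n, u j ≤ ε / 32 := by
    intro n
    have h1 : ENNReal.ofReal (∑ j ∈ Finset.range n, u j) ≤ ENNReal.ofReal (ε / 32) := by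
      rw [ENNReal.ofReal_sum_of_nonneg fun j _ => (hupos j).le]
      calc ∑ j ∈ Finset.range n, ENNReal.ofReal (u j) = ∑ j ∈ Finset.range n, mu (Cc j) :=
            Finset.sum_congr rfl fun j _ => (hmuC j).symm
        _ ≤ ∑ j ∈ Finset.range n, (ENNReal.ofReal (2 * r j) + mu (Bg j)) :=
            Finset.sum_le_sum fun j _ => hCle j
        _ = ENNReal.ofReal (∑ j ∈ Finset.range n, 2 * r j) + ∑ j ∈ Finset.range n, mu (Bg j) := by
            rw [Finset.sum_add_distrib,
              ENNReal.ofReal_sum_of_nonneg fun j _ => by have := hrpos j; positivity]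
        _ ≤ ENNReal.ofReal (ε / 64) + ENNReal.ofReal (ε / 64) := by
            apply add_le_add
            · apply ENNReal.ofReal_le_ofReal
              rw [← Finset.mul_sum]
              have := hPle n
              simp only [hP] at this
              linarith
            · rw [← measure_biUnion_finset (fun i _ j _ hij => hBd hij) (fun i _ => mBg i)]
              calc mu (⋃ b ∈ Finset.range n, Bg b) ≤ mu {x | t < |f x|} := by
                    apply measure_mono
                    intro x hx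
                    simp only [mem_iUnion] at hx
                    obtain ⟨j, _, hj⟩ := hx
                    exact fBg' j x hj
                _ ≤ ENNReal.ofReal (I * t ^ (-p)) := hcheb t htpos
                _ ≤ _ := ENNReal.ofReal_le_ofReal ht5
        _ = ENNReal.ofReal (ε / 32) := by
            rw [← ENNReal.ofReal_add (by positivity) (by positivity)]
            congr 1; ring
    exact (ENNReal.ofReal_le_ofReal_iff (by positivity)).mp h1
  have husum : Summable u := summable_of_sum_range_le (fun j => (hupos j).le) hufin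
  set c : ℕ → ℝ := fun j => ∑ i ∈ Finset.range j, u i with hc
  have hcs : ∀ j, c (j + 1) = c j + u j := fun j => Finset.sum_range_succ _ _
  have hcmono : Monotone c := monotone_nat_of_le_succ fun j => by rw [hcs]; linarith [hupos j]
  set cinf : ℝ := ∑' j, u j with hcinf
  have hclim : Tendsto c atTop (𝓝 cinf) := husum.hasSum.tendsto_sum_nat
  have hcle : ∀ j, c j ≤ cinf := fun j => husum.sum_le_tsum _ (fun i _ => (hupos i).le)
  have hcinfle : cinf ≤ ε / 32 := by
    apply le_of_tendsto hclim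
    exact Eventually.of_forall hufin
  have hc00 : c 0 = 0 := by simp [hc]
  have hc0 : ∀ j, 0 ≤ c j := fun j => by rw [← hc00]; exact hcmono (Nat.zero_le j)
  -- levels at the ends
  have hmuYpos : 0 < mu Y := by rw [hmuY]; simpa using hy0pos
  obtain ⟨v, hv1, hv2, hv3, hv4⟩ := nested_levels (f := f) (Y := Y) (m := m) hA0pos hmuYpos
    (fun x hx => by linarith [(fY x hx).1])
  set E : ℕ → Set ℝ := fun j => Y ∩ {x | f x ∈ Ico (v j) (v j + A0 / 16 ^ j)} with hE
  have mE : ∀ j, MeasurableSet (E j) := fun j => mY.inter (hf measurableSet_Ico)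
  have hEanti : Antitone E := by
    apply antitone_nat_of_succ_le
    rintro j x ⟨h1, h2⟩
    refine ⟨h1, ?_⟩
    have h2' : f x ∈ Ico (v (j + 1)) (v (j + 1) + A0 / 16 ^ (j + 1)) := h2
    change f x ∈ Ico (v j) (v j + A0 / 16 ^ j)
    exact ⟨by linarith [h2'.1, hv2 j], by linarith [h2'.2, hv3 j]⟩
  set s : ℕ → ℝ := fun j => (mu (E j)).toReal / 2 with hs
  have hspos : ∀ j, 0 < s j := fun j => by
    have := ENNReal.toReal_pos (hv4 j).ne' (measure_ne_top _ _)
    simp only [hs, hE]; positivity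
  have hmuE : ∀ j, mu (E j) = ENNReal.ofReal (2 * s j) := by
    intro j
    have : 2 * s j = (mu (E j)).toReal := by simp only [hs]; ring
    rw [this, ENNReal.ofReal_toReal (measure_ne_top _ _)]
  have hss : ∀ j, s (j + 1) ≤ s j := by
    intro j
    have : (mu (E (j + 1))).toReal ≤ (mu (E j)).toReal :=
      ENNReal.toReal_mono (measure_ne_top _ _) (measure_mono (hEanti (Nat.le_succ j)))
    simp only [hs]; linarith
  have hsy : ∀ j, 2 * s j ≤ y0 := by
    intro j
    have h1 : mu (E j) ≤ mu Y := measure_mono inter_subset_left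
    rw [hmuE, hmuY] at h1
    exact (ENNReal.ofReal_le_ofReal_iff hy0pos.le).mp h1
  have hs4 : ∀ j, s j ≤ 1 / 4 := fun j => by linarith [hsy j]
  have hsmono : Antitone s := antitone_nat_of_succ_le hss
  have hvt : ∀ j, v j + A0 / 16 ^ j ≤ 2 * t := by
    intro j
    obtain ⟨x, hx⟩ := nonempty_of_measure_ne_zero (hv4 j).ne'
    have h1 : v j ≤ f x := (show f x ∈ Ico (v j) (v j + A0 / 16 ^ j) from hx.2).1
    have h2 := (abs_le.mp (fY x hx.1).2.1).2
    have h3 : A0 / 16 ^ j ≤ A0 := div_le_self hA0pos.le (one_le_pow₀ (by norm_num))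
    linarith
  -- placement
  set Z : ℕ → Set ℝ := fun j => zone (s j) with hZ
  have hZanti : Antitone Z := by
    intro i j hij
    have h1 := hsmono hij
    rintro x (h2 | h2)
    · exact Or.inl ⟨h2.1, by linarith [h2.2]⟩
    · exact Or.inr ⟨by linarith [h2.1], h2.2⟩
  have mZ : ∀ j, MeasurableSet (Z j) := fun j => measurableSet_Ico.union measurableSet_Ico
  have hZE : ∀ j, mu (Z j) = mu (E j) := fun j => by
    rw [hmuE]; exact mu_zone (hspos j).le (hs4 j)
  have hblk : ∀ j, Ico (c j) (c (j + 1)) ⊆ Ico 0 cinf := fun j =>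
    Ico_subset_Ico (hc0 j) (hcle (j + 1))
  have hZ0 : ∀ x ∈ Z 0, x ∉ Ico 0 cinf := by
    rintro x (h2 | h2) h3
    · linarith [h2.2, h3.1, hs4 0]
    · linarith [h2.1, h3.2, hs4 0]
  obtain ⟨ω0, hω0, hp1, hp2', hp3, hp4, hp5⟩ := exists_placement (Λ := Option ℕ ⊕ ℕ)
    (Sum.elim (tel Z) (fun j => Ico (c j) (c (j + 1)))) (Sum.elim (tel E) Cc)
    (by rintro (o | j); exacts [measurableSet_tel mZ o, measurableSet_Ico])
    (by rintro (o | j); exacts [measurableSet_tel mE o, mCc j])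
    (by
      rintro (o | j) (o' | j') hne
      · exact tel_disj hZanti (fun h => hne (by rw [h]))
      · rw [Function.onFun, Set.disjoint_left]
        intro x h1 h2
        exact hZ0 x (tel_sub hZanti o h1) (hblk j' h2)
      · rw [Function.onFun, Set.disjoint_left]
        intro x h1 h2
        exact hZ0 x (tel_sub hZanti o' h2) (hblk j h1)
      · exact hcmono.pairwise_disjoint_on_Ico_succ (fun h => hne (by rw [h])))
    (by
      rintro (o | j) (o' | j') hne
      · exact tel_disj hEanti (fun h => hne (by rw [h]))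
      · exact (hYC j').mono_left ((tel_sub hEanti o).trans inter_subset_left)
      · exact ((hYC j).mono_left ((tel_sub hEanti o').trans inter_subset_left)).symm
      · exact hCd (fun h => hne (by rw [h])))
    (by
      rintro (o | j)
      · exact tel_measure hZanti hEanti mZ mE hZE o
      · simp only [Sum.elim_inr]
        rw [hmuC, mu_Ico (by linarith [hc0 j]) (by linarith [hcle (j + 1)])]
        congr 1
        rw [hcs]; ring)
  have hUA : (⋃ i, Sum.elim (tel Z) (fun j => Ico (c j) (c (j + 1))) i) ⊆ Z 0 ∪ Ico 0 cinf := by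
    apply iUnion_subset
    rintro (o | j)
    · exact (tel_sub hZanti o).trans subset_union_left
    · exact (hblk j).trans subset_union_right
  have hsmall : ∀ y, y ∉ (⋃ i, Sum.elim (tel E) Cc i) → |f y| ≤ t := by
    intro y hy
    by_contra hcon
    push Not at hcon
    obtain ⟨j, hj1, hj2⟩ := mem_big htpos hcon
    exact hy (mem_iUnion.mpr ⟨Sum.inr j, Or.inr ⟨hj1, hj2⟩⟩)
  refine ⟨ω0, m, γ, cinf, t, A0, 6 * A0 / γ + I * t ^ (-p), s, c, v, hω0, ?_, hγ, hA0pos, hA0γ,
    htpos, ht1, hspos, hss, hs4, hc00, ?_, hcle, hcinfle, hclim, hv1, ?_, hvt, ?_, ?_, ?_, ?_, ?_,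
    ?_, ?_⟩
  · refine hp5.trans ?_
    calc 2 * mu (⋃ i, Sum.elim (tel Z) (fun j => Ico (c j) (c (j + 1))) i)
        ≤ 2 * (mu (Z 0) + mu (Ico 0 cinf)) := by
          apply mul_le_mul_right
          exact (measure_mono hUA).trans (measure_union_le _ _)
      _ = 2 * ENNReal.ofReal (2 * s 0 + cinf) := by
          have h1 : mu (Z 0) = ENNReal.ofReal (2 * s 0) := mu_zone (hspos 0).le (hs4 0)
          rw [h1, mu_Ico (by norm_num) (by linarith), sub_zero,
            ← ENNReal.ofReal_add (by linarith [hspos 0]) (by linarith [hc0 0, hcle 0])]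
      _ = ENNReal.ofReal (2 * (2 * s 0 + cinf)) := by
          rw [ENNReal.ofReal_mul (by norm_num)]
          norm_num
      _ ≤ _ := by
          apply ENNReal.ofReal_le_ofReal
          linarith [hsy 0]
  · intro j; rw [hcs]; linarith [hupos j]
  · intro j
    have h1 := hv2 j
    have h2 := hv3 j
    have h3 : 0 < A0 / 16 ^ (j + 1) := by positivity
    rw [abs_of_nonneg (by linarith)]
    linarith
  · positivity
  · intro j
    have h1 : c (j + 1) - c j = u j := by rw [hcs]; ring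
    rw [h1]
    have h2 : ENNReal.ofReal (u j) ≤ ENNReal.ofReal (2 * r j + I * (t * 2 ^ j) ^ (-p)) := by
      rw [← hmuC, ENNReal.ofReal_add (by have := hrpos j; positivity) (by positivity)]
      exact (hCle j).trans (add_le_add le_rfl (hBle j))
    have h3 := (ENNReal.ofReal_le_ofReal_iff (by have := hrpos j; positivity)).mp h2
    have hq : (1 / 16 : ℝ) ^ j ≤ ((2:ℝ) ^ (-p)) ^ j := by
      apply pow_le_pow_left₀ (by norm_num)
      calc (1 / 16 : ℝ) ≤ (2:ℝ) ^ (-2 : ℝ) := by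
            rw [Real.rpow_neg (by norm_num)]; norm_num
        _ ≤ (2:ℝ) ^ (-p) := Real.rpow_le_rpow_of_exponent_le (by norm_num) (by linarith)
    have e1 : (t * 2 ^ j) ^ (-p) = t ^ (-p) * ((2:ℝ) ^ (-p)) ^ j := by
      rw [Real.mul_rpow htpos.le (by positivity)]
      congr 1
      rw [← Real.rpow_natCast, ← Real.rpow_natCast, ← Real.rpow_mul (by norm_num),
        ← Real.rpow_mul (by norm_num)]
      congr 1; ring
    have e2 : 2 * r j = (6 * A0 / γ) * (1 / 16) ^ j := by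
      simp only [hr]
      rw [div_pow, one_pow]; ring
    rw [e1, e2] at h3
    calc u j ≤ (6 * A0 / γ) * (1 / 16) ^ j + I * (t ^ (-p) * ((2:ℝ) ^ (-p)) ^ j) := h3
      _ ≤ (6 * A0 / γ) * ((2:ℝ) ^ (-p)) ^ j + I * (t ^ (-p) * ((2:ℝ) ^ (-p)) ^ j) := by
          have := mul_le_mul_of_nonneg_left hq (by positivity : 0 ≤ 6 * A0 / γ)
          linarith
      _ = _ := by ring
  · intro j
    have hall : ∀ᵐ x ∂mu, ∀ o, x ∈ tel Z o → ω0 x ∈ tel E o := by
      rw [ae_all_iff]; intro o; exact hp1 (Sum.inl o)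
    filter_upwards [hall] with x hx hxz
    obtain ⟨o, ho1, ho2⟩ := mem_tel hZanti hEanti j (show x ∈ Z j from hxz)
    have h1 := ho2 (hx o ho1)
    have h2 : f (ω0 x) ∈ Ico (v j) (v j + A0 / 16 ^ j) := h1.2
    exact ⟨h2.1, h2.2.le⟩
  · intro j
    filter_upwards [hp1 (Sum.inr j)] with x hx hxb
    have h2 : (1:ℝ) ≤ 2 ^ (j + 1) := one_le_pow₀ (by norm_num)
    have h3 : t ≤ t * 2 ^ (j + 1) := by nlinarith
    rcases hx hxb with (h1 | h1) | h1
    · exact (fRl j _ h1).2.1.trans h3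
    · exact (fRh j _ h1).2.1.trans h3
    · exact (fBg j _ h1).2
  · filter_upwards [hp3, hp4] with x h3 h4 hx
    have hxA : x ∉ (⋃ i, Sum.elim (tel Z) (fun j => Ico (c j) (c (j + 1))) i) := by
      intro hmem
      rcases hUA hmem with hz | hb
      · rcases hx with hx | hx
        · rw [hc00] at hx
          rcases hz with hz | hz
          · linarith [hx.1, hz.2]
          · linarith [hx.2, hz.1, hs4 0]
        · rcases hz with hz | hz
          · linarith [hx.1, hz.2, hs4 0, hcle 0]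
          · linarith [hx.2, hz.1]
      · rcases hx with hx | hx
        · rw [hc00] at hx; linarith [hx.2, hb.1]
        · linarith [hx.1, hb.2]
    by_cases hxB : x ∈ (⋃ i, Sum.elim (tel E) Cc i)
    · exact hsmall _ (h4 hxA hxB)
    · rw [h3 hxA hxB]; exact hsmall _ hxB
  · intro j
    have h1 : mu (ω0 ⁻¹' (Rl j)) = ENNReal.ofReal (r j) := by
      rw [hω0.1.measure_preimage (mRl j).nullMeasurableSet, hmuRl]
    change ENNReal.ofReal (r j) ≤ _
    rw [← h1]
    apply measure_mono_ae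
    filter_upwards [hp2' (Sum.inr j)] with x hx hxR
    have hxR' : ω0 x ∈ Rl j := hxR
    refine ⟨hx (Or.inl (Or.inl hxR')), ?_⟩
    change f (ω0 x) < m - γ
    rw [hmα]; exact (fRl j _ hxR').1
  · intro j
    have h1 : mu (ω0 ⁻¹' (Rh j)) = ENNReal.ofReal (r j) := by
      rw [hω0.1.measure_preimage (mRh j).nullMeasurableSet, hmuRh]
    change ENNReal.ofReal (r j) ≤ _
    rw [← h1]
    apply measure_mono_ae
    filter_upwards [hp2' (Sum.inr j)] with x hx hxR
    have hxR' : ω0 x ∈ Rh j := hxR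
    refine ⟨hx (Or.inl (Or.inr hxR')), ?_⟩
    change m + γ < f (ω0 x)
    rw [hmβ]; exact (fRh j _ hxR').1

end Pool.Agent.LegRe
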