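import Pool.Agent.LegRe.Maximal

/-! Costs of indicator functions of intervals. -/

namespace Pool.Agent.LegRe

open MeasureTheory Set ENNReal Filter Topology

lemma sing_pos {θ b : ℝ} (hθ : θ < 1) (hb : 0 ≤ b) :
    ∫ u in (0:ℝ)..b, u ^ (-θ) = b ^ (1 - θ) / (1 - θ) := by
  rw [integral_rpow (Or.inl (by linarith))]
  have h1 : -θ + 1 = 1 - θ := by ring
  rw [h1, Real.zero_rpow (by linarith), sub_zero]

/-- integral of the singularity `|x-c|^{-θ}` -/
lemma sing_int {θ c : ℝ} (hθ : θ < 1) (hc : c ∈ Icc (-1 : ℝ) 1) :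
    IntervalIntegrable (fun x => |x - c| ^ (-θ)) volume (-1) 1 ∧
    ∫ x in (-1:ℝ)..1, |x - c| ^ (-θ) ≤ 2 * 2 ^ (1 - θ) / (1 - θ) := by
  have i0 : ∀ a b, IntervalIntegrable (fun u : ℝ => u ^ (-θ)) volume a b :=
    fun a b => intervalIntegral.intervalIntegrable_rpow' (by linarith)
  have i1 : IntervalIntegrable (fun x => |x - c| ^ (-θ)) volume (-1) c := by
    have h := (i0 (c + 1) 0).comp_sub_left c
    simp only [sub_add_cancel_left, sub_zero] at h
    refine h.congr ?_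
    intro x hx
    rw [uIoc_of_le hc.1] at hx
    simp only
    rw [abs_of_nonpos (by linarith [hx.2]), neg_sub]
  have i2 : IntervalIntegrable (fun x => |x - c| ^ (-θ)) volume c 1 := by
    have h := (i0 0 (1 - c)).comp_sub_right c
    simp only [zero_add, sub_add_cancel] at h
    refine h.congr ?_
    intro x hx
    rw [uIoc_of_le hc.2] at hx
    simp only
    rw [abs_of_nonneg (by linarith [hx.1])]
  refine ⟨i1.trans i2, ?_⟩
  rw [← intervalIntegral.integral_add_adjacent_intervals i1 i2]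
  have e1 : ∫ x in (-1:ℝ)..c, |x - c| ^ (-θ) = (c + 1) ^ (1 - θ) / (1 - θ) := by
    rw [← sing_pos hθ (by linarith [hc.1])]
    have h := intervalIntegral.integral_comp_sub_left (fun u : ℝ => u ^ (-θ)) c (a := -1) (b := c)
    simp only [sub_self, sub_neg_eq_add] at h
    rw [← h]
    apply intervalIntegral.integral_congr
    intro x hx
    rw [uIcc_of_le hc.1] at hx
    simp only
    rw [abs_of_nonpos (by linarith [hx.2]), neg_sub]
  have e2 : ∫ x in c..(1:ℝ), |x - c| ^ (-θ) = (1 - c) ^ (1 - θ) / (1 - θ) := by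
    rw [← sing_pos hθ (by linarith [hc.2])]
    have h := intervalIntegral.integral_comp_sub_right (fun u : ℝ => u ^ (-θ)) c (a := c) (b := 1)
    simp only [sub_self] at h
    rw [← h]
    apply intervalIntegral.integral_congr
    intro x hx
    rw [uIcc_of_le hc.2] at hx
    simp only
    rw [abs_of_nonneg (by linarith [hx.1])]
  rw [e1, e2, ← add_div]
  apply div_le_div_of_nonneg_right _ (by linarith)
  have h1 : (c + 1) ^ (1 - θ) ≤ 2 ^ (1 - θ) :=
    Real.rpow_le_rpow (by linarith [hc.1]) (by linarith [hc.2]) (by linarith)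
  have h2 : (1 - c) ^ (1 - θ) ≤ 2 ^ (1 - θ) :=
    Real.rpow_le_rpow (by linarith [hc.2]) (by linarith [hc.1]) (by linarith)
  linarith

lemma sing_integrable {θ c : ℝ} (hθ : θ < 1) (hc : c ∈ Icc (-1 : ℝ) 1) :
    Integrable (fun x => |x - c| ^ (-θ)) mu := by
  have h := (sing_int hθ hc).1
  rw [intervalIntegrable_iff_integrableOn_Icc_of_le (by norm_num)] at h
  exact h

/-- The constant `I_θ`. -/
noncomputable def Ic (θ : ℝ) : ℝ := 2 * 2 ^ (1 - θ) / (1 - θ)

lemma Ic_nonneg {θ : ℝ} (hθ : θ < 1) : 0 ≤ Ic θ := by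
  unfold Ic
  have : 0 < 1 - θ := by linarith
  positivity

lemma mu_integral_eq (f : ℝ → ℝ) : ∫ x, f x ∂mu = ∫ x in (-1:ℝ)..1, f x := by
  unfold mu
  rw [intervalIntegral.integral_of_le (by norm_num), integral_Icc_eq_integral_Ioc]

lemma sing_integral_le {θ c : ℝ} (hθ : θ < 1) (hc : c ∈ Icc (-1 : ℝ) 1) :
    ∫ x, |x - c| ^ (-θ) ∂mu ≤ Ic θ := by
  rw [mu_integral_eq]
  exact (sing_int hθ hc).2

lemma sing_lintegral_le {θ c : ℝ} (hθ : θ < 1) (hc : c ∈ Icc (-1 : ℝ) 1) :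
    ∫⁻ x, ENNReal.ofReal (|x - c| ^ (-θ)) ∂mu ≤ ENNReal.ofReal (Ic θ) := by
  rw [← ofReal_integral_eq_lintegral_ofReal (sing_integrable hθ hc)]
  · exact ENNReal.ofReal_le_ofReal (sing_integral_le hθ hc)
  · filter_upwards with x
    positivity

lemma ae_Ioo : ∀ᵐ x ∂mu, x ∈ Ioo (-1 : ℝ) 1 := by
  have h1 : ∀ᵐ x ∂mu, x ∈ Icc (-1 : ℝ) 1 := ae_restrict_mem measurableSet_Icc
  have h2 : ∀ᵐ x ∂mu, x ≠ -1 := by
    unfold mu
    exact ae_restrict_of_ae (by simp [ae_iff])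
  have h3 : ∀ᵐ x ∂mu, x ≠ 1 := by
    unfold mu
    exact ae_restrict_of_ae (by simp [ae_iff])
  filter_upwards [h1, h2, h3] with x a b c
  exact ⟨lt_of_le_of_ne a.1 (Ne.symm b), lt_of_le_of_ne a.2 c⟩

/-- `w x ^ 2 ≤ |x-1|^{-1/2} + |x+1|^{-1/2}` -/
lemma w_sq_le {x : ℝ} (hx : x ∈ Ioo (-1 : ℝ) 1) :
    w x ^ 2 ≤ |x - 1| ^ (-(1/2) : ℝ) + |x - (-1)| ^ (-(1/2) : ℝ) := by
  have h0 := one_sub_sq_pos hx
  have key : ∀ t : ℝ, 0 < t → t ≤ 1 - x ^ 2 → w x ^ 2 ≤ t ^ (-(1/2) : ℝ) := by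
    intro t ht htx
    rw [w_sq, Real.sqrt_eq_rpow, ← Real.rpow_neg h0.le]
    exact Real.rpow_le_rpow_of_nonpos ht htx (by norm_num)
  rcases le_total 0 x with h | h
  · have h1 := key (|x - 1|) (abs_pos.mpr (by linarith [hx.2])) (by
      rw [abs_of_neg (by linarith [hx.2])]; nlinarith [hx.2])
    have : 0 ≤ |x - (-1)| ^ (-(1/2) : ℝ) := by positivity
    linarith
  · have h1 := key (|x - (-1)|) (abs_pos.mpr (by linarith [hx.1])) (by
      rw [abs_of_pos (by linarith [hx.1])]; nlinarith [hx.1])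
    have : 0 ≤ |x - 1| ^ (-(1/2) : ℝ) := by positivity
    linarith

/-- a bound for `∫ w²` -/
noncomputable def Cw : ℝ := 2 * Ic (1/2)

lemma Cw_nonneg : 0 ≤ Cw := by
  unfold Cw
  have := Ic_nonneg (θ := 1/2) (by norm_num)
  positivity

lemma lintegral_w_sq : ∫⁻ x, ENNReal.ofReal (w x ^ 2) ∂mu ≤ ENNReal.ofReal Cw := by
  calc ∫⁻ x, ENNReal.ofReal (w x ^ 2) ∂mu
      ≤ ∫⁻ x, (ENNReal.ofReal (|x - 1| ^ (-(1/2) : ℝ)) +
          ENNReal.ofReal (|x - (-1)| ^ (-(1/2) : ℝ))) ∂mu := by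
        apply lintegral_mono_ae
        filter_upwards [ae_Ioo] with x hx
        rw [← ENNReal.ofReal_add (by positivity) (by positivity)]
        exact ENNReal.ofReal_le_ofReal (w_sq_le hx)
    _ = (∫⁻ x, ENNReal.ofReal (|x - 1| ^ (-(1/2) : ℝ)) ∂mu) +
          ∫⁻ x, ENNReal.ofReal (|x - (-1)| ^ (-(1/2) : ℝ)) ∂mu := by
        apply lintegral_add_left
        fun_prop
    _ ≤ ENNReal.ofReal (Ic (1/2)) + ENNReal.ofReal (Ic (1/2)) :=
        add_le_add (sing_lintegral_le (by norm_num) (by constructor <;> norm_num))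
          (sing_lintegral_le (by norm_num) (by constructor <;> norm_num))
    _ = ENNReal.ofReal Cw := by
        rw [← ENNReal.ofReal_add (Ic_nonneg (by norm_num)) (Ic_nonneg (by norm_num)), Cw]
        congr 1; ring

/-- indicator of an interval -/
noncomputable def ind (c d : ℝ) : ℝ → ℝ := (Ico c d).indicator (fun _ => 1)

lemma integrable_ind (c d : ℝ) : Integrable (ind c d) mu :=
  (integrable_const (1 : ℝ)).indicator measurableSet_Ico

lemma S_ind (n : ℕ) {c d : ℝ} (hc : -1 ≤ c) (hcd : c ≤ d) (hd : d ≤ 1) (x : ℝ) :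
    S n (ind c d) x = ∫ y in c..d, K n x y := by
  unfold S ind mu
  have e : (fun y => K n x y * (Ico c d).indicator (fun _ => (1 : ℝ)) y) =
      (Ico c d).indicator (K n x) := by
    funext y
    by_cases h : y ∈ Ico c d <;> simp [h]
  rw [e, integral_indicator measurableSet_Ico, Measure.restrict_restrict measurableSet_Ico]
  have : Ico c d ∩ Icc (-1) 1 = Ico c d := by
    apply inter_eq_left.mpr
    intro y hy
    exact ⟨by linarith [hy.1], by linarith [hy.2]⟩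
  rw [this, integral_Ico_eq_integral_Ioc, intervalIntegral.integral_of_le hcd]

lemma lintegral_ind {c d : ℝ} : ∫⁻ x, ‖ind c d x‖ₑ ∂mu ≤ ENNReal.ofReal (d - c) := by
  have e : (fun x => ‖ind c d x‖ₑ) = (Ico c d).indicator (fun _ => (1 : ℝ≥0∞)) := by
    funext x
    by_cases h : x ∈ Ico c d <;> simp [ind, h]
  rw [e, lintegral_indicator measurableSet_Ico]
  simp only [lintegral_const, one_mul]
  calc (mu.restrict (Ico c d)) univ = mu (Ico c d) := by simp
    _ ≤ volume (Ico c d) := Measure.restrict_apply_le _ _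
    _ = _ := by simp

lemma measurable_w : Measurable w := by
  unfold w
  fun_prop

lemma w_le_w {x a : ℝ} (hxa : |x| ≤ a) (ha : a < 1) : w x ≤ w a := by
  unfold w
  have h0 : 0 < 1 - a ^ 2 := by
    have := abs_nonneg x
    nlinarith
  have h1 : 0 < Real.sqrt (1 - a ^ 2) := Real.sqrt_pos.mpr h0
  have h2 : 0 < Real.sqrt (Real.sqrt (1 - a ^ 2)) := Real.sqrt_pos.mpr h1
  apply inv_anti₀ h2
  apply Real.sqrt_le_sqrt
  apply Real.sqrt_le_sqrt
  have : x ^ 2 ≤ a ^ 2 := by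
    rw [← sq_abs x]
    exact pow_le_pow_left₀ (abs_nonneg _) hxa 2
  linarith

lemma integrable_w_sq : Integrable (fun x => w x ^ 2) mu := by
  refine ⟨(measurable_w.pow_const 2).aestronglyMeasurable, ?_⟩
  rw [hasFiniteIntegral_iff_enorm]
  have e : (fun x => ‖w x ^ 2‖ₑ) = fun x => ENNReal.ofReal (w x ^ 2) := by
    funext x
    rw [Real.enorm_eq_ofReal (by positivity)]
  rw [e]
  exact lintegral_w_sq.trans_lt ENNReal.ofReal_lt_top

lemma integral_w_sq_le : ∫ x, w x ^ 2 ∂mu ≤ Cw := by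
  have h := lintegral_w_sq
  rw [← ofReal_integral_eq_lintegral_ofReal integrable_w_sq
    (Eventually.of_forall fun x => by positivity)] at h
  exact (ENNReal.ofReal_le_ofReal_iff Cw_nonneg).mp h

lemma N1_le_integral {g B : ℝ → ℝ} (hB : Integrable B mu)
    (h : ∀ x ∈ Ioo (-1 : ℝ) 1, ∀ n, |S n g x| ≤ B x) : N1 g ≤ ENNReal.ofReal (∫ x, B x ∂mu) := by
  have h0 : 0 ≤ᵐ[mu] B := by
    filter_upwards [ae_Ioo] with x hx
    exact (abs_nonneg _).trans (h x hx 0)
  rw [ofReal_integral_eq_lintegral_ofReal hB h0]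
  unfold N1
  apply lintegral_mono_ae
  filter_upwards [ae_Ioo] with x hx
  apply iSup_le
  intro n
  rw [← ofReal_norm_eq_enorm]
  exact ENNReal.ofReal_le_ofReal (h x hx n)

lemma interp {A T L δ θ : ℝ} (hθ0 : 0 ≤ θ) (hθ1 : θ ≤ 1) (hL : 0 < L) (hδ : 0 < δ) (hA : 0 ≤ A)
    (h1 : T ≤ 14 * A) (h2 : T ≤ A * (L / δ)) : T ≤ 14 * A * (L ^ θ * δ ^ (-θ)) := by
  have e : L ^ θ * δ ^ (-θ) = (L / δ) ^ θ := by
    rw [Real.div_rpow hL.le hδ.le, Real.rpow_neg hδ.le]; rfl
  rw [e]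
  have hr : 0 < L / δ := by positivity
  rcases le_total (L / δ) 1 with h | h
  · have h3 : L / δ ≤ (L / δ) ^ θ := by
      calc L / δ = (L / δ) ^ (1:ℝ) := (Real.rpow_one _).symm
        _ ≤ _ := Real.rpow_le_rpow_of_exponent_ge hr h hθ1
    calc T ≤ A * (L / δ) := h2
      _ ≤ 14 * A * (L / δ) ^ θ := by
        have := mul_le_mul_of_nonneg_left h3 hA
        have : 0 ≤ A * (L / δ) ^ θ := by positivity
        linarith
  · have h3 : 1 ≤ (L / δ) ^ θ := Real.one_le_rpow h hθ0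
    calc T ≤ 14 * A := h1
      _ = 14 * A * 1 := by ring
      _ ≤ _ := mul_le_mul_of_nonneg_left h3 (by positivity)

lemma S_ind_le {n : ℕ} {x c d W θ : ℝ} (hθ0 : 0 ≤ θ) (hθ1 : θ ≤ 1) (hx : x ∈ Ioo (-1 : ℝ) 1)
    (hcd : c < d) (hc : -1 < c) (hd : d < 1) (hW : ∀ y ∈ Icc c d, w y ≤ W) :
    |S n (ind c d) x| ≤ 14 * (w x * W) * ((d - c) ^ θ * |x - c| ^ (-θ)) +
      14 * (w x * W) * ((d - c) ^ θ * |x - d| ^ (-θ)) := by
  rw [S_ind n hc.le hcd.le hd.le]
  have hW0 : 0 ≤ W := (w_nonneg c).trans (hW c ⟨le_rfl, hcd.le⟩)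
  have hw0 := w_nonneg x
  have hA : 0 ≤ w x * W := by positivity
  have hL : 0 < d - c := by linarith
  have n1 : 0 ≤ 14 * (w x * W) * ((d - c) ^ θ * |x - c| ^ (-θ)) := by positivity
  have n2 : 0 ≤ 14 * (w x * W) * ((d - c) ^ θ * |x - d| ^ (-θ)) := by positivity
  have b0 := integral_K_le (n := n) hx hcd.le hc hd hW
  have big : ∀ δ, 0 < δ → δ ≤ d - c → |∫ y in c..d, K n x y| ≤
      14 * (w x * W) * ((d - c) ^ θ * δ ^ (-θ)) := by
    intro δ hδ hδL
    have e : (d - c) ^ θ * δ ^ (-θ) = ((d - c) / δ) ^ θ := by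
      rw [Real.div_rpow hL.le hδ.le, Real.rpow_neg hδ.le]; rfl
    rw [e]
    have : 1 ≤ ((d - c) / δ) ^ θ := Real.one_le_rpow ((one_le_div hδ).mpr hδL) hθ0
    calc _ ≤ 14 * (w x * W) := b0
      _ = 14 * (w x * W) * 1 := by ring
      _ ≤ _ := mul_le_mul_of_nonneg_left this (by positivity)
  rcases lt_or_ge x c with h1 | h1
  · have hδ : 0 < c - x := by linarith
    have b1 := integral_K_dist (n := n) hx hδ hcd.le hc hd (fun y hy => by
      rw [abs_of_nonpos (by linarith [hy.1])]; linarith [hy.1]) hW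
    have := interp hθ0 hθ1 hL hδ hA b0 b1
    rw [abs_of_neg (by linarith : x - c < 0), neg_sub]
    linarith
  · rcases lt_or_ge d x with h2 | h2
    · have hδ : 0 < x - d := by linarith
      have b1 := integral_K_dist (n := n) hx hδ hcd.le hc hd (fun y hy => by
        rw [abs_of_nonneg (by linarith [hy.2])]; linarith [hy.2]) hW
      have := interp hθ0 hθ1 hL hδ hA b0 b1
      rw [abs_of_pos (by linarith : 0 < x - d)]
      linarith
    · rcases eq_or_lt_of_le h1 with h3 | h3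
      · have := big |x - d| (abs_pos.mpr (by rw [← h3]; linarith)) (by
          rw [← h3, abs_of_neg (by linarith)]; linarith)
        linarith
      · have := big |x - c| (abs_pos.mpr (by linarith)) (by
          rw [abs_of_pos (by linarith)]; linarith)
        linarith

lemma w_mul_le {x p s θ : ℝ} (hs : 0 < s) (hθ0 : 0 ≤ θ) (hx : x ∈ Ioo (-1 : ℝ) 1)
    (hp : p ∈ Icc (-1 + s) (1 - s)) :
    w x * |x - p| ^ (-θ) ≤ w (1 - s / 2) * |x - p| ^ (-θ) + (s / 2) ^ (-θ) * w x ^ 2 := by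
  have h1 := one_le_w hx
  have hp1 : |p| ≤ 1 - s := abs_le.mpr ⟨by linarith [hp.1], hp.2⟩
  have h0 : 0 ≤ |x - p| ^ (-θ) := by positivity
  have hs1 : 0 ≤ (s / 2) ^ (-θ) := by positivity
  rcases le_or_gt |x - p| (s / 2) with h | h
  · have h2 : |x| ≤ 1 - s / 2 := by
      have := abs_sub_abs_le_abs_sub x p
      linarith
    have h3 := w_le_w h2 (by linarith)
    have h4 : w x * |x - p| ^ (-θ) ≤ w (1 - s / 2) * |x - p| ^ (-θ) :=
      mul_le_mul_of_nonneg_right h3 h0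
    have : 0 ≤ (s / 2) ^ (-θ) * w x ^ 2 := by positivity
    linarith
  · have h2 : |x - p| ^ (-θ) ≤ (s / 2) ^ (-θ) :=
      Real.rpow_le_rpow_of_nonpos (by linarith) h.le (by linarith)
    have h3 : w x * |x - p| ^ (-θ) ≤ (s / 2) ^ (-θ) * w x ^ 2 := by
      calc w x * |x - p| ^ (-θ) ≤ w x * (s / 2) ^ (-θ) :=
            mul_le_mul_of_nonneg_left h2 (w_nonneg x)
        _ ≤ (s / 2) ^ (-θ) * w x ^ 2 := by
            rw [mul_comm]
            apply mul_le_mul_of_nonneg_left _ hs1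
            nlinarith
    have : 0 ≤ w (1 - s / 2) * |x - p| ^ (-θ) := mul_nonneg (w_nonneg _) h0
    linarith

lemma ind_self (c : ℝ) : ind c c = fun _ => 0 := by
  funext x; simp [ind]

/-- local cost of an interval -/
lemma N_ind_local {s θ : ℝ} (hs : 0 < s) (hθ0 : 0 ≤ θ) (hθ1 : θ < 1) :
    ∃ C : ℝ, 0 ≤ C ∧ ∀ c d : ℝ, -1 + s ≤ c → c ≤ d → d ≤ 1 - s →
      N (ind c d) ≤ ENNReal.ofReal (C * (d - c) ^ θ) := by
  set W := w (1 - s) with hWdef
  set W' := w (1 - s / 2) with hW'def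
  set D : ℝ := 14 * W * (2 * (W' * Ic θ) + 2 * ((s / 2) ^ (-θ) * Cw)) with hD
  have hW0 : 0 ≤ W := w_nonneg _
  have hW'0 : 0 ≤ W' := w_nonneg _
  have hI := Ic_nonneg hθ1
  have hCw := Cw_nonneg
  have hsθ : 0 ≤ (s / 2) ^ (-θ) := by positivity
  have hD0 : 0 ≤ D := by positivity
  refine ⟨D + 2, by positivity, ?_⟩
  intro c d hc hcd hd
  rcases eq_or_lt_of_le hcd with rfl | hlt
  · rw [ind_self, N_zero]; exact zero_le
  have hL : 0 < d - c := by linarith
  have hLθ : 0 ≤ (d - c) ^ θ := by positivity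
  have hcI : c ∈ Icc (-1 + s) (1 - s) := ⟨hc, by linarith⟩
  have hdI : d ∈ Icc (-1 + s) (1 - s) := ⟨by linarith, hd⟩
  have hc1 : c ∈ Icc (-1 : ℝ) 1 := ⟨by linarith, by linarith⟩
  have hd1 : d ∈ Icc (-1 : ℝ) 1 := ⟨by linarith, by linarith⟩
  have hWb : ∀ y ∈ Icc c d, w y ≤ W := by
    intro y hy
    apply w_le_w _ (by linarith)
    exact abs_le.mpr ⟨by linarith [hy.1], by linarith [hy.2]⟩
  have hB : ∀ x ∈ Ioo (-1 : ℝ) 1, ∀ n, |S n (ind c d) x| ≤
      14 * W * (d - c) ^ θ * (W' * |x - c| ^ (-θ) + W' * |x - d| ^ (-θ) +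
        2 * (s / 2) ^ (-θ) * w x ^ 2) := by
    intro x hx n
    refine (S_ind_le (n := n) hθ0 hθ1.le hx hlt (by linarith) (by linarith) hWb).trans ?_
    have a1 := w_mul_le hs hθ0 hx hcI
    have a2 := w_mul_le hs hθ0 hx hdI
    have e : 14 * (w x * W) * ((d - c) ^ θ * |x - c| ^ (-θ)) +
      14 * (w x * W) * ((d - c) ^ θ * |x - d| ^ (-θ)) =
      14 * W * (d - c) ^ θ * (w x * |x - c| ^ (-θ) + w x * |x - d| ^ (-θ)) := by ring
    rw [e]
    apply mul_le_mul_of_nonneg_left _ (by positivity)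
    linarith
  have i1 := sing_integrable hθ1 hc1
  have i2 := sing_integrable hθ1 hd1
  have i3 := integrable_w_sq
  have hInt : Integrable (fun x => 14 * W * (d - c) ^ θ * (W' * |x - c| ^ (-θ) +
      W' * |x - d| ^ (-θ) + 2 * (s / 2) ^ (-θ) * w x ^ 2)) mu :=
    (((i1.const_mul W').add (i2.const_mul W')).add (i3.const_mul _)).const_mul _
  have h1 := N1_le_integral hInt hB
  have h2 : ∫ x, 14 * W * (d - c) ^ θ * (W' * |x - c| ^ (-θ) +
      W' * |x - d| ^ (-θ) + 2 * (s / 2) ^ (-θ) * w x ^ 2) ∂mu ≤ D * (d - c) ^ θ := by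
    have q1 : Integrable (fun x => W' * |x - c| ^ (-θ)) mu := i1.const_mul W'
    have q2 : Integrable (fun x => W' * |x - d| ^ (-θ)) mu := i2.const_mul W'
    have q3 : Integrable (fun x => 2 * (s / 2) ^ (-θ) * w x ^ 2) mu := i3.const_mul _
    have q12 : Integrable (fun x => W' * |x - c| ^ (-θ) + W' * |x - d| ^ (-θ)) mu := q1.add q2
    rw [integral_const_mul, integral_add q12 q3, integral_add q1 q2, integral_const_mul,
      integral_const_mul, integral_const_mul]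
    have j1 := sing_integral_le hθ1 hc1
    have j2 := sing_integral_le hθ1 hd1
    have j3 := integral_w_sq_le
    have k1 := mul_le_mul_of_nonneg_left j1 hW'0
    have k2 := mul_le_mul_of_nonneg_left j2 hW'0
    have k3 := mul_le_mul_of_nonneg_left j3 (by positivity : 0 ≤ 2 * (s / 2) ^ (-θ))
    calc _ ≤ 14 * W * (d - c) ^ θ * (W' * Ic θ + W' * Ic θ + 2 * (s / 2) ^ (-θ) * Cw) := by
          apply mul_le_mul_of_nonneg_left _ (by positivity)
          linarith
      _ = _ := by rw [hD]; ring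
  have h3 : d - c ≤ 2 * (d - c) ^ θ := by
    have hle2 : d - c ≤ 2 := by linarith
    have e : d - c = (d - c) ^ (1 - θ) * (d - c) ^ θ := by
      rw [← Real.rpow_add hL]; simp
    have : (d - c) ^ (1 - θ) ≤ 2 := by
      calc (d - c) ^ (1 - θ) ≤ 2 ^ (1 - θ) :=
            Real.rpow_le_rpow hL.le hle2 (by linarith)
        _ ≤ 2 ^ (1:ℝ) := Real.rpow_le_rpow_of_exponent_le (by norm_num) (by linarith)
        _ = 2 := by simp
    calc d - c = (d - c) ^ (1 - θ) * (d - c) ^ θ := e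
      _ ≤ 2 * (d - c) ^ θ := mul_le_mul_of_nonneg_right this hLθ
  unfold N
  calc N1 (ind c d) + ∫⁻ x, ‖ind c d x‖ₑ ∂mu
      ≤ ENNReal.ofReal (D * (d - c) ^ θ) + ENNReal.ofReal (2 * (d - c) ^ θ) :=
        add_le_add (h1.trans (ENNReal.ofReal_le_ofReal h2))
          (lintegral_ind.trans (ENNReal.ofReal_le_ofReal h3))
    _ = ENNReal.ofReal ((D + 2) * (d - c) ^ θ) := by
        rw [← ENNReal.ofReal_add (by positivity) (by positivity)]
        congr 1; ring

end Pool.Agent.LegRe
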