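import Pool.Agent.LegRe.Round2

/-! Iterating the rounds. -/

namespace Pool.Agent.LegRe

open MeasureTheory Set ENNReal Filter Topology

lemma State.mono_B {F0 F G : ℝ → ℝ} {m s c cinf v A B B' : ℝ} {Hi Lo : Set ℝ}
    (st : State F0 F G m s c cinf v A B Hi Lo) (h : B ≤ B') :
    State F0 F G m s c cinf v A B' Hi Lo := by
  obtain ⟨mF, hi, lo, dj, un, gz, gm, ff, fb⟩ := st
  refine ⟨mF, hi, lo, dj, un, gz, gm, ff, ?_⟩
  filter_upwards [fb] with x hx hxa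
  exact (hx hxa).trans h

lemma State.close {F0 F G : ℝ → ℝ} {m s c cinf v A B : ℝ} {Hi Lo : Set ℝ}
    (st : State F0 F G m s c cinf v A B Hi Lo) (hA : 0 ≤ A) (hs0 : 0 ≤ s) (hs1 : s ≤ 1 / 4)
    (hc0 : 0 ≤ c) (hci : c ≤ cinf) (hcinf : cinf ≤ 1 / 2)
    (hz : ∀ᵐ x ∂mu, x ∈ zone s → v ≤ F0 x ∧ F0 x ≤ v + A) :
    ∀ᵐ x ∂mu, x ∉ Ico c cinf → |F x - G x| ≤ A := by
  obtain ⟨mF, hi, lo, dj, un, gz, gm, ff, fb⟩ := st
  have h1 := hi.ae
  have h2 := High.ae lo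
  filter_upwards [h1, h2, ff, hz, ae_Ioo] with x a1 a2 a3 a4 a5 hx
  by_cases hxa : x ∈ act s c cinf
  · rw [← un] at hxa
    rcases hxa with h | h
    · obtain ⟨_, b1, b2⟩ := a1 h
      rw [abs_le]; constructor <;> linarith
    · obtain ⟨_, b1, b2⟩ := a2 h
      rw [abs_le]; constructor <;> linarith
  · have hxz : x ∈ zone s := by
      unfold act at hxa
      simp only [mem_union, mem_Ico, not_or, not_and, not_lt] at hxa
      unfold zone
      simp only [mem_union, mem_Ico]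
      rcases lt_or_ge x (-1 + s) with h | h
      · exact Or.inl ⟨a5.1.le, h⟩
      · right
        have hc := hxa.1 h
        have hcx : cinf ≤ x := by
          by_contra hcon
          push Not at hcon
          exact hx ⟨hc, hcon⟩
        exact ⟨hxa.2 hcx, a5.2⟩
    rw [a3 hxa, gz x hxz]
    obtain ⟨b1, b2⟩ := a4 hxz
    rw [abs_le]; constructor <;> linarith

/-- cost of a round -/
noncomputable def rcost (A B η C θ d : ℝ) (K : ℕ) : ℝ :=
  2 * (CR * (A * (1 + Real.log K)) + 4 * A + η) + 4 * (2 * B) * (C * d ^ θ) + 2 * (A * Cu)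

theorem iterate {F0 Fi Gi : ℝ → ℝ} {m γ cinf C θ : ℝ} {s c v A B η : ℕ → ℝ} {K : ℕ → ℕ}
    [∀ j, NeZero (K j)] (hs0 : ∀ j, 0 < s j) (hss : ∀ j, s (j + 1) ≤ s j) (hs1 : ∀ j, s j ≤ 1 / 4)
    (hc0 : ∀ j, 0 ≤ c j) (hcc : ∀ j, c j < c (j + 1)) (hci : ∀ j, c j ≤ cinf)
    (hcinf : cinf ≤ 1 / 2) (hA : ∀ j, 0 < A j) (hγ : 0 < γ) (hAγ : ∀ j, 2 * A j ≤ γ)
    (hη : ∀ j, 0 < η j) (hv : ∀ j, m ≤ v j) (hvv : ∀ j, |v (j + 1) - v j| ≤ A j)
    (hmB : ∀ j, |m| + γ ≤ B j) (hvB : ∀ j, v j + A j ≤ B j) (hBB : ∀ j, B j ≤ B (j + 1))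
    (hKA : ∀ j, 4 * (A j + 2 * B j) / A (j + 1) ≤ K j)
    (hz : ∀ j, ∀ᵐ x ∂mu, x ∈ zone (s j) → v j ≤ F0 x ∧ F0 x ≤ v j + A j)
    (hblk : ∀ j, ∀ᵐ x ∂mu, x ∈ Ico (c j) (c (j + 1)) → |F0 x| ≤ B j)
    (hr1 : ∀ j, ENNReal.ofReal (3 * A j / γ) ≤ mu (Ico (c j) (c (j + 1)) ∩ {x | F0 x < m - γ}))
    (hr2 : ∀ j, ENNReal.ofReal (3 * A j / γ) ≤ mu (Ico (c j) (c (j + 1)) ∩ {x | m + γ < F0 x}))
    (hC : 0 ≤ C) (hθ : 0 ≤ θ)
    (hΦ : ∀ c d : ℝ, 0 ≤ c → c ≤ d → d ≤ 1 / 2 → N (ind c d) ≤ ENNReal.ofReal (C * (d - c) ^ θ))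
    (hGi : Integrable Gi mu) (hNGi : N Gi ≠ ∞)
    (st0 : ∃ Hi Lo, State F0 Fi Gi m (s 0) (c 0) cinf (v 0) (A 0) (B 0) Hi Lo)
    (hlimA : Tendsto A atTop (𝓝 0)) (hlimc : Tendsto c atTop (𝓝 cinf))
    (hsum : Summable (fun j => rcost (A j) (B j) (η j) C θ (c (j + 1) - c j) (K j)))
    (hmv : Summable (fun j => 7 * (c (j + 1) - c j) + 2 * η j)) :
    ∃ ω : ℝ → ℝ, Iso ω ∧
      mu {x | ω x ≠ x} ≤ ENNReal.ofReal (∑' j, (7 * (c (j + 1) - c j) + 2 * η j)) ∧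
      N1 (fun x => Fi (ω x)) ≠ ∞ := by
  classical
  -- the type of states
  let T : ℕ → Type := fun j => {FG : (ℝ → ℝ) × (ℝ → ℝ) // ∃ Hi Lo,
    State F0 FG.1 FG.2 m (s j) (c j) cinf (v j) (A j) (B j) Hi Lo}
  have hstep : ∀ j (t : T j), ∃ (e D : ℝ → ℝ), Iso e ∧ Integrable D mu ∧
      (∃ Hi' Lo', State F0 (fun x => t.1.1 (e x)) (fun x => t.1.2 x + D x) m (s (j + 1))
        (c (j + 1)) cinf (v (j + 1)) (A (j + 1)) (B (j + 1)) Hi' Lo') ∧
      mu {x | e x ≠ x} ≤ ENNReal.ofReal (7 * (c (j + 1) - c j) + 2 * η j) ∧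
      N D ≤ ENNReal.ofReal (rcost (A j) (B j) (η j) C θ (c (j + 1) - c j) (K j)) := by
    rintro j ⟨⟨F, G⟩, Hi, Lo, st⟩
    obtain ⟨e, D, Hi', Lo', h1, h2, h3, h4, h5⟩ := round_step (K j) (hs0 (j + 1)) (hss j) (hs1 j)
      (hc0 j) (hcc j) (hci (j + 1)) hcinf (hA j) (hA (j + 1)) hγ (hAγ j) (hη j) (hv j) (hvv j)
      (hmB j) (hvB j) (hKA j) (hz j) (hblk j) (hr1 j) (hr2 j) hC hθ hΦ st
    exact ⟨e, D, h1, h2, ⟨Hi', Lo', h3.mono_B (hBB j)⟩, h4, h5⟩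
  choose e D he hDi hst hmove hcost using hstep
  let next : ∀ j, T j → T (j + 1) := fun j t =>
    ⟨(fun x => t.1.1 (e j t x), fun x => t.1.2 x + D j t x), hst j t⟩
  let seq : ∀ j, T j := fun j => Nat.rec (motive := T) ⟨(Fi, Gi), st0⟩ next j
  let es : ℕ → ℝ → ℝ := fun j => e j (seq j)
  let Ds : ℕ → ℝ → ℝ := fun j => D j (seq j)
  let Fs : ℕ → ℝ → ℝ := fun j => (seq j).1.1
  let Gs : ℕ → ℝ → ℝ := fun j => (seq j).1.2
  have hF0 : Fs 0 = Fi := rfl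
  have hG0 : Gs 0 = Gi := rfl
  have hFsucc : ∀ j, Fs (j + 1) = fun x => Fs j (es j x) := fun j => rfl
  have hGsucc : ∀ j, Gs (j + 1) = fun x => Gs j x + Ds j x := fun j => rfl
  have hFcomp : ∀ j x, Fs j x = Fi (comps es j x) := by
    intro j
    induction j with
    | zero => intro x; rw [hF0]; rfl
    | succ j ih => intro x; rw [hFsucc]; simp only; rw [ih]; rfl
  have hpos : ∀ j, 0 ≤ 7 * (c (j + 1) - c j) + 2 * η j := fun j => by
    have := hcc j; have := hη j; linarith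
  have hrpos : ∀ j, 0 ≤ rcost (A j) (B j) (η j) C θ (c (j + 1) - c j) (K j) := by
    intro j
    have h1 : (1:ℝ) ≤ K j := by exact_mod_cast Nat.pos_of_ne_zero (NeZero.ne (K j))
    have h2 : 0 ≤ Real.log (K j) := Real.log_nonneg h1
    have h3 := CR_nonneg
    have h4 := Cu_nonneg
    have h5 : 0 ≤ (c (j + 1) - c j) ^ θ := Real.rpow_nonneg (by linarith [hcc j]) _
    have h6 : 0 ≤ B j := by have := hmB j; have := abs_nonneg m; linarith
    have h7 := (hA j).le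
    have h8 := (hη j).le
    unfold rcost
    positivity
  have hmovesum : ∑' j, mu {x | es j x ≠ x} ≤
      ENNReal.ofReal (∑' j, (7 * (c (j + 1) - c j) + 2 * η j)) := by
    rw [ENNReal.ofReal_tsum_of_nonneg hpos hmv]
    exact ENNReal.tsum_le_tsum fun j => hmove j (seq j)
  have hcostsum : ∑' j, N (Ds j) ≠ ∞ := by
    have h1 : ∑' j, N (Ds j) ≤ ENNReal.ofReal
        (∑' j, rcost (A j) (B j) (η j) C θ (c (j + 1) - c j) (K j)) := by
      rw [ENNReal.ofReal_tsum_of_nonneg hrpos hsum]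
      exact ENNReal.tsum_le_tsum fun j => hcost j (seq j)
    exact ne_top_of_le_ne_top ENNReal.ofReal_ne_top h1
  obtain ⟨ω, hω, hωlim, hωm⟩ := exists_iso_limit es (fun j => he j (seq j))
    (ne_top_of_le_ne_top ENNReal.ofReal_ne_top hmovesum)
  refine ⟨ω, hω, hωm.trans hmovesum, ?_⟩
  have hFim : Measurable Fi := by
    obtain ⟨Hi, Lo, st⟩ := st0
    exact st.mF
  set Finf : ℝ → ℝ := fun x => Fi (ω x) with hFinf
  have hFinfm : Measurable Finf := hFim.comp hω.1.measurable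
  -- a.e. convergence of G_j
  have hclose : ∀ᵐ x ∂mu, ∀ j, x ∉ Ico (c j) cinf → |Fs j x - Gs j x| ≤ A j := by
    rw [ae_all_iff]
    intro j
    obtain ⟨Hi, Lo, st⟩ := (seq j).2
    exact st.close (hA j).le (hs0 j).le (hs1 j) (hc0 j) (hci j) hcinf (hz j)
  have hconv : ∀ᵐ x ∂mu, Tendsto (fun j => Gs j x) atTop (𝓝 (Finf x)) := by
    filter_upwards [hclose, hωlim] with x h1 h2
    have hev : ∀ᶠ j in atTop, |Gs j x - Finf x| ≤ A j := by
      have h3 : ∀ᶠ j in atTop, x ∉ Ico (c j) cinf := by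
        rcases lt_or_ge x cinf with h | h
        · filter_upwards [hlimc.eventually (lt_mem_nhds h)] with j hj hmem
          linarith [hmem.1]
        · exact Eventually.of_forall fun j hmem => by linarith [hmem.2]
      filter_upwards [h2, h3] with j a1 a2
      have e1 : Finf x = Fs j x := by
        rw [hFcomp]; simp only [hFinf]; rw [a1]
      rw [e1, abs_sub_comm]
      exact h1 j a2
    rw [tendsto_iff_norm_sub_tendsto_zero]
    apply squeeze_zero' (Eventually.of_forall fun j => norm_nonneg _) _ hlimA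
    filter_upwards [hev] with j hj
    exact hj
  -- G_j integrable
  have hGsi : ∀ j, Integrable (Gs j) mu := by
    intro j
    induction j with
    | zero => exact hGi
    | succ j ih => rw [hGsucc]; exact ih.add (hDi j (seq j))
  have hGsN : ∀ j, N (Gs j) ≤ N Gi + ∑ i ∈ Finset.range j, N (Ds i) := by
    intro j
    induction j with
    | zero => simp [hG0]
    | succ j ih =>
      rw [hGsucc, Finset.sum_range_succ, ← add_assoc]
      exact (N_add_le (hGsi j) (hDi j (seq j))).trans (add_le_add ih le_rfl)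
  have hdiff : ∀ J M x, ‖Gs (J + M) x - Gs J x‖ₑ ≤ ∑ i ∈ Finset.range M, ‖Ds (i + J) x‖ₑ := by
    intro J M x
    induction M with
    | zero => simp
    | succ M ih =>
      rw [Finset.sum_range_succ]
      have e1 : Gs (J + (M + 1)) x - Gs J x = (Gs (J + M) x - Gs J x) + Ds (M + J) x := by
        have : Gs (J + (M + 1)) x = Gs (J + M) x + Ds (J + M) x := by
          have := congrFun (hGsucc (J + M)) x
          exact this
        rw [this, add_comm M J]; ring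
      rw [e1]
      exact (enorm_add_le _ _).trans (add_le_add ih le_rfl)
  have hDm : ∀ j, ∫⁻ x, ‖Ds j x‖ₑ ∂mu ≤ N (Ds j) := fun j => by unfold N; exact le_add_self
  have hLsum : ∑' j, ∫⁻ x, ‖Ds j x‖ₑ ∂mu ≠ ∞ :=
    ne_top_of_le_ne_top hcostsum (ENNReal.tsum_le_tsum hDm)
  have hL1 : ∀ J, ∫⁻ x, ‖Finf x - Gs J x‖ₑ ∂mu ≤ ∑' i, ∫⁻ x, ‖Ds (i + J) x‖ₑ ∂mu := by
    intro J
    rw [← lintegral_tsum (fun i => (hDi (i + J) (seq (i + J))).1.enorm)]
    apply lintegral_mono_ae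
    filter_upwards [hconv] with x hx
    have h1 : Tendsto (fun M => ‖Gs (J + M) x - Gs J x‖ₑ) atTop (𝓝 ‖Finf x - Gs J x‖ₑ) := by
      apply Tendsto.enorm
      apply Tendsto.sub_const
      have := (tendsto_add_atTop_iff_nat J).mpr hx
      refine this.congr fun M => ?_
      rw [add_comm]
    apply le_of_tendsto h1
    filter_upwards with M
    exact (hdiff J M x).trans (ENNReal.sum_le_tsum _)
  have hlim : Tendsto (fun J => ∫⁻ x, ‖Finf x - Gs J x‖ₑ ∂mu) atTop (𝓝 0) := by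
    have h1 := ENNReal.tendsto_sum_nat_add (fun j => ∫⁻ x, ‖Ds j x‖ₑ ∂mu) hLsum
    exact tendsto_of_tendsto_of_tendsto_of_le_of_le tendsto_const_nhds h1 (fun _ => zero_le) hL1
  have hFinfi : Integrable Finf mu := by
    refine ⟨hFinfm.aestronglyMeasurable, ?_⟩
    rw [hasFiniteIntegral_iff_enorm]
    have h1 : ∫⁻ x, ‖Finf x‖ₑ ∂mu ≤ (∫⁻ x, ‖Finf x - Gs 0 x‖ₑ ∂mu) + ∫⁻ x, ‖Gs 0 x‖ₑ ∂mu := by
      rw [← lintegral_add_right' _ (hGsi 0).1.enorm]
      apply lintegral_mono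
      intro x
      have : Finf x = (Finf x - Gs 0 x) + Gs 0 x := by ring
      calc ‖Finf x‖ₑ = ‖(Finf x - Gs 0 x) + Gs 0 x‖ₑ := by rw [← this]
        _ ≤ _ := enorm_add_le _ _
    have h2 : ∫⁻ x, ‖Finf x - Gs 0 x‖ₑ ∂mu < ∞ := by
      refine lt_of_le_of_lt (hL1 0) ?_
      simpa using hLsum.lt_top
    have h3 : ∫⁻ x, ‖Gs 0 x‖ₑ ∂mu < ∞ := by
      have := (hGsi 0).2
      rwa [hasFiniteIntegral_iff_enorm] at this
    exact lt_of_le_of_lt h1 (ENNReal.add_lt_top.mpr ⟨h2, h3⟩)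
  have hfin : N1 Finf ≤ N Gi + ∑' j, N (Ds j) := by
    apply N1_le_of_tendsto hFinfi hGsi hlim
    intro J
    calc N1 (Gs J) ≤ N (Gs J) := by unfold N; exact le_self_add
      _ ≤ N Gi + ∑ i ∈ Finset.range J, N (Ds i) := hGsN J
      _ ≤ _ := add_le_add le_rfl (ENNReal.sum_le_tsum _)
  exact ne_top_of_le_ne_top (ENNReal.add_ne_top.mpr ⟨hNGi, hcostsum⟩) hfin

end Pool.Agent.LegRe
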