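import Pool.Agent.LegRe.Legendre

/-! Bounds for the Legendre kernel. -/

namespace Pool.Agent.LegRe

open Polynomial MeasureTheory Set

lemma abs_P_le' (n : ℕ) {x : ℝ} (hx : x ∈ Ioo (-1 : ℝ) 1) :
    |P n x| ≤ w x := by
  refine (abs_P_le n hx).trans ?_
  apply div_le_self (w_nonneg x)
  rw [Real.one_le_sqrt]
  have : (0:ℝ) ≤ n := Nat.cast_nonneg n
  linarith

lemma term_le (k : ℕ) {x y : ℝ} (hx : x ∈ Ioo (-1 : ℝ) 1) (hy : y ∈ Ioo (-1 : ℝ) 1) :
    |(2 * (k : ℝ) + 1) / 2 * (P k x * P k y)| ≤ w x * w y := by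
  have h1 := abs_P_le k hx
  have h2 := abs_P_le k hy
  have hk : (0 : ℝ) < (k : ℝ) + 1 := by positivity
  have hs : 0 < Real.sqrt (k + 1) := Real.sqrt_pos.mpr hk
  have hss : Real.sqrt (k + 1) * Real.sqrt (k + 1) = (k : ℝ) + 1 := Real.mul_self_sqrt hk.le
  rw [abs_mul, abs_mul, abs_of_nonneg (by positivity : (0:ℝ) ≤ (2 * (k : ℝ) + 1) / 2)]
  have hwx := w_nonneg x
  have hwy := w_nonneg y
  have h3 : |P k x| * |P k y| ≤ (w x / Real.sqrt (k + 1)) * (w y / Real.sqrt (k + 1)) :=
    mul_le_mul h1 h2 (abs_nonneg _) (by positivity)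
  have h4 : (w x / Real.sqrt (k + 1)) * (w y / Real.sqrt (k + 1)) = w x * w y / (k + 1) := by
    rw [div_mul_div_comm, hss]
  rw [h4] at h3
  calc (2 * (k : ℝ) + 1) / 2 * (|P k x| * |P k y|)
      ≤ (2 * (k : ℝ) + 1) / 2 * (w x * w y / (k + 1)) :=
        mul_le_mul_of_nonneg_left h3 (by positivity)
    _ = (w x * w y) * (((2 * (k : ℝ) + 1) / 2) / (k + 1)) := by ring
    _ ≤ (w x * w y) * 1 := by
        apply mul_le_mul_of_nonneg_left _ (by positivity)
        rw [div_le_one hk]
        linarith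
    _ = w x * w y := mul_one _

lemma K_sub_le (m d : ℕ) {x y : ℝ} (hx : x ∈ Ioo (-1 : ℝ) 1) (hy : y ∈ Ioo (-1 : ℝ) 1) :
    |K (m + d) x y - K m x y| ≤ d * (w x * w y) := by
  induction d with
  | zero => simp
  | succ d ih =>
    have h := term_le (m + d + 1) hx hy
    have e : K (m + (d + 1)) x y - K m x y = (K (m + d) x y - K m x y) +
        (2 * ((m + d + 1 : ℕ) : ℝ) + 1) / 2 * (P (m + d + 1) x * P (m + d + 1) y) := by
      rw [← add_assoc, K_succ]; ring
    rw [e]
    refine (abs_add_le _ _).trans ?_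
    push_cast at h ⊢
    linarith

lemma K_le (n : ℕ) {x y : ℝ} (hx : x ∈ Ioo (-1 : ℝ) 1) (hy : y ∈ Ioo (-1 : ℝ) 1) :
    |K n x y| ≤ (n + 1) * (w x * w y) := by
  have h := K_sub_le 0 n hx hy
  rw [zero_add, K_zero] at h
  have hw : 1 ≤ w x * w y := by
    have := one_le_w hx
    have := one_le_w hy
    nlinarith
  have := abs_sub_abs_le_abs_sub (K n x y) (1 / 2)
  have h2 : |(1 / 2 : ℝ)| = 1 / 2 := abs_of_pos (by norm_num)
  linarith

lemma K_mul_le (n : ℕ) {x y : ℝ} (hx : x ∈ Ioo (-1 : ℝ) 1) (hy : y ∈ Ioo (-1 : ℝ) 1) :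
    |x - y| * |K n x y| ≤ w x * w y := by
  rw [← abs_mul, cd, abs_mul, abs_of_nonneg (by positivity : (0:ℝ) ≤ ((n : ℝ) + 1) / 2)]
  have hwx := w_nonneg x
  have hwy := w_nonneg y
  have hn : (0 : ℝ) < (n : ℝ) + 1 := by positivity
  have hs : 0 < Real.sqrt (n + 1) := Real.sqrt_pos.mpr hn
  have hss : Real.sqrt (n + 1) * Real.sqrt (n + 1) = (n : ℝ) + 1 := Real.mul_self_sqrt hn.le
  have hle : ∀ {z : ℝ}, z ∈ Ioo (-1 : ℝ) 1 → |P (n + 1) z| ≤ w z / Real.sqrt (n + 1) := by
    intro z hz
    refine (abs_P_le (n + 1) hz).trans ?_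
    apply div_le_div_of_nonneg_left (w_nonneg z) hs
    apply Real.sqrt_le_sqrt
    push_cast; linarith
  have h3 : |P (n + 1) x * P n y - P n x * P (n + 1) y| ≤ 2 * (w x * w y / (n + 1)) := by
    have a1 : |P (n + 1) x * P n y| ≤ w x * w y / (n + 1) := by
      rw [abs_mul, ← hss, ← div_mul_div_comm]
      exact mul_le_mul (hle hx) (abs_P_le n hy) (abs_nonneg _) (by positivity)
    have a2 : |P n x * P (n + 1) y| ≤ w x * w y / (n + 1) := by
      rw [abs_mul, ← hss, ← div_mul_div_comm]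
      exact mul_le_mul (abs_P_le n hx) (hle hy) (abs_nonneg _) (by positivity)
    have := abs_sub (P (n + 1) x * P n y) (P n x * P (n + 1) y)
    linarith
  calc ((n : ℝ) + 1) / 2 * |P (n + 1) x * P n y - P n x * P (n + 1) y|
      ≤ ((n : ℝ) + 1) / 2 * (2 * (w x * w y / (n + 1))) :=
        mul_le_mul_of_nonneg_left h3 (by positivity)
    _ = w x * w y := by field_simp

/-- Antiderivative of `P n`. -/
noncomputable def Q : ℕ → ℝ → ℝ
  | 0 => P 1
  | (n + 1) => fun y => (P (n + 2) y - P n y) / (2 * n + 3)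

lemma hasDerivAt_Q (n : ℕ) (y : ℝ) : HasDerivAt (Q n) (P n y) y := by
  match n with
  | 0 =>
    have := hasDerivAt_P 1 y
    rw [dP_one] at this
    rw [P_zero]
    exact this
  | (n + 1) =>
    have h := ((hasDerivAt_P (n + 2) y).sub (hasDerivAt_P n y)).div_const (2 * (n : ℝ) + 3)
    have e := ident_q n y
    refine (h.congr_deriv ?_).congr_of_eventuallyEq (Filter.Eventually.of_forall fun z => ?_)
    · rw [← e]; field_simp
    · simp [Q]

lemma abs_Q_le (n : ℕ) {y : ℝ} (hy : y ∈ Ioo (-1 : ℝ) 1) :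
    |Q n y| ≤ 2 * w y / ((n + 1) * Real.sqrt (n + 1)) := by
  have hw := w_nonneg y
  match n with
  | 0 =>
    have h := abs_P_le' 1 hy
    simp only [Q, Nat.cast_zero, zero_add, Real.sqrt_one, mul_one, div_one]
    linarith
  | (n + 1) =>
    have h1 := abs_P_le (n + 2) hy
    have h2 := abs_P_le n hy
    have hn : (0 : ℝ) < (n : ℝ) + 1 := by positivity
    have hs1 : 0 < Real.sqrt (n + 1) := Real.sqrt_pos.mpr hn
    have hn2 : (0 : ℝ) < (n : ℝ) + 2 := by positivity
    have hs2 : 0 < Real.sqrt (n + 2) := Real.sqrt_pos.mpr hn2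
    have h3 : |P (n + 2) y| ≤ w y / Real.sqrt (n + 1) := by
      refine h1.trans ?_
      apply div_le_div_of_nonneg_left hw hs1
      apply Real.sqrt_le_sqrt
      push_cast; linarith
    have h4 : |Q (n + 1) y| ≤ 2 * w y / (Real.sqrt (n + 1) * (2 * n + 3)) := by
      simp only [Q]
      rw [abs_div, abs_of_pos (by positivity : (0:ℝ) < 2 * (n : ℝ) + 3), ← div_div]
      apply div_le_div_of_nonneg_right _ (by positivity)
      have := abs_sub (P (n + 2) y) (P n y)
      have e : 2 * w y / Real.sqrt (n + 1) = w y / Real.sqrt (n + 1) + w y / Real.sqrt (n + 1) := by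
        ring
      rw [e]; linarith
    refine h4.trans ?_
    push_cast
    have e2 : (n : ℝ) + 1 + 1 = n + 2 := by ring
    rw [e2]
    apply div_le_div_of_nonneg_left (by positivity) (by positivity)
    -- (n+2) √(n+2) ≤ √(n+1) (2n+3)
    have : Real.sqrt (((n : ℝ) + 2) ^ 2 * (n + 2)) ≤ Real.sqrt ((n + 1) * (2 * n + 3) ^ 2) := by
      apply Real.sqrt_le_sqrt
      have : (0 : ℝ) ≤ n := Nat.cast_nonneg n
      nlinarith [mul_nonneg this this, mul_nonneg (mul_nonneg this this) this]
    rw [Real.sqrt_mul (by positivity), Real.sqrt_sq (by positivity),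
      Real.sqrt_mul (by positivity), Real.sqrt_sq (by positivity)] at this
    exact this

lemma integral_inv_sq {x c d : ℝ} (hcd : c ≤ d) (hx : ∀ y ∈ Icc c d, x - y ≠ 0) :
    ∫ y in c..d, 1 / (x - y) ^ 2 = 1 / (x - d) - 1 / (x - c) := by
  apply intervalIntegral.integral_eq_sub_of_hasDerivAt
  · intro y hy
    rw [uIcc_of_le hcd] at hy
    have h0 := hx y hy
    have h1 : HasDerivAt (fun y : ℝ => x - y) (-1) y := by
      simpa using (hasDerivAt_id y).const_sub x
    have h2 := h1.inv h0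
    have : (fun y : ℝ => 1 / (x - y)) = fun y => (x - y)⁻¹ := by
      funext z; rw [one_div]
    rw [this]
    refine h2.congr_deriv ?_
    field_simp
    
  · apply ContinuousOn.intervalIntegrable
    rw [uIcc_of_le hcd]
    apply ContinuousOn.div continuousOn_const
    · fun_prop
    · intro y hy
      exact pow_ne_zero 2 (hx y hy)

lemma abs_inv_sub_le {x c d δ : ℝ} (hδ : 0 < δ) (hcd : c ≤ d)
    (hx : ∀ y ∈ Icc c d, δ ≤ |x - y|) : 1 / (x - d) - 1 / (x - c) ≤ 1 / δ := by
  have h1 := hx c ⟨le_rfl, hcd⟩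
  have h2 := hx d ⟨hcd, le_rfl⟩
  rcases lt_or_ge x c with hxc | hxc
  · rw [abs_of_neg (by linarith)] at h1 h2
    have e1 : 1 / (x - d) = -(1 / (d - x)) := by rw [← neg_sub, div_neg]
    have e2 : 1 / (x - c) = -(1 / (c - x)) := by rw [← neg_sub, div_neg]
    rw [e1, e2]
    have : 0 < 1 / (d - x) := by apply one_div_pos.mpr; linarith
    have : 1 / (c - x) ≤ 1 / δ := one_div_le_one_div_of_le hδ (by linarith)
    linarith
  · rcases le_or_gt x d with hxd | hxd
    · have := hx x ⟨hxc, hxd⟩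
      simp at this
      linarith
    · rw [abs_of_pos (by linarith)] at h1 h2
      have : 1 / (x - d) ≤ 1 / δ := one_div_le_one_div_of_le hδ h2
      have : 0 < 1 / (x - c) := by apply one_div_pos.mpr; linarith
      linarith

lemma integral_P_div {n : ℕ} {x c d δ W : ℝ} (hδ : 0 < δ) (hcd : c ≤ d)
    (hc : -1 < c) (hd : d < 1) (hx : ∀ y ∈ Icc c d, δ ≤ |x - y|)
    (hW : ∀ y ∈ Icc c d, w y ≤ W) :
    |∫ y in c..d, P n y / (x - y)| ≤ 6 * W / ((n + 1) * Real.sqrt (n + 1) * δ) := by
  have hne : ∀ y ∈ Icc c d, x - y ≠ 0 := by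
    intro y hy h
    have := hx y hy
    rw [h] at this; simp at this; linarith
  have hI : ∀ y ∈ Icc c d, y ∈ Ioo (-1 : ℝ) 1 := fun y hy =>
    ⟨by linarith [hy.1], by linarith [hy.2]⟩
  set q : ℝ := 2 * W / ((n + 1) * Real.sqrt (n + 1)) with hq
  have hn : (0 : ℝ) < (n : ℝ) + 1 := by positivity
  have hs : 0 < Real.sqrt (n + 1) := Real.sqrt_pos.mpr hn
  have hW0 : 0 ≤ W := (w_nonneg c).trans (hW c ⟨le_rfl, hcd⟩)
  have hq0 : 0 ≤ q := by positivity
  have hQ : ∀ y ∈ Icc c d, |Q n y| ≤ q := by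
    intro y hy
    refine (abs_Q_le n (hI y hy)).trans ?_
    apply div_le_div_of_nonneg_right _ (by positivity)
    have := hW y hy
    linarith
  have hd1 : ∀ y ∈ uIcc c d, HasDerivAt (fun y => Q n y / (x - y))
      (P n y / (x - y) + Q n y * (1 / (x - y) ^ 2)) y := by
    intro y hy
    rw [uIcc_of_le hcd] at hy
    have h0 := hne y hy
    have h1 : HasDerivAt (fun y : ℝ => x - y) (-1) y := by
      simpa using (hasDerivAt_id y).const_sub x
    refine ((hasDerivAt_Q n y).div h1 h0).congr_deriv ?_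
    field_simp
    ring
  have hQc : Continuous (Q n) := continuous_iff_continuousAt.mpr fun y => (hasDerivAt_Q n y).continuousAt
  have hc1 : ContinuousOn (fun y => P n y / (x - y)) (Icc c d) :=
    (continuous_P n).continuousOn.div (by fun_prop) hne
  have hc2 : ContinuousOn (fun y => Q n y * (1 / (x - y) ^ 2)) (Icc c d) := by
    apply hQc.continuousOn.mul
    apply ContinuousOn.div continuousOn_const (by fun_prop)
    intro y hy; exact pow_ne_zero 2 (hne y hy)
  have i1 : IntervalIntegrable (fun y => P n y / (x - y)) volume c d := by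
    apply ContinuousOn.intervalIntegrable; rwa [uIcc_of_le hcd]
  have i2 : IntervalIntegrable (fun y => Q n y * (1 / (x - y) ^ 2)) volume c d := by
    apply ContinuousOn.intervalIntegrable; rwa [uIcc_of_le hcd]
  have hint := intervalIntegral.integral_eq_sub_of_hasDerivAt hd1 (i1.add i2)
  rw [intervalIntegral.integral_add i1 i2] at hint
  have hb1 : ∀ y ∈ Icc c d, |Q n y / (x - y)| ≤ q / δ := by
    intro y hy
    rw [abs_div]
    exact div_le_div₀ hq0 (hQ y hy) hδ (hx y hy)
  have hb2 : |∫ y in c..d, Q n y * (1 / (x - y) ^ 2)| ≤ q / δ := by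
    calc |∫ y in c..d, Q n y * (1 / (x - y) ^ 2)|
        ≤ ∫ y in c..d, |Q n y * (1 / (x - y) ^ 2)| :=
          intervalIntegral.abs_integral_le_integral_abs hcd
      _ ≤ ∫ y in c..d, q * (1 / (x - y) ^ 2) := by
          apply intervalIntegral.integral_mono_on hcd
          · exact i2.abs
          · apply ContinuousOn.intervalIntegrable
            rw [uIcc_of_le hcd]
            apply continuousOn_const.mul
            apply ContinuousOn.div continuousOn_const (by fun_prop)
            intro y hy; exact pow_ne_zero 2 (hne y hy)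
          · intro y hy
            rw [abs_mul, abs_of_nonneg (by positivity : 0 ≤ 1 / (x - y) ^ 2)]
            exact mul_le_mul_of_nonneg_right (hQ y hy) (by positivity)
      _ = q * (1 / (x - d) - 1 / (x - c)) := by
          rw [intervalIntegral.integral_const_mul, integral_inv_sq hcd hne]
      _ ≤ q * (1 / δ) := mul_le_mul_of_nonneg_left (abs_inv_sub_le hδ hcd hx) hq0
      _ = q / δ := by ring
  have e : ∫ y in c..d, P n y / (x - y) = Q n d / (x - d) - Q n c / (x - c) -
      ∫ y in c..d, Q n y * (1 / (x - y) ^ 2) := by linarith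
  rw [e]
  have t1 := hb1 d ⟨hcd, le_rfl⟩
  have t2 := hb1 c ⟨le_rfl, hcd⟩
  have t3 := abs_sub (Q n d / (x - d) - Q n c / (x - c)) (∫ y in c..d, Q n y * (1 / (x - y) ^ 2))
  have t4 := abs_sub (Q n d / (x - d)) (Q n c / (x - c))
  have e3 : 6 * W / ((n + 1) * Real.sqrt (n + 1) * δ) = 3 * (q / δ) := by
    rw [hq]; field_simp; ring
  rw [e3]
  linarith

lemma continuous_K (n : ℕ) (x : ℝ) : Continuous (K n x) := by
  unfold K
  apply continuous_finsetSum
  intro k _
  exact continuous_const.mul (continuous_const.mul (continuous_P k))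

/-- oscillation bound away from the diagonal -/
lemma integral_K_far {n : ℕ} {x c d δ W : ℝ} (hx1 : x ∈ Ioo (-1 : ℝ) 1) (hδ : 0 < δ) (hcd : c ≤ d)
    (hc : -1 < c) (hd : d < 1) (hx : ∀ y ∈ Icc c d, δ ≤ |x - y|)
    (hW : ∀ y ∈ Icc c d, w y ≤ W) :
    |∫ y in c..d, K n x y| ≤ 6 * (w x * W) / ((n + 1) * δ) := by
  have hne : ∀ y ∈ Icc c d, x - y ≠ 0 := by
    intro y hy h
    have := hx y hy
    rw [h] at this; simp at this; linarith
  have hn : (0 : ℝ) < (n : ℝ) + 1 := by positivity
  have hs : 0 < Real.sqrt (n + 1) := Real.sqrt_pos.mpr hn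
  have hss : Real.sqrt (n + 1) * Real.sqrt (n + 1) = (n : ℝ) + 1 := Real.mul_self_sqrt hn.le
  have hW0 : 0 ≤ W := (w_nonneg c).trans (hW c ⟨le_rfl, hcd⟩)
  have hw0 := w_nonneg x
  have hcP : ∀ m, IntervalIntegrable (fun y => P m y / (x - y)) volume c d := by
    intro m
    apply ContinuousOn.intervalIntegrable
    rw [uIcc_of_le hcd]
    exact (continuous_P m).continuousOn.div (by fun_prop) hne
  have e : ∫ y in c..d, K n x y = (n + 1) / 2 * (P (n + 1) x * (∫ y in c..d, P n y / (x - y)) -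
      P n x * ∫ y in c..d, P (n + 1) y / (x - y)) := by
    rw [← intervalIntegral.integral_const_mul, ← intervalIntegral.integral_const_mul,
      ← intervalIntegral.integral_sub ((hcP n).const_mul _) ((hcP (n + 1)).const_mul _),
      ← intervalIntegral.integral_const_mul]
    apply intervalIntegral.integral_congr
    intro y hy
    rw [uIcc_of_le hcd] at hy
    have h0 := hne y hy
    have := cd n x y
    simp only
    field_simp
    linarith
  rw [e, abs_mul, abs_of_nonneg (by positivity : (0:ℝ) ≤ ((n : ℝ) + 1) / 2)]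
  have h1 := integral_P_div (n := n) hδ hcd hc hd hx hW
  have h2 := integral_P_div (n := n + 1) hδ hcd hc hd hx hW
  have hle : |P (n + 1) x| ≤ w x / Real.sqrt (n + 1) := by
    refine (abs_P_le (n + 1) hx1).trans ?_
    apply div_le_div_of_nonneg_left (w_nonneg x) hs
    apply Real.sqrt_le_sqrt
    push_cast; linarith
  have h2' : |∫ y in c..d, P (n + 1) y / (x - y)| ≤ 6 * W / ((n + 1) * Real.sqrt (n + 1) * δ) := by
    refine h2.trans ?_
    apply div_le_div_of_nonneg_left (by positivity) (by positivity)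
    apply mul_le_mul_of_nonneg_right _ hδ.le
    apply mul_le_mul
    · push_cast; linarith
    · apply Real.sqrt_le_sqrt; push_cast; linarith
    · exact hs.le
    · positivity
  have a1 : |P (n + 1) x * (∫ y in c..d, P n y / (x - y))| ≤
      (w x / Real.sqrt (n + 1)) * (6 * W / ((n + 1) * Real.sqrt (n + 1) * δ)) := by
    rw [abs_mul]
    exact mul_le_mul hle h1 (abs_nonneg _) (by positivity)
  have a2 : |P n x * (∫ y in c..d, P (n + 1) y / (x - y))| ≤
      (w x / Real.sqrt (n + 1)) * (6 * W / ((n + 1) * Real.sqrt (n + 1) * δ)) := by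
    rw [abs_mul]
    exact mul_le_mul (abs_P_le n hx1) h2' (abs_nonneg _) (by positivity)
  have e5 : (w x / Real.sqrt (n + 1)) * (6 * W / ((n + 1) * Real.sqrt (n + 1) * δ)) =
      6 * (w x * W) / ((n + 1) ^ 2 * δ) := by
    rw [div_mul_div_comm]
    congr 1
    · ring
    · calc Real.sqrt (n + 1) * (((n : ℝ) + 1) * Real.sqrt (n + 1) * δ) =
        (Real.sqrt (n + 1) * Real.sqrt (n + 1)) * (n + 1) * δ := by ring
        _ = _ := by rw [hss]; ring
  rw [e5] at a1 a2
  have t := abs_sub (P (n + 1) x * (∫ y in c..d, P n y / (x - y)))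
    (P n x * ∫ y in c..d, P (n + 1) y / (x - y))
  calc ((n : ℝ) + 1) / 2 * |P (n + 1) x * (∫ y in c..d, P n y / (x - y)) -
      P n x * ∫ y in c..d, P (n + 1) y / (x - y)|
      ≤ ((n : ℝ) + 1) / 2 * (2 * (6 * (w x * W) / ((n + 1) ^ 2 * δ))) := by
        apply mul_le_mul_of_nonneg_left _ (by positivity)
        linarith
    _ = 6 * (w x * W) / ((n + 1) * δ) := by
        field_simp

lemma integral_K_dist {n : ℕ} {x c d δ W : ℝ} (hx1 : x ∈ Ioo (-1 : ℝ) 1) (hδ : 0 < δ) (hcd : c ≤ d)
    (hc : -1 < c) (hd : d < 1) (hx : ∀ y ∈ Icc c d, δ ≤ |x - y|)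
    (hW : ∀ y ∈ Icc c d, w y ≤ W) :
    |∫ y in c..d, K n x y| ≤ (w x * W) * ((d - c) / δ) := by
  have hb : ∀ y ∈ Icc c d, |K n x y| ≤ w x * W / δ := by
    intro y hy
    have hy1 : y ∈ Ioo (-1 : ℝ) 1 := ⟨by linarith [hy.1], by linarith [hy.2]⟩
    have h1 := K_mul_le n hx1 hy1
    rw [le_div_iff₀ hδ]
    have h2 : |K n x y| * δ ≤ |x - y| * |K n x y| := by
      rw [mul_comm]
      exact mul_le_mul_of_nonneg_right (hx y hy) (abs_nonneg _)
    have h3 : w x * w y ≤ w x * W := mul_le_mul_of_nonneg_left (hW y hy) (w_nonneg x)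
    linarith
  calc |∫ y in c..d, K n x y| ≤ ∫ y in c..d, |K n x y| :=
        intervalIntegral.abs_integral_le_integral_abs hcd
    _ ≤ ∫ _ in c..d, w x * W / δ := by
        apply intervalIntegral.integral_mono_on hcd
        · exact ((continuous_K n x).abs).intervalIntegrable _ _
        · exact intervalIntegrable_const
        · exact hb
    _ = (w x * W) * ((d - c) / δ) := by
        rw [intervalIntegral.integral_const]; simp; ring

lemma integral_K_len {n : ℕ} {x c d W : ℝ} (hx1 : x ∈ Ioo (-1 : ℝ) 1) (hcd : c ≤ d)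
    (hc : -1 < c) (hd : d < 1) (hW : ∀ y ∈ Icc c d, w y ≤ W) :
    |∫ y in c..d, K n x y| ≤ (w x * W) * ((n + 1) * (d - c)) := by
  have hb : ∀ y ∈ Icc c d, |K n x y| ≤ (n + 1) * (w x * W) := by
    intro y hy
    have hy1 : y ∈ Ioo (-1 : ℝ) 1 := ⟨by linarith [hy.1], by linarith [hy.2]⟩
    refine (K_le n hx1 hy1).trans ?_
    apply mul_le_mul_of_nonneg_left _ (by positivity)
    exact mul_le_mul_of_nonneg_left (hW y hy) (w_nonneg x)
  calc |∫ y in c..d, K n x y| ≤ ∫ y in c..d, |K n x y| :=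
        intervalIntegral.abs_integral_le_integral_abs hcd
    _ ≤ ∫ _ in c..d, (n + 1) * (w x * W) := by
        apply intervalIntegral.integral_mono_on hcd
        · exact ((continuous_K n x).abs).intervalIntegrable _ _
        · exact intervalIntegrable_const
        · exact hb
    _ = (w x * W) * ((n + 1) * (d - c)) := by
        rw [intervalIntegral.integral_const]; simp; ring

/-- uniform bound for the integral of the kernel over an interval -/
lemma integral_K_le {n : ℕ} {x c d W : ℝ} (hx1 : x ∈ Ioo (-1 : ℝ) 1) (hcd : c ≤ d)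
    (hc : -1 < c) (hd : d < 1) (hW : ∀ y ∈ Icc c d, w y ≤ W) :
    |∫ y in c..d, K n x y| ≤ 14 * (w x * W) := by
  have hn : (0 : ℝ) < (n : ℝ) + 1 := by positivity
  set h : ℝ := 1 / (n + 1) with hh
  have hpos : 0 < h := by positivity
  have hW0 : 0 ≤ W := (w_nonneg c).trans (hW c ⟨le_rfl, hcd⟩)
  have hw0 := w_nonneg x
  have hnh : ((n : ℝ) + 1) * h = 1 := by rw [hh]; field_simp
  obtain ⟨c', hc'⟩ : ∃ c', c' = max c (min d (x - h)) := ⟨_, rfl⟩
  obtain ⟨d', hd'⟩ : ∃ d', d' = min d (max c (x + h)) := ⟨_, rfl⟩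
  have h1 : c ≤ c' := hc' ▸ le_max_left _ _
  have h2 : d' ≤ d := hd' ▸ min_le_left _ _
  have h3 : c' ≤ d' := by
    rw [hc', hd']
    apply max_le
    · exact le_min hcd (le_max_left _ _)
    · exact le_min (min_le_left _ _)
        ((min_le_right _ _).trans ((by linarith : x - h ≤ x + h).trans (le_max_right _ _)))
  have h4 : d' - c' ≤ 2 * h := by
    rw [hc', hd']
    rcases le_total c (x + h) with a | a
    · rw [max_eq_right a]
      rcases le_total d (x - h) with b | b
      · rw [min_eq_left b]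
        have := min_le_left d (x + h)
        have := le_max_right c d
        linarith
      · rw [min_eq_right b]
        have := min_le_right d (x + h)
        have := le_max_right c (x - h)
        linarith
    · rw [max_eq_left a]
      have := min_le_right d c
      have := le_max_left c (min d (x - h))
      linarith
  have hi : ∀ a b, IntervalIntegrable (K n x) volume a b :=
    fun a b => (continuous_K n x).intervalIntegrable _ _
  have hsplit : ∫ y in c..d, K n x y =
      (∫ y in c..c', K n x y) + (∫ y in c'..d', K n x y) + ∫ y in d'..d, K n x y := by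
    rw [intervalIntegral.integral_add_adjacent_intervals (hi _ _) (hi _ _),
      intervalIntegral.integral_add_adjacent_intervals (hi _ _) (hi _ _)]
  have b1 : |∫ y in c..c', K n x y| ≤ 6 * (w x * W) := by
    rcases eq_or_lt_of_le h1 with e | e
    · rw [← e]; simp; positivity
    · have hcx : c' ≤ x - h := by
        rw [hc'] at e ⊢
        rcases le_total c (min d (x - h)) with a | a
        · rw [max_eq_right a]; exact min_le_right _ _
        · rw [max_eq_left a] at e; exact absurd e (lt_irrefl _)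
      have := integral_K_far (n := n) (W := W) hx1 hpos h1 hc (by linarith) (fun y hy => by
        rw [abs_of_nonneg (by linarith [hy.2])]; linarith [hy.2])
        (fun y hy => hW y ⟨hy.1, by linarith [hy.2]⟩)
      rwa [hnh, div_one] at this
  have b3 : |∫ y in d'..d, K n x y| ≤ 6 * (w x * W) := by
    rcases eq_or_lt_of_le h2 with e | e
    · rw [← e]; simp; positivity
    · have hcx : x + h ≤ d' := by
        rw [hd'] at e ⊢
        rcases le_total d (max c (x + h)) with a | a
        · rw [min_eq_left a] at e; exact absurd e (lt_irrefl _)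
        · rw [min_eq_right a]; exact le_max_right _ _
      have := integral_K_far (n := n) (W := W) hx1 hpos h2 (by linarith) hd (fun y hy => by
        rw [abs_of_nonpos (by linarith [hy.1])]; linarith [hy.1])
        (fun y hy => hW y ⟨by linarith [hy.1], hy.2⟩)
      rwa [hnh, div_one] at this
  have b2 : |∫ y in c'..d', K n x y| ≤ 2 * (w x * W) := by
    have := integral_K_len (n := n) (W := W) hx1 h3 (by linarith) (by linarith)
      (fun y hy => hW y ⟨by linarith [hy.1], by linarith [hy.2]⟩)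
    refine this.trans ?_
    have : ((n : ℝ) + 1) * (d' - c') ≤ 2 := by
      calc ((n : ℝ) + 1) * (d' - c') ≤ (n + 1) * (2 * h) := mul_le_mul_of_nonneg_left h4 hn.le
        _ = 2 := by linarith
    calc (w x * W) * ((n + 1) * (d' - c')) ≤ (w x * W) * 2 :=
          mul_le_mul_of_nonneg_left this (by positivity)
      _ = _ := by ring
  rw [hsplit]
  have t1 := abs_add_le ((∫ y in c..c', K n x y) + (∫ y in c'..d', K n x y)) (∫ y in d'..d, K n x y)
  have t2 := abs_add_le (∫ y in c..c', K n x y) (∫ y in c'..d', K n x y)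
  linarith

/-- comparability of the weights -/
lemma w_le_of_close {x y : ℝ} (hx : x ∈ Ioo (-1 : ℝ) 1) (hy : |x - y| ≤ (1 - |x|) / 2) :
    y ∈ Ioo (-1 : ℝ) 1 ∧ w y ^ 2 ≤ 2 * w x ^ 2 := by
  have hx1 : |x| < 1 := abs_lt.mpr hx
  have h1 : |y| ≤ |x| + |x - y| := by
    have := abs_sub_abs_le_abs_sub y x
    rw [abs_sub_comm] at this
    linarith
  have h2 : 1 - |y| ≥ (1 - |x|) / 2 := by linarith
  have h3 : |y| < 1 := by linarith
  have hy1 : y ∈ Ioo (-1 : ℝ) 1 := abs_lt.mp h3
  refine ⟨hy1, ?_⟩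
  have p1 := one_sub_sq_pos hx
  have p2 := one_sub_sq_pos hy1
  have h4 : 1 - x ^ 2 ≤ 4 * (1 - y ^ 2) := by
    rw [← sq_abs x, ← sq_abs y]
    have a1 := abs_nonneg x
    have a2 := abs_nonneg y
    nlinarith
  rw [w_sq, w_sq]
  have h5 : Real.sqrt (1 - x ^ 2) ≤ 2 * Real.sqrt (1 - y ^ 2) := by
    calc Real.sqrt (1 - x ^ 2) ≤ Real.sqrt (2 ^ 2 * (1 - y ^ 2)) := by
          apply Real.sqrt_le_sqrt; linarith
      _ = 2 * Real.sqrt (1 - y ^ 2) := by
          rw [Real.sqrt_mul (by norm_num), Real.sqrt_sq (by norm_num)]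
  have s1 := Real.sqrt_pos.mpr p1
  have s2 := Real.sqrt_pos.mpr p2
  rw [inv_eq_one_div, inv_eq_one_div, mul_one_div, div_le_div_iff₀ s2 s1]
  linarith

lemma w_le_of_close' {x y : ℝ} (hx : x ∈ Ioo (-1 : ℝ) 1) (hy : |x - y| ≤ (1 - |x|) / 2) :
    w y ≤ 2 * w x := by
  have h := (w_le_of_close hx hy).2
  have h1 := w_nonneg x
  have h2 := w_nonneg y
  nlinarith

end Pool.Agent.LegRe
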