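import Mathlib

/-! Legendre polynomials by Bonnet's recursion, and elementary bounds. -/

namespace Pool.Agent.LegRe

open Polynomial MeasureTheory Set

/-- The Legendre polynomials, by Bonnet's recursion
`(n+2) P_{n+2} = (2n+3) X P_{n+1} - (n+1) P_n`. -/
noncomputable def leg : ℕ → ℝ[X]
  | 0 => 1
  | 1 => X
  | (n + 2) => C ((n + 2 : ℝ)⁻¹) * (C (2 * n + 3 : ℝ) * X * leg (n + 1) - C (n + 1 : ℝ) * leg n)

/-- Value of the `n`-th Legendre polynomial. -/
noncomputable def P (n : ℕ) (x : ℝ) : ℝ := (leg n).eval x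

/-- Derivative of the `n`-th Legendre polynomial. -/
noncomputable def dP (n : ℕ) (x : ℝ) : ℝ := (derivative (leg n)).eval x

/-- Second derivative of the `n`-th Legendre polynomial. -/
noncomputable def ddP (n : ℕ) (x : ℝ) : ℝ := (derivative (derivative (leg n))).eval x

lemma P_zero (x : ℝ) : P 0 x = 1 := by simp [P, leg]
lemma P_one (x : ℝ) : P 1 x = x := by simp [P, leg]

lemma P_rec (n : ℕ) (x : ℝ) :
    (n + 2 : ℝ) * P (n + 2) x = (2 * n + 3) * x * P (n + 1) x - (n + 1) * P n x := by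
  have h : (n + 2 : ℝ) ≠ 0 := by positivity
  simp only [P, leg, eval_mul, eval_C, eval_sub, eval_X]
  field_simp

lemma leg_rec (n : ℕ) :
    C (n + 2 : ℝ) * leg (n + 2) = C (2 * n + 3 : ℝ) * X * leg (n + 1) - C (n + 1 : ℝ) * leg n := by
  have h : (n + 2 : ℝ) ≠ 0 := by positivity
  rw [leg, ← mul_assoc, ← C_mul, mul_inv_cancel₀ h]
  simp

lemma dP_rec (n : ℕ) (x : ℝ) :
    (n + 2 : ℝ) * dP (n + 2) x =
      (2 * n + 3) * P (n + 1) x + (2 * n + 3) * x * dP (n + 1) x - (n + 1) * dP n x := by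
  have h := congrArg (fun q => (derivative q).eval x) (leg_rec n)
  simp only [derivative_mul, derivative_C, derivative_sub, derivative_X, eval_add, eval_mul,
    eval_C, eval_sub, eval_X, zero_mul, zero_add, mul_one, eval_zero] at h
  simp only [dP, P]
  linarith

lemma dP_zero (x : ℝ) : dP 0 x = 0 := by simp [dP, leg]
lemma dP_one (x : ℝ) : dP 1 x = 1 := by simp [dP, leg]

lemma ident (n : ℕ) : ∀ x : ℝ,
    dP (n + 1) x = (n + 1) * P n x + x * dP n x ∧
    x * dP (n + 1) x - dP n x = (n + 1) * P (n + 1) x ∧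
    (x ^ 2 - 1) * dP (n + 1) x = (n + 1) * (x * P (n + 1) x - P n x) := by
  induction n with
  | zero =>
    intro x
    simp only [zero_add, dP_one, dP_zero, P_zero, P_one]
    refine ⟨by simp, by simp, by push_cast; ring⟩
  | succ n ih =>
    intro x
    obtain ⟨hA, hB, hC⟩ := ih x
    have hr := P_rec n x
    have hd := dP_rec n x
    have hn : (n + 2 : ℝ) ≠ 0 := by positivity
    have hA' : dP (n + 2) x = (n + 2) * P (n + 1) x + x * dP (n + 1) x := by
      have : (n + 2 : ℝ) * dP (n + 2) x =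
          (n + 2) * ((n + 2) * P (n + 1) x + x * dP (n + 1) x) := by
        rw [hd]
        have : dP n x = x * dP (n + 1) x - (n + 1) * P (n + 1) x := by linarith
        rw [this]; ring
      exact mul_left_cancel₀ hn this
    refine ⟨?_, ?_, ?_⟩
    · push_cast
      rw [hA']; ring
    · push_cast
      rw [hA']
      linear_combination hC + (-1 : ℝ) * hr
    · push_cast
      rw [hA']
      linear_combination x * hC - x * hr

lemma ident_q (n : ℕ) (x : ℝ) : (2 * n + 3) * P (n + 1) x = dP (n + 2) x - dP n x := by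
  obtain ⟨hA, -, -⟩ := ident (n + 1) x
  obtain ⟨-, hB, -⟩ := ident n x
  push_cast at hA
  linarith

lemma ode (n : ℕ) (x : ℝ) :
    (x ^ 2 - 1) * ddP (n + 1) x + 2 * x * dP (n + 1) x = (n + 1) * (n + 2) * P (n + 1) x := by
  have key : (X ^ 2 - 1) * derivative (leg (n + 1)) =
      C (n + 1 : ℝ) * (X * leg (n + 1) - leg n) := by
    apply Polynomial.funext
    intro y
    have := (ident n y).2.2
    simp only [P, dP] at this
    simpa using this
  have h := congrArg (fun q => (derivative q).eval x) key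
  simp only [derivative_mul, derivative_C, derivative_sub, derivative_X, eval_add, eval_mul,
    eval_C, eval_sub, eval_X, zero_mul, zero_add, mul_one, eval_zero, derivative_X_pow,
    derivative_one, sub_zero, eval_pow, eval_one, Nat.cast_ofNat, one_mul, eval_natCast] at h
  obtain ⟨-, hB, -⟩ := ident n x
  simp only [ddP, dP, P] at *
  norm_num at h
  linear_combination h + (n + 1) * hB

lemma hasDerivAt_P (n : ℕ) (x : ℝ) : HasDerivAt (P n) (dP n x) x := by
  exact (leg n).hasDerivAt x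

lemma hasDerivAt_dP (n : ℕ) (x : ℝ) : HasDerivAt (dP n) (ddP n x) x := by
  exact (derivative (leg n)).hasDerivAt x

lemma continuous_P (n : ℕ) : Continuous (P n) := (leg n).continuous

lemma P_zero_bound (n : ℕ) : ((n : ℝ) + 1) * P n 0 ^ 2 ≤ 1 := by
  induction n using Nat.strong_induction_on with
  | _ n ih =>
    match n with
    | 0 => simp [P_zero]
    | 1 => simp [P_one]
    | (m + 2) =>
      have h1 := ih m (by omega)
      have hr := P_rec m 0
      have hm : (0 : ℝ) < m + 2 := by positivity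
      have h2 : P (m + 2) 0 = -((m + 1) / (m + 2)) * P m 0 := by
        field_simp
        linarith
      rw [h2]
      push_cast
      have h3 : ((m : ℝ) + 2 + 1) * (-((m + 1) / (m + 2)) * P m 0) ^ 2 =
          ((m + 3) * (m + 1) / (m + 2) ^ 2) * ((m + 1) * P m 0 ^ 2) := by
        field_simp
        ring
      rw [h3]
      have h4 : ((m : ℝ) + 3) * (m + 1) / (m + 2) ^ 2 ≤ 1 := by
        rw [div_le_one (by positivity)]
        nlinarith
      have h5 : 0 ≤ ((m : ℝ) + 3) * (m + 1) / (m + 2) ^ 2 := by positivity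
      have h6 : 0 ≤ ((m : ℝ) + 1) * P m 0 ^ 2 := by positivity
      calc _ ≤ 1 * 1 := mul_le_mul h4 h1 h6 (by norm_num)
        _ = 1 := by norm_num

lemma P_zero_mul (n : ℕ) : P n 0 * P (n + 1) 0 = 0 := by
  induction n with
  | zero => simp [P_one]
  | succ n ih =>
    have hr := P_rec n 0
    have hn : (n + 2 : ℝ) ≠ 0 := by positivity
    have : (n + 2 : ℝ) * (P (n + 1) 0 * P (n + 2) 0) = 0 := by
      calc (n + 2 : ℝ) * (P (n + 1) 0 * P (n + 2) 0) = P (n + 1) 0 * ((n + 2) * P (n + 2) 0) := by ring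
        _ = -(n + 1) * (P n 0 * P (n + 1) 0) := by rw [hr]; ring
        _ = 0 := by rw [ih]; ring
    exact (mul_eq_zero.mp this).resolve_left hn

/-- auxiliary quantities of the Sonine energy (for `P_{n+1}`) -/
noncomputable def eT (n : ℕ) (x : ℝ) : ℝ := (2 * n + 3) ^ 2 * (1 - x ^ 2) + 1
noncomputable def eU (n : ℕ) (x : ℝ) : ℝ := x * P (n + 1) x - 2 * (1 - x ^ 2) * dP (n + 1) x
noncomputable def eR (n : ℕ) (x : ℝ) : ℝ := P (n + 1) x ^ 2 + eU n x ^ 2 / eT n x
/-- the Sonine energy -/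
noncomputable def en (n : ℕ) (x : ℝ) : ℝ := (1 - x ^ 2) * eR n x ^ 2

lemma eT_pos (n : ℕ) {x : ℝ} (hx : x ∈ Icc (-1 : ℝ) 1) : 0 < eT n x := by
  have : 0 ≤ 1 - x ^ 2 := by nlinarith [hx.1, hx.2]
  unfold eT; positivity

lemma eR_nonneg (n : ℕ) {x : ℝ} (hx : x ∈ Icc (-1 : ℝ) 1) : 0 ≤ eR n x := by
  have := eT_pos n hx
  unfold eR; positivity

lemma hasDerivAt_one_sub_sq (x : ℝ) : HasDerivAt (fun y : ℝ => 1 - y ^ 2) (-(2 * x)) x := by
  simpa using (hasDerivAt_pow 2 x).const_sub 1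

lemma hasDerivAt_eT (n : ℕ) (x : ℝ) :
    HasDerivAt (eT n) (-(2 * x) * (2 * n + 3) ^ 2) x := by
  have h := ((hasDerivAt_one_sub_sq x).const_mul ((2 * n + 3 : ℝ) ^ 2)).add_const 1
  refine (h.congr_deriv (by ring)).congr_of_eventuallyEq (Filter.Eventually.of_forall fun y => ?_)
  simp [eT]

lemma hasDerivAt_eU (n : ℕ) (x : ℝ) :
    HasDerivAt (eU n) ((1 + 2 * ((n + 1) * (n + 2))) * P (n + 1) x + x * dP (n + 1) x) x := by
  have h1 := hasDerivAt_P (n + 1) x
  have h2 := hasDerivAt_dP (n + 1) x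
  have h3 := hasDerivAt_one_sub_sq x
  have h := ((hasDerivAt_id x).mul h1).sub ((h3.const_mul 2).mul h2)
  have ho := ode n x
  refine (h.congr_deriv ?_).congr_of_eventuallyEq (Filter.Eventually.of_forall fun y => ?_)
  · simp only [id]
    linear_combination 2 * ho
  · simp [eU]

lemma hasDerivAt_en (n : ℕ) {x : ℝ} (hx : x ∈ Icc (-1 : ℝ) 1) :
    HasDerivAt (en n) (-(4 * x) * (eR n x * (eU n x ^ 2 / eT n x ^ 2))) x := by
  have hT := eT_pos n hx
  have h1 := hasDerivAt_P (n + 1) x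
  have hU := hasDerivAt_eU n x
  have hTd := hasDerivAt_eT n x
  have hR : HasDerivAt (eR n) (2 * P (n + 1) x * dP (n + 1) x +
      (2 * eU n x * ((1 + 2 * ((n + 1) * (n + 2))) * P (n + 1) x + x * dP (n + 1) x) * eT n x -
        eU n x ^ 2 * (-(2 * x) * (2 * n + 3) ^ 2)) / eT n x ^ 2) x := by
    have h := (h1.pow 2).add ((hU.pow 2).div hTd hT.ne')
    refine (h.congr_deriv ?_).congr_of_eventuallyEq (Filter.Eventually.of_forall fun y => ?_)
    · simp only [Pi.pow_apply]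
      ring
    · simp [eR]
  have h := (hasDerivAt_one_sub_sq x).mul (hR.pow 2)
  refine (h.congr_deriv ?_).congr_of_eventuallyEq (Filter.Eventually.of_forall fun y => ?_)
  · simp only [Pi.pow_apply]
    have hTe : eT n x = (2 * n + 3) ^ 2 * (1 - x ^ 2) + 1 := rfl
    have hUe : eU n x = x * P (n + 1) x - 2 * (1 - x ^ 2) * dP (n + 1) x := rfl
    have hRe : eR n x = P (n + 1) x ^ 2 + eU n x ^ 2 / eT n x := rfl
    have key : (1 - x ^ 2) * (2 * P (n + 1) x * dP (n + 1) x +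
      (2 * eU n x * ((1 + 2 * ((n + 1) * (n + 2))) * P (n + 1) x + x * dP (n + 1) x) * eT n x -
        eU n x ^ 2 * (-(2 * x) * (2 * n + 3) ^ 2)) / eT n x ^ 2) =
        x * eR n x - 2 * x * (eU n x ^ 2 / eT n x ^ 2) := by
      rw [hRe]
      generalize hUv : eU n x = U at *
      generalize hTv : eT n x = T at *
      field_simp
      have e1 : 2 * (1 - x ^ 2) * dP (n + 1) x = x * P (n + 1) x - U := by linarith
      have e2 : (2 * (n : ℝ) + 3) ^ 2 * (1 - x ^ 2) = T - 1 := by linarith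
      linear_combination (T ^ 2 * P (n + 1) x + U * T * x) * e1 + (U * P (n+1) x * T + 2 * x * U ^ 2 ) * e2
    norm_num
    linear_combination (2 * eR n x) * key
  · simp [en]

lemma en_le (n : ℕ) (x : ℝ) (hx : x ∈ Icc (-1 : ℝ) 1) : en n x ≤ en n 0 := by
  rcases le_total 0 x with h | h
  · have hanti : AntitoneOn (en n) (Icc 0 1) := by
      apply antitoneOn_of_deriv_nonpos (convex_Icc 0 1)
      · exact fun y hy => (hasDerivAt_en n ⟨by linarith [hy.1], hy.2⟩).continuousAt.continuousWithinAt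
      · rw [interior_Icc]
        exact fun y hy => (hasDerivAt_en n
          ⟨by linarith [hy.1], hy.2.le⟩).differentiableAt.differentiableWithinAt
      · intro y hy
        rw [interior_Icc] at hy
        have hy' : y ∈ Icc (-1 : ℝ) 1 := ⟨by linarith [hy.1], hy.2.le⟩
        rw [(hasDerivAt_en n hy').deriv]
        have h1 := eR_nonneg n hy'
        have : 0 ≤ (4 * y) * (eR n y * (eU n y ^ 2 / eT n y ^ 2)) := by
          have := hy.1.le
          positivity
        linarith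
    exact hanti ⟨le_rfl, by norm_num⟩ ⟨h, hx.2⟩ h
  · have hmono : MonotoneOn (en n) (Icc (-1) 0) := by
      apply monotoneOn_of_deriv_nonneg (convex_Icc _ _)
      · exact fun y hy => (hasDerivAt_en n ⟨hy.1, by linarith [hy.2]⟩).continuousAt.continuousWithinAt
      · rw [interior_Icc]
        exact fun y hy => (hasDerivAt_en n
          ⟨hy.1.le, by linarith [hy.2]⟩).differentiableAt.differentiableWithinAt
      · intro y hy
        rw [interior_Icc] at hy
        have hy' : y ∈ Icc (-1 : ℝ) 1 := ⟨hy.1.le, by linarith [hy.2]⟩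
        rw [(hasDerivAt_en n hy').deriv]
        have h1 := eR_nonneg n hy'
        have h0 : 0 ≤ -y := by linarith [hy.2]
        have : 0 ≤ (4 * (-y)) * (eR n y * (eU n y ^ 2 / eT n y ^ 2)) := by positivity
        linarith
    exact hmono ⟨hx.1, h⟩ ⟨by norm_num, le_rfl⟩ h

lemma eR_zero_le (m : ℕ) : eR m 0 ≤ 1 / (m + 2) := by
  have hA := (ident m 0).1
  simp only [zero_mul, add_zero] at hA
  have hU : eU m 0 = -2 * ((m + 1) * P m 0) := by
    unfold eU; rw [hA]; ring
  have hT : eT m 0 = (2 * m + 3) ^ 2 + 1 := by unfold eT; ring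
  unfold eR
  rw [hU, hT]
  have h4 := P_zero_bound (m + 1)
  have h5 := P_zero_bound m
  push_cast at h4
  rcases mul_eq_zero.mp (P_zero_mul m) with h | h
  · rw [h]
    rw [le_div_iff₀ (by positivity)]
    simp only [mul_zero, ne_eq, OfNat.ofNat_ne_zero, not_false_eq_true, zero_pow, zero_div, add_zero]
    linarith
  · rw [h]
    have h6 : (-2 * (((m : ℝ) + 1) * P m 0)) ^ 2 ≤ 4 * (m + 1) := by
      nlinarith [mul_le_mul_of_nonneg_left h5 (show (0:ℝ) ≤ 4 * (m + 1) by positivity)]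
    have h7 : (4 * ((m : ℝ) + 1)) / ((2 * m + 3) ^ 2 + 1) ≤ 1 / (m + 2) := by
      rw [div_le_div_iff₀ (by positivity) (by positivity)]
      nlinarith
    have h8 : (-2 * (((m : ℝ) + 1) * P m 0)) ^ 2 / ((2 * m + 3) ^ 2 + 1) ≤
        (4 * ((m : ℝ) + 1)) / ((2 * m + 3) ^ 2 + 1) :=
      div_le_div_of_nonneg_right h6 (by positivity)
    simp only [ne_eq, OfNat.ofNat_ne_zero, not_false_eq_true, zero_pow, zero_add]
    linarith

/-- `(1-x^2) (n+1)^2 P_n^4 ≤ 1`: a Bernstein-type inequality. -/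
lemma P_fourth_le (n : ℕ) (x : ℝ) (hx : x ∈ Icc (-1 : ℝ) 1) :
    (1 - x ^ 2) * ((n + 1) * P n x ^ 2) ^ 2 ≤ 1 := by
  have hx2 : x ^ 2 ≤ 1 := by nlinarith [hx.1, hx.2]
  match n with
  | 0 =>
    simp only [P_zero]
    norm_num
    positivity
  | (m + 1) =>
    have h1 := en_le m x hx
    have hT := eT_pos m hx
    have h2 : (1 - x ^ 2) * (P (m + 1) x ^ 2) ^ 2 ≤ en m x := by
      unfold en
      apply mul_le_mul_of_nonneg_left _ (by linarith)
      apply pow_le_pow_left₀ (by positivity)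
      unfold eR
      have : 0 ≤ eU m x ^ 2 / eT m x := by positivity
      linarith
    have h3 : en m 0 ≤ (1 / (m + 2)) ^ 2 := by
      unfold en
      have := eR_zero_le m
      have h0 := eR_nonneg m (show (0:ℝ) ∈ Icc (-1:ℝ) 1 by constructor <;> norm_num)
      have := pow_le_pow_left₀ h0 this 2
      linarith
    have h4 : (1 - x ^ 2) * (P (m + 1) x ^ 2) ^ 2 ≤ (1 / (m + 2)) ^ 2 := by linarith
    push_cast
    have h5 : (1 - x ^ 2) * (((m : ℝ) + 1 + 1) * P (m + 1) x ^ 2) ^ 2 =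
        ((m : ℝ) + 2) ^ 2 * ((1 - x ^ 2) * (P (m + 1) x ^ 2) ^ 2) := by ring
    rw [h5]
    calc ((m : ℝ) + 2) ^ 2 * ((1 - x ^ 2) * (P (m + 1) x ^ 2) ^ 2)
        ≤ ((m : ℝ) + 2) ^ 2 * (1 / (m + 2)) ^ 2 := mul_le_mul_of_nonneg_left h4 (by positivity)
      _ = 1 := by field_simp

/-- The weight `(1-x^2)^{-1/4}`. -/
noncomputable def w (x : ℝ) : ℝ := (Real.sqrt (Real.sqrt (1 - x ^ 2)))⁻¹

lemma w_nonneg (x : ℝ) : 0 ≤ w x := inv_nonneg.mpr (Real.sqrt_nonneg _)

lemma one_sub_sq_pos {x : ℝ} (hx : x ∈ Ioo (-1 : ℝ) 1) : 0 < 1 - x ^ 2 := by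
  nlinarith [hx.1, hx.2]

lemma w_sq {x : ℝ} : w x ^ 2 = (Real.sqrt (1 - x ^ 2))⁻¹ := by
  rw [w, inv_pow, Real.sq_sqrt (Real.sqrt_nonneg _)]

lemma w_four {x : ℝ} (hx : x ∈ Ioo (-1 : ℝ) 1) : w x ^ 4 = (1 - x ^ 2)⁻¹ := by
  have h0 := one_sub_sq_pos hx
  have : w x ^ 4 = (w x ^ 2) ^ 2 := by ring
  rw [this, w_sq, inv_pow, Real.sq_sqrt h0.le]

lemma one_le_w {x : ℝ} (hx : x ∈ Ioo (-1 : ℝ) 1) : 1 ≤ w x := by
  have h0 := one_sub_sq_pos hx
  rw [w]
  apply (one_le_inv₀ (Real.sqrt_pos.mpr (Real.sqrt_pos.mpr h0))).mpr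
  refine Real.sqrt_le_one.mpr (Real.sqrt_le_one.mpr (by nlinarith [sq_nonneg x]))

lemma w_pos {x : ℝ} (hx : x ∈ Ioo (-1 : ℝ) 1) : 0 < w x := lt_of_lt_of_le one_pos (one_le_w hx)

lemma abs_P_le (n : ℕ) {x : ℝ} (hx : x ∈ Ioo (-1 : ℝ) 1) :
    |P n x| ≤ w x / Real.sqrt (n + 1) := by
  have h := P_fourth_le n x ⟨hx.1.le, hx.2.le⟩
  have h0 := one_sub_sq_pos hx
  have hn : (0 : ℝ) < n + 1 := by positivity
  have hw := w_nonneg x
  have key : |P n x| ^ 4 ≤ (w x / Real.sqrt (n + 1)) ^ 4 := by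
    rw [div_pow, w_four hx]
    have h1 : Real.sqrt (n + 1) ^ 4 = ((n : ℝ) + 1) ^ 2 := by
      have : Real.sqrt (n + 1) ^ 4 = (Real.sqrt (n + 1) ^ 2) ^ 2 := by ring
      rw [this, Real.sq_sqrt hn.le]
    have h2 : |P n x| ^ 4 = (P n x ^ 2) ^ 2 := by
      rw [← sq_abs (P n x)]; ring
    rw [h1, h2, le_div_iff₀ (by positivity), ← one_div, le_div_iff₀ h0]
    linarith [h]
  exact le_of_pow_le_pow_left₀ (by norm_num) (by positivity) key

/-- The Legendre reproducing kernel. -/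
noncomputable def K (n : ℕ) (x y : ℝ) : ℝ :=
  ∑ k ∈ Finset.range (n + 1), (2 * k + 1) / 2 * (P k x * P k y)

lemma K_succ (n : ℕ) (x y : ℝ) :
    K (n + 1) x y = K n x y + (2 * (n + 1 : ℕ) + 1) / 2 * (P (n + 1) x * P (n + 1) y) := by
  rw [K, Finset.sum_range_succ, ← K]

lemma K_zero (x y : ℝ) : K 0 x y = 1 / 2 := by
  simp [K, P_zero]

/-- Christoffel-Darboux -/
lemma cd (n : ℕ) (x y : ℝ) :
    (x - y) * K n x y = (n + 1) / 2 * (P (n + 1) x * P n y - P n x * P (n + 1) y) := by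
  induction n with
  | zero => simp [K_zero, P_zero, P_one]; ring
  | succ n ih =>
    rw [K_succ, mul_add, ih]
    have h1 := P_rec n x
    have h2 := P_rec n y
    push_cast
    linear_combination (-(1 : ℝ) / 2 * P (n + 1) y) * h1 + (1 / 2 * P (n + 1) x) * h2

end Pool.Agent.LegRe
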