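import Pool.Agent.LegRe.Iterate

/-! Level sets: choice of the parameters. -/

namespace Pool.Agent.LegRe

open MeasureTheory Set ENNReal Filter Topology

lemma mu_pos_univ : (0 : ℝ≥0∞) < mu univ := by rw [mu_univ]; norm_num

lemma exists_levels {f : ℝ → ℝ} (hnc : ¬ ∃ c : ℝ, f =ᵐ[mu] fun _ => c) :
    ∃ α β : ℝ, α < β ∧ 0 < mu {x | f x < α} ∧ 0 < mu {x | β < f x} := by
  by_contra hcon
  push Not at hcon
  have hcon' : ∀ α β : ℝ, α < β → 0 < mu {x | f x < α} → mu {x | β < f x} = 0 := fun α β h1 h2 =>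
    le_antisymm (hcon α β h1 h2) zero_le
  set Sx : Set ℝ := {a | mu {x | f x < a} = 0} with hS
  have hdown : ∀ a b, a ≤ b → b ∈ Sx → a ∈ Sx := by
    intro a b hab hb
    apply measure_mono_null _ hb
    intro x hx
    exact lt_of_lt_of_le hx hab
  -- bounded above
  have hbdd : ∃ a, a ∉ Sx := by
    by_contra hall
    push Not at hall
    have h1 : mu (⋃ n : ℕ, {x | f x < n}) = 0 := measure_iUnion_null fun n => hall n
    have h2 : (⋃ n : ℕ, {x | f x < n}) = univ := by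
      ext x
      simp only [mem_iUnion, mem_univ, iff_true]
      obtain ⟨n, hn⟩ := exists_nat_gt (f x)
      exact ⟨n, hn⟩
    rw [h2] at h1
    exact absurd h1 mu_pos_univ.ne'
  obtain ⟨a1, ha1⟩ := hbdd
  have hne : Sx.Nonempty := by
    by_contra hemp
    rw [not_nonempty_iff_eq_empty] at hemp
    have hall : ∀ β : ℝ, mu {x | β < f x} = 0 := by
      intro β
      apply hcon' (β - 1) β (by linarith)
      have : β - 1 ∉ Sx := by rw [hemp]; exact notMem_empty _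
      exact pos_iff_ne_zero.mpr this
    have h1 : mu (⋃ n : ℕ, {x | -(n:ℝ) < f x}) = 0 := measure_iUnion_null fun n => hall _
    have h2 : (⋃ n : ℕ, {x | -(n:ℝ) < f x}) = univ := by
      ext x
      simp only [mem_iUnion, mem_univ, iff_true]
      obtain ⟨n, hn⟩ := exists_nat_gt (-f x)
      exact ⟨n, by change -(n:ℝ) < f x; linarith⟩
    rw [h2] at h1
    exact absurd h1 mu_pos_univ.ne'
  have hbd : BddAbove Sx := by
    refine ⟨a1, fun a ha => ?_⟩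
    by_contra hlt
    push Not at hlt
    exact ha1 (hdown a1 a hlt.le ha)
  set c := sSup Sx with hc
  apply hnc
  refine ⟨c, ?_⟩
  have hlow : ∀ n : ℕ, ∀ᵐ x ∂mu, c - 1 / ((n:ℝ) + 1) ≤ f x := by
    intro n
    have hpos : (0:ℝ) < 1 / ((n:ℝ) + 1) := by positivity
    obtain ⟨a, ha, hlt⟩ := exists_lt_of_lt_csSup hne (show c - 1 / ((n:ℝ) + 1) < sSup Sx by
      rw [← hc]; linarith)
    have := hdown _ a hlt.le ha
    rw [ae_iff]
    simp only [not_le]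
    exact this
  have hup : ∀ n : ℕ, ∀ᵐ x ∂mu, f x ≤ c + 1 / ((n:ℝ) + 1) := by
    intro n
    have hpos : (0:ℝ) < 1 / ((n:ℝ) + 1) := by positivity
    have hnot : c + 1 / ((n:ℝ) + 1) / 2 ∉ Sx := by
      intro hmem
      have := le_csSup hbd hmem
      rw [← hc] at this
      linarith
    have := hcon' (c + 1 / ((n:ℝ) + 1) / 2) (c + 1 / ((n:ℝ) + 1)) (by linarith)
      (pos_iff_ne_zero.mpr hnot)
    rw [ae_iff]
    simp only [not_le]
    exact this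
  filter_upwards [ae_all_iff.mpr hlow, ae_all_iff.mpr hup] with x h1 h2
  have ht : Tendsto (fun n : ℕ => 1 / ((n:ℝ) + 1)) atTop (𝓝 0) := tendsto_one_div_add_atTop_nhds_zero_nat
  apply le_antisymm
  · have : Tendsto (fun n : ℕ => c + 1 / ((n:ℝ) + 1)) atTop (𝓝 (c + 0)) := ht.const_add c
    rw [add_zero] at this
    exact ge_of_tendsto this (Eventually.of_forall h2)
  · have : Tendsto (fun n : ℕ => c - 1 / ((n:ℝ) + 1)) atTop (𝓝 (c - 0)) := ht.const_sub c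
    rw [sub_zero] at this
    exact le_of_tendsto this (Eventually.of_forall h1)

/-- Chebyshev -/
lemma cheb {f : ℝ → ℝ} (hf : Measurable f) {p : ℝ} (hp : 1 < p)
    (hfp : ∫⁻ x, ‖f x‖ₑ ^ p ∂mu ≠ ∞) :
    ∃ I : ℝ, 0 ≤ I ∧ ∀ τ : ℝ, 0 < τ → mu {x | τ < |f x|} ≤ ENNReal.ofReal (I * τ ^ (-p)) := by
  set J := ∫⁻ x, ‖f x‖ₑ ^ p ∂mu with hJ
  refine ⟨J.toReal, ENNReal.toReal_nonneg, ?_⟩
  intro τ hτ
  have hτp : 0 < τ ^ p := Real.rpow_pos_of_pos hτ p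
  have h1 := mul_meas_ge_le_lintegral (μ := mu) (f := fun x => ‖f x‖ₑ ^ p)
    (hf.enorm.pow_const p) (ENNReal.ofReal (τ ^ p))
  have h2 : {x | τ < |f x|} ⊆ {x | ENNReal.ofReal (τ ^ p) ≤ ‖f x‖ₑ ^ p} := by
    intro x hx
    have hx' : τ < |f x| := hx
    change ENNReal.ofReal (τ ^ p) ≤ ‖f x‖ₑ ^ p
    rw [Real.enorm_eq_ofReal_abs, ENNReal.ofReal_rpow_of_nonneg (abs_nonneg _) (by linarith)]
    exact ENNReal.ofReal_le_ofReal (Real.rpow_le_rpow hτ.le hx'.le (by linarith))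
  have h3 : ENNReal.ofReal (τ ^ p) * mu {x | τ < |f x|} ≤ ENNReal.ofReal (τ ^ p) *
      ENNReal.ofReal (J.toReal * τ ^ (-p)) := by
    calc _ ≤ ENNReal.ofReal (τ ^ p) * mu {x | ENNReal.ofReal (τ ^ p) ≤ ‖f x‖ₑ ^ p} :=
          mul_le_mul_right (measure_mono h2) _
      _ ≤ J := h1
      _ = ENNReal.ofReal J.toReal := (ENNReal.ofReal_toReal hfp).symm
      _ = _ := by
        rw [← ENNReal.ofReal_mul hτp.le]
        congr 1
        rw [Real.rpow_neg hτ.le]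
        field_simp
  exact (ENNReal.mul_le_mul_iff_right (by simpa using hτp) ENNReal.ofReal_ne_top).mp h3

lemma level_start {f : ℝ → ℝ} {Y : Set ℝ} {m A : ℝ} (hA : 0 < A) (hY : 0 < mu Y)
    (hm : ∀ x ∈ Y, m ≤ f x) : ∃ v : ℝ, m ≤ v ∧ 0 < mu (Y ∩ {x | f x ∈ Ico v (v + A)}) := by
  have h1 : Y ⊆ ⋃ k : ℕ, (Y ∩ {x | f x ∈ Ico (m + k * A) (m + k * A + A)}) := by
    intro x hx
    have h0 : 0 ≤ (f x - m) / A := div_nonneg (by linarith [hm x hx]) hA.le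
    have a1 := Nat.floor_le h0
    have a2 := Nat.lt_floor_add_one ((f x - m) / A)
    rw [le_div_iff₀ hA] at a1
    rw [div_lt_iff₀ hA] at a2
    refine mem_iUnion.mpr ⟨⌊(f x - m) / A⌋₊, hx, ?_⟩
    change f x ∈ Ico _ _
    exact ⟨by linarith, by linarith⟩
  have h2 : mu (⋃ k : ℕ, (Y ∩ {x | f x ∈ Ico (m + k * A) (m + k * A + A)})) ≠ 0 :=
    (lt_of_lt_of_le hY (measure_mono h1)).ne'
  obtain ⟨k, hk⟩ := exists_measure_pos_of_not_measure_iUnion_null h2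
  exact ⟨m + k * A, by have : (0:ℝ) ≤ k * A := by positivity
                       linarith, hk⟩

lemma level_next {f : ℝ → ℝ} {Y : Set ℝ} {v A : ℝ} (hA : 0 < A)
    (hY : 0 < mu (Y ∩ {x | f x ∈ Ico v (v + A)})) :
    ∃ v' : ℝ, v ≤ v' ∧ v' + A / 16 ≤ v + A ∧
      0 < mu (Y ∩ {x | f x ∈ Ico v' (v' + A / 16)}) := by
  have hA16 : 0 < A / 16 := by positivity
  have h1 : Y ∩ {x | f x ∈ Ico v (v + A)} ⊆
      ⋃ k : Fin 16, (Y ∩ {x | f x ∈ Ico (v + (k : ℕ) * (A / 16)) (v + (k : ℕ) * (A / 16) + A / 16)}) := by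
    rintro x ⟨hx, hxv⟩
    have hxv' : f x ∈ Ico v (v + A) := hxv
    have h0 : 0 ≤ (f x - v) / (A / 16) := div_nonneg (by linarith [hxv'.1]) hA16.le
    have a1 := Nat.floor_le h0
    have a2 := Nat.lt_floor_add_one ((f x - v) / (A / 16))
    rw [le_div_iff₀ hA16] at a1
    rw [div_lt_iff₀ hA16] at a2
    have a3 : ⌊(f x - v) / (A / 16)⌋₊ < 16 := by
      have : (⌊(f x - v) / (A / 16)⌋₊ : ℝ) * (A / 16) < 16 * (A / 16) := by linarith [hxv'.2]
      have := lt_of_mul_lt_mul_right this hA16.le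
      exact_mod_cast this
    refine mem_iUnion.mpr ⟨⟨_, a3⟩, hx, ?_⟩
    change f x ∈ Ico _ _
    simp only
    exact ⟨by linarith, by linarith⟩
  have h2 : mu (⋃ k : Fin 16, (Y ∩ {x | f x ∈ Ico (v + (k : ℕ) * (A / 16))
      (v + (k : ℕ) * (A / 16) + A / 16)})) ≠ 0 :=
    (lt_of_lt_of_le hY (measure_mono h1)).ne'
  obtain ⟨k, hk⟩ := exists_measure_pos_of_not_measure_iUnion_null h2
  refine ⟨v + (k : ℕ) * (A / 16), by have : (0:ℝ) ≤ (k : ℕ) * (A / 16) := by positivity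
                                     linarith, ?_, hk⟩
  have : ((k : ℕ) : ℝ) + 1 ≤ 16 := by
    have : (k : ℕ) + 1 ≤ 16 := k.2
    exact_mod_cast this
  nlinarith

/-- nested levels -/
lemma nested_levels {f : ℝ → ℝ} {Y : Set ℝ} {m A0 : ℝ} (hA : 0 < A0) (hY : 0 < mu Y)
    (hm : ∀ x ∈ Y, m ≤ f x) : ∃ v : ℕ → ℝ, (∀ j, m ≤ v j) ∧ (∀ j, v j ≤ v (j + 1)) ∧
      (∀ j, v (j + 1) + A0 / 16 ^ (j + 1) ≤ v j + A0 / 16 ^ j) ∧
      (∀ j, 0 < mu (Y ∩ {x | f x ∈ Ico (v j) (v j + A0 / 16 ^ j)})) := by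
  let T : ℕ → Type := fun j => {v : ℝ // m ≤ v ∧ 0 < mu (Y ∩ {x | f x ∈ Ico v (v + A0 / 16 ^ j)})}
  obtain ⟨v0, h0, h0'⟩ := level_start (f := f) hA hY hm
  have hstep : ∀ j (t : T j), ∃ v' : ℝ, t.1 ≤ v' ∧ v' + A0 / 16 ^ (j + 1) ≤ t.1 + A0 / 16 ^ j ∧
      0 < mu (Y ∩ {x | f x ∈ Ico v' (v' + A0 / 16 ^ (j + 1))}) := by
    intro j t
    obtain ⟨v', h1, h2, h3⟩ := level_next (by positivity : 0 < A0 / 16 ^ j) t.2.2
    have e : A0 / 16 ^ j / 16 = A0 / 16 ^ (j + 1) := by rw [pow_succ]; field_simp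
    rw [e] at h2 h3
    exact ⟨v', h1, h2, h3⟩
  choose nx h1 h2 h3 using hstep
  let seq : ∀ j, T j := fun j => Nat.rec (motive := T) ⟨v0, h0, by simpa using h0'⟩
    (fun j t => ⟨nx j t, t.2.1.trans (h1 j t), h3 j t⟩) j
  exact ⟨fun j => (seq j).1, fun j => (seq j).2.1, fun j => h1 j (seq j), fun j => h2 j (seq j),
    fun j => (seq j).2.2⟩

end Pool.Agent.LegRe
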