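import Pool.Agent.LegRe.Init2
import Pool.Agent.LegRe.Iterate

/-! The initial state and the main construction. -/

namespace Pool.Agent.LegRe

open MeasureTheory Set ENNReal Filter Topology

lemma N_stepF_lt {n : ℕ} {p q : Fin n → ℝ} {a b : ℝ} (ha : -1 ≤ a) (hb : b ≤ 1) (δ : ℝ)
    (k : Fin n → ℤ) (hpq : ∀ i, p i ≤ q i) (hU : (⋃ i, Ico (p i) (q i)) = Ico a b) :
    N (stepF p q δ k) ≠ ∞ := by
  unfold stepF
  refine ne_top_of_le_ne_top ?_ (N_sum_le Finset.univ (fun r x => val δ (k r) * ind (p r) (q r) x)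
    fun r _ => (integrable_ind _ _).const_mul _)
  rw [ENNReal.sum_ne_top]
  intro r _
  rw [N_const_mul]
  apply ENNReal.mul_ne_top enorm_ne_top
  rcases eq_or_lt_of_le (hpq r) with h | h
  · rw [h, ind_self, N_zero]; exact ENNReal.zero_ne_top
  · obtain ⟨h1, h2⟩ := piece_bounds (a := p) (b := q) (T := Ico a b) (x0 := a) (x1 := b)
      (Subset.refl _) hU r h
    exact ne_top_of_le_ne_top ENNReal.ofReal_ne_top
      (N_ind_unif (by linarith) h.le (by linarith))

/-- The initial treatment of the bulk. -/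
lemma initial_state {F0 : ℝ → ℝ} (hF0 : Measurable F0) {m s0 cinf v0 A0 B0 η : ℝ} (hs0 : 0 < s0)
    (hs1 : s0 ≤ 1 / 4) (hc0 : 0 ≤ cinf) (hcinf : cinf ≤ 1 / 2) (hA0 : 0 < A0) (hη : 0 < η)
    (hB : ∀ᵐ x ∂mu, x ∈ act s0 0 cinf → |F0 x| ≤ B0) :
    ∃ (e G : ℝ → ℝ) (Hi Lo : Set ℝ), Iso e ∧ mu {x | e x ≠ x} ≤ ENNReal.ofReal (2 * η) ∧
      Integrable G mu ∧ N G ≠ ∞ ∧
      State F0 (fun x => F0 (e x)) G m s0 0 cinf v0 A0 B0 Hi Lo := by
  obtain ⟨e1, he1, he1off, he1in, he1m, n1, p1, q1, k1, hpq1, hd1, hU1, hF1⟩ :=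
    refine_any (a := -1 + s0) (b := 0) (by linarith) (by linarith) (by norm_num) hF0 (B := B0)
      (by filter_upwards [hB] with x hx hxa; exact hx (Or.inl hxa)) m hA0 hη
  obtain ⟨e2, he2, he2off, he2in, he2m, n2, p2, q2, k2, hpq2, hd2, hU2, hF2⟩ :=
    refine_any (a := cinf) (b := 1 - s0) (by linarith) (by linarith) (by linarith) hF0 (B := B0)
      (by filter_upwards [hB] with x hx hxa; exact hx (Or.inr hxa)) m hA0 hη
  set e : ℝ → ℝ := e1 ∘ e2 with he
  have hT : ∀ x, x ∈ Ico (-1 + s0) 0 → x ∉ Ico cinf (1 - s0) := by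
    intro x h1 h2; linarith [h1.2, h2.1]
  have hT' : ∀ x, x ∈ Ico cinf (1 - s0) → x ∉ Ico (-1 + s0) 0 := fun x h1 h2 => hT x h2 h1
  have heT1 : ∀ᵐ x ∂mu, x ∈ Ico (-1 + s0) 0 → e x = e1 x := by
    filter_upwards [he2off] with x h1 hx
    simp only [he, Function.comp_apply]
    rw [h1 (hT x hx)]
  have heT2 : ∀ᵐ x ∂mu, x ∈ Ico cinf (1 - s0) → e x = e2 x := by
    filter_upwards [he2in, he2.ae he1off] with x h1 h2 hx
    simp only [he, Function.comp_apply]
    exact h2 (hT' _ (h1 hx))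
  have heoff : ∀ᵐ x ∂mu, x ∉ act s0 0 cinf → e x = x := by
    filter_upwards [he1off, he2off] with x h1 h2 hx
    have hx1 : x ∉ Ico (-1 + s0) 0 := fun h => hx (Or.inl h)
    have hx2 : x ∉ Ico cinf (1 - s0) := fun h => hx (Or.inr h)
    simp only [he, Function.comp_apply]
    rw [h2 hx2, h1 hx1]
  have hein : ∀ᵐ x ∂mu, x ∈ act s0 0 cinf → e x ∈ act s0 0 cinf := by
    filter_upwards [heT1, heT2, he1in, he2in] with x h1 h2 h3 h4 hx
    rcases hx with hx | hx
    · rw [h1 hx]; exact Or.inl (h3 hx)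
    · rw [h2 hx]; exact Or.inr (h4 hx)
  have heI : Iso e := he1.comp he2
  set G : ℝ → ℝ := fun x => (m * ind (-1) 1 x + (v0 - m) * ind (-1) (-1 + s0) x +
    (v0 - m) * ind (1 - s0) 1 x) + (stepF p1 q1 A0 k1 x + stepF p2 q2 A0 k2 x) with hG
  have iG0 : Integrable (fun x => m * ind (-1) 1 x + (v0 - m) * ind (-1) (-1 + s0) x) mu :=
    ((integrable_ind _ _).const_mul _).add ((integrable_ind _ _).const_mul _)
  have iG1 : Integrable (fun x => m * ind (-1) 1 x + (v0 - m) * ind (-1) (-1 + s0) x +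
    (v0 - m) * ind (1 - s0) 1 x) mu := iG0.add ((integrable_ind _ _).const_mul _)
  have iG2 : Integrable (fun x => stepF p1 q1 A0 k1 x + stepF p2 q2 A0 k2 x) mu :=
    (integrable_stepF _ _ _ _).add (integrable_stepF _ _ _ _)
  have hNu : ∀ (a c d : ℝ), -1 ≤ c → c ≤ d → d ≤ 1 → N (fun x => a * ind c d x) ≠ ∞ := by
    intro a c d h1 h2 h3
    rw [N_const_mul]
    exact ENNReal.mul_ne_top enorm_ne_top
      (ne_top_of_le_ne_top ENNReal.ofReal_ne_top (N_ind_unif h1 h2 h3))
  have hNG : N G ≠ ∞ := by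
    refine ne_top_of_le_ne_top ?_ (N_add_le iG1 iG2)
    apply ENNReal.add_ne_top.mpr
    constructor
    · refine ne_top_of_le_ne_top ?_ (N_add_le iG0 ((integrable_ind _ _).const_mul _))
      apply ENNReal.add_ne_top.mpr
      constructor
      · refine ne_top_of_le_ne_top ?_ (N_add_le ((integrable_ind _ _).const_mul _)
          ((integrable_ind _ _).const_mul _))
        exact ENNReal.add_ne_top.mpr ⟨hNu _ _ _ le_rfl (by norm_num) le_rfl,
          hNu _ _ _ le_rfl (by linarith) (by linarith)⟩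
      · exact hNu _ _ _ (by linarith) (by linarith) le_rfl
    · refine ne_top_of_le_ne_top ?_ (N_add_le (integrable_stepF _ _ _ _) (integrable_stepF _ _ _ _))
      exact ENNReal.add_ne_top.mpr ⟨N_stepF_lt (by linarith) (by norm_num) _ _ hpq1 hU1,
        N_stepF_lt (by linarith) (by linarith) _ _ hpq2 hU2⟩
  have hind1 : ∀ x, x ∈ Ico (-1:ℝ) 1 → ind (-1) 1 x = 1 := by
    intro x hx
    simp [ind, indicator_of_mem hx]
  have hindoff : ∀ {c d x : ℝ}, x ∉ Ico c d → ind c d x = 0 := by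
    intro c d x hx
    simp [ind, indicator_of_notMem hx]
  have hindon : ∀ {c d x : ℝ}, x ∈ Ico c d → ind c d x = 1 := by
    intro c d x hx
    simp [ind, indicator_of_mem hx]
  have hsub1 : ∀ i, Ico (p1 i) (q1 i) ⊆ Ico (-1 + s0) 0 := by
    intro i; rw [← hU1]; exact subset_iUnion (fun i => Ico (p1 i) (q1 i)) i
  have hsub2 : ∀ i, Ico (p2 i) (q2 i) ⊆ Ico cinf (1 - s0) := by
    intro i; rw [← hU2]; exact subset_iUnion (fun i => Ico (p2 i) (q2 i)) i
  obtain ⟨T1, T2, a1, a2, a3, a4⟩ := round_family (F := fun x => F0 (e x)) (G := G) (m := m) hA0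
    hpq1 hd1
    (by
      intro i x hx
      have hx1 := hsub1 i hx
      simp only [hG]
      rw [stepF_on hd1 i hx, stepF_off (by rw [hU2]; exact hT x hx1),
        hind1 x ⟨by linarith [hx1.1], by linarith [hx1.2]⟩,
        hindoff (c := -1) (d := -1 + s0) (x := x) (fun h => by linarith [h.2, hx1.1]),
        hindoff (c := 1 - s0) (d := 1) (x := x) (fun h => by linarith [h.1, hx1.2])]
      ring)
    (by
      intro i
      filter_upwards [hF1 i, heT1] with x h1 h2 hx
      rw [h2 (hsub1 i hx)]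
      exact h1 hx)
  obtain ⟨T1', T2', b1, b2, b3, b4⟩ := round_family (F := fun x => F0 (e x)) (G := G) (m := m) hA0
    hpq2 hd2
    (by
      intro i x hx
      have hx1 := hsub2 i hx
      simp only [hG]
      rw [stepF_on hd2 i hx, stepF_off (by rw [hU1]; exact hT' x hx1),
        hind1 x ⟨by linarith [hx1.1], by linarith [hx1.2]⟩,
        hindoff (c := -1) (d := -1 + s0) (x := x) (fun h => by linarith [h.2, hx1.1]),
        hindoff (c := 1 - s0) (d := 1) (x := x) (fun h => by linarith [h.1, hx1.2])]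
      ring)
    (by
      intro i
      filter_upwards [hF2 i, heT2] with x h1 h2 hx
      rw [h2 (hsub2 i hx)]
      exact h1 hx)
  have hTT : Disjoint (T1 ∪ T2) (T1' ∪ T2') := by
    rw [a2, b2, hU1, hU2, Set.disjoint_left]
    exact hT
  have d11 : Disjoint T1 T1' := hTT.mono subset_union_left subset_union_left
  have d12 : Disjoint T1 T2' := hTT.mono subset_union_left subset_union_right
  have d21 : Disjoint T2 T1' := hTT.mono subset_union_right subset_union_left
  have d22 : Disjoint T2 T2' := hTT.mono subset_union_right subset_union_right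
  refine ⟨e, G, T1 ∪ T1', T2 ∪ T2', heI, ?_, iG1.add iG2, hNG, ?_⟩
  · have hsub : {x | e x ≠ x} ⊆ {x | e2 x ≠ x} ∪ {x | e1 x ≠ x} := by
      intro x hx
      by_contra hcon
      simp only [mem_union, mem_setOf_eq, not_or, not_not] at hcon
      apply hx
      simp only [he, Function.comp_apply]
      rw [hcon.1, hcon.2]
    calc mu {x | e x ≠ x} ≤ mu {x | e2 x ≠ x} + mu {x | e1 x ≠ x} :=
          (measure_mono hsub).trans (measure_union_le _ _)
      _ ≤ ENNReal.ofReal η + ENNReal.ofReal η := add_le_add he2m he1m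
      _ = ENNReal.ofReal (2 * η) := by
          rw [← ENNReal.ofReal_add hη.le hη.le]; congr 1; ring
  · refine ⟨hF0.comp heI.1.measurable, a3.union b3 d11, High.union a4 b4 d22, ?_, ?_, ?_, ?_, ?_, ?_⟩
    · rw [Set.disjoint_union_left, Set.disjoint_union_right, Set.disjoint_union_right]
      exact ⟨⟨a1, d12⟩, ⟨d21.symm, b1⟩⟩
    · have : T1 ∪ T1' ∪ (T2 ∪ T2') = (T1 ∪ T2) ∪ (T1' ∪ T2') := by
        ext x; simp only [mem_union]; tauto
      rw [this, a2, b2, hU1, hU2]; rfl
    · intro x hx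
      simp only [hG]
      rcases hx with hx | hx
      · rw [stepF_off (by rw [hU1]; intro h; linarith [h.1, hx.2]),
          stepF_off (by rw [hU2]; intro h; linarith [h.1, hx.2]),
          hind1 x ⟨hx.1, by linarith [hx.2]⟩, hindon hx,
          hindoff (c := 1 - s0) (d := 1) (x := x) (fun h => by linarith [h.1, hx.2])]
        ring
      · rw [stepF_off (by rw [hU1]; intro h; linarith [h.2, hx.1]),
          stepF_off (by rw [hU2]; intro h; linarith [h.2, hx.1]),
          hind1 x ⟨by linarith [hx.1], hx.2⟩, hindon hx,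
          hindoff (c := -1) (d := -1 + s0) (x := x) (fun h => by linarith [h.2, hx.1])]
        ring
    · intro x hx
      simp only [hG]
      rw [stepF_off (by rw [hU1]; intro h; linarith [h.2, hx.1]),
        stepF_off (by rw [hU2]; intro h; linarith [h.1, hx.2]),
        hind1 x ⟨by linarith [hx.1], by linarith [hx.2]⟩,
        hindoff (c := -1) (d := -1 + s0) (x := x) (fun h => by linarith [h.2, hx.1]),
        hindoff (c := 1 - s0) (d := 1) (x := x) (fun h => by linarith [h.1, hx.2])]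
      ring
    · filter_upwards [heoff] with x h1 hx
      rw [h1 hx]
    · filter_upwards [heI.ae hB, hein] with x h1 h2 hx
      exact h1 (h2 hx)

end Pool.Agent.LegRe
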