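import Pool.Agent.LegRe.Main1

/-! The main construction. -/

namespace Pool.Agent.LegRe

open MeasureTheory Set ENNReal Filter Topology

lemma summable_geo16 : Summable fun j : ℕ => (1 / 16 : ℝ) ^ j :=
  summable_geometric_of_lt_one (by norm_num) (by norm_num)

lemma summable_rcost {A0 t M C θ p κ : ℝ} (hA0 : 0 < A0) (ht : 0 < t) (hM : 0 ≤ M) (hC : 0 ≤ C)
    (hp : 1 < p) (hθ0 : 0 < θ) (hθ : 1 < p * θ) (hκ : 0 ≤ κ) {d : ℕ → ℝ} (hd0 : ∀ j, 0 ≤ d j)
    (hd : ∀ j, d j ≤ M * ((2:ℝ) ^ (-p)) ^ j) :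
    Summable (fun j : ℕ => rcost (A0 / 16 ^ j) (t * 2 ^ (j + 1)) (κ / 2 ^ j) C θ (d j)
      (⌈4 * (A0 / 16 ^ j + 2 * (t * 2 ^ (j + 1))) / (A0 / 16 ^ (j + 1))⌉₊ + 1)) := by
  set K : ℕ → ℕ := fun j => ⌈4 * (A0 / 16 ^ j + 2 * (t * 2 ^ (j + 1))) / (A0 / 16 ^ (j + 1))⌉₊ + 1
    with hK
  have sA : Summable fun j : ℕ => A0 / 16 ^ j := by
    have := summable_geo16.mul_left A0
    refine this.congr fun j => ?_
    rw [div_pow, one_pow]; ring
  have sη : Summable fun j : ℕ => κ / 2 ^ j := by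
    have := (summable_geometric_of_lt_one (by norm_num : (0:ℝ) ≤ 1 / 2) (by norm_num)).mul_left κ
    refine this.congr fun j => ?_
    rw [div_pow, one_pow]; ring
  -- the logarithmic term
  set M' : ℝ := 64 * (A0 + 4 * t) / A0 + 2 with hM'
  have hM'1 : 1 ≤ M' := by
    have : 0 ≤ 64 * (A0 + 4 * t) / A0 := by positivity
    linarith
  have hKle : ∀ j, (K j : ℝ) ≤ M' * 32 ^ j := by
    intro j
    have h0 : 0 ≤ 4 * (A0 / 16 ^ j + 2 * (t * 2 ^ (j + 1))) / (A0 / 16 ^ (j + 1)) := by positivity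
    have h1 : (K j : ℝ) ≤ 4 * (A0 / 16 ^ j + 2 * (t * 2 ^ (j + 1))) / (A0 / 16 ^ (j + 1)) + 2 := by
      simp only [hK]
      push_cast
      have := Nat.ceil_lt_add_one h0
      linarith
    have h2 : 4 * (A0 / 16 ^ j + 2 * (t * 2 ^ (j + 1))) / (A0 / 16 ^ (j + 1)) =
        64 * (A0 + 4 * t * 32 ^ j) / A0 := by
      have e32 : (32:ℝ) ^ j = 16 ^ j * 2 ^ j := by
        rw [← mul_pow]; norm_num
      rw [e32]
      field_simp
      ring
    have h3 : (1:ℝ) ≤ 32 ^ j := one_le_pow₀ (by norm_num)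
    have h4 : 64 * (A0 + 4 * t * 32 ^ j) / A0 ≤ 64 * (A0 + 4 * t) / A0 * 32 ^ j := by
      rw [div_mul_eq_mul_div]
      apply div_le_div_of_nonneg_right _ hA0.le
      nlinarith
    calc (K j : ℝ) ≤ 64 * (A0 + 4 * t) / A0 * 32 ^ j + 2 * 32 ^ j := by
          rw [h2] at h1; linarith
      _ = M' * 32 ^ j := by rw [hM']; ring
  have hK1 : ∀ j, (1:ℝ) ≤ K j := by
    intro j
    simp only [hK]
    push_cast
    have : (0:ℝ) ≤ (⌈4 * (A0 / 16 ^ j + 2 * (t * 2 ^ (j + 1))) / (A0 / 16 ^ (j + 1))⌉₊ : ℝ) :=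
      Nat.cast_nonneg _
    linarith
  have hlog : ∀ j, Real.log (K j) ≤ Real.log M' + j * Real.log 32 := by
    intro j
    calc Real.log (K j) ≤ Real.log (M' * 32 ^ j) :=
          Real.log_le_log (by linarith [hK1 j]) (hKle j)
      _ = _ := by
          rw [Real.log_mul (by positivity) (by positivity), Real.log_pow]
  have sAl : Summable fun j : ℕ => A0 / 16 ^ j * (1 + Real.log (K j)) := by
    have s1 : Summable fun j : ℕ => (j:ℝ) ^ 1 * (1 / 16 : ℝ) ^ j :=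
      summable_pow_mul_geometric_of_norm_lt_one 1 (by norm_num)
    have s2 : Summable fun j : ℕ => A0 * (1 + Real.log M') * (1 / 16 : ℝ) ^ j +
        A0 * Real.log 32 * ((j:ℝ) ^ 1 * (1 / 16 : ℝ) ^ j) :=
      (summable_geo16.mul_left _).add (s1.mul_left _)
    refine Summable.of_nonneg_of_le (fun j => ?_) (fun j => ?_) s2
    · have := Real.log_nonneg (hK1 j)
      positivity
    · have h1 := hlog j
      have h2 : 0 ≤ A0 / 16 ^ j := by positivity
      calc A0 / 16 ^ j * (1 + Real.log (K j)) ≤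
            A0 / 16 ^ j * (1 + (Real.log M' + j * Real.log 32)) := by gcongr
        _ = _ := by
            rw [div_pow, one_pow, pow_one]; ring
  -- the jumps
  have hr : (2:ℝ) * ((2:ℝ) ^ (-p)) ^ θ < 1 := by
    rw [← Real.rpow_mul (by norm_num)]
    have : (2:ℝ) ^ (-p * θ) < 2 ^ (-1:ℝ) :=
      Real.rpow_lt_rpow_of_exponent_lt (by norm_num) (by linarith)
    rw [Real.rpow_neg_one] at this
    linarith
  have sB : Summable fun j : ℕ => t * 2 ^ (j + 1) * (d j) ^ θ := by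
    have s1 : Summable fun j : ℕ => 2 * t * M ^ θ * (2 * ((2:ℝ) ^ (-p)) ^ θ) ^ j :=
      (summable_geometric_of_lt_one (by positivity) hr).mul_left _
    refine Summable.of_nonneg_of_le (fun j => ?_) (fun j => ?_) s1
    · have := Real.rpow_nonneg (hd0 j) θ
      positivity
    · have h1 : (d j) ^ θ ≤ (M * ((2:ℝ) ^ (-p)) ^ j) ^ θ :=
        Real.rpow_le_rpow (hd0 j) (hd j) hθ0.le
      have h2 : (M * ((2:ℝ) ^ (-p)) ^ j) ^ θ = M ^ θ * (((2:ℝ) ^ (-p)) ^ θ) ^ j := by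
        rw [Real.mul_rpow hM (by positivity), ← Real.rpow_pow_comm (by positivity)]
      rw [h2] at h1
      calc t * 2 ^ (j + 1) * (d j) ^ θ ≤
            t * 2 ^ (j + 1) * (M ^ θ * (((2:ℝ) ^ (-p)) ^ θ) ^ j) := by gcongr
        _ = _ := by rw [mul_pow, pow_succ]; ring
  have sT : Summable fun j : ℕ =>
      (2 * CR) * (A0 / 16 ^ j * (1 + Real.log (K j))) + 8 * (A0 / 16 ^ j) + 2 * (κ / 2 ^ j) +
        (8 * C) * (t * 2 ^ (j + 1) * (d j) ^ θ) + (2 * Cu) * (A0 / 16 ^ j) :=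
    ((((sAl.mul_left _).add (sA.mul_left _)).add (sη.mul_left _)).add (sB.mul_left _)).add
      (sA.mul_left _)
  refine sT.congr fun j => ?_
  unfold rcost
  ring

/-- The main construction for a nonconstant function. -/
theorem main_pre {f : ℝ → ℝ} (hf : Measurable f) {p : ℝ} (hp : 1 < p) (hp2 : p ≤ 2)
    (hfp : ∫⁻ x, ‖f x‖ₑ ^ p ∂mu ≠ ∞) (hnc : ¬ ∃ c : ℝ, f =ᵐ[mu] fun _ => c) {ε : ℝ} (hε : 0 < ε)
    (hε1 : ε ≤ 1) :
    ∃ ω : ℝ → ℝ, Iso ω ∧ mu {x | ω x ≠ x} ≤ ENNReal.ofReal ε ∧ N1 (fun x => f (ω x)) ≠ ∞ := by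
  obtain ⟨ω0, m, γ, cinf, t, A0, M, s, c, v, hω0, hω0m, hγ, hA0, hAγ, ht, hmt, hs0, hss, hs1, hc00,
    hcc, hci, hcinfε, hlimc, hv, hvv, hvt, hM, hd, hz, hblk, hbulk, hr1, hr2⟩ :=
    exists_init hf hp hp2 hfp hnc hε hε1
  set F0 : ℝ → ℝ := fun x => f (ω0 x) with hF0
  have hF0m : Measurable F0 := hf.comp hω0.1.measurable
  have hc0 : ∀ j, 0 ≤ c j := by
    intro j
    induction j with
    | zero => rw [hc00]
    | succ j ih => linarith [hcc j]
  have hcinf0 : 0 ≤ cinf := (hc0 0).trans (hci 0)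
  have hcinf : cinf ≤ 1 / 2 := by linarith
  -- parameters
  set A : ℕ → ℝ := fun j => A0 / 16 ^ j with hA
  set B : ℕ → ℝ := fun j => t * 2 ^ (j + 1) with hB
  set η : ℕ → ℝ := fun j => (ε / 64) / 2 ^ j with hη
  set K : ℕ → ℕ := fun j => ⌈4 * (A j + 2 * B j) / A (j + 1)⌉₊ + 1 with hK
  have hKne : ∀ j, NeZero (K j) := fun j => ⟨by simp only [hK]; omega⟩
  set θ : ℝ := (1 + 1 / p) / 2 with hθ
  have hp0 : 0 < p := by linarith
  have hpi : 1 / p < 1 := by rw [div_lt_one hp0]; exact hp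
  have hpi0 : 0 < 1 / p := by positivity
  have hθ1 : θ < 1 := by rw [hθ]; linarith
  have hθ0 : 0 < θ := by rw [hθ]; linarith
  have hpθ : 1 < p * θ := by
    have : p * θ = (p + 1) / 2 := by rw [hθ]; field_simp
    rw [this]; linarith
  obtain ⟨C, hC, hΦ⟩ := N_ind_local (s := 1 / 2) (by norm_num) hθ0.le hθ1
  obtain ⟨e, G, Hi, Lo, he, hem, hGi, hNG, st⟩ := initial_state hF0m (m := m) (v0 := v 0)
    (B0 := t) (hs0 0) (hs1 0) hcinf0 hcinf hA0 (by positivity : 0 < ε / 16)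
    (by rw [hc00] at hbulk; exact hbulk)
  have hpow16 : ∀ j : ℕ, (1:ℝ) ≤ 16 ^ j := fun j => one_le_pow₀ (by norm_num)
  have hpow2 : ∀ j : ℕ, (1:ℝ) ≤ 2 ^ j := fun j => one_le_pow₀ (by norm_num)
  have hApos : ∀ j, 0 < A j := fun j => by simp only [hA]; positivity
  have hAle : ∀ j, A j ≤ A0 := fun j => div_le_self hA0.le (hpow16 j)
  have hB2 : ∀ j, 2 * t ≤ B j := by
    intro j
    simp only [hB]
    have := hpow2 j
    rw [pow_succ]
    nlinarith
  have hηpos : ∀ j, 0 < η j := fun j => by simp only [hη]; positivity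
  have hst0 : ∃ Hi Lo, State F0 (fun x => F0 (e x)) G m (s 0) (c 0) cinf (v 0) (A 0) (B 0) Hi Lo := by
    have hA00 : A 0 = A0 := by simp [hA]
    rw [hc00, hA00]
    exact ⟨Hi, Lo, st.mono_B (by linarith [hB2 0])⟩
  have hmvb : ∀ n, ∑ j ∈ Finset.range n, (7 * (c (j + 1) - c j) + 2 * η j) ≤ ε / 2 := by
    intro n
    rw [Finset.sum_add_distrib, ← Finset.mul_sum, ← Finset.mul_sum, Finset.sum_range_sub, hc00]
    have h1 : ∑ j ∈ Finset.range n, η j ≤ ε / 32 := by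
      have e1 : ∀ n : ℕ, ∑ j ∈ Finset.range n, η j = ε / 32 - (ε / 32) / 2 ^ n := by
        intro n
        induction n with
        | zero => simp
        | succ n ih =>
          rw [Finset.sum_range_succ, ih]
          simp only [hη]
          rw [pow_succ]
          field_simp
          ring
      rw [e1]
      have : 0 ≤ (ε / 32) / 2 ^ n := by positivity
      linarith
    have h2 := hci n
    linarith
  have hmvpos : ∀ j, 0 ≤ 7 * (c (j + 1) - c j) + 2 * η j := fun j => by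
    have := hcc j; have := hηpos j; linarith
  have hmv : Summable (fun j => 7 * (c (j + 1) - c j) + 2 * η j) :=
    summable_of_sum_range_le hmvpos hmvb
  have hmvle : ∑' j, (7 * (c (j + 1) - c j) + 2 * η j) ≤ ε / 2 :=
    Real.tsum_le_of_sum_range_le hmvpos hmvb
  have hsum : Summable (fun j => rcost (A j) (B j) (η j) C θ (c (j + 1) - c j) (K j)) :=
    summable_rcost hA0 ht hM hC hp hθ0 hpθ (by positivity) (fun j => by linarith [hcc j]) hd
  have hlimA : Tendsto A atTop (𝓝 0) := by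
    have h1 : Tendsto (fun j : ℕ => A0 * (1 / 16 : ℝ) ^ j) atTop (𝓝 (A0 * 0)) :=
      (_root_.tendsto_pow_atTop_nhds_zero_of_lt_one (by norm_num) (by norm_num)).const_mul _
    rw [mul_zero] at h1
    refine h1.congr fun j => ?_
    simp only [hA]
    rw [div_pow, one_pow]; ring
  obtain ⟨ω, hω, hωm, hωN⟩ := iterate (F0 := F0) (Fi := fun x => F0 (e x)) (Gi := G) (m := m)
    (γ := γ) (cinf := cinf) (C := C) (θ := θ) (s := s) (c := c) (v := v) (A := A) (B := B) (η := η)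
    (K := K) hs0 hss hs1 hc0 hcc hci hcinf hApos hγ
    (fun j => by have := hAle j; linarith) hηpos hv hvv
    (fun j => by have := hB2 j; linarith)
    (fun j => (hvt j).trans (hB2 j))
    (fun j => by
      simp only [hB]
      have h1 := hpow2 j
      have h2 : (2:ℝ) ^ (j + 1) ≤ 2 ^ (j + 1 + 1) := pow_le_pow_right₀ (by norm_num) (by omega)
      exact mul_le_mul_of_nonneg_left h2 ht.le)
    (fun j => by
      simp only [hK]
      push_cast
      have := Nat.le_ceil (4 * (A j + 2 * B j) / A (j + 1))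
      linarith)
    hz hblk hr1 hr2 hC hθ0.le (fun c d h1 h2 h3 => hΦ c d (by linarith) h2 (by linarith))
    hGi hNG hst0 hlimA hlimc hsum hmv
  refine ⟨ω0 ∘ e ∘ ω, hω0.comp (he.comp hω), ?_, hωN⟩
  have hsub : {x | (ω0 ∘ e ∘ ω) x ≠ x} ⊆ {x | ω x ≠ x} ∪ ({x | e x ≠ x} ∪ {x | ω0 x ≠ x}) := by
    intro x hx
    by_contra hcon
    simp only [mem_union, mem_setOf_eq, not_or, not_not] at hcon
    apply hx
    simp only [Function.comp_apply]
    rw [hcon.1, hcon.2.1, hcon.2.2]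
  calc mu {x | (ω0 ∘ e ∘ ω) x ≠ x} ≤ mu {x | ω x ≠ x} + (mu {x | e x ≠ x} + mu {x | ω0 x ≠ x}) :=
        (measure_mono hsub).trans ((measure_union_le _ _).trans
          (add_le_add le_rfl (measure_union_le _ _)))
    _ ≤ ENNReal.ofReal (ε / 2) + (ENNReal.ofReal (2 * (ε / 16)) + ENNReal.ofReal (ε / 8)) :=
        add_le_add (hωm.trans (ENNReal.ofReal_le_ofReal hmvle)) (add_le_add hem hω0m)
    _ = ENNReal.ofReal (ε / 2 + (2 * (ε / 16) + ε / 8)) := by
        rw [← ENNReal.ofReal_add (by positivity) (by positivity),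
          ← ENNReal.ofReal_add (by positivity) (by positivity)]
    _ ≤ ENNReal.ofReal ε := ENNReal.ofReal_le_ofReal (by linarith)

end Pool.Agent.LegRe
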