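import Pool.Agent.LegRe.Maximal

/-! Orthogonality of the Legendre polynomials and uniqueness of the orthonormal sequence. -/

namespace Pool.Agent.LegRe

open MeasureTheory Set ENNReal Filter Topology Polynomial

lemma P_at_one (n : ℕ) : P n 1 = 1 := by
  induction n using Nat.strong_induction_on with
  | _ n ih =>
    match n with
    | 0 => simp [P_zero]
    | 1 => simp [P_one]
    | n + 2 =>
      have h := P_rec n 1
      rw [ih (n + 1) (by omega), ih n (by omega)] at h
      have : (n + 2 : ℝ) ≠ 0 := by positivity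
      apply mul_left_cancel₀ this
      rw [h]; ring

lemma P_at_neg_one (n : ℕ) : P n (-1) = (-1) ^ n := by
  induction n using Nat.strong_induction_on with
  | _ n ih =>
    match n with
    | 0 => simp [P_zero]
    | 1 => simp [P_one]
    | n + 2 =>
      have h := P_rec n (-1)
      rw [ih (n + 1) (by omega), ih n (by omega)] at h
      have : (n + 2 : ℝ) ≠ 0 := by positivity
      apply mul_left_cancel₀ this
      rw [h]; ring

lemma intervalIntegrable_poly (q : ℝ[X]) (a b : ℝ) :
    IntervalIntegrable (fun x => q.eval x) volume a b := q.continuous.intervalIntegrable _ _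

lemma integral_P (n : ℕ) : ∫ x in (-1:ℝ)..1, P (n + 1) x = 0 := by
  have h1 : ∀ x ∈ uIcc (-1:ℝ) 1, HasDerivAt (fun y => (2 * (n:ℝ) + 3)⁻¹ * (P (n + 2) y - P n y))
      (P (n + 1) x) x := by
    intro x _
    have h := ((hasDerivAt_P (n + 2) x).sub (hasDerivAt_P n x)).const_mul (2 * (n:ℝ) + 3)⁻¹
    rw [← ident_q n x, ← mul_assoc, inv_mul_cancel₀ (by positivity), one_mul] at h
    exact h
  rw [intervalIntegral.integral_eq_sub_of_hasDerivAt h1
    ((continuous_P (n + 1)).intervalIntegrable _ _)]
  rw [P_at_one, P_at_one, P_at_neg_one, P_at_neg_one, pow_add]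
  norm_num

/-- `P_n` is orthogonal to all monomials of lower degree. -/
lemma integral_pow_P (m : ℕ) : ∀ n, m < n → ∫ x in (-1:ℝ)..1, x ^ m * P n x = 0 := by
  induction m with
  | zero =>
    intro n hn
    obtain ⟨k, rfl⟩ : ∃ k, n = k + 1 := ⟨n - 1, by omega⟩
    simpa using integral_P k
  | succ m ih =>
    intro n hn
    obtain ⟨k, rfl⟩ : ∃ k, n = k + 1 := ⟨n - 1, by omega⟩
    have h1 : ∀ x : ℝ, x ^ (m + 1) * P (k + 1) x =
        ((k:ℝ) + 2) / (2 * k + 3) * (x ^ m * P (k + 2) x) + (k + 1) / (2 * k + 3) * (x ^ m * P k x) := by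
      intro x
      have h := P_rec k x
      have h0 : (2 * (k:ℝ) + 3) ≠ 0 := by positivity
      field_simp
      linear_combination (-(x ^ m)) * h
    have c1 : Continuous fun x : ℝ => ((k:ℝ) + 2) / (2 * k + 3) * (x ^ m * P (k + 2) x) :=
      continuous_const.mul ((continuous_pow m).mul (continuous_P _))
    have c2 : Continuous fun x : ℝ => ((k:ℝ) + 1) / (2 * k + 3) * (x ^ m * P k x) :=
      continuous_const.mul ((continuous_pow m).mul (continuous_P _))
    simp_rw [h1]
    rw [intervalIntegral.integral_add (c1.intervalIntegrable _ _) (c2.intervalIntegrable _ _),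
      intervalIntegral.integral_const_mul, intervalIntegral.integral_const_mul,
      ih (k + 2) (by omega), ih k (by omega)]
    simp

lemma integral_poly_P (q : ℝ[X]) (n : ℕ) (hq : q.natDegree < n) :
    ∫ x in (-1:ℝ)..1, q.eval x * P n x = 0 := by
  have h1 : ∀ x : ℝ, q.eval x * P n x = ∑ i ∈ Finset.range (q.natDegree + 1),
      q.coeff i * (x ^ i * P n x) := by
    intro x
    rw [eval_eq_sum_range, Finset.sum_mul]
    exact Finset.sum_congr rfl fun i _ => by ring
  simp_rw [h1]
  rw [intervalIntegral.integral_finset_sum]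
  · apply Finset.sum_eq_zero
    intro i hi
    rw [intervalIntegral.integral_const_mul,
      integral_pow_P i n (lt_of_lt_of_le (Finset.mem_range.mp hi) hq), mul_zero]
  · intro i _
    exact (continuous_const.mul ((continuous_pow i).mul (continuous_P _))).intervalIntegrable _ _

lemma natDegree_leg_le (n : ℕ) : (leg n).natDegree ≤ n := by
  induction n using Nat.strong_induction_on with
  | _ n ih =>
    match n with
    | 0 => simp [leg]
    | 1 => simp [leg]
    | n + 2 =>
      rw [leg]
      refine (natDegree_C_mul_le _ _).trans ((natDegree_sub_le _ _).trans (max_le ?_ ?_))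
      · refine natDegree_mul_le.trans ?_
        have h1 := ih (n + 1) (by omega)
        have h2 : (C (2 * (n:ℝ) + 3) * X : ℝ[X]).natDegree ≤ 1 :=
          (natDegree_C_mul_le _ _).trans natDegree_X_le
        omega
      · refine (natDegree_C_mul_le _ _).trans ?_
        have h1 := ih n (by omega)
        omega

lemma coeff_leg_pos (n : ℕ) : 0 < (leg n).coeff n := by
  induction n with
  | zero => simp [leg]
  | succ n ih =>
    match n with
    | 0 => simp [leg]
    | n + 1 =>
      have h1 : (leg (n + 2)).coeff (n + 2) =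
          ((n:ℝ) + 2)⁻¹ * ((2 * n + 3) * (leg (n + 1)).coeff (n + 1)) := by
        rw [leg, coeff_C_mul, coeff_sub, mul_assoc, coeff_C_mul, coeff_X_mul, coeff_C_mul,
          coeff_eq_zero_of_natDegree_lt (lt_of_le_of_lt (natDegree_leg_le n) (by omega)), mul_zero,
          sub_zero]
      rw [h1]
      positivity

lemma natDegree_leg (n : ℕ) : (leg n).natDegree = n :=
  le_antisymm (natDegree_leg_le n) (le_natDegree_of_ne_zero (coeff_leg_pos n).ne')

/-- The norm of `P_n`. -/
lemma integral_P_sq (n : ℕ) : ∫ x in (-1:ℝ)..1, P n x * P n x = 2 / (2 * n + 1) := by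
  induction n with
  | zero => simp [P_zero]; norm_num
  | succ n ih =>
    have h1 : ∫ x in (-1:ℝ)..1, P (n + 1) x * (x * P n x) =
        ((n:ℝ) + 1) / (2 * n + 1) * ∫ x in (-1:ℝ)..1, P (n + 1) x * P (n + 1) x := by
      match n with
      | 0 => simp [P_zero, P_one]
      | k + 1 =>
        have e1 : ∀ x : ℝ, P (k + 2) x * (x * P (k + 1) x) =
            ((k:ℝ) + 2) / (2 * k + 3) * (P (k + 2) x * P (k + 2) x) +
            (k + 1) / (2 * k + 3) * ((leg k).eval x * P (k + 2) x) := by
          intro x
          have h := P_rec k x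
          have h0 : (2 * (k:ℝ) + 3) ≠ 0 := by positivity
          have : (leg k).eval x = P k x := rfl
          rw [this]
          field_simp
          linear_combination (-(P (k + 2) x)) * h
        simp_rw [e1]
        rw [intervalIntegral.integral_add, intervalIntegral.integral_const_mul,
          intervalIntegral.integral_const_mul,
          integral_poly_P _ _ (lt_of_le_of_lt (natDegree_leg_le k) (by omega))]
        · push_cast
          ring
        · exact (continuous_const.mul
            ((continuous_P _).mul (continuous_P _))).intervalIntegrable _ _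
        · exact (continuous_const.mul
            ((leg k).continuous.mul (continuous_P _))).intervalIntegrable _ _
    have h2 : ∫ x in (-1:ℝ)..1, P n x * (x * P (n + 1) x) =
        ((n:ℝ) + 1) / (2 * n + 3) * ∫ x in (-1:ℝ)..1, P n x * P n x := by
      have e1 : ∀ x : ℝ, P n x * (x * P (n + 1) x) =
          ((n:ℝ) + 1) / (2 * n + 3) * (P n x * P n x) +
          (n + 2) / (2 * n + 3) * ((leg n).eval x * P (n + 2) x) := by
        intro x
        have h := P_rec n x
        have h0 : (2 * (n:ℝ) + 3) ≠ 0 := by positivity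
        have : (leg n).eval x = P n x := rfl
        rw [this]
        field_simp
        linear_combination (-(P n x)) * h
      simp_rw [e1]
      rw [intervalIntegral.integral_add, intervalIntegral.integral_const_mul,
        intervalIntegral.integral_const_mul,
        integral_poly_P _ _ (lt_of_le_of_lt (natDegree_leg_le n) (by omega))]
      · ring
      · exact (continuous_const.mul
          ((continuous_P _).mul (continuous_P _))).intervalIntegrable _ _
      · exact (continuous_const.mul
          ((leg n).continuous.mul (continuous_P _))).intervalIntegrable _ _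
    have h3 : ∀ x : ℝ, P (n + 1) x * (x * P n x) = P n x * (x * P (n + 1) x) := fun x => by ring
    simp_rw [h3] at h1
    rw [h2, ih] at h1
    have a1 : (2 * (n:ℝ) + 1) ≠ 0 := by positivity
    have a2 : (2 * (n:ℝ) + 3) ≠ 0 := by positivity
    have a3 : ((n:ℝ) + 1) ≠ 0 := by positivity
    push_cast
    have : ((n:ℝ) + 1) / (2 * n + 1) * (∫ x in (-1:ℝ)..1, P (n + 1) x * P (n + 1) x) =
        ((n:ℝ) + 1) / (2 * n + 1) * (2 / (2 * (n + 1) + 1)) := by
      rw [← h1]
      have a4 : (2 * ((n:ℝ) + 1) + 1) ≠ 0 := by positivity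
      field_simp
      ring
    exact mul_left_cancel₀ (by positivity) this

lemma integral_P_mul (m n : ℕ) (h : m ≠ n) : ∫ x in (-1:ℝ)..1, P m x * P n x = 0 := by
  rcases lt_or_gt_of_ne h with h | h
  · exact integral_poly_P (leg m) n (by rw [natDegree_leg]; exact h)
  · have := integral_poly_P (leg n) m (by rw [natDegree_leg]; exact h)
    rw [← this]
    congr 1
    funext x
    rw [mul_comm]; rfl

/-- A sequence of polynomials of degrees `0, 1, 2, …`, orthonormal in `L²[-1,1]`. -/
def OrthoLeg (p : ℕ → ℝ[X]) : Prop :=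
  (∀ n, (p n).natDegree = n) ∧
    ∀ m n, ∫ x in (-1:ℝ)..1, (p m).eval x * (p n).eval x = if m = n then 1 else 0

lemma exists_orthoLeg : ∃ p : ℕ → ℝ[X], OrthoLeg p := by
  refine ⟨fun n => C (Real.sqrt ((2 * n + 1) / 2)) * leg n, ?_, ?_⟩
  · intro n
    rw [natDegree_C_mul, natDegree_leg]
    exact (Real.sqrt_pos.mpr (by positivity)).ne'
  · intro m n
    have e1 : ∀ x : ℝ, (C (Real.sqrt ((2 * m + 1) / 2)) * leg m).eval x *
        (C (Real.sqrt ((2 * n + 1) / 2)) * leg n).eval x =
        (Real.sqrt ((2 * m + 1) / 2) * Real.sqrt ((2 * n + 1) / 2)) * (P m x * P n x) := by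
      intro x
      rw [eval_mul, eval_mul, eval_C, eval_C]
      unfold P
      ring
    simp_rw [e1]
    rw [intervalIntegral.integral_const_mul]
    split_ifs with h
    · subst h
      rw [integral_P_sq, Real.mul_self_sqrt (by positivity)]
      field_simp
    · rw [integral_P_mul m n h, mul_zero]

lemma OrthoLeg.coeff_ne {p : ℕ → ℝ[X]} (hp : OrthoLeg p) (n : ℕ) : (p n).coeff n ≠ 0 := by
  intro h
  have h1 : (p n).leadingCoeff = 0 := by
    rw [leadingCoeff, hp.1]; exact h
  rw [leadingCoeff_eq_zero] at h1
  have := hp.2 n n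
  rw [h1] at this
  simp at this

lemma OrthoLeg.span {p : ℕ → ℝ[X]} (hp : OrthoLeg p) (n : ℕ) : ∀ q : ℝ[X], q.natDegree ≤ n →
    ∃ a : ℕ → ℝ, q = ∑ k ∈ Finset.range (n + 1), C (a k) * p k := by
  induction n with
  | zero =>
    intro q hq
    have h1 := eq_C_of_natDegree_le_zero hq
    have h2 := eq_C_of_natDegree_le_zero (hp.1 0).le
    have h3 := hp.coeff_ne 0
    refine ⟨fun _ => q.coeff 0 / (p 0).coeff 0, ?_⟩
    rw [zero_add, Finset.sum_range_one, h2, coeff_C_zero, ← C_mul, div_mul_cancel₀ _ h3]
    exact h1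
  | succ n ih =>
    intro q hq
    set b : ℝ := q.coeff (n + 1) / (p (n + 1)).coeff (n + 1) with hb
    have hdeg : (q - C b * p (n + 1)).natDegree ≤ n := by
      rw [natDegree_le_iff_coeff_eq_zero]
      intro N hN
      rw [coeff_sub, coeff_C_mul]
      rcases eq_or_lt_of_le (Nat.succ_le_of_lt hN) with h | h
      · rw [← h, hb]
        have := hp.coeff_ne (n + 1)
        simp only [Nat.succ_eq_add_one]
        rw [div_mul_cancel₀ _ this, sub_self]
      · rw [coeff_eq_zero_of_natDegree_lt (lt_of_le_of_lt hq h),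
          coeff_eq_zero_of_natDegree_lt (by rw [hp.1]; exact h)]
        simp
    obtain ⟨a, ha⟩ := ih _ hdeg
    refine ⟨fun k => if k = n + 1 then b else a k, ?_⟩
    rw [Finset.sum_range_succ]
    simp only [if_true]
    have : ∑ k ∈ Finset.range (n + 1), C (if k = n + 1 then b else a k) * p k =
        ∑ k ∈ Finset.range (n + 1), C (a k) * p k := by
      apply Finset.sum_congr rfl
      intro k hk
      rw [if_neg]
      have := Finset.mem_range.mp hk
      omega
    rw [this, ← ha]
    ring

lemma OrthoLeg.coeff_eq {p : ℕ → ℝ[X]} (hp : OrthoLeg p) (n : ℕ) (a : ℕ → ℝ) (j : ℕ) (hj : j ≤ n) :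
    ∫ x in (-1:ℝ)..1, (∑ k ∈ Finset.range (n + 1), C (a k) * p k : ℝ[X]).eval x * (p j).eval x =
      a j := by
  have e1 : ∀ x : ℝ, (∑ k ∈ Finset.range (n + 1), C (a k) * p k : ℝ[X]).eval x * (p j).eval x =
      ∑ k ∈ Finset.range (n + 1), a k * ((p k).eval x * (p j).eval x) := by
    intro x
    rw [eval_finset_sum, Finset.sum_mul]
    apply Finset.sum_congr rfl
    intro k _
    rw [eval_mul, eval_C]; ring
  simp_rw [e1]
  rw [intervalIntegral.integral_finset_sum]
  · simp_rw [intervalIntegral.integral_const_mul, hp.2]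
    simp only [mul_ite, mul_one, mul_zero]
    rw [Finset.sum_ite_eq']
    rw [if_pos (Finset.mem_range.mpr (by omega))]
  · intro k _
    exact (continuous_const.mul ((p k).continuous.mul (p j).continuous)).intervalIntegrable _ _

/-- Uniqueness: the kernels agree. -/
lemma OrthoLeg.mul_eq {p : ℕ → ℝ[X]} (hp : OrthoLeg p) (n : ℕ) (x y : ℝ) :
    (p n).eval x * (p n).eval y = (2 * n + 1) / 2 * (P n x * P n y) := by
  obtain ⟨a, ha⟩ := hp.span n (leg n) (natDegree_leg_le n)
  have hak : ∀ k < n, a k = 0 := by
    intro k hk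
    rw [← hp.coeff_eq n a k hk.le, ← ha]
    have := integral_poly_P (p k) n (by rw [hp.1]; exact hk)
    rw [← this]
    congr 1
    funext x
    rw [mul_comm]; rfl
  have hleg : leg n = C (a n) * p n := by
    conv_lhs => rw [ha]
    rw [Finset.sum_range_succ, Finset.sum_eq_zero, zero_add]
    intro k hk
    rw [hak k (Finset.mem_range.mp hk)]
    simp
  have hP : ∀ x, P n x = a n * (p n).eval x := by
    intro x
    unfold P
    rw [hleg, eval_mul, eval_C]
  have ha2 : a n * a n = 2 / (2 * n + 1) := by
    have h1 := integral_P_sq n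
    have e1 : ∀ x : ℝ, P n x * P n x = (a n * a n) * ((p n).eval x * (p n).eval x) := by
      intro x; rw [hP]; ring
    simp_rw [e1] at h1
    rw [intervalIntegral.integral_const_mul, hp.2, if_pos rfl, mul_one] at h1
    exact h1
  rw [hP, hP]
  have : (2 * (n:ℝ) + 1) / 2 * (a n * (p n).eval x * (a n * (p n).eval y)) =
      ((2 * (n:ℝ) + 1) / 2 * (a n * a n)) * ((p n).eval x * (p n).eval y) := by ring
  rw [this, ha2]
  have h0 : (2 * (n:ℝ) + 1) ≠ 0 := by positivity
  field_simp

end Pool.Agent.LegRe
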