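import Pool.Agent.LegRe.Main2
import Pool.Agent.LegRe.Ortho

/-! The final assembly. -/

namespace Pool.Agent.LegRe

open MeasureTheory Set ENNReal Filter Topology Polynomial

/-- The main construction, general case. -/
theorem main_any {f : ℝ → ℝ} (hf : Measurable f) {p : ℝ} (hp : 1 < p)
    (hfp : ∫⁻ x, ‖f x‖ₑ ^ p ∂mu ≠ ∞) {ε : ℝ} (hε : 0 < ε) :
    ∃ ω : ℝ → ℝ, Iso ω ∧ mu {x | ω x ≠ x} ≤ ENNReal.ofReal ε ∧ N1 (fun x => f (ω x)) ≠ ∞ := by
  by_cases hnc : ∃ c : ℝ, f =ᵐ[mu] fun _ => c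
  · obtain ⟨c, hc⟩ := hnc
    refine ⟨fun x => x, Iso.id, by simp, ?_⟩
    have h1 : (fun x => f x) =ᵐ[mu] fun x => c * ind (-1) 1 x := by
      filter_upwards [hc, ae_Ioo] with x h1 h2
      rw [h1]
      simp [ind, indicator_of_mem (Ioo_subset_Ico_self h2)]
    rw [N1_congr_ae h1]
    have h2 : N (fun x => c * ind (-1) 1 x) ≠ ∞ := by
      rw [N_const_mul]
      exact ENNReal.mul_ne_top enorm_ne_top (ne_top_of_le_ne_top ENNReal.ofReal_ne_top
        (N_ind_unif le_rfl (by norm_num) le_rfl))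
    exact ne_top_of_le_ne_top h2 (by unfold N; exact le_self_add)
  · have hfp' : ∫⁻ x, ‖f x‖ₑ ^ (min p 2) ∂mu ≠ ∞ := by
      have hq0 : (0:ℝ) ≤ min p 2 := le_min (by linarith) (by norm_num)
      have h1 : ∀ x, ‖f x‖ₑ ^ (min p 2) ≤ 1 + ‖f x‖ₑ ^ p := by
        intro x
        rcases le_total ‖f x‖ₑ 1 with h | h
        · exact (ENNReal.rpow_le_one h hq0).trans le_self_add
        · exact (ENNReal.rpow_le_rpow_of_exponent_le h (min_le_left _ _)).trans le_add_self
      refine ne_top_of_le_ne_top ?_ (lintegral_mono h1)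
      rw [lintegral_add_left measurable_const, lintegral_const, one_mul]
      exact ENNReal.add_ne_top.mpr ⟨measure_ne_top _ _, hfp⟩
    obtain ⟨ω, h1, h2, h3⟩ := main_pre hf (lt_min hp one_lt_two) (min_le_right _ _) hfp' hnc
      (lt_min hε one_pos) (min_le_right _ _)
    exact ⟨ω, h1, h2.trans (ENNReal.ofReal_le_ofReal (min_le_left _ _)), h3⟩

lemma mpv : MeasurePreserving (Subtype.val : Icc (-1:ℝ) 1 → ℝ) nuI mu := by
  unfold nuI mu
  exact measurePreserving_subtype_coe measurableSet_Icc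

lemma OrthoLeg.term_eq {p : ℕ → ℝ[X]} (hp : OrthoLeg p) (k : ℕ) (h : ℝ → ℝ) (x : ℝ) :
    (∫ y, h y * (p k).eval y ∂mu) * (p k).eval x =
      (2 * k + 1) / 2 * (P k x * ∫ y, P k y * h y ∂mu) := by
  rw [mul_comm (∫ y, h y * (p k).eval y ∂mu), ← integral_const_mul, ← integral_const_mul,
    ← integral_const_mul]
  apply integral_congr_ae
  filter_upwards with y
  have := hp.mul_eq k x y
  calc (p k).eval x * (h y * (p k).eval y) = ((p k).eval x * (p k).eval y) * h y := by ring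
    _ = _ := by rw [this]; ring

theorem main_sub {p : ℕ → ℝ[X]} (hp : OrthoLeg p) {r : ℝ} (hr : 1 < r) {f : Icc (-1:ℝ) 1 → ℝ}
    (hf : MemLp f (ENNReal.ofReal r) nuI) {ε : ℝ} (hε : 0 < ε) :
    ∃ ω : Icc (-1:ℝ) 1 ≃ᵐ Icc (-1:ℝ) 1, MeasurePreserving ω nuI nuI ∧
      nuI {x | ω x ≠ x} ≤ ENNReal.ofReal ε ∧ Integrable (fun x => f (ω x)) nuI ∧
      ∫⁻ x, (⨆ n : ℕ, ENNReal.ofReal |∑ k ∈ Finset.range (n + 1),
        (∫ y, f (ω y) * (p k).eval (y:ℝ) ∂nuI) * (p k).eval (x:ℝ)|) ∂nuI < ∞ := by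
  have hr0 : (0:ℝ) < r := by linarith
  haveI : IsFiniteMeasure nuI := by
    constructor
    have := mpv.measure_preimage (s := univ) nullMeasurableSet_univ
    rw [preimage_univ] at this
    rw [this]
    exact measure_lt_top _ _
  set f0 : Icc (-1:ℝ) 1 → ℝ := hf.1.mk f with hf0
  have hf0m : Measurable f0 := hf.1.stronglyMeasurable_mk.measurable
  have hff0 : f =ᵐ[nuI] f0 := hf.1.ae_eq_mk
  set g : ℝ → ℝ := fun x => f0 (projIcc (-1) 1 (by norm_num) x) with hg
  have hgm : Measurable g := hf0m.comp continuous_projIcc.measurable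
  have hgv : ∀ x : Icc (-1:ℝ) 1, g x = f0 x := by
    intro x
    simp only [hg]
    rw [projIcc_val]
  have hgr : ∫⁻ x, ‖g x‖ₑ ^ r ∂mu ≠ ∞ := by
    rw [← mpv.lintegral_comp (f := fun x => ‖g x‖ₑ ^ r) (by fun_prop)]
    have e1 : ∫⁻ x : Icc (-1:ℝ) 1, ‖g x‖ₑ ^ r ∂nuI = ∫⁻ x, ‖f x‖ₑ ^ r ∂nuI := by
      apply lintegral_congr_ae
      filter_upwards [hff0] with x hx
      rw [hgv, hx]
    rw [e1]
    have h1 := lintegral_rpow_enorm_lt_top_of_eLpNorm_lt_top (p := ENNReal.ofReal r)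
      (by simpa using hr0) ENNReal.ofReal_ne_top hf.2
    rw [ENNReal.toReal_ofReal hr0.le] at h1
    exact h1.ne
  obtain ⟨ω, hω, hωm, hωN⟩ := main_any hgm hr hgr hε
  obtain ⟨ω', hω', hωω⟩ := hω.exists_equiv
  set h : ℝ → ℝ := fun x => g (ω x) with hh
  have hhm : Measurable h := hgm.comp hω.1.measurable
  have hfω : ∀ᵐ x : Icc (-1:ℝ) 1 ∂nuI, f (ω' x) = h x := by
    filter_upwards [hω'.quasiMeasurePreserving.ae hff0, hωω] with x h1 h2
    rw [h1, ← hgv, h2]
  have hfint : Integrable f nuI := by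
    apply hf.integrable
    rw [← ENNReal.ofReal_one]
    exact ENNReal.ofReal_le_ofReal hr.le
  have hfωint : Integrable (fun x => f (ω' x)) nuI := hω'.integrable_comp_of_integrable hfint
  have hemb : MeasurableEmbedding (Subtype.val : Icc (-1:ℝ) 1 → ℝ) :=
    MeasurableEmbedding.subtype_coe measurableSet_Icc
  have hhint : Integrable h mu := by
    rw [← mpv.integrable_comp_emb hemb]
    exact hfωint.congr hfω
  refine ⟨ω', hω', ?_, hfωint, ?_⟩
  · have hms : MeasurableSet {x : ℝ | ω x ≠ x} :=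
      (measurableSet_eq_fun hω.1.measurable measurable_id).compl
    calc nuI {x | ω' x ≠ x} ≤ nuI (Subtype.val ⁻¹' {x : ℝ | ω x ≠ x}) := by
          apply measure_mono_ae
          filter_upwards [hωω] with x hx hne
          change ω x ≠ x
          rw [← hx]
          intro heq
          exact hne (Subtype.ext heq)
      _ = mu {x | ω x ≠ x} := mpv.measure_preimage hms.nullMeasurableSet
      _ ≤ _ := hωm
  · have e1 : ∀ x : Icc (-1:ℝ) 1, (⨆ n : ℕ, ENNReal.ofReal |∑ k ∈ Finset.range (n + 1),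
        (∫ y, f (ω' y) * (p k).eval (y:ℝ) ∂nuI) * (p k).eval (x:ℝ)|) =
        (fun x : ℝ => ⨆ n, ‖S n h x‖ₑ) x := by
      intro x
      simp only
      congr 1
      funext n
      rw [S_eq n hhint, Real.enorm_eq_ofReal_abs]
      congr 2
      apply Finset.sum_congr rfl
      intro k _
      rw [← hp.term_eq k h x]
      congr 1
      rw [← mpv.integral_comp hemb (fun y => h y * (p k).eval y)]
      apply integral_congr_ae
      filter_upwards [hfω] with y hy
      rw [hy]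
    simp_rw [e1]
    rw [mpv.lintegral_comp (f := fun x : ℝ => ⨆ n, ‖S n h x‖ₑ) (measurable_max hhint)]
    exact hωN.lt_top

end Pool.Agent.LegRe
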