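import Pool.Agent.LegRe.Kernel

/-! The maximal function of Legendre partial sums and its cost functional. -/

namespace Pool.Agent.LegRe

open MeasureTheory Set ENNReal Filter Topology

/-- Lebesgue measure on `[-1,1]`. -/
noncomputable def mu : Measure ℝ := volume.restrict (Icc (-1) 1)

instance : IsFiniteMeasure mu := by
  unfold mu; infer_instance

lemma mu_univ : mu univ = 2 := by
  simp [mu]; norm_num

/-- The `n`-th partial sum operator of the Legendre expansion. -/
noncomputable def S (n : ℕ) (g : ℝ → ℝ) (x : ℝ) : ℝ := ∫ y, K n x y * g y ∂mu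

/-- Maximal function integral. -/
noncomputable def N1 (g : ℝ → ℝ) : ℝ≥0∞ := ∫⁻ x, ⨆ n, ‖S n g x‖ₑ ∂mu

/-- Cost functional. -/
noncomputable def N (g : ℝ → ℝ) : ℝ≥0∞ := N1 g + ∫⁻ x, ‖g x‖ₑ ∂mu

lemma K_bound (n : ℕ) : ∃ C : ℝ, 0 ≤ C ∧ ∀ x ∈ Icc (-1 : ℝ) 1, ∀ y ∈ Icc (-1 : ℝ) 1,
    |K n x y| ≤ C := by
  have hc : Continuous (fun p : ℝ × ℝ => K n p.1 p.2) := by
    unfold K
    apply continuous_finsetSum
    intro k _
    exact continuous_const.mul (((continuous_P k).comp continuous_fst).mul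
      ((continuous_P k).comp continuous_snd))
  obtain ⟨C, hC⟩ := (isCompact_Icc.prod isCompact_Icc).exists_bound_of_continuousOn
    (s := Icc (-1 : ℝ) 1 ×ˢ Icc (-1 : ℝ) 1) hc.continuousOn
  refine ⟨max C 0, le_max_right _ _, fun x hx y hy => ?_⟩
  have := hC (x, y) ⟨hx, hy⟩
  exact this.trans (le_max_left _ _)

lemma integrable_mul_cont {f g : ℝ → ℝ} (hf : Continuous f) (hg : Integrable g mu) :
    Integrable (fun y => f y * g y) mu := by
  have hg' : IntegrableOn g (Icc (-1) 1) volume := hg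
  exact hg'.continuousOn_mul hf.continuousOn isCompact_Icc

lemma S_eq (n : ℕ) {g : ℝ → ℝ} (hg : Integrable g mu) (x : ℝ) :
    S n g x = ∑ k ∈ Finset.range (n + 1), (2 * k + 1) / 2 * (P k x * ∫ y, P k y * g y ∂mu) := by
  unfold S K
  have : (fun y => (∑ k ∈ Finset.range (n + 1), (2 * (k : ℝ) + 1) / 2 * (P k x * P k y)) * g y) =
      fun y => ∑ k ∈ Finset.range (n + 1), ((2 * (k : ℝ) + 1) / 2 * P k x) * (P k y * g y) := by
    funext y
    rw [Finset.sum_mul]
    apply Finset.sum_congr rfl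
    intro k _
    ring
  rw [this, integral_finset_sum]
  · apply Finset.sum_congr rfl
    intro k _
    rw [integral_const_mul]; ring
  · intro k _
    exact (integrable_mul_cont (continuous_P k) hg).const_mul _

lemma continuous_S (n : ℕ) {g : ℝ → ℝ} (hg : Integrable g mu) : Continuous (S n g) := by
  have : S n g = fun x => ∑ k ∈ Finset.range (n + 1),
      (2 * (k : ℝ) + 1) / 2 * (P k x * ∫ y, P k y * g y ∂mu) := by
    funext x; exact S_eq n hg x
  rw [this]
  apply continuous_finsetSum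
  intro k _
  exact continuous_const.mul ((continuous_P k).mul continuous_const)

lemma integrable_K_mul (n : ℕ) (x : ℝ) {g : ℝ → ℝ} (hg : Integrable g mu) :
    Integrable (fun y => K n x y * g y) mu :=
  integrable_mul_cont (continuous_K n x) hg

lemma S_add (n : ℕ) {g h : ℝ → ℝ} (hg : Integrable g mu) (hh : Integrable h mu) (x : ℝ) :
    S n (fun y => g y + h y) x = S n g x + S n h x := by
  unfold S
  rw [← integral_add (integrable_K_mul n x hg) (integrable_K_mul n x hh)]
  apply integral_congr_ae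
  filter_upwards with y
  ring

lemma S_sub (n : ℕ) {g h : ℝ → ℝ} (hg : Integrable g mu) (hh : Integrable h mu) (x : ℝ) :
    S n (fun y => g y - h y) x = S n g x - S n h x := by
  unfold S
  rw [← integral_sub (integrable_K_mul n x hg) (integrable_K_mul n x hh)]
  apply integral_congr_ae
  filter_upwards with y
  ring

lemma S_const_mul (n : ℕ) (c : ℝ) (g : ℝ → ℝ) (x : ℝ) :
    S n (fun y => c * g y) x = c * S n g x := by
  unfold S
  rw [← integral_const_mul]
  apply integral_congr_ae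
  filter_upwards with y
  ring

lemma S_congr_ae (n : ℕ) {g h : ℝ → ℝ} (hgh : g =ᵐ[mu] h) (x : ℝ) : S n g x = S n h x := by
  unfold S
  apply integral_congr_ae
  filter_upwards [hgh] with y hy
  rw [hy]

lemma S_sum (n : ℕ) {ι : Type*} (s : Finset ι) (g : ι → ℝ → ℝ) (hg : ∀ i ∈ s, Integrable (g i) mu)
    (x : ℝ) : S n (fun y => ∑ i ∈ s, g i y) x = ∑ i ∈ s, S n (g i) x := by
  unfold S
  rw [← integral_finset_sum]
  · apply integral_congr_ae
    filter_upwards with y
    rw [Finset.mul_sum]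
  · intro i hi
    exact integrable_K_mul n x (hg i hi)

lemma measurable_max {g : ℝ → ℝ} (hg : Integrable g mu) :
    Measurable (fun x => ⨆ n, ‖S n g x‖ₑ) :=
  Measurable.iSup fun n => (continuous_S n hg).enorm.measurable

lemma N1_congr_ae {g h : ℝ → ℝ} (hgh : g =ᵐ[mu] h) : N1 g = N1 h := by
  unfold N1
  congr 1
  funext x
  simp_rw [S_congr_ae _ hgh]

lemma N_congr_ae {g h : ℝ → ℝ} (hgh : g =ᵐ[mu] h) : N g = N h := by
  unfold N
  rw [N1_congr_ae hgh]
  congr 1
  apply lintegral_congr_ae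
  filter_upwards [hgh] with x hx
  rw [hx]

lemma N1_add_le {g h : ℝ → ℝ} (hg : Integrable g mu) (hh : Integrable h mu) :
    N1 (fun y => g y + h y) ≤ N1 g + N1 h := by
  unfold N1
  rw [← lintegral_add_left (measurable_max hg)]
  apply lintegral_mono
  intro x
  apply iSup_le
  intro n
  rw [S_add n hg hh]
  refine (enorm_add_le _ _).trans ?_
  exact add_le_add (le_iSup (fun n => ‖S n g x‖ₑ) n) (le_iSup (fun n => ‖S n h x‖ₑ) n)

lemma N_add_le {g h : ℝ → ℝ} (hg : Integrable g mu) (hh : Integrable h mu) :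
    N (fun y => g y + h y) ≤ N g + N h := by
  unfold N
  have h1 := N1_add_le hg hh
  have h2 : ∫⁻ x, ‖g x + h x‖ₑ ∂mu ≤ (∫⁻ x, ‖g x‖ₑ ∂mu) + ∫⁻ x, ‖h x‖ₑ ∂mu := by
    rw [← lintegral_add_left' hg.1.enorm]
    exact lintegral_mono fun x => enorm_add_le _ _
  calc _ ≤ (N1 g + N1 h) + ((∫⁻ x, ‖g x‖ₑ ∂mu) + ∫⁻ x, ‖h x‖ₑ ∂mu) := add_le_add h1 h2
    _ = _ := by ring

lemma N_const_mul (c : ℝ) (g : ℝ → ℝ) : N (fun y => c * g y) = ‖c‖ₑ * N g := by
  unfold N N1
  rw [mul_add]
  have e1 : (fun x => ⨆ n, ‖S n (fun y => c * g y) x‖ₑ) = fun x => ‖c‖ₑ * ⨆ n, ‖S n g x‖ₑ := by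
    funext x
    rw [ENNReal.mul_iSup]
    congr 1
    funext n
    rw [S_const_mul, enorm_mul]
  have e2 : (fun x => ‖c * g x‖ₑ) = fun x => ‖c‖ₑ * ‖g x‖ₑ := by
    funext x; rw [enorm_mul]
  rw [e1, e2, lintegral_const_mul' _ _ enorm_ne_top, lintegral_const_mul' _ _ enorm_ne_top]

lemma N_neg (g : ℝ → ℝ) : N (fun y => - g y) = N g := by
  have := N_const_mul (-1) g
  simp only [neg_mul, one_mul, enorm_neg, enorm_one] at this
  exact this

lemma N_sub_le {g h : ℝ → ℝ} (hg : Integrable g mu) (hh : Integrable h mu) :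
    N (fun y => g y - h y) ≤ N g + N h := by
  have := N_add_le hg hh.neg
  simp only [Pi.neg_apply, ← sub_eq_add_neg] at this
  have e : N (-h) = N h := N_neg h
  rwa [e] at this

lemma N_zero : N (fun _ => 0) = 0 := by
  have := N_const_mul 0 (fun _ => 0)
  simpa using this

lemma N_sum_le {ι : Type*} (s : Finset ι) (g : ι → ℝ → ℝ) (hg : ∀ i ∈ s, Integrable (g i) mu) :
    N (fun y => ∑ i ∈ s, g i y) ≤ ∑ i ∈ s, N (g i) := by
  classical
  induction s using Finset.induction_on with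
  | empty => simp [N_zero]
  | insert a s ha ih =>
    rw [Finset.sum_insert ha]
    simp only [Finset.sum_insert ha]
    have h1 : Integrable (fun y => ∑ i ∈ s, g i y) mu :=
      integrable_finset_sum _ fun i hi => hg i (Finset.mem_insert_of_mem hi)
    refine (N_add_le (hg a (Finset.mem_insert_self _ _)) h1).trans ?_
    exact add_le_add le_rfl (ih fun i hi => hg i (Finset.mem_insert_of_mem hi))

/-- The maximal cost is lower semicontinuous in `L¹`. -/
lemma N1_le_of_tendsto {g : ℝ → ℝ} {gs : ℕ → ℝ → ℝ} (hg : Integrable g mu)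
    (hgs : ∀ M, Integrable (gs M) mu)
    (hlim : Tendsto (fun M => ∫⁻ x, ‖g x - gs M x‖ₑ ∂mu) atTop (𝓝 0)) {R : ℝ≥0∞}
    (hR : ∀ M, N1 (gs M) ≤ R) : N1 g ≤ R := by
  have key : ∀ n, ∀ x ∈ Icc (-1 : ℝ) 1, Tendsto (fun M => ‖S n (gs M) x‖ₑ) atTop (𝓝 ‖S n g x‖ₑ) := by
    intro n x hx
    apply Tendsto.enorm
    obtain ⟨C, hC0, hC⟩ := K_bound n
    have hb : ∀ M, ‖S n g x - S n (gs M) x‖ₑ ≤ ENNReal.ofReal C * ∫⁻ y, ‖g y - gs M y‖ₑ ∂mu := by
      intro M
      rw [← S_sub n hg (hgs M)]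
      unfold S
      refine (enorm_integral_le_lintegral_enorm _).trans ?_
      rw [← lintegral_const_mul' _ _ ENNReal.ofReal_ne_top]
      apply lintegral_mono_ae
      have : ∀ᵐ y ∂mu, y ∈ Icc (-1 : ℝ) 1 := ae_restrict_mem measurableSet_Icc
      filter_upwards [this] with y hy
      rw [enorm_mul]
      apply mul_le_mul_left
      rw [← ofReal_norm_eq_enorm]
      exact ENNReal.ofReal_le_ofReal (hC x hx y hy)
    have hz : Tendsto (fun M => ENNReal.ofReal C * ∫⁻ y, ‖g y - gs M y‖ₑ ∂mu) atTop (𝓝 0) := by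
      have := ENNReal.Tendsto.const_mul (a := ENNReal.ofReal C) hlim (Or.inr ENNReal.ofReal_ne_top)
      simpa using this
    have h0 : Tendsto (fun M => ‖S n g x - S n (gs M) x‖ₑ) atTop (𝓝 0) :=
      tendsto_of_tendsto_of_tendsto_of_le_of_le tendsto_const_nhds hz (fun _ => zero_le) hb
    rw [tendsto_iff_edist_tendsto_0]
    have e : (fun M => edist (S n (gs M) x) (S n g x)) = fun M => ‖S n g x - S n (gs M) x‖ₑ := by
      funext M
      rw [edist_comm, edist_eq_enorm_sub]
    rw [e]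
    exact h0
  have hle : N1 g ≤ ∫⁻ x, liminf (fun M => ⨆ n, ‖S n (gs M) x‖ₑ) atTop ∂mu := by
    unfold N1
    apply lintegral_mono_ae
    have : ∀ᵐ y ∂mu, y ∈ Icc (-1 : ℝ) 1 := ae_restrict_mem measurableSet_Icc
    filter_upwards [this] with x hx
    apply iSup_le
    intro n
    rw [← (key n x hx).liminf_eq]
    refine liminf_le_liminf ?_
    filter_upwards with M
    exact le_iSup (fun n => ‖S n (gs M) x‖ₑ) n
  refine hle.trans ((lintegral_liminf_le fun M => measurable_max (hgs M)).trans ?_)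
  calc liminf (fun M => N1 (gs M)) atTop ≤ liminf (fun _ : ℕ => R) atTop :=
        liminf_le_liminf (Eventually.of_forall hR)
    _ = R := by simp

end Pool.Agent.LegRe
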