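import Pool.Agent.LegRe.Unif

/-! Cost of monotone functions supported on an interval. -/

namespace Pool.Agent.LegRe

open MeasureTheory Set ENNReal Filter Topology

lemma mu_singleton (x : ℝ) : mu {x} = 0 := by
  unfold mu
  exact le_antisymm ((Measure.restrict_apply_le _ _).trans (by simp)) zero_le

lemma upset_ae {a b : ℝ} {E : Set ℝ} (hab : a ≤ b) (hE : E ⊆ Ico a b)
    (hup : ∀ y ∈ E, ∀ z ∈ Ico a b, y ≤ z → z ∈ E) :
    ∃ x ∈ Icc a b, E.indicator (fun _ => (1:ℝ)) =ᵐ[mu] ind x b := by
  rcases E.eq_empty_or_nonempty with h | h
  · refine ⟨b, ⟨hab, le_rfl⟩, ?_⟩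
    rw [h, ind_self]; simp
  · have hbdd : BddBelow E := ⟨a, fun y hy => (hE hy).1⟩
    have hax : a ≤ sInf E := le_csInf h fun y hy => (hE hy).1
    obtain ⟨y0, hy0⟩ := h
    have hxb : sInf E < b := lt_of_le_of_lt (csInf_le hbdd hy0) (hE hy0).2
    refine ⟨sInf E, ⟨hax, hxb.le⟩, ?_⟩
    have hne : ∀ᵐ y ∂mu, y ≠ sInf E := by
      rw [ae_iff]
      simp only [ne_eq, not_not]
      exact mu_singleton _
    filter_upwards [hne] with y hy
    by_cases hyE : y ∈ E
    · have : y ∈ Ico (sInf E) b := ⟨csInf_le hbdd hyE, (hE hyE).2⟩
      simp [ind, hyE, this]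
    · have : y ∉ Ico (sInf E) b := by
        intro hmem
        have hlt : sInf E < y := lt_of_le_of_ne hmem.1 (Ne.symm hy)
        obtain ⟨z, hz, hzy⟩ := exists_lt_of_csInf_lt ⟨y0, hy0⟩ hlt
        exact hyE (hup z hz y ⟨by linarith [(hE hz).1], hmem.2⟩ hzy.le)
      simp [ind, hyE, this]

/-- number of levels below `t` -/
lemma count_levels {M : ℕ} {t : ℝ} (ht0 : 0 ≤ t) (htM : t ≤ M) :
    (∑ k ∈ Finset.range M, if (k : ℝ) + 1 ≤ t then (1 : ℝ) else 0) = ⌊t⌋₊ := by
  rw [← Finset.sum_filter, Finset.sum_const, nsmul_eq_mul, mul_one]
  congr 1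
  have : Finset.filter (fun k : ℕ => (k : ℝ) + 1 ≤ t) (Finset.range M) = Finset.range ⌊t⌋₊ := by
    ext k
    simp only [Finset.mem_filter, Finset.mem_range]
    have h1 : (k : ℝ) + 1 ≤ t ↔ k + 1 ≤ ⌊t⌋₊ := by
      rw [Nat.le_floor_iff ht0]; push_cast; rfl
    rw [h1]
    have h2 : ⌊t⌋₊ ≤ M := by
      have := Nat.floor_le_floor htM
      rwa [Nat.floor_natCast] at this
    omega
  rw [this, Finset.card_range]

lemma integrable_mono {a b B : ℝ} {h : ℝ → ℝ} (hm : MonotoneOn h (Ico a b))
    (hB : ∀ y ∈ Ico a b, |h y| ≤ B) : Integrable ((Ico a b).indicator h) mu := by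
  rw [integrable_indicator_iff measurableSet_Ico]
  have h1 : AEMeasurable h (mu.restrict (Ico a b)) :=
    aemeasurable_restrict_of_monotoneOn measurableSet_Ico hm
  refine ⟨h1.aestronglyMeasurable, ?_⟩
  have : IsFiniteMeasure (mu.restrict (Ico a b)) := inferInstance
  apply HasFiniteIntegral.of_bounded (C := B)
  filter_upwards [ae_restrict_mem measurableSet_Ico] with y hy
  exact hB y hy

/-- Cost of monotone functions. -/
lemma N_mono {lo hi C θ a b B : ℝ} {h : ℝ → ℝ} (hC : 0 ≤ C) (hθ : 0 ≤ θ)
    (hΦ : ∀ c d : ℝ, lo ≤ c → c ≤ d → d ≤ hi → N (ind c d) ≤ ENNReal.ofReal (C * (d - c) ^ θ))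
    (hlo : lo ≤ a) (hab : a ≤ b) (hhi : b ≤ hi) (hB0 : 0 ≤ B) (hm : MonotoneOn h (Ico a b))
    (hB : ∀ y ∈ Ico a b, |h y| ≤ B) :
    N ((Ico a b).indicator h) ≤ ENNReal.ofReal (4 * B * (C * (b - a) ^ θ)) := by
  set Φ : ℝ := C * (b - a) ^ θ with hΦdef
  have hΦ0 : 0 ≤ Φ := by
    have : 0 ≤ b - a := by linarith
    positivity
  have hgi := integrable_mono hm hB
  -- L¹ part
  have hL1 : ∫⁻ x, ‖(Ico a b).indicator h x‖ₑ ∂mu ≤ ENNReal.ofReal (B * Φ) := by
    calc ∫⁻ x, ‖(Ico a b).indicator h x‖ₑ ∂mu ≤ ∫⁻ x, ENNReal.ofReal B * ‖ind a b x‖ₑ ∂mu := by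
          apply lintegral_mono
          intro x
          by_cases hx : x ∈ Ico a b
          · simp only [ind, indicator_of_mem hx, enorm_one, mul_one]
            rw [← ofReal_norm_eq_enorm]
            exact ENNReal.ofReal_le_ofReal (hB x hx)
          · simp [hx]
      _ = ENNReal.ofReal B * ∫⁻ x, ‖ind a b x‖ₑ ∂mu := lintegral_const_mul' _ _ ENNReal.ofReal_ne_top
      _ ≤ ENNReal.ofReal B * N (ind a b) := by
          apply mul_le_mul_right
          unfold N; exact le_add_self
      _ ≤ ENNReal.ofReal B * ENNReal.ofReal Φ := mul_le_mul_right (hΦ a b hlo hab hhi) _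
      _ = _ := by rw [ENNReal.ofReal_mul hB0]
  have hN1 : N1 ((Ico a b).indicator h) ≤ ENNReal.ofReal (3 * B * Φ) := by
    rcases eq_or_lt_of_le hB0 with hB00 | hBpos
    · have e : (Ico a b).indicator h = fun _ => 0 := by
        funext y
        by_cases hy : y ∈ Ico a b
        · have := hB y hy
          rw [← hB00] at this
          simp [hy, abs_nonpos_iff.mp this]
        · simp [hy]
      rw [e]
      have h0 : N1 (fun _ => (0:ℝ)) ≤ N (fun _ => 0) := by unfold N; exact le_self_add
      rw [N_zero] at h0
      exact h0.trans zero_le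
    · -- approximations
      set lam : ℕ → ℕ → ℝ := fun M k => -B + 2 * B * (k + 1) / (M + 1) with hlam
      set E : ℕ → ℕ → Set ℝ := fun M k => {y | y ∈ Ico a b ∧ lam M k ≤ h y} with hEdef
      set gs : ℕ → ℝ → ℝ := fun M y => (-B) * ind a b y +
        ∑ k ∈ Finset.range (M + 1), (2 * B / (M + 1)) * (E M k).indicator (fun _ => (1:ℝ)) y with hgs
      have hup : ∀ M k, ∃ x ∈ Icc a b, (E M k).indicator (fun _ => (1:ℝ)) =ᵐ[mu] ind x b := by
        intro M k
        apply upset_ae hab
        · exact fun y hy => hy.1
        · intro y hy z hz hyz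
          exact ⟨hz, hy.2.trans (hm hy.1 hz hyz)⟩
      have hEi : ∀ M k, Integrable ((E M k).indicator (fun _ => (1:ℝ))) mu := by
        intro M k
        obtain ⟨x, _, hx⟩ := hup M k
        exact (integrable_ind x b).congr hx.symm
      have hEN : ∀ M k, N ((E M k).indicator (fun _ => (1:ℝ))) ≤ ENNReal.ofReal Φ := by
        intro M k
        obtain ⟨x, hx1, hx⟩ := hup M k
        rw [N_congr_ae hx]
        refine (hΦ x b (hlo.trans hx1.1) hx1.2 hhi).trans (ENNReal.ofReal_le_ofReal ?_)
        rw [hΦdef]
        apply mul_le_mul_of_nonneg_left _ hC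
        exact Real.rpow_le_rpow (by linarith [hx1.2]) (by linarith [hx1.1]) hθ
      have hgsi : ∀ M, Integrable (gs M) mu := by
        intro M
        apply ((integrable_ind a b).const_mul _).add
        exact integrable_finset_sum _ fun k _ => (hEi M k).const_mul _
      apply N1_le_of_tendsto hgi hgsi
      · -- convergence
        have hb : ∀ M : ℕ, ∫⁻ x, ‖(Ico a b).indicator h x - gs M x‖ₑ ∂mu ≤
            ENNReal.ofReal (2 * B / (M + 1)) * 2 := by
          intro M
          have hM : (0:ℝ) < (M:ℝ) + 1 := by positivity
          calc _ ≤ ∫⁻ _, ENNReal.ofReal (2 * B / (M + 1)) ∂mu := by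
                apply lintegral_mono
                intro x
                simp only
                rw [← ofReal_norm_eq_enorm]
                apply ENNReal.ofReal_le_ofReal
                by_cases hx : x ∈ Ico a b
                · have hbx := abs_le.mp (hB x hx)
                  set t : ℝ := (h x + B) * (M + 1) / (2 * B) with ht
                  have ht0 : 0 ≤ t := by
                    rw [ht]
                    have : 0 ≤ h x + B := by linarith [hbx.1]
                    positivity
                  have htM : t ≤ ((M + 1 : ℕ) : ℝ) := by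
                    rw [ht, div_le_iff₀ (by positivity)]
                    push_cast
                    nlinarith [hbx.2]
                  have hcond : ∀ k : ℕ, (E M k).indicator (fun _ => (1:ℝ)) x =
                      if (k:ℝ) + 1 ≤ t then 1 else 0 := by
                    intro k
                    have hiff : x ∈ E M k ↔ (k:ℝ) + 1 ≤ t := by
                      rw [hEdef, hlam]
                      simp only [mem_setOf_eq, hx, true_and]
                      rw [ht, le_div_iff₀ (by positivity)]
                      constructor
                      · intro hle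
                        have : 2 * B * (k + 1) / (M + 1) ≤ h x + B := by linarith
                        rw [div_le_iff₀ hM] at this
                        linarith
                      · intro hle
                        have : 2 * B * (k + 1) / (M + 1) ≤ h x + B := by
                          rw [div_le_iff₀ hM]; linarith
                        linarith
                    by_cases hk : (k:ℝ) + 1 ≤ t
                    · rw [if_pos hk, indicator_of_mem (hiff.mpr hk)]
                    · rw [if_neg hk, indicator_of_notMem (fun hc => hk (hiff.mp hc))]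
                  have hval : gs M x = -B + (2 * B / (M + 1)) * ⌊t⌋₊ := by
                    rw [hgs]
                    simp only [hcond]
                    rw [← Finset.mul_sum, count_levels ht0 htM]
                    simp [ind, hx]
                  have hfx : h x = -B + (2 * B / (M + 1)) * t := by
                    rw [ht]; field_simp; ring
                  rw [indicator_of_mem hx, hval, Real.norm_eq_abs]
                  have e1 : h x - (-B + (2 * B / (M + 1)) * ⌊t⌋₊) =
                      (2 * B / (M + 1)) * (t - ⌊t⌋₊) := by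
                    rw [hfx]; ring
                  have f1 : 0 ≤ t - ⌊t⌋₊ := by have := Nat.floor_le ht0; linarith
                  have f2 : t - ⌊t⌋₊ ≤ 1 := by have := Nat.lt_floor_add_one t; linarith
                  rw [e1, abs_of_nonneg (by positivity)]
                  calc _ ≤ (2 * B / (M + 1)) * 1 := mul_le_mul_of_nonneg_left f2 (by positivity)
                    _ = _ := mul_one _
                · have hval : gs M x = 0 := by
                    rw [hgs]
                    simp only
                    have : ∀ k, (E M k).indicator (fun _ => (1:ℝ)) x = 0 := by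
                      intro k
                      apply indicator_of_notMem
                      exact fun hc => hx hc.1
                    simp [this, ind, hx]
                  rw [indicator_of_notMem hx, hval]
                  simp only [sub_self, norm_zero]
                  positivity
            _ = _ := by rw [lintegral_const, mu_univ]
        have hz : Tendsto (fun M : ℕ => ENNReal.ofReal (2 * B / (M + 1)) * 2) atTop (𝓝 0) := by
          have h1 : Tendsto (fun M : ℕ => 2 * B / ((M:ℝ) + 1)) atTop (𝓝 0) :=
            tendsto_const_nhds.div_atTop (tendsto_atTop_add_const_right _ _ tendsto_natCast_atTop_atTop)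
          have h2 := ENNReal.tendsto_ofReal h1
          rw [ENNReal.ofReal_zero] at h2
          have h3 := ENNReal.Tendsto.mul_const (b := 2) h2 (Or.inr (by norm_num))
          rwa [zero_mul] at h3
        exact tendsto_of_tendsto_of_tendsto_of_le_of_le tendsto_const_nhds hz (fun _ => zero_le) hb
      · intro M
        have hM : (0:ℝ) < (M:ℝ) + 1 := by positivity
        have hle : N (gs M) ≤ ENNReal.ofReal (3 * B * Φ) := by
          rw [hgs]
          refine (N_add_le ((integrable_ind a b).const_mul _)
            (integrable_finset_sum _ fun k _ => (hEi M k).const_mul _)).trans ?_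
          have s1 : N (fun y => (-B) * ind a b y) ≤ ENNReal.ofReal (B * Φ) := by
            rw [N_const_mul, enorm_neg, Real.enorm_eq_ofReal hB0, ENNReal.ofReal_mul hB0]
            exact mul_le_mul_right (hΦ a b hlo hab hhi) _
          have s2 : N (fun y => ∑ k ∈ Finset.range (M + 1), (2 * B / (M + 1)) *
              (E M k).indicator (fun _ => (1:ℝ)) y) ≤ ENNReal.ofReal (2 * B * Φ) := by
            refine (N_sum_le _ _ fun k _ => (hEi M k).const_mul _).trans ?_
            calc ∑ k ∈ Finset.range (M + 1), N (fun y => (2 * B / (M + 1)) *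
                  (E M k).indicator (fun _ => (1:ℝ)) y)
                ≤ ∑ k ∈ Finset.range (M + 1), ENNReal.ofReal ((2 * B / (M + 1)) * Φ) := by
                  apply Finset.sum_le_sum
                  intro k _
                  rw [N_const_mul, Real.enorm_eq_ofReal (by positivity),
                    ENNReal.ofReal_mul (by positivity)]
                  exact mul_le_mul_right (hEN M k) _
              _ = ENNReal.ofReal (2 * B * Φ) := by
                  rw [Finset.sum_const, Finset.card_range, nsmul_eq_mul, ← ENNReal.ofReal_natCast,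
                    ← ENNReal.ofReal_mul (by positivity)]
                  congr 1
                  push_cast
                  field_simp
          calc _ ≤ ENNReal.ofReal (B * Φ) + ENNReal.ofReal (2 * B * Φ) := add_le_add s1 s2
            _ = _ := by
              rw [← ENNReal.ofReal_add (by positivity) (by positivity)]
              congr 1; ring
        exact le_trans (by unfold N; exact le_self_add) hle
  unfold N
  calc _ ≤ ENNReal.ofReal (3 * B * Φ) + ENNReal.ofReal (B * Φ) := add_le_add hN1 hL1
    _ = _ := by
      rw [← ENNReal.ofReal_add (by positivity) (by positivity)]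
      congr 1; ring

end Pool.Agent.LegRe
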