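import Pool.Agent.LegRe.Fam

/-! The pulse construction. -/

namespace Pool.Agent.LegRe

open MeasureTheory Set ENNReal Filter Topology

lemma choose_len {ℓ0 C A η γ : ℝ} (h0 : 0 < ℓ0) (hC : 0 ≤ C) (hA : 0 < A) (hη : 0 < η)
    (hγ : 0 < γ) (nJ nR : ℕ) :
    ∃ ℓ : ℝ, 0 < ℓ ∧ ℓ ≤ ℓ0 ∧ (nJ : ℝ) * (A * (C * ℓ ^ (1/2 : ℝ))) ≤ η ∧
      (nR : ℝ) * ℓ ≤ A / γ := by
  have h1 : Tendsto (fun ℓ : ℝ => (nJ : ℝ) * (A * (C * ℓ ^ (1/2 : ℝ)))) (𝓝[>] 0) (𝓝 0) := by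
    have hc : ContinuousAt (fun ℓ : ℝ => (nJ : ℝ) * (A * (C * ℓ ^ (1/2 : ℝ)))) 0 := by
      apply ContinuousAt.mul continuousAt_const
      apply ContinuousAt.mul continuousAt_const
      apply ContinuousAt.mul continuousAt_const
      exact Real.continuousAt_rpow_const _ _ (Or.inr (by norm_num))
    have := hc.tendsto
    simp only [ne_eq, one_div, inv_eq_zero, OfNat.ofNat_ne_zero, not_false_eq_true,
      Real.zero_rpow, mul_zero] at this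
    simpa using this.mono_left nhdsWithin_le_nhds
  have h2 : Tendsto (fun ℓ : ℝ => (nR : ℝ) * ℓ) (𝓝[>] 0) (𝓝 0) := by
    have hc : Continuous (fun ℓ : ℝ => (nR : ℝ) * ℓ) := by fun_prop
    have := hc.tendsto 0
    rw [mul_zero] at this
    exact this.mono_left nhdsWithin_le_nhds
  have e1 := h1.eventually (gt_mem_nhds hη)
  have e2 := h2.eventually (gt_mem_nhds (show 0 < A / γ by positivity))
  have e3 : ∀ᶠ ℓ : ℝ in 𝓝[>] 0, ℓ < ℓ0 := by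
    apply Filter.Eventually.filter_mono nhdsWithin_le_nhds
    exact gt_mem_nhds h0
  have e4 : ∀ᶠ ℓ : ℝ in 𝓝[>] 0, 0 < ℓ := self_mem_nhdsWithin
  obtain ⟨ℓ, a1, a2, a3, a4⟩ := (e1.and (e2.and (e3.and e4))).exists
  exact ⟨ℓ, a4, a3.le, a1.le, a2.le⟩

section core

variable {J : Type} {p q : J → ℝ} {ℓ : ℝ}

/-- index of cells -/
abbrev Cell (p q : J → ℝ) (ℓ : ℝ) : Type := Σ j, Fin (nc (p j) (q j) ℓ)

/-- left end of a cell -/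
noncomputable def lft (p q : J → ℝ) (ℓ : ℝ) (i : Cell p q ℓ) : ℝ := p i.1 + ((i.2 : ℕ) : ℝ) * ℓ

lemma lft_sub (hℓ : 0 < ℓ) (hpq : ∀ j, p j ≤ q j) (i : Cell p q ℓ) :
    Ico (lft p q ℓ i) (lft p q ℓ i + ℓ) ⊆ Ico (p i.1) (q i.1) :=
  cell_sub hℓ (hpq i.1) i.2.2

lemma lft_disj (hℓ : 0 < ℓ) (hpq : ∀ j, p j ≤ q j)
    (hd : Pairwise (Function.onFun Disjoint fun j => Ico (p j) (q j))) :
    Pairwise (Function.onFun Disjoint fun i : Cell p q ℓ =>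
      Ico (lft p q ℓ i) (lft p q ℓ i + ℓ)) :=
  sigma_cells_disj hℓ hpq hd

lemma lft_bounds (hℓ : 0 < ℓ) (hpq : ∀ j, p j ≤ q j) (i : Cell p q ℓ) :
    p i.1 ≤ lft p q ℓ i ∧ lft p q ℓ i + ℓ ≤ q i.1 := by
  have h1 := nc_mul_le hℓ (hpq i.1)
  have h2 : (((i.2 : ℕ) : ℝ) + 1) ≤ nc (p i.1) (q i.1) ℓ := by exact_mod_cast i.2.2
  have h3 : (((i.2 : ℕ) : ℝ) + 1) * ℓ ≤ nc (p i.1) (q i.1) ℓ * ℓ :=
    mul_le_mul_of_nonneg_right h2 hℓ.le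
  have h4 : (0:ℝ) ≤ ((i.2 : ℕ) : ℝ) * ℓ := by positivity
  unfold lft
  constructor
  · linarith
  · linarith

/-- left part after the last cell -/
def rest (p q : J → ℝ) (ℓ : ℝ) (j : J) : Set ℝ := Ico (p j + nc (p j) (q j) ℓ * ℓ) (q j)

lemma rest_sub (hℓ : 0 < ℓ) (hpq : ∀ j, p j ≤ q j) (j : J) :
    rest p q ℓ j ⊆ Ico (p j) (q j) := left_sub hℓ (hpq j)

lemma rest_disj_cell (hℓ : 0 < ℓ) (hpq : ∀ j, p j ≤ q j)
    (hd : Pairwise (Function.onFun Disjoint fun j => Ico (p j) (q j))) (j : J) (i : Cell p q ℓ) :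
    Disjoint (Ico (lft p q ℓ i) (lft p q ℓ i + ℓ)) (rest p q ℓ j) := by
  by_cases h : i.1 = j
  · subst h
    exact cell_left_disj hℓ i.2.2
  · exact (hd h).mono (lft_sub hℓ hpq i) (rest_sub hℓ hpq j)

lemma rest_disj (hℓ : 0 < ℓ) (hpq : ∀ j, p j ≤ q j)
    (hd : Pairwise (Function.onFun Disjoint fun j => Ico (p j) (q j))) :
    Pairwise (Function.onFun Disjoint (rest p q ℓ)) := by
  intro j j' hne
  exact (hd hne).mono (rest_sub hℓ hpq j) (rest_sub hℓ hpq j')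

lemma union_cells (hℓ : 0 < ℓ) (hpq : ∀ j, p j ≤ q j) :
    (⋃ j, Ico (p j) (q j)) = (⋃ i : Cell p q ℓ, Ico (lft p q ℓ i) (lft p q ℓ i + ℓ)) ∪
      ⋃ j, rest p q ℓ j := by
  ext x
  simp only [mem_iUnion, mem_union]
  constructor
  · rintro ⟨j, hj⟩
    rw [Ico_subdiv hℓ (hpq j)] at hj
    rcases hj with h | h
    · obtain ⟨c, hc⟩ := mem_iUnion.mp h
      exact Or.inl ⟨⟨j, c⟩, hc⟩
    · exact Or.inr ⟨j, h⟩
  · rintro (⟨i, hi⟩ | ⟨j, hj⟩)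
    · exact ⟨i.1, lft_sub hℓ hpq i hi⟩
    · exact ⟨j, rest_sub hℓ hpq j hj⟩

/-- slot of a cell -/
def slotI (a ℓ : ℝ) (K : ℕ) (k : Fin K) : Set ℝ :=
  Ico (a + (k : ℝ) * (ℓ / K)) (a + ((k : ℝ) + 1) * (ℓ / K))

end core

end Pool.Agent.LegRe
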