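import Pool.Agent.LegRe.Pulse

/-! The pulse construction: main lemma. -/

namespace Pool.Agent.LegRe

open MeasureTheory Set ENNReal Filter Topology

lemma lintegral_Dfun {κ : Type} [Fintype κ] {K : ℕ} [NeZero K] {A ℓ : ℝ} (hℓ : 0 < ℓ) (hA : 0 < A)
    (xc : κ → ℝ) (ψ : κ → Fin K → ℝ) (τ : κ → Fin K) (hψ1 : ∀ i, ∑ k, |ψ i k| ≤ 2 * A * K)
    (hcard : (Fintype.card κ : ℝ) * ℓ ≤ 2) :
    ∫⁻ x, ‖Dfun xc ℓ K ψ τ x‖ₑ ∂mu ≤ ENNReal.ofReal (4 * A) := by
  have hK : (0:ℝ) < K := by exact_mod_cast Nat.pos_of_ne_zero (NeZero.ne K)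
  have hσ : 0 < ℓ / K := by positivity
  have h1 : ∀ x, ‖Dfun xc ℓ K ψ τ x‖ₑ ≤ ∑ i, ∑ k : Fin K, ENNReal.ofReal |ψ i (k + τ i)| *
      ‖ind (xc i + (k : ℝ) * (ℓ / K)) (xc i + ((k : ℝ) + 1) * (ℓ / K)) x‖ₑ := by
    intro x
    unfold Dfun cellFn
    refine (enorm_sum_le _ _).trans (Finset.sum_le_sum fun i _ => ?_)
    refine (enorm_sum_le _ _).trans (Finset.sum_le_sum fun k _ => ?_)
    rw [enorm_mul, Real.enorm_eq_ofReal_abs]
  calc ∫⁻ x, ‖Dfun xc ℓ K ψ τ x‖ₑ ∂mu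
      ≤ ∫⁻ x, ∑ i, ∑ k : Fin K, ENNReal.ofReal |ψ i (k + τ i)| *
      ‖ind (xc i + (k : ℝ) * (ℓ / K)) (xc i + ((k : ℝ) + 1) * (ℓ / K)) x‖ₑ ∂mu :=
        lintegral_mono h1
    _ = ∑ i, ∑ k : Fin K, ENNReal.ofReal |ψ i (k + τ i)| *
      ∫⁻ x, ‖ind (xc i + (k : ℝ) * (ℓ / K)) (xc i + ((k : ℝ) + 1) * (ℓ / K)) x‖ₑ ∂mu := by
        have hm : ∀ c d : ℝ, Measurable fun x => ‖ind c d x‖ₑ := fun c d =>
          (measurable_const.indicator measurableSet_Ico).enorm
        rw [lintegral_finset_sum]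
        · apply Finset.sum_congr rfl
          intro i _
          rw [lintegral_finset_sum]
          · apply Finset.sum_congr rfl
            intro k _
            rw [lintegral_const_mul _ (hm _ _)]
          · intro k _
            exact (hm _ _).const_mul _
        · intro i _
          apply Finset.measurable_fun_sum
          intro k _
          exact (hm _ _).const_mul _
    _ ≤ ∑ i, ∑ k : Fin K, ENNReal.ofReal (|ψ i (k + τ i)| * (ℓ / K)) := by
        apply Finset.sum_le_sum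
        intro i _
        apply Finset.sum_le_sum
        intro k _
        rw [ENNReal.ofReal_mul (abs_nonneg _)]
        apply mul_le_mul_right
        refine lintegral_ind.trans (ENNReal.ofReal_le_ofReal (le_of_eq ?_))
        ring
    _ = ENNReal.ofReal (∑ i, ∑ k : Fin K, |ψ i (k + τ i)| * (ℓ / K)) := by
        rw [ENNReal.ofReal_sum_of_nonneg]
        · apply Finset.sum_congr rfl
          intro i _
          rw [ENNReal.ofReal_sum_of_nonneg]
          intro k _; positivity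
        · intro i _; positivity
    _ ≤ _ := by
        apply ENNReal.ofReal_le_ofReal
        calc ∑ i, ∑ k : Fin K, |ψ i (k + τ i)| * (ℓ / K)
            = ∑ i, (∑ k : Fin K, |ψ i k|) * (ℓ / K) := by
              apply Finset.sum_congr rfl
              intro i _
              rw [← Finset.sum_mul, sum_shift (fun k => |ψ i k|) (τ i)]
          _ ≤ ∑ _i : κ, (2 * A * K) * (ℓ / K) := by
              apply Finset.sum_le_sum
              intro i _
              exact mul_le_mul_of_nonneg_right (hψ1 i) hσ.le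
          _ = (Fintype.card κ : ℝ) * ℓ * (2 * A) := by
              rw [Finset.sum_const, nsmul_eq_mul, Finset.card_univ]
              field_simp
          _ ≤ 2 * (2 * A) := mul_le_mul_of_nonneg_right hcard (by positivity)
          _ = 4 * A := by ring

/-- cost of the rest intervals -/
lemma N_rest {J : Type} [Fintype J] {p q : J → ℝ} {ℓ s A C η : ℝ} (hℓ : 0 < ℓ) (hA : 0 < A)
    (hpq : ∀ j, p j ≤ q j) (hsub : ∀ j, -1 + s ≤ p j ∧ q j ≤ 1 - s)
    (hC0 : 0 ≤ C) (hC : ∀ c d : ℝ, -1 + s ≤ c → c ≤ d → d ≤ 1 - s →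
      N (ind c d) ≤ ENNReal.ofReal (C * (d - c) ^ (1/2 : ℝ))) (h : J → ℝ) (hh : ∀ j, |h j| ≤ A)
    (hc1 : (Fintype.card J : ℝ) * (A * (C * ℓ ^ (1/2 : ℝ))) ≤ η) :
    N (fun x => ∑ j, h j * ind (p j + nc (p j) (q j) ℓ * ℓ) (q j) x) ≤ ENNReal.ofReal η := by
  refine (N_sum_le _ _ fun j _ => (integrable_ind _ _).const_mul _).trans ?_
  calc ∑ j, N (fun x => h j * ind (p j + nc (p j) (q j) ℓ * ℓ) (q j) x)
      ≤ ∑ _j : J, ENNReal.ofReal (A * (C * ℓ ^ (1/2 : ℝ))) := by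
        apply Finset.sum_le_sum
        intro j _
        rw [N_const_mul, Real.enorm_eq_ofReal_abs, ENNReal.ofReal_mul hA.le]
        have h1 := nc_mul_le hℓ (hpq j)
        have h2 := lt_nc_mul hℓ (hpq j)
        have h3 : (0:ℝ) ≤ nc (p j) (q j) ℓ * ℓ := by positivity
        apply mul_le_mul' (ENNReal.ofReal_le_ofReal (hh j))
        refine (hC _ _ (by linarith [(hsub j).1]) (by linarith) (hsub j).2).trans ?_
        apply ENNReal.ofReal_le_ofReal
        apply mul_le_mul_of_nonneg_left _ hC0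
        exact Real.rpow_le_rpow (by linarith) (by linarith) (by norm_num)
    _ = ENNReal.ofReal ((Fintype.card J : ℝ) * (A * (C * ℓ ^ (1/2 : ℝ)))) := by
        rw [Finset.sum_const, nsmul_eq_mul, Finset.card_univ, ← ENNReal.ofReal_natCast,
          ← ENNReal.ofReal_mul (by positivity)]
    _ ≤ _ := ENNReal.ofReal_le_ofReal hc1

/-- the counting inequality -/
lemma count_ok {J Rr : Type} [Fintype J] [Fintype Rr] {p q : J → ℝ} {p' q' : Rr → ℝ}
    {ℓ A γ : ℝ} {K : ℕ} [NeZero K] (hℓ : 0 < ℓ) (hA : 0 < A) (hγ : 0 < γ)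
    (hpq : ∀ j, p j ≤ q j) (hd : Pairwise (Function.onFun Disjoint fun j => Ico (p j) (q j)))
    (hsub : ∀ j, -1 ≤ p j ∧ q j ≤ 1) (hpq' : ∀ r, p' r ≤ q' r)
    (htot : 3 * A / γ ≤ ∑ r, (q' r - p' r)) (hc2 : (Fintype.card Rr : ℝ) * ℓ ≤ A / γ) :
    (Fintype.card (Cell p q ℓ) : ℝ) * ℓ ≤ 2 ∧
    (Fintype.card (Cell p q ℓ) : ℝ) * (K * A / γ) ≤ Fintype.card (Cell p' q' (ℓ / K)) := by
  have hKn : 1 ≤ K := Nat.pos_of_ne_zero (NeZero.ne K)
  have hK1 : (1:ℝ) ≤ K := by exact_mod_cast hKn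
  have hK : (0:ℝ) < K := by linarith
  have hσ : 0 < ℓ / K := by positivity
  have h1 := card_cells_le hℓ hpq
  have h2 : ∑ j, (q j - p j) ≤ 2 := by
    have := sum_len_le hpq hd hsub (T := univ) (fun j => subset_univ _)
    rw [mu_univ] at this
    have h3 : (2 : ℝ≥0∞) = ENNReal.ofReal 2 := by norm_num
    rw [h3, ENNReal.ofReal_le_ofReal_iff (by norm_num)] at this
    exact this
  have h3 : (Fintype.card (Cell p q ℓ) : ℝ) * ℓ ≤ 2 := h1.trans h2
  refine ⟨h3, ?_⟩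
  have h4 := le_card_cells hσ hpq'
  have h5 : (Fintype.card Rr : ℝ) * (ℓ / K) ≤ A / γ := by
    refine le_trans ?_ hc2
    apply mul_le_mul_of_nonneg_left _ (Nat.cast_nonneg _)
    exact div_le_self hℓ.le hK1
  have h6 : 2 * (A / γ) ≤ (Fintype.card (Cell p' q' (ℓ / K)) : ℝ) * (ℓ / K) := by
    have : 3 * A / γ = 3 * (A / γ) := by ring
    rw [this] at htot
    linarith
  have h7 : (Fintype.card (Cell p q ℓ) : ℝ) * (K * A / γ) * (ℓ / K) ≤
      (Fintype.card (Cell p' q' (ℓ / K)) : ℝ) * (ℓ / K) := by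
    calc (Fintype.card (Cell p q ℓ) : ℝ) * (K * A / γ) * (ℓ / K) =
        ((Fintype.card (Cell p q ℓ) : ℝ) * ℓ) * (A / γ) := by field_simp
      _ ≤ 2 * (A / γ) := mul_le_mul_of_nonneg_right h3 (by positivity)
      _ ≤ _ := h6
  exact le_of_mul_le_mul_right h7 hσ

/-- swapping pulse slots and reservoir slots -/
lemma exists_swap {PP : Type} [Finite PP] (Bs Rs : PP → Set ℝ) (hB : ∀ i, MeasurableSet (Bs i))
    (hR : ∀ i, MeasurableSet (Rs i)) (hBd : Pairwise (Function.onFun Disjoint Bs))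
    (hRd : Pairwise (Function.onFun Disjoint Rs)) (hBR : ∀ i j, Disjoint (Bs i) (Rs j))
    (hm : ∀ i, mu (Bs i) = mu (Rs i)) :
    ∃ e : ℝ → ℝ, Iso e ∧ (∀ i, ∀ᵐ x ∂mu, x ∈ Bs i → e x ∈ Rs i) ∧
      (∀ i, ∀ᵐ x ∂mu, x ∈ Rs i → e x ∈ Bs i) ∧
      (∀ᵐ x ∂mu, x ∉ (⋃ i, Bs i) ∪ (⋃ i, Rs i) → e x = x) ∧
      mu {x | e x ≠ x} ≤ 2 * mu (⋃ i, Rs i) := by
  classical
  have := Fintype.ofFinite PP
  have hpd : Pairwise (Function.onFun Disjoint (Sum.elim Bs Rs)) := by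
    rintro (i | i) (j | j) hne
    · exact hBd (fun h => hne (by rw [h]))
    · exact hBR i j
    · exact (hBR j i).symm
    · exact hRd (fun h => hne (by rw [h]))
  have hpd' : Pairwise (Function.onFun Disjoint (Sum.elim Rs Bs)) := by
    rintro (i | i) (j | j) hne
    · exact hRd (fun h => hne (by rw [h]))
    · exact (hBR j i).symm
    · exact hBR i j
    · exact hBd (fun h => hne (by rw [h]))
  obtain ⟨e, he, h1, _, h3⟩ := exists_iso_of_partition (Sum.elim Bs Rs) (Sum.elim Rs Bs)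
    (by rintro (i | i); exacts [hB i, hR i]) (by rintro (i | i); exacts [hR i, hB i]) hpd hpd'
    (by rintro (i | i); exacts [hm i, (hm i).symm])
    (by rw [iUnion_sum, iUnion_sum]; simp only [Sum.elim_inl, Sum.elim_inr]; rw [union_comm])
  rw [iUnion_sum] at h3
  simp only [Sum.elim_inl, Sum.elim_inr] at h3
  refine ⟨e, he, fun i => h1 (Sum.inl i), fun i => h1 (Sum.inr i), h3, ?_⟩
  have hle : mu {x | e x ≠ x} ≤ mu ((⋃ i, Bs i) ∪ (⋃ i, Rs i)) := by
    apply measure_mono_ae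
    filter_upwards [h3] with x hx hxe
    by_contra hcon
    exact hxe (hx hcon)
  have hBu : mu (⋃ i, Bs i) = mu (⋃ i, Rs i) := by
    rw [measure_iUnion hBd hB, measure_iUnion hRd hR]
    congr 1
    funext i
    exact hm i
  calc mu {x | e x ≠ x} ≤ mu ((⋃ i, Bs i) ∪ (⋃ i, Rs i)) := hle
    _ ≤ mu (⋃ i, Bs i) + mu (⋃ i, Rs i) := measure_union_le _ _
    _ = 2 * mu (⋃ i, Rs i) := by rw [hBu]; ring

end Pool.Agent.LegRe
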