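import Pool.Agent.LegRe.Pulse2

/-! The pulse construction: the core statement. -/

namespace Pool.Agent.LegRe

open MeasureTheory Set ENNReal Filter Topology

lemma mu_slot {a ℓ : ℝ} {K : ℕ} (hℓ : 0 < ℓ) (k : Fin K) (h1 : -1 ≤ a) (h2 : a + ℓ ≤ 1) :
    mu (Ico (a + (k : ℝ) * (ℓ / K)) (a + ((k : ℝ) + 1) * (ℓ / K))) = ENNReal.ofReal (ℓ / K) := by
  obtain ⟨f1, f2, f3, f4⟩ := slot_facts (a := a) hℓ k
  rw [mu_Ico (by linarith) (by linarith), f4]

theorem pulse_core {s A γ B2 b m δ' η : ℝ} (hs : 0 < s) (hs1 : s ≤ 1) (K : ℕ) [NeZero K]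
    (hA : 0 < A) (hγ : 0 < γ) (hAγ : 2 * A ≤ γ) (hB2 : γ ≤ B2) (hη : 0 < η)
    {J Rr : Type} [Fintype J] [Fintype Rr] (p q v g : J → ℝ) (p' q' u : Rr → ℝ) {F G : ℝ → ℝ}
    (hpq : ∀ j, p j ≤ q j) (hd : Pairwise (Function.onFun Disjoint fun j => Ico (p j) (q j)))
    (hsub : ∀ j, -1 + s ≤ p j ∧ q j ≤ 1 - s)
    (hpq' : ∀ r, p' r ≤ q' r) (hd' : Pairwise (Function.onFun Disjoint fun r => Ico (p' r) (q' r)))
    (hsub' : ∀ r, -1 ≤ p' r ∧ q' r ≤ 1)
    (hdd : ∀ j r, Disjoint (Ico (p j) (q j)) (Ico (p' r) (q' r)))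
    (hvm : ∀ j, m ≤ v j) (hvg : ∀ j, v j ≤ g j ∧ g j ≤ v j + A)
    (hG : ∀ j, ∀ x ∈ Ico (p j) (q j), G x = v j)
    (hF : ∀ j, ∀ᵐ x ∂mu, x ∈ Ico (p j) (q j) → g j ≤ F x ∧ F x ≤ g j + δ')
    (hum : ∀ r, u r ≤ m)
    (hF' : ∀ r, ∀ᵐ x ∂mu, x ∈ Ico (p' r) (q' r) → u r - b ≤ F x ∧ F x ≤ u r)
    (huv : ∀ j r, γ ≤ v j - u r) (hB : ∀ j r, v j - u r ≤ B2)
    (htot : 3 * A / γ ≤ ∑ r, (q' r - p' r)) :
    ∃ (e D : ℝ → ℝ) (R1 R2 : Set ℝ), Iso e ∧
      (∀ᵐ x ∂mu, x ∉ (⋃ j, Ico (p j) (q j)) ∪ (⋃ r, Ico (p' r) (q' r)) → e x = x) ∧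
      mu {x | e x ≠ x} ≤ 2 * mu (⋃ r, Ico (p' r) (q' r)) ∧
      Disjoint R1 R2 ∧ R1 ∪ R2 = ⋃ j, Ico (p j) (q j) ∧
      (∀ x, x ∉ ⋃ j, Ico (p j) (q j) → D x = 0) ∧ Integrable D mu ∧
      High (fun x => F (e x)) (fun x => G x + D x) m (δ' + 2 * (A + B2) / K) R1 ∧
      Low (fun x => F (e x)) (fun x => G x + D x) m b R2 ∧
      N D ≤ ENNReal.ofReal (CR * (A * (1 + Real.log K)) + 4 * A + η) := by
  classical
  have hKn : 0 < K := Nat.pos_of_ne_zero (NeZero.ne K)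
  have hKr : (0:ℝ) < K := by exact_mod_cast hKn
  have hK1 : (1:ℝ) ≤ K := by exact_mod_cast hKn
  have hlogK : 0 ≤ Real.log K := Real.log_nonneg hK1
  have hCR := CR_nonneg
  obtain ⟨C, hC0, hC⟩ := N_ind_local (θ := 1/2) hs (by norm_num) (by norm_num)
  obtain ⟨ℓ₀, hℓ₀, hrand⟩ := random_shifts hs hs1 K hA (half_pos hη)
  obtain ⟨ℓ, hℓ, hℓle, hc1, hc2⟩ := choose_len (C := C) (A := A) hℓ₀ hC0 hA (half_pos hη) hγ
    (Fintype.card J) (Fintype.card Rr)
  have hσ : 0 < ℓ / K := by positivity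
  have hsub1 : ∀ j, -1 ≤ p j ∧ q j ≤ 1 := fun j =>
    ⟨by linarith [(hsub j).1], by linarith [(hsub j).2]⟩
  obtain ⟨hcard2, hcard⟩ := count_ok (K := K) hℓ hA hγ hpq hd hsub1 hpq' htot hc2
  obtain ⟨t, slot, c, ψ, hinj, htK, hψt, hψc, hψ0, hψ1, hc0, hcle, hcge⟩ :=
    assign (κ := Cell p q ℓ) (ρ := Cell p' q' (ℓ / K)) (K := K) hKn hγ hA hAγ (fun i => v i.1)
      (fun i => g i.1) (fun r => u r.1) (fun i => hvg i.1) (fun i n => huv i.1 n.1)
      (fun i n => hB i.1 n.1) hB2 hcard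
  have hcellb : ∀ i : Cell p q ℓ, -1 + s ≤ lft p q ℓ i ∧ lft p q ℓ i + ℓ ≤ 1 - s := by
    intro i
    have := lft_bounds hℓ hpq i
    exact ⟨by linarith [(hsub i.1).1], by linarith [(hsub i.1).2]⟩
  have hdc := lft_disj hℓ hpq hd
  have hds := lft_disj hσ hpq' hd'
  obtain ⟨τ, hτ⟩ := hrand ℓ hℓ hℓle (Cell p q ℓ) (lft p q ℓ) ψ hcellb hdc hψ0 hψ1
  -- the pulse slots
  let kk : (Σ i : Cell p q ℓ, Fin (t i)) → Fin K := fun π =>
    ⟨π.2, lt_of_lt_of_le π.2.2 (htK π.1)⟩ - τ π.1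
  have hkk : ∀ π, kk π + τ π.1 = ⟨π.2, lt_of_lt_of_le π.2.2 (htK π.1)⟩ := fun π =>
    sub_add_cancel _ _
  let Bs : (Σ i : Cell p q ℓ, Fin (t i)) → Set ℝ := fun π => slotI (lft p q ℓ π.1) ℓ K (kk π)
  let Rs : (Σ i : Cell p q ℓ, Fin (t i)) → Set ℝ := fun π =>
    Ico (lft p' q' (ℓ / K) (slot π)) (lft p' q' (ℓ / K) (slot π) + ℓ / K)
  have hslotcell : ∀ (i : Cell p q ℓ) (k : Fin K), slotI (lft p q ℓ i) ℓ K k ⊆
      Ico (lft p q ℓ i) (lft p q ℓ i + ℓ) := fun i k => slot_sub hℓ k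
  have hslotpiece : ∀ (i : Cell p q ℓ) (k : Fin K), slotI (lft p q ℓ i) ℓ K k ⊆
      Ico (p i.1) (q i.1) := fun i k => (hslotcell i k).trans (lft_sub hℓ hpq i)
  have hRspiece : ∀ π, Rs π ⊆ Ico (p' (slot π).1) (q' (slot π).1) := fun π =>
    lft_sub hσ hpq' (slot π)
  -- disjointness of slots
  have hslots : ∀ (i i' : Cell p q ℓ) (k k' : Fin K), (i ≠ i' ∨ k ≠ k') →
      Disjoint (slotI (lft p q ℓ i) ℓ K k) (slotI (lft p q ℓ i') ℓ K k') := by
    intro i i' k k' h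
    by_cases hi : i = i'
    · subst hi
      have hk : k ≠ k' := by
        rcases h with h | h
        · exact absurd rfl h
        · exact h
      exact slots_disj hℓ hk
    · exact (hdc hi).mono (hslotcell i k) (hslotcell i' k')
  have hBd : Pairwise (Function.onFun Disjoint Bs) := by
    rintro ⟨i, j⟩ ⟨i', j'⟩ hne
    apply hslots
    by_cases hi : i = i'
    · right
      subst hi
      intro hk
      apply hne
      have h1 := hkk ⟨i, j⟩
      have h2 := hkk ⟨i, j'⟩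
      rw [hk, h2] at h1
      have h3 := congrArg Fin.val h1
      simp only at h3
      have : j = j' := Fin.ext h3.symm
      rw [this]
    · exact Or.inl hi
  have hRd : Pairwise (Function.onFun Disjoint Rs) := by
    intro π π' hne
    exact hds (fun h => hne (hinj h))
  have hBR : ∀ π π', Disjoint (Bs π) (Rs π') := fun π π' =>
    (hdd π.1.1 (slot π').1).mono (hslotpiece _ _) (hRspiece π')
  have hmB : ∀ π, mu (Bs π) = mu (Rs π) := by
    intro π
    have h1 := hcellb π.1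
    have h2 := lft_bounds hσ hpq' (slot π)
    have h3 := hsub' (slot π).1
    have e1 : mu (Bs π) = ENNReal.ofReal (ℓ / K) :=
      mu_slot hℓ (kk π) (by linarith [h1.1]) (by linarith [h1.2])
    have e2 : mu (Rs π) = ENNReal.ofReal (ℓ / K) := by
      simp only [Rs]
      rw [mu_Ico (by linarith [h2.1, h3.1]) (by linarith [h2.2, h3.2])]
      congr 1; ring
    rw [e1, e2]
  obtain ⟨e, he, he1, he2, he3, he4⟩ := exists_swap Bs Rs (fun _ => measurableSet_Ico)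
    (fun _ => measurableSet_Ico) hBd hRd hBR hmB
  -- the function D
  set Lf : ℝ → ℝ := fun x => ∑ j, (g j - v j) * ind (p j + nc (p j) (q j) ℓ * ℓ) (q j) x with hLf
  set D : ℝ → ℝ := fun x => Dfun (lft p q ℓ) ℓ K ψ τ x + Lf x with hD
  have hLfi : Integrable Lf mu := integrable_finset_sum _ fun j _ => (integrable_ind _ _).const_mul _
  have hDi : Integrable D mu := (integrable_Dfun _ _ _ _ _).add hLfi
  have hrd := rest_disj hℓ hpq hd
  have hrc := rest_disj_cell hℓ hpq hd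
  have hLf_rest : ∀ j, ∀ x ∈ rest p q ℓ j, Lf x = g j - v j := by
    intro j x hx
    simp only [hLf]
    rw [Finset.sum_eq_single j]
    · have : x ∈ Ico (p j + nc (p j) (q j) ℓ * ℓ) (q j) := hx
      simp [ind, indicator_of_mem this]
    · intro i _ hi
      have : x ∉ Ico (p i + nc (p i) (q i) ℓ * ℓ) (q i) :=
        Set.disjoint_left.mp (hrd hi.symm) hx
      simp [ind, indicator_of_notMem this]
    · intro h; exact absurd (Finset.mem_univ j) h
  have hLf_off : ∀ x, (∀ j, x ∉ rest p q ℓ j) → Lf x = 0 := by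
    intro x hx
    simp only [hLf]
    apply Finset.sum_eq_zero
    intro i _
    have : x ∉ Ico (p i + nc (p i) (q i) ℓ * ℓ) (q i) := hx i
    simp [ind, indicator_of_notMem this]
  have hD_slot : ∀ (i : Cell p q ℓ) (k : Fin K), ∀ x ∈ slotI (lft p q ℓ i) ℓ K k,
      D x = ψ i (k + τ i) := by
    intro i k x hx
    simp only [hD]
    rw [hLf_off x (fun j => Set.disjoint_left.mp (hrc j i) (hslotcell i k hx)), add_zero]
    exact Dfun_slot hℓ hdc i k hx
  have hD_rest : ∀ j, ∀ x ∈ rest p q ℓ j, D x = g j - v j := by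
    intro j x hx
    simp only [hD]
    rw [hLf_rest j x hx, Dfun_off hℓ (fun i => Set.disjoint_right.mp (hrc j i) hx), zero_add]
  have hU : (⋃ j, Ico (p j) (q j)) = (⋃ i : Cell p q ℓ, Ico (lft p q ℓ i) (lft p q ℓ i + ℓ)) ∪
      ⋃ j, rest p q ℓ j := union_cells hℓ hpq
  have hD_off : ∀ x, x ∉ (⋃ j, Ico (p j) (q j)) → D x = 0 := by
    intro x hx
    rw [hU] at hx
    simp only [mem_union, mem_iUnion, not_or, not_exists] at hx
    simp only [hD]
    rw [hLf_off x hx.2, Dfun_off hℓ hx.1, zero_add]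
  -- the two regions
  let I1 : Type := {ik : Cell p q ℓ × Fin K // t ik.1 ≤ ((ik.2 + τ ik.1 : Fin K) : ℕ)}
  let I2 : Type := {ik : Cell p q ℓ × Fin K // ((ik.2 + τ ik.1 : Fin K) : ℕ) < t ik.1}
  have hsumeq : ∀ x, x ∈ (⋃ i : Cell p q ℓ, Ico (lft p q ℓ i) (lft p q ℓ i + ℓ)) ↔
      ∃ (i : Cell p q ℓ) (k : Fin K), x ∈ slotI (lft p q ℓ i) ℓ K k := by
    intro x
    simp only [mem_iUnion]
    constructor
    · rintro ⟨i, hi⟩
      rw [cell_eq_slots hℓ hKn] at hi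
      obtain ⟨k, hk⟩ := mem_iUnion.mp hi
      exact ⟨i, k, hk⟩
    · rintro ⟨i, k, hk⟩
      exact ⟨i, hslotcell i k hk⟩
  set R1 : Set ℝ := (⋃ ik : I1, slotI (lft p q ℓ ik.1.1) ℓ K ik.1.2) ∪ ⋃ j, rest p q ℓ j with hR1
  set R2 : Set ℝ := ⋃ ik : I2, slotI (lft p q ℓ ik.1.1) ℓ K ik.1.2 with hR2
  have hRu : R1 ∪ R2 = ⋃ j, Ico (p j) (q j) := by
    rw [hU]
    ext x
    have g1 : x ∈ R1 ↔ (∃ ik : I1, x ∈ slotI (lft p q ℓ ik.1.1) ℓ K ik.1.2) ∨
        ∃ j, x ∈ rest p q ℓ j := by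
      rw [hR1, mem_union, mem_iUnion, mem_iUnion]
    have g2 : x ∈ R2 ↔ ∃ ik : I2, x ∈ slotI (lft p q ℓ ik.1.1) ℓ K ik.1.2 := by
      rw [hR2, mem_iUnion]
    have g3 : x ∈ (⋃ i : Cell p q ℓ, Ico (lft p q ℓ i) (lft p q ℓ i + ℓ)) ∪
        (⋃ j, rest p q ℓ j) ↔ (∃ (i : Cell p q ℓ) (k : Fin K), x ∈ slotI (lft p q ℓ i) ℓ K k) ∨
        ∃ j, x ∈ rest p q ℓ j := by
      rw [mem_union, hsumeq x, mem_iUnion]
    rw [g3, mem_union, g1, g2]
    constructor
    · rintro ((⟨ik, h⟩ | h) | ⟨ik, h⟩)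
      · exact Or.inl ⟨_, _, h⟩
      · exact Or.inr h
      · exact Or.inl ⟨_, _, h⟩
    · rintro (⟨i, k, h⟩ | h)
      · rcases le_or_gt (t i) ((k + τ i : Fin K) : ℕ) with hk | hk
        · exact Or.inl (Or.inl ⟨⟨(i, k), hk⟩, h⟩)
        · exact Or.inr ⟨⟨(i, k), hk⟩, h⟩
      · exact Or.inl (Or.inr h)
  have hRdj : Disjoint R1 R2 := by
    rw [Set.disjoint_left]
    intro x hx1 hx2
    rw [hR2] at hx2
    obtain ⟨ik2, h2⟩ := mem_iUnion.mp hx2
    rw [hR1] at hx1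
    rcases hx1 with hx1 | hx1
    · obtain ⟨ik1, h1⟩ := mem_iUnion.mp hx1
      by_cases hne : ik1.1.1 ≠ ik2.1.1 ∨ ik1.1.2 ≠ ik2.1.2
      · exact Set.disjoint_left.mp (hslots _ _ _ _ hne) h1 h2
      · push Not at hne
        have e12 : ik1.1 = ik2.1 := Prod.ext hne.1 hne.2
        have a1 := ik1.2
        have a2 := ik2.2
        rw [e12] at a1
        exact absurd a2 (not_lt.mpr a1)
    · obtain ⟨j, hj⟩ := mem_iUnion.mp hx1
      exact Set.disjoint_left.mp (hrc j ik2.1.1) (hslotcell _ _ h2) hj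
  -- identity off the pulses
  have hid : ∀ᵐ x ∂mu, (∀ π, x ∉ Bs π) → (∀ π, x ∉ Rs π) → e x = x := by
    filter_upwards [he3] with x hx h1 h2
    apply hx
    rintro (h | h)
    · obtain ⟨π, hπ⟩ := mem_iUnion.mp h
      exact h1 π hπ
    · obtain ⟨π, hπ⟩ := mem_iUnion.mp h
      exact h2 π hπ
  have hnotR : ∀ j, ∀ x ∈ Ico (p j) (q j), ∀ π, x ∉ Rs π := by
    intro j x hx π hπ
    exact Set.disjoint_left.mp (hdd j (slot π).1) hx (hRspiece π hπ)
  have hnotB : ∀ (i : Cell p q ℓ) (k : Fin K), t i ≤ ((k + τ i : Fin K) : ℕ) →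
      ∀ x ∈ slotI (lft p q ℓ i) ℓ K k, ∀ π, x ∉ Bs π := by
    intro i k hk x hx π hπ
    by_cases hne : i ≠ π.1 ∨ k ≠ kk π
    · exact Set.disjoint_left.mp (hslots _ _ _ _ hne) hx hπ
    · push Not at hne
      obtain ⟨h1, h2⟩ := hne
      subst h1
      rw [h2, hkk π] at hk
      have := π.2.2
      simp only at hk
      omega
  have hnotB' : ∀ j, ∀ x ∈ rest p q ℓ j, ∀ π, x ∉ Bs π := by
    intro j x hx π hπ
    exact Set.disjoint_left.mp (hrc j π.1) (hslotcell _ _ hπ) hx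
  refine ⟨e, D, R1, R2, he, ?_, ?_, hRdj, hRu, hD_off, hDi, ?_, ?_, ?_⟩
  · filter_upwards [hid] with x hx hxn
    apply hx
    · intro π hπ
      exact hxn (Or.inl (mem_iUnion.mpr ⟨_, hslotpiece _ _ hπ⟩))
    · intro π hπ
      exact hxn (Or.inr (mem_iUnion.mpr ⟨_, hRspiece _ hπ⟩))
  · refine he4.trans ?_
    apply mul_le_mul_right
    apply measure_mono
    apply iUnion_subset
    intro π
    exact (hRspiece π).trans (subset_iUnion (fun r => Ico (p' r) (q' r)) (slot π).1)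
  · -- High
    refine ⟨I1 ⊕ J, inferInstance,
      Sum.elim (fun ik => lft p q ℓ ik.1.1 + ((ik.1.2 : ℕ) : ℝ) * (ℓ / K))
        (fun j => p j + nc (p j) (q j) ℓ * ℓ),
      Sum.elim (fun ik => lft p q ℓ ik.1.1 + (((ik.1.2 : ℕ) : ℝ) + 1) * (ℓ / K)) (fun j => q j),
      Sum.elim (fun ik => v ik.1.1.1 + c ik.1.1) (fun j => g j), ?_, ?_, ?_, ?_, ?_, ?_⟩
    · rintro (ik | j)
      · obtain ⟨f1, f2, f3, f4⟩ := slot_facts (a := lft p q ℓ ik.1.1) hℓ ik.1.2
        exact f2.le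
      · have := nc_mul_le hℓ (hpq j)
        simp only [Sum.elim_inr]
        linarith
    · rintro (ik | j) (ik' | j') hne
      · apply hslots
        by_contra hcon
        push Not at hcon
        apply hne
        congr 1
        exact Subtype.ext (Prod.ext hcon.1 hcon.2)
      · exact (hrc j' ik.1.1).mono_left (hslotcell _ _)
      · exact ((hrc j ik'.1.1).mono_left (hslotcell _ _)).symm
      · exact hrd (fun h => hne (by rw [h]))
    · rw [iUnion_sum]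
      rfl
    · rintro (ik | j)
      · simp only [Sum.elim_inl]
        have := hvm ik.1.1.1
        have := hc0 ik.1.1
        linarith
      · simp only [Sum.elim_inr]
        linarith [hvm j, (hvg j).1]
    · rintro (ik | j) x hx
      · simp only [Sum.elim_inl] at hx ⊢
        have hx' : x ∈ slotI (lft p q ℓ ik.1.1) ℓ K ik.1.2 := hx
        rw [hG _ x (hslotpiece _ _ hx'), hD_slot _ _ x hx', hψc _ _ ik.2]
      · simp only [Sum.elim_inr] at hx ⊢
        have hx' : x ∈ rest p q ℓ j := hx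
        rw [hG j x (rest_sub hℓ hpq j hx'), hD_rest j x hx']
        ring
    · have hBK : 0 ≤ 2 * (A + B2) / K := by
        have : 0 ≤ B2 := by linarith
        positivity
      rintro (ik | j)
      · simp only [Sum.elim_inl]
        filter_upwards [hid, hF ik.1.1.1] with x hx hFx hxs
        have hx' : x ∈ slotI (lft p q ℓ ik.1.1) ℓ K ik.1.2 := hxs
        have hp := hslotpiece _ _ hx'
        rw [hx (hnotB _ _ ik.2 x hx') (hnotR _ x hp)]
        obtain ⟨a1, a2⟩ := hFx hp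
        have a3 := hcle ik.1.1
        have a4 := hcge ik.1.1
        constructor <;> linarith
      · simp only [Sum.elim_inr]
        filter_upwards [hid, hF j] with x hx hFx hxs
        have hx' : x ∈ rest p q ℓ j := hxs
        have hp := rest_sub hℓ hpq j hx'
        rw [hx (hnotB' _ x hx') (hnotR _ x hp)]
        obtain ⟨a1, a2⟩ := hFx hp
        constructor <;> linarith
  · -- Low
    have hpair : ∀ ik : I2, ∃ π : (Σ i : Cell p q ℓ, Fin (t i)), π.1 = ik.1.1 ∧ kk π = ik.1.2 ∧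
        ψ ik.1.1 (ik.1.2 + τ ik.1.1) = u (slot π).1 - v ik.1.1.1 := by
      intro ik
      refine ⟨⟨ik.1.1, ⟨((ik.1.2 + τ ik.1.1 : Fin K) : ℕ), ik.2⟩⟩, rfl, ?_, ?_⟩
      · simp only [kk]
        exact add_sub_cancel_right _ _
      · exact hψt ik.1.1 ⟨((ik.1.2 + τ ik.1.1 : Fin K) : ℕ), ik.2⟩ (ik.1.2 + τ ik.1.1) rfl
    choose π hπ1 hπ2 hπ3 using hpair
    refine ⟨I2, inferInstance, (fun ik => lft p q ℓ ik.1.1 + ((ik.1.2 : ℕ) : ℝ) * (ℓ / K)),
      (fun ik => lft p q ℓ ik.1.1 + (((ik.1.2 : ℕ) : ℝ) + 1) * (ℓ / K)),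
      (fun ik => - u (slot (π ik)).1), ?_, ?_, ?_, ?_, ?_, ?_⟩
    · intro ik
      obtain ⟨f1, f2, f3, f4⟩ := slot_facts (a := lft p q ℓ ik.1.1) hℓ ik.1.2
      exact f2.le
    · intro ik ik' hne
      apply hslots
      by_contra hcon
      push Not at hcon
      apply hne
      exact Subtype.ext (Prod.ext hcon.1 hcon.2)
    · rfl
    · intro ik
      have := hum (slot (π ik)).1
      linarith
    · intro ik x hx
      have hx' : x ∈ slotI (lft p q ℓ ik.1.1) ℓ K ik.1.2 := hx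
      simp only
      rw [hG _ x (hslotpiece _ _ hx'), hD_slot _ _ x hx', hπ3 ik]
      ring
    · intro ik
      have h1 := he1 (π ik)
      have h2 := he.ae (hF' (slot (π ik)).1)
      filter_upwards [h1, h2] with x hx1 hx2 hxs
      have hxB : x ∈ Bs (π ik) := by
        simp only [Bs]
        rw [hπ1 ik, hπ2 ik]
        exact hxs
      have := hx2 (hRspiece _ (hx1 hxB))
      constructor <;> linarith [this.1, this.2]
  · -- cost
    have hN1 : N (Dfun (lft p q ℓ) ℓ K ψ τ) ≤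
        ENNReal.ofReal (CR * (A * (1 + Real.log K)) + η / 2) + ENNReal.ofReal (4 * A) := by
      unfold N
      exact add_le_add hτ (lintegral_Dfun hℓ hA _ _ _ hψ1 hcard2)
    have hN2 : N Lf ≤ ENNReal.ofReal (η / 2) := by
      apply N_rest (s := s) (A := A) (C := C) hℓ hA hpq hsub hC0 hC
      · intro j
        rw [abs_le]
        constructor
        · linarith [(hvg j).1]
        · linarith [(hvg j).2]
      · exact hc1
    calc N D ≤ N (Dfun (lft p q ℓ) ℓ K ψ τ) + N Lf := N_add_le (integrable_Dfun _ _ _ _ _) hLfi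
      _ ≤ (ENNReal.ofReal (CR * (A * (1 + Real.log K)) + η / 2) + ENNReal.ofReal (4 * A)) +
          ENNReal.ofReal (η / 2) := add_le_add hN1 hN2
      _ = _ := by
          rw [← ENNReal.ofReal_add (by positivity) (by positivity),
            ← ENNReal.ofReal_add (by positivity) (by positivity)]
          congr 1; ring

end Pool.Agent.LegRe
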