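import Pool.Agent.LegRe.Cells

/-! Random shifts of mean-zero cells. -/

namespace Pool.Agent.LegRe

open MeasureTheory Set ENNReal Filter Topology

/-- distance from `x` to the cell `[a, a+ℓ]` -/
noncomputable def dst (a ℓ x : ℝ) : ℝ := max 0 (max (a - x) (x - (a + ℓ)))

lemma dst_nonneg (a ℓ x : ℝ) : 0 ≤ dst a ℓ x := le_max_left _ _

lemma dst_le {a ℓ x y : ℝ} (hy : y ∈ Icc a (a + ℓ)) : dst a ℓ x ≤ |x - y| := by
  unfold dst
  apply max_le (abs_nonneg _)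
  apply max_le
  · have := neg_le_abs (x - y); linarith [hy.1]
  · have := le_abs_self (x - y); linarith [hy.2]

lemma le_dst_add {a ℓ x y : ℝ} (hy : y ∈ Icc a (a + ℓ)) : |x - y| ≤ dst a ℓ x + ℓ := by
  have h0 := dst_nonneg a ℓ x
  have h1 : a - x ≤ dst a ℓ x := (le_max_left _ _).trans (le_max_right _ _)
  have h2 : x - (a + ℓ) ≤ dst a ℓ x := (le_max_right _ _).trans (le_max_right _ _)
  rw [abs_le]
  constructor
  · linarith [hy.2]
  · linarith [hy.1]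

lemma lev_exists {a ℓ : ℝ} (hℓ : 0 < ℓ) (x : ℝ) : ∃ m : ℕ, dst a ℓ x ≤ 2 ^ m * ℓ := by
  obtain ⟨m, hm⟩ := pow_unbounded_of_one_lt (dst a ℓ x / ℓ) (by norm_num : (1:ℝ) < 2)
  refine ⟨m, ?_⟩
  rw [div_lt_iff₀ hℓ] at hm
  exact hm.le

lemma count_near {ι : Type*} [Fintype ι] {a : ι → ℝ} {ℓ : ℝ} (hℓ : 0 < ℓ)
    (hdisj : Pairwise (Function.onFun Disjoint fun i => Ico (a i) (a i + ℓ))) {x R : ℝ}
    (hR : 0 ≤ R) (F : Finset ι) (hF : ∀ i ∈ F, dst (a i) ℓ x ≤ R) :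
    (F.card : ℝ) * ℓ ≤ 2 * R + 2 * ℓ := by
  have hsub : (⋃ i ∈ F, Ico (a i) (a i + ℓ)) ⊆ Icc (x - R - ℓ) (x + R + ℓ) := by
    intro y hy
    simp only [mem_iUnion] at hy
    obtain ⟨i, hi, hy⟩ := hy
    have h := hF i hi
    have h1 : a i - x ≤ dst (a i) ℓ x := (le_max_left _ _).trans (le_max_right _ _)
    have h2 : x - (a i + ℓ) ≤ dst (a i) ℓ x := (le_max_right _ _).trans (le_max_right _ _)
    exact ⟨by linarith [hy.1], by linarith [hy.2]⟩
  have hvol : volume (⋃ i ∈ F, Ico (a i) (a i + ℓ)) = ENNReal.ofReal (F.card * ℓ) := by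
    rw [measure_biUnion_finset (fun i _ j _ hij => hdisj hij) (fun i _ => measurableSet_Ico)]
    simp only [Real.volume_Ico, add_sub_cancel_left]
    rw [Finset.sum_const, nsmul_eq_mul, ENNReal.ofReal_mul (by positivity), ENNReal.ofReal_natCast]
  have := measure_mono (μ := volume) hsub
  rw [hvol, Real.volume_Icc] at this
  rw [ENNReal.ofReal_le_ofReal_iff (by linarith)] at this
  linarith

/-- tail of the shell constants -/
noncomputable def tailc (m0 : ℕ) : ℝ := ∑' k, cm (k + m0)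

lemma summable_tail (m0 : ℕ) : Summable (fun k => cm (k + m0)) :=
  (summable_nat_add_iff m0).mpr summable_cm

lemma tailc_nonneg (m0 : ℕ) : 0 ≤ tailc m0 := tsum_nonneg fun _ => cm_nonneg _

lemma tendsto_tailc : Tendsto tailc atTop (𝓝 0) := tendsto_sum_nat_add cm

/-- total of the shell constants -/
noncomputable def Cs : ℝ := ∑' k, cm k

lemma Cs_nonneg : 0 ≤ Cs := tsum_nonneg fun _ => cm_nonneg _

/-- The random function. -/
noncomputable def Dfun {ι : Type*} [Fintype ι] (a : ι → ℝ) (ℓ : ℝ) (K : ℕ) [NeZero K]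
    (ψ : ι → Fin K → ℝ) (τ : ι → Fin K) (y : ℝ) : ℝ :=
  ∑ i, cellFn (a i) ℓ K (fun k => ψ i (k + τ i)) y

lemma integrable_Dfun {ι : Type*} [Fintype ι] (a : ι → ℝ) (ℓ : ℝ) (K : ℕ) [NeZero K]
    (ψ : ι → Fin K → ℝ) (τ : ι → Fin K) : Integrable (Dfun a ℓ K ψ τ) mu := by
  unfold Dfun
  exact integrable_finset_sum _ fun i _ => integrable_cellFn _ _ _ _

lemma sum_shift {K : ℕ} [NeZero K] (f : Fin K → ℝ) (j : Fin K) : ∑ k, f (k + j) = ∑ k, f k :=
  Equiv.sum_comp (Equiv.addRight j) f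

lemma sum_shift' {K : ℕ} [NeZero K] (f : Fin K → ℝ) (j : Fin K) : ∑ k, f (j + k) = ∑ k, f k :=
  Equiv.sum_comp (Equiv.addLeft j) f

section pointwise

variable {ι : Type*} [Fintype ι] [DecidableEq ι] {K : ℕ} [NeZero K] {a : ι → ℝ} {ℓ s A x : ℝ}
  {ψ : ι → Fin K → ℝ}

/-- the value of the contribution of one cell -/
noncomputable def Xc (a : ι → ℝ) (ℓ : ℝ) (ψ : ι → Fin K → ℝ) (x : ℝ) (i : ι) (n : ℕ) (j : Fin K) : ℝ :=
  S n (cellFn (a i) ℓ K (fun k => ψ i (k + j))) x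

omit [DecidableEq ι] in
lemma S_Dfun (n : ℕ) (τ : ι → Fin K) :
    S n (Dfun a ℓ K ψ τ) x = ∑ i, Xc a ℓ ψ x i n (τ i) := by
  unfold Dfun
  rw [S_sum n Finset.univ _ (fun i _ => integrable_cellFn _ _ _ _)]
  rfl

omit [Fintype ι] [DecidableEq ι] in
lemma Xc_sum (hψ0 : ∀ i, ∑ k, ψ i k = 0) (i : ι) (n : ℕ) : ∑ j, Xc a ℓ ψ x i n j = 0 := by
  unfold Xc
  simp only [S_cellFn]
  rw [Finset.sum_comm]
  apply Finset.sum_eq_zero
  intro k _
  rw [← Finset.sum_mul, sum_shift' (ψ i) k, hψ0 i, zero_mul]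

omit [DecidableEq ι] in
/-- one shell -/
lemma shell_cells [DecidableEq ι] (hℓ : 0 < ℓ) (hA : 0 < A) (hx : x ∈ Ioo (-1 : ℝ) 1)
    (hdisj : Pairwise (Function.onFun Disjoint fun i => Ico (a i) (a i + ℓ)))
    (hcell : ∀ i, -1 < a i ∧ a i + ℓ < 1)
    (hψ0 : ∀ i, ∑ k, ψ i k = 0) (hψ1 : ∀ i, ∑ k, |ψ i k| ≤ 2 * A * K)
    (m : ℕ) (F : Finset ι) (hF1 : ∀ i ∈ F, 2 ^ m * ℓ < dst (a i) ℓ x)
    (hF2 : ∀ i ∈ F, dst (a i) ℓ x ≤ 2 ^ (m + 1) * ℓ) {W : ℝ} (hW0 : 0 < W)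
    (hW : ∀ i ∈ F, ∀ y ∈ Icc (a i) (a i + ℓ), w y ≤ W) :
    ∃ R : (ι → Fin K) → ℝ, (∀ τ n, |∑ i ∈ F, Xc a ℓ ψ x i n (τ i)| ≤ R τ) ∧
      avg R ≤ (2 * A * (w x * W)) * (cm m * (1 + Real.log K)) := by
  have hK : (0:ℝ) < K := by exact_mod_cast Nat.pos_of_ne_zero (NeZero.ne K)
  have hwx := w_pos hx
  have hcard : (F.card : ℝ) ≤ 8 * 2 ^ m := by
    have h := count_near hℓ hdisj (R := 2 ^ (m + 1) * ℓ) (by positivity) F hF2
    have h1 : (1:ℝ) ≤ 2 ^ m := one_le_pow₀ (by norm_num)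
    have : (F.card : ℝ) * ℓ ≤ (8 * 2 ^ m) * ℓ := by
      refine h.trans ?_
      rw [pow_succ]
      nlinarith
    exact le_of_mul_le_mul_right this hℓ
  have hsum : ∀ i, ∀ j : Fin K, ∑ k, |ψ i (k + j)| ≤ 2 * A * K := by
    intro i j
    rw [sum_shift (fun k => |ψ i k|) j]
    exact hψ1 i
  have hwW : 0 < w x * W := by positivity
  have hδ : (0:ℝ) < 2 ^ m * ℓ := by positivity
  have hdd : ∀ i ∈ F, ∀ y ∈ Icc (a i) (a i + ℓ), 2 ^ m * ℓ ≤ |x - y| :=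
    fun i hi y hy => (hF1 i hi).le.trans (dst_le hy)
  apply shell F m hℓ (by positivity) hcard (Xc a ℓ ψ x)
  · intro i hi n j
    refine (cell_c1 (n := n) (fun k => ψ i (k + j)) hℓ hx (hcell i).1 (hcell i).2 hδ (hdd i hi)
      (hW i hi)).trans ?_
    calc (∑ k, |ψ i (k + j)|) * ((w x * W) * (ℓ / K / (2 ^ m * ℓ)))
        ≤ (2 * A * K) * ((w x * W) * (ℓ / K / (2 ^ m * ℓ))) :=
          mul_le_mul_of_nonneg_right (hsum i j) (by positivity)
      _ = _ := by field_simp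
  · intro i hi n d j
    refine (cell_c2 (n := n) (d := d) (fun k => ψ i (k + j)) hℓ hx (hcell i).1 (hcell i).2
      (hW i hi)).trans ?_
    calc (∑ k, |ψ i (k + j)|) * ((d * (w x * W)) * (ℓ / K))
        ≤ (2 * A * K) * ((d * (w x * W)) * (ℓ / K)) :=
          mul_le_mul_of_nonneg_right (hsum i j) (by positivity)
      _ = _ := by field_simp
  · intro i hi n j
    refine (cell_c3 (n := n) (fun k => ψ i (k + j)) hℓ hx (hcell i).1 (hcell i).2 hδ (hdd i hi)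
      (hW i hi)).trans ?_
    calc (∑ k, |ψ i (k + j)|) * (6 * (w x * W) / ((n + 1) * (2 ^ m * ℓ)))
        ≤ (2 * A * K) * (6 * (w x * W) / ((n + 1) * (2 ^ m * ℓ))) :=
          mul_le_mul_of_nonneg_right (hsum i j) (by positivity)
      _ = _ := by
        rw [← mul_assoc ((n:ℝ) + 1)]
        ring
  · intro i _ n
    exact Xc_sum hψ0 i n

/-- the near cells -/
lemma near_cells (hℓ : 0 < ℓ) (hA : 0 < A) (hx : x ∈ Ioo (-1 : ℝ) 1)
    (hdisj : Pairwise (Function.onFun Disjoint fun i => Ico (a i) (a i + ℓ)))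
    (hcell : ∀ i, -1 < a i ∧ a i + ℓ < 1)
    (hψ1 : ∀ i, ∑ k, |ψ i k| ≤ 2 * A * K)
    (F : Finset ι) (hF2 : ∀ i ∈ F, dst (a i) ℓ x ≤ ℓ) {W : ℝ} (hW0 : 0 < W)
    (hW : ∀ i ∈ F, ∀ y ∈ Icc (a i) (a i + ℓ), w y ≤ W) :
    ∃ R : (ι → Fin K) → ℝ, (∀ τ n, |∑ i ∈ F, Xc a ℓ ψ x i n (τ i)| ≤ R τ) ∧
      avg R ≤ 1344 * (A * (w x * W)) * (1 + Real.log K) := by
  have hKn : 1 ≤ K := Nat.pos_of_ne_zero (NeZero.ne K)
  have hK1 : (1:ℝ) ≤ K := by exact_mod_cast hKn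
  have hK : (0:ℝ) < K := by linarith
  have hlogK : 0 ≤ Real.log K := Real.log_nonneg hK1
  have hwx := w_pos hx
  have hcard : (F.card : ℝ) ≤ 4 := by
    have h := count_near hℓ hdisj (R := ℓ) hℓ.le F hF2
    have : (F.card : ℝ) * ℓ ≤ 4 * ℓ := by linarith
    exact le_of_mul_le_mul_right this hℓ
  set g : ι → ℕ → ℝ := fun i k => (max 1 |(k : ℝ) - (x - a i) / (ℓ / K)|)⁻¹ with hg
  refine ⟨fun τ => ∑ i ∈ F, ∑ k : Fin K, (28 * (w x * W) * g i k) * |ψ i (k + τ i)|, ?_, ?_⟩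
  · intro τ n
    refine (Finset.abs_sum_le_sum_abs _ _).trans ?_
    apply Finset.sum_le_sum
    intro i hi
    refine (cell_near (n := n) (fun k => ψ i (k + τ i)) hℓ hx (hcell i).1 (hcell i).2
      (hW i hi)).trans ?_
    apply Finset.sum_le_sum
    intro k _
    rw [mul_comm]
  · have e1 : ∀ i ∈ F, avg (fun τ : ι → Fin K => ∑ k : Fin K, (28 * (w x * W) * g i k) *
        |ψ i (k + τ i)|) ≤ 336 * (A * (w x * W)) * (1 + Real.log K) := by
      intro i _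
      rw [avg_sum]
      have e2 : ∀ k : Fin K, avg (fun τ : ι → Fin K => (28 * (w x * W) * g i k) * |ψ i (k + τ i)|) ≤
          (56 * (A * (w x * W))) * g i k := by
        intro k
        rw [avg_const_mul, avg_coord i (fun j => |ψ i (k + j)|), sum_shift' (fun j => |ψ i j|) k]
        have h1 : (∑ j, |ψ i j|) / (K:ℝ) ≤ 2 * A := by
          rw [div_le_iff₀ hK]; exact hψ1 i
        have hg0 : 0 ≤ g i k := by rw [hg]; positivity
        calc 28 * (w x * W) * g i k * ((∑ j, |ψ i j|) / (K:ℝ))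
            ≤ 28 * (w x * W) * g i k * (2 * A) := mul_le_mul_of_nonneg_left h1 (by positivity)
          _ = _ := by ring
      calc ∑ k : Fin K, avg (fun τ : ι → Fin K => (28 * (w x * W) * g i k) * |ψ i (k + τ i)|)
          ≤ ∑ k : Fin K, (56 * (A * (w x * W))) * g i k := Finset.sum_le_sum fun k _ => e2 k
        _ = (56 * (A * (w x * W))) * ∑ k : Fin K, g i k := by rw [Finset.mul_sum]
        _ = (56 * (A * (w x * W))) * ∑ k ∈ Finset.range K, g i k := by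
            rw [Fin.sum_univ_eq_sum_range (fun k => g i k) K]
        _ ≤ (56 * (A * (w x * W))) * (6 * (1 + Real.log K)) :=
            mul_le_mul_of_nonneg_left (sum_inv_le K hKn _) (by positivity)
        _ = _ := by ring
    rw [avg_sum]
    calc _ ≤ ∑ i ∈ F, 336 * (A * (w x * W)) * (1 + Real.log K) := Finset.sum_le_sum e1
      _ = F.card * (336 * (A * (w x * W)) * (1 + Real.log K)) := by
          rw [Finset.sum_const, nsmul_eq_mul]
      _ ≤ 4 * (336 * (A * (w x * W)) * (1 + Real.log K)) :=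
          mul_le_mul_of_nonneg_right hcard (by positivity)
      _ = _ := by ring

end pointwise

end Pool.Agent.LegRe
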