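import Pool.Agent.LegRe.Random

/-! The existence of good shifts. -/

namespace Pool.Agent.LegRe

open MeasureTheory Set ENNReal Filter Topology

lemma close_w {a ℓ s x : ℝ} (hℓ : 0 < ℓ) (hx : x ∈ Ioo (-1 : ℝ) 1) (h1 : -1 + s ≤ a)
    (h2 : a + ℓ ≤ 1 - s) (hd : dst a ℓ x + ℓ ≤ s / 4) :
    ∀ y ∈ Icc a (a + ℓ), w y ≤ 2 * w x := by
  intro y hy
  have hs : 0 ≤ s := by have := dst_nonneg a ℓ x; linarith
  have h3 := (le_dst_add (x := x) hy).trans hd
  have h4 := (le_dst_add (x := x) (show a ∈ Icc a (a + ℓ) from ⟨le_rfl, by linarith⟩)).trans hd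
  apply w_le_of_close' hx
  have h5 : |a| ≤ 1 - s := abs_le.mpr ⟨by linarith, by linarith⟩
  have h6 : |x| ≤ |a| + |x - a| := by
    have := abs_sub_abs_le_abs_sub x a; linarith
  linarith

lemma pointwise_random {ι : Type*} [Fintype ι] [DecidableEq ι] {K : ℕ} [NeZero K] {a : ι → ℝ}
    {ℓ s A x : ℝ} {ψ : ι → Fin K → ℝ} (hs : 0 < s) (hs1 : s ≤ 1)
    (hℓ : 0 < ℓ) (hA : 0 < A) (hx : x ∈ Ioo (-1 : ℝ) 1)
    (hdisj : Pairwise (Function.onFun Disjoint fun i => Ico (a i) (a i + ℓ)))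
    (hcell : ∀ i, -1 + s ≤ a i ∧ a i + ℓ ≤ 1 - s)
    (hψ0 : ∀ i, ∑ k, ψ i k = 0) (hψ1 : ∀ i, ∑ k, |ψ i k| ≤ 2 * A * K)
    (m0 : ℕ) (hm0 : (2 ^ m0 + 1) * ℓ ≤ s / 4) :
    ∃ R : (ι → Fin K) → ℝ, (∀ τ n, |S n (Dfun a ℓ K ψ τ) x| ≤ R τ) ∧
      avg R ≤ w x ^ 2 * ((1 + Real.log K) * A * (2688 + 4 * Cs + 2 * w (1 - s) * tailc m0)) := by
  have hKn : 1 ≤ K := Nat.pos_of_ne_zero (NeZero.ne K)
  have hK1 : (1:ℝ) ≤ K := by exact_mod_cast hKn
  have hlogK : 0 ≤ Real.log K := Real.log_nonneg hK1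
  have hwx := w_pos hx
  have hwx1 := one_le_w hx
  have hcell' : ∀ i, -1 < a i ∧ a i + ℓ < 1 := fun i =>
    ⟨by linarith [(hcell i).1], by linarith [(hcell i).2]⟩
  have hWs : 0 < w (1 - s) := w_pos ⟨by linarith, by linarith⟩
  classical
  set lev : ι → ℕ := fun i => Nat.find (lev_exists (a := a i) hℓ x) with hlev
  have hspec : ∀ i, dst (a i) ℓ x ≤ 2 ^ (lev i) * ℓ := fun i =>
    Nat.find_spec (lev_exists (a := a i) hℓ x)
  have hmin : ∀ i m, m < lev i → 2 ^ m * ℓ < dst (a i) ℓ x := by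
    intro i m hm
    have := Nat.find_min (lev_exists (a := a i) hℓ x) hm
    exact lt_of_not_ge this
  set M' : ℕ := Finset.univ.sup lev with hM'
  have hlevM : ∀ i, lev i ≤ M' := fun i => Finset.le_sup (Finset.mem_univ i)
  set Wm : ℕ → ℝ := fun m => if m < m0 then 2 * w x else w (1 - s) with hWm
  set F : ℕ → Finset ι := fun j => Finset.univ.filter (fun i => lev i = j) with hF
  have hWmpos : ∀ m, 0 < Wm m := by
    intro m
    simp only [hWm]
    split_ifs
    · positivity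
    · exact hWs
  have hglob : ∀ i, ∀ y ∈ Icc (a i) (a i + ℓ), w y ≤ w (1 - s) := by
    intro i y hy
    apply w_le_w _ (by linarith)
    exact abs_le.mpr ⟨by linarith [hy.1, (hcell i).1], by linarith [hy.2, (hcell i).2]⟩
  have hpow : ∀ m, m ≤ m0 → (2:ℝ) ^ m ≤ 2 ^ m0 := fun m hm =>
    pow_le_pow_right₀ (by norm_num) hm
  have hshell : ∀ m : ℕ, ∃ R : (ι → Fin K) → ℝ,
      (∀ τ n, |∑ i ∈ F (m + 1), Xc a ℓ ψ x i n (τ i)| ≤ R τ) ∧
      avg R ≤ (2 * A * (w x * Wm m)) * (cm m * (1 + Real.log K)) := by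
    intro m
    apply shell_cells hℓ hA hx hdisj hcell' hψ0 hψ1 m (F (m + 1)) _ _ (hWmpos m)
    · intro i hi
      have hi' : lev i = m + 1 := (Finset.mem_filter.mp hi).2
      simp only [hWm]
      split_ifs with hm
      · apply close_w hℓ hx (hcell i).1 (hcell i).2
        have h1 := hspec i
        rw [hi'] at h1
        have h2 := hpow (m + 1) hm
        have h3 : dst (a i) ℓ x + ℓ ≤ (2 ^ m0 + 1) * ℓ := by nlinarith
        linarith
      · exact hglob i
    · intro i hi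
      have hi' : lev i = m + 1 := (Finset.mem_filter.mp hi).2
      exact hmin i m (by omega)
    · intro i hi
      have hi' : lev i = m + 1 := (Finset.mem_filter.mp hi).2
      have h1 := hspec i
      rwa [hi'] at h1
  choose R hR1 hR2 using hshell
  obtain ⟨R0, hR01, hR02⟩ : ∃ R : (ι → Fin K) → ℝ,
      (∀ τ n, |∑ i ∈ F 0, Xc a ℓ ψ x i n (τ i)| ≤ R τ) ∧
      avg R ≤ 1344 * (A * (w x * (2 * w x))) * (1 + Real.log K) := by
    have hF0 : ∀ i ∈ F 0, dst (a i) ℓ x ≤ ℓ := by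
      intro i hi
      have hi' : lev i = 0 := (Finset.mem_filter.mp hi).2
      have h1 := hspec i
      rw [hi'] at h1
      simpa using h1
    apply near_cells hℓ hA hx hdisj hcell' hψ1 (F 0) hF0 (by positivity)
    intro i hi
    apply close_w hℓ hx (hcell i).1 (hcell i).2
    have h1 := hF0 i hi
    have h2 : (1:ℝ) ≤ 2 ^ m0 := one_le_pow₀ (by norm_num)
    nlinarith
  refine ⟨fun τ => R0 τ + (∑ m ∈ Finset.range m0, R m τ + ∑ k ∈ Finset.range M', R (m0 + k) τ),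
    ?_, ?_⟩
  · intro τ n
    rw [S_Dfun]
    have hsplit : ∑ i, Xc a ℓ ψ x i n (τ i) =
        ∑ j ∈ Finset.range (m0 + M' + 1), ∑ i ∈ F j, Xc a ℓ ψ x i n (τ i) := by
      symm
      apply Finset.sum_fiberwise_of_maps_to
      intro i _
      rw [Finset.mem_range]
      have := hlevM i
      omega
    rw [hsplit, Finset.sum_range_succ', Finset.sum_range_add]
    have t1 := abs_add_le ((∑ m ∈ Finset.range m0, ∑ i ∈ F (m + 1), Xc a ℓ ψ x i n (τ i)) +
      ∑ k ∈ Finset.range M', ∑ i ∈ F (m0 + k + 1), Xc a ℓ ψ x i n (τ i))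
      (∑ i ∈ F 0, Xc a ℓ ψ x i n (τ i))
    have t2 := abs_add_le (∑ m ∈ Finset.range m0, ∑ i ∈ F (m + 1), Xc a ℓ ψ x i n (τ i))
      (∑ k ∈ Finset.range M', ∑ i ∈ F (m0 + k + 1), Xc a ℓ ψ x i n (τ i))
    have t3 : |∑ m ∈ Finset.range m0, ∑ i ∈ F (m + 1), Xc a ℓ ψ x i n (τ i)| ≤
        ∑ m ∈ Finset.range m0, R m τ :=
      (Finset.abs_sum_le_sum_abs _ _).trans (Finset.sum_le_sum fun m _ => hR1 m τ n)
    have t4 : |∑ k ∈ Finset.range M', ∑ i ∈ F (m0 + k + 1), Xc a ℓ ψ x i n (τ i)| ≤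
        ∑ k ∈ Finset.range M', R (m0 + k) τ :=
      (Finset.abs_sum_le_sum_abs _ _).trans (Finset.sum_le_sum fun k _ => hR1 (m0 + k) τ n)
    have t5 := hR01 τ n
    linarith
  · rw [avg_add, avg_add, avg_sum, avg_sum]
    have b1 : ∑ m ∈ Finset.range m0, avg (fun τ => R m τ) ≤
        4 * (A * w x ^ 2) * (1 + Real.log K) * Cs := by
      calc ∑ m ∈ Finset.range m0, avg (fun τ => R m τ)
          ≤ ∑ m ∈ Finset.range m0, (4 * (A * w x ^ 2) * (1 + Real.log K)) * cm m := by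
            apply Finset.sum_le_sum
            intro m hm
            refine (hR2 m).trans (le_of_eq ?_)
            simp only [hWm, if_pos (Finset.mem_range.mp hm)]
            ring
        _ = (4 * (A * w x ^ 2) * (1 + Real.log K)) * ∑ m ∈ Finset.range m0, cm m := by
            rw [Finset.mul_sum]
        _ ≤ _ := by
            apply mul_le_mul_of_nonneg_left _ (by positivity)
            exact summable_cm.sum_le_tsum _ (fun m _ => cm_nonneg m)
    have b2 : ∑ k ∈ Finset.range M', avg (fun τ => R (m0 + k) τ) ≤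
        2 * (A * w x ^ 2) * (1 + Real.log K) * (w (1 - s) * tailc m0) := by
      calc ∑ k ∈ Finset.range M', avg (fun τ => R (m0 + k) τ)
          ≤ ∑ k ∈ Finset.range M', (2 * (A * w x ^ 2) * (1 + Real.log K) * w (1 - s)) *
              cm (k + m0) := by
            apply Finset.sum_le_sum
            intro k _
            refine (hR2 (m0 + k)).trans ?_
            have : ¬ (m0 + k < m0) := by omega
            simp only [hWm, if_neg this]
            rw [add_comm m0 k]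
            have hc := cm_nonneg (k + m0)
            have h1 : 0 ≤ A * w (1 - s) * (cm (k + m0) * (1 + Real.log K)) := by positivity
            have h2 : w x ≤ w x ^ 2 := by nlinarith
            calc 2 * A * (w x * w (1 - s)) * (cm (k + m0) * (1 + Real.log K))
                = w x * (2 * (A * w (1 - s) * (cm (k + m0) * (1 + Real.log K)))) := by ring
              _ ≤ w x ^ 2 * (2 * (A * w (1 - s) * (cm (k + m0) * (1 + Real.log K)))) :=
                  mul_le_mul_of_nonneg_right h2 (by positivity)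
              _ = _ := by ring
        _ = (2 * (A * w x ^ 2) * (1 + Real.log K) * w (1 - s)) *
              ∑ k ∈ Finset.range M', cm (k + m0) := by
            rw [Finset.mul_sum]
        _ ≤ (2 * (A * w x ^ 2) * (1 + Real.log K) * w (1 - s)) * tailc m0 := by
            apply mul_le_mul_of_nonneg_left _ (by positivity)
            exact (summable_tail m0).sum_le_tsum _ (fun m _ => cm_nonneg _)
        _ = _ := by ring
    calc _ ≤ 1344 * (A * (w x * (2 * w x))) * (1 + Real.log K) +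
          (4 * (A * w x ^ 2) * (1 + Real.log K) * Cs +
            2 * (A * w x ^ 2) * (1 + Real.log K) * (w (1 - s) * tailc m0)) := by
          exact add_le_add hR02 (add_le_add b1 b2)
      _ = _ := by ring

/-- constant of the random lemma -/
noncomputable def CR : ℝ := (2688 + 4 * Cs) * Cw

lemma CR_nonneg : 0 ≤ CR := by
  unfold CR
  have := Cs_nonneg
  have := Cw_nonneg
  positivity

theorem random_shifts {s A η : ℝ} (hs : 0 < s) (hs1 : s ≤ 1) (K : ℕ) [NeZero K] (hA : 0 < A)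
    (hη : 0 < η) : ∃ ℓ₀ : ℝ, 0 < ℓ₀ ∧ ∀ ℓ : ℝ, 0 < ℓ → ℓ ≤ ℓ₀ →
      ∀ (ι : Type) [Fintype ι] (a : ι → ℝ) (ψ : ι → Fin K → ℝ),
      (∀ i, -1 + s ≤ a i ∧ a i + ℓ ≤ 1 - s) →
      (Pairwise (Function.onFun Disjoint fun i => Ico (a i) (a i + ℓ))) →
      (∀ i, ∑ k, ψ i k = 0) → (∀ i, ∑ k, |ψ i k| ≤ 2 * A * K) →
      ∃ τ : ι → Fin K, N1 (Dfun a ℓ K ψ τ) ≤
        ENNReal.ofReal (CR * (A * (1 + Real.log K)) + η) := by
  have hKn : 1 ≤ K := Nat.pos_of_ne_zero (NeZero.ne K)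
  have hK1 : (1:ℝ) ≤ K := by exact_mod_cast hKn
  have hlogK : 0 ≤ Real.log K := Real.log_nonneg hK1
  have hCw := Cw_nonneg
  have hCs := Cs_nonneg
  have hw := w_nonneg (1 - s)
  set Q : ℝ := (1 + Real.log K) * A * (2 * w (1 - s)) * Cw with hQ
  have hQ0 : 0 ≤ Q := by positivity
  obtain ⟨m0, hm0⟩ : ∃ m0, tailc m0 < η / (Q + 1) :=
    (tendsto_tailc.eventually (gt_mem_nhds (by positivity : 0 < η / (Q + 1)))).exists
  have hmQ : Q * tailc m0 ≤ η := by
    have h1 : tailc m0 * (Q + 1) < η := (lt_div_iff₀ (by positivity)).mp hm0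
    have h2 := tailc_nonneg m0
    nlinarith
  refine ⟨s / 4 / (2 ^ m0 + 1), by positivity, ?_⟩
  intro ℓ hℓ hℓ0 ι _ a ψ hcell hdisj hψ0 hψ1
  classical
  have hm : (2 ^ m0 + 1) * ℓ ≤ s / 4 := by
    rw [le_div_iff₀ (by positivity)] at hℓ0
    linarith
  set T : ℝ := (1 + Real.log K) * A * (2688 + 4 * Cs + 2 * w (1 - s) * tailc m0) with hT
  have hT0 : 0 ≤ T := by have := tailc_nonneg m0; positivity
  -- pointwise bound of the sum
  have hpt : ∀ x ∈ Ioo (-1 : ℝ) 1, ∑ τ : ι → Fin K, ⨆ n, ‖S n (Dfun a ℓ K ψ τ) x‖ₑ ≤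
      ENNReal.ofReal ((Nat.card (ι → Fin K) : ℝ) * T) * ENNReal.ofReal (w x ^ 2) := by
    intro x hx
    obtain ⟨R, hR1, hR2⟩ := pointwise_random hs hs1 hℓ hA hx hdisj hcell hψ0 hψ1 m0 hm
    have hR0 : ∀ τ, 0 ≤ R τ := fun τ => (abs_nonneg _).trans (hR1 τ 0)
    calc ∑ τ : ι → Fin K, ⨆ n, ‖S n (Dfun a ℓ K ψ τ) x‖ₑ
        ≤ ∑ τ : ι → Fin K, ENNReal.ofReal (R τ) := by
          apply Finset.sum_le_sum
          intro τ _
          apply iSup_le
          intro n
          rw [← ofReal_norm_eq_enorm]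
          exact ENNReal.ofReal_le_ofReal (hR1 τ n)
      _ = ENNReal.ofReal (∑ τ, R τ) := (ENNReal.ofReal_sum_of_nonneg fun τ _ => hR0 τ).symm
      _ ≤ ENNReal.ofReal (((Nat.card (ι → Fin K) : ℝ) * T) * w x ^ 2) := by
          apply ENNReal.ofReal_le_ofReal
          rw [avg_eq, div_le_iff₀ card_pos'] at hR2
          refine hR2.trans (le_of_eq ?_)
          rw [hT]; ring
      _ = _ := by rw [ENNReal.ofReal_mul (by positivity)]
  have hsum : ∑ τ : ι → Fin K, N1 (Dfun a ℓ K ψ τ) ≤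
      ∑ _τ : ι → Fin K, ENNReal.ofReal (T * Cw) := by
    unfold N1
    rw [← lintegral_finset_sum _ (fun τ _ => measurable_max (integrable_Dfun a ℓ K ψ τ))]
    calc ∫⁻ x, ∑ τ : ι → Fin K, ⨆ n, ‖S n (Dfun a ℓ K ψ τ) x‖ₑ ∂mu
        ≤ ∫⁻ x, ENNReal.ofReal ((Nat.card (ι → Fin K) : ℝ) * T) * ENNReal.ofReal (w x ^ 2) ∂mu := by
          apply lintegral_mono_ae
          filter_upwards [ae_Ioo] with x hx
          exact hpt x hx
      _ = ENNReal.ofReal ((Nat.card (ι → Fin K) : ℝ) * T) * ∫⁻ x, ENNReal.ofReal (w x ^ 2) ∂mu :=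
          lintegral_const_mul' _ _ ENNReal.ofReal_ne_top
      _ ≤ ENNReal.ofReal ((Nat.card (ι → Fin K) : ℝ) * T) * ENNReal.ofReal Cw :=
          mul_le_mul_right lintegral_w_sq _
      _ = _ := by
          rw [← ENNReal.ofReal_mul (by positivity), Finset.sum_const, nsmul_eq_mul,
            Finset.card_univ, ← Nat.card_eq_fintype_card, ← ENNReal.ofReal_natCast,
            ← ENNReal.ofReal_mul (by positivity)]
          congr 1; ring
  obtain ⟨τ, hτ⟩ : ∃ τ : ι → Fin K, N1 (Dfun a ℓ K ψ τ) ≤ ENNReal.ofReal (T * Cw) := by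
    by_contra hcon
    push Not at hcon
    have := ENNReal.sum_lt_sum_of_nonempty (s := (Finset.univ : Finset (ι → Fin K)))
      Finset.univ_nonempty (fun τ _ => hcon τ)
    exact absurd hsum (not_le.mpr this)
  refine ⟨τ, hτ.trans (ENNReal.ofReal_le_ofReal ?_)⟩
  have : T * Cw = CR * (A * (1 + Real.log K)) + Q * tailc m0 := by
    rw [hT, hQ, CR]; ring
  rw [this]
  linarith

end Pool.Agent.LegRe
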