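import Pool.Agent.LegRe.RefineCore
import Pool.Agent.LegRe.MeasIso

/-! Refinement and sorting of level sets (helper76). -/

set_option autoImplicit false

namespace Pool.Agent.LegRe

open MeasureTheory Set ENNReal Filter Topology

/-- division points -/
noncomputable def gpt (a b : ℝ) (M j : ℕ) : ℝ := a + j * ((b - a) / M)

/-- cells -/
noncomputable def cell (a b : ℝ) (M j : ℕ) : Set ℝ := Ico (gpt a b M j) (gpt a b M (j + 1))

/-- pieces of the layout -/
noncomputable def lay (a b : ℝ) (h : ℝ → ℤ) (M j : ℕ) (k : ℤ) : Set ℝ :=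
  Ico (cum (gpt a b M j) (gpt a b M (j + 1)) h k) (cum (gpt a b M j) (gpt a b M (j + 1)) h (k + 1))

section

variable {a b : ℝ} {M : ℕ}

lemma gpt_zero (a b : ℝ) (M : ℕ) : gpt a b M 0 = a := by simp [gpt]

lemma gpt_last (a b : ℝ) {M : ℕ} (hM : 0 < M) : gpt a b M M = b := by
  unfold gpt
  have : (M : ℝ) ≠ 0 := by exact_mod_cast hM.ne'
  field_simp; ring

lemma gpt_mono (hab : a < b) (M : ℕ) : Monotone (gpt a b M) := by
  intro i j hij
  unfold gpt
  have h1 : (i : ℝ) ≤ j := by exact_mod_cast hij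
  have h2 : 0 ≤ (b - a) / M := div_nonneg (by linarith) (Nat.cast_nonneg M)
  gcongr

lemma gpt_ge (hab : a < b) (M j : ℕ) : a ≤ gpt a b M j := by
  have h := gpt_mono hab M (Nat.zero_le j)
  rwa [gpt_zero] at h

lemma gpt_le (hab : a < b) (hM : 0 < M) {j : ℕ} (hj : j ≤ M) : gpt a b M j ≤ b := by
  have h := gpt_mono hab M hj
  rwa [gpt_last a b hM] at h

lemma cell_subset (hab : a < b) (hM : 0 < M) {j : ℕ} (hj : j < M) : cell a b M j ⊆ Ico a b := by
  intro x hx
  exact ⟨(gpt_ge hab M j).trans hx.1, hx.2.trans_le (gpt_le hab hM hj)⟩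

lemma exists_cell (hM : 0 < M) {x : ℝ} (hx : x ∈ Ico a b) :
    ∃ j : ℕ, j < M ∧ x ∈ cell a b M j := by
  by_contra hcon
  push Not at hcon
  have h1 : ∀ j : ℕ, j ≤ M → gpt a b M j ≤ x := by
    intro j
    induction j with
    | zero => intro _; rw [gpt_zero]; exact hx.1
    | succ j ih =>
      intro hj
      by_contra h2
      exact hcon j (by omega) ⟨ih (by omega), not_le.1 h2⟩
  have := h1 M le_rfl
  rw [gpt_last a b hM] at this
  exact absurd hx.2 (not_lt.2 this)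

lemma cell_disjoint (hab : a < b) {i j : ℕ} (hij : i ≠ j) :
    Disjoint (cell a b M i) (cell a b M j) := by
  rcases lt_or_gt_of_ne hij with h1 | h1
  · refine disjoint_left.2 (fun x hx hx' => ?_)
    have := gpt_mono hab M (show i + 1 ≤ j by omega)
    exact absurd hx.2 (not_lt.2 (this.trans hx'.1))
  · refine disjoint_left.2 (fun x hx hx' => ?_)
    have := gpt_mono hab M (show j + 1 ≤ i by omega)
    exact absurd hx'.2 (not_lt.2 (this.trans hx.1))

/-- the layout map -/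
theorem exists_layout (ha : -1 ≤ a) (hab : a < b) (hb : b ≤ 1) {h : ℝ → ℤ} (hh : Measurable h)
    {N : ℤ} (hN : ∀ᵐ x ∂mu, x ∈ Ico a b → -N ≤ h x ∧ h x ≤ N) (hM : 0 < M) :
    ∃ e : ℝ → ℝ, Iso e ∧ (∀ᵐ x ∂mu, x ∉ Ico a b → e x = x) ∧
      (∀ᵐ x ∂mu, x ∈ Ico a b → e x ∈ Ico a b) ∧
      (∀ j : ℕ, j < M → ∀ k : ℤ, ∀ᵐ x ∂mu, x ∈ lay a b h M j k → h (e x) = k) ∧
      (∀ j : ℕ, j < M → ∀ c : ℤ, mu {x | x ∈ cell a b M j ∧ e x ≠ x}
        ≤ 2 * mu (cell a b M j ∩ {x | h x ≠ c})) := by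
  have hNj : ∀ j : ℕ, j < M → ∀ᵐ x ∂mu, x ∈ Ico (gpt a b M j) (gpt a b M (j + 1)) →
      -N ≤ h x ∧ h x ≤ N := by
    intro j hj
    filter_upwards [hN] with x hx hx2
    exact hx (cell_subset hab hM hj hx2)
  have hs : ∀ j : ℕ, -1 ≤ gpt a b M j := fun j => ha.trans (gpt_ge hab M j)
  have ht : ∀ j : ℕ, j < M → gpt a b M (j + 1) ≤ 1 := fun j hj => (gpt_le hab hM hj).trans hb
  have hst : ∀ j : ℕ, gpt a b M j ≤ gpt a b M (j + 1) := fun j => gpt_mono hab M (Nat.le_succ j)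
  let A : Fin M × ℤ → Set ℝ := fun i => lay a b h M i.1 i.2
  let B : Fin M × ℤ → Set ℝ := fun i => cell a b M i.1 ∩ {x | h x = i.2}
  have hAU : ⋃ i, A i = Ico a b := by
    ext x
    rw [mem_iUnion]
    constructor
    · rintro ⟨i, hi⟩
      exact cell_subset hab hM i.1.2 (piece_subset (hs _) (hst _) (ht _ i.1.2) _ hi)
    · intro hx
      obtain ⟨j, hj, hxj⟩ := exists_cell (a := a) (b := b) hM hx
      obtain ⟨k, -, -, hk⟩ := exists_piece (hs j) (hst j) (ht j hj) (hNj j hj) hxj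
      exact ⟨(⟨j, hj⟩, k), hk⟩
  have hBU : ⋃ i, B i = Ico a b := by
    ext x
    rw [mem_iUnion]
    constructor
    · rintro ⟨i, hi⟩
      exact cell_subset hab hM i.1.2 hi.1
    · intro hx
      obtain ⟨j, hj, hxj⟩ := exists_cell (a := a) (b := b) hM hx
      exact ⟨(⟨j, hj⟩, h x), hxj, rfl⟩
  obtain ⟨e, he, heB, hefix, hout⟩ := exists_iso_of_partition A B
    (fun i => measurableSet_Ico) (fun i => measurableSet_Ico.inter (measurableSet_eq_lev hh _))
    (by
      rintro ⟨i, k⟩ ⟨j, l⟩ hne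
      show Disjoint (lay a b h M i k) (lay a b h M j l)
      by_cases hij : i = j
      · subst hij
        exact piece_disjoint (fun hkl => hne (by rw [hkl]))
      · exact (cell_disjoint (M := M) hab (fun h1 => hij (Fin.ext h1))).mono
          (piece_subset (hs _) (hst _) (ht _ i.2) _) (piece_subset (hs _) (hst _) (ht _ j.2) _))
    (by
      rintro ⟨i, k⟩ ⟨j, l⟩ hne
      show Disjoint (cell a b M i ∩ {x | h x = k}) (cell a b M j ∩ {x | h x = l})
      by_cases hij : i = j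
      · subst hij
        refine disjoint_left.2 (fun x hx hx' => hne ?_)
        have h1 : h x = k := hx.2
        have h2 : h x = l := hx'.2
        rw [← h1, ← h2]
      · exact (cell_disjoint (M := M) hab (fun h1 => hij (Fin.ext h1))).mono
          inter_subset_left inter_subset_left)
    (fun i => mu_piece hh (hs _) (hst _) (ht _ i.1.2) _) (hAU.trans hBU.symm)
  rw [hAU] at hout
  refine ⟨e, he, hout, ?_, ?_, ?_⟩
  · have h1 : ∀ᵐ x ∂mu, ∀ i, x ∈ A i → e x ∈ B i := ae_all_iff.2 heB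
    filter_upwards [h1] with x hx hxab
    rw [← hAU, mem_iUnion] at hxab
    obtain ⟨i, hi⟩ := hxab
    exact cell_subset hab hM i.1.2 (hx i hi).1
  · intro j hj k
    filter_upwards [heB (⟨j, hj⟩, k)] with x hx hxl
    exact (hx hxl).2
  · intro j hj c
    have h1 : mu {x | x ∈ cell a b M j ∧ e x ≠ x}
        ≤ mu ((cell a b M j \ lay a b h M j c) ∪ (cell a b M j ∩ {x | h x ≠ c})) := by
      refine measure_mono_ae ?_
      filter_upwards [hefix (⟨j, hj⟩, c)] with x hx hx2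
      by_cases h2 : x ∈ lay a b h M j c
      · right
        refine ⟨hx2.1, fun h3 => ?_⟩
        exact hx2.2 (hx h2 ⟨hx2.1, h3⟩)
      · left
        exact ⟨hx2.1, h2⟩
    have hsub : lay a b h M j c ⊆ cell a b M j := piece_subset (hs _) (hst _) (ht _ hj) _
    have h2 : mu (cell a b M j \ lay a b h M j c) = mu (cell a b M j ∩ {x | h x ≠ c}) := by
      rw [measure_sdiff hsub measurableSet_Ico.nullMeasurableSet (mu_ne_top _)]
      have h3 : mu (lay a b h M j c) = mu (cell a b M j ∩ {x | h x = c}) :=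
        mu_piece hh (hs _) (hst _) (ht _ hj) _
      have h4 : cell a b M j ∩ {x | h x ≠ c} = cell a b M j \ (cell a b M j ∩ {x | h x = c}) := by
        ext x
        constructor
        · rintro ⟨h5, h6⟩
          exact ⟨h5, fun h7 => h6 h7.2⟩
        · rintro ⟨h5, h6⟩
          exact ⟨h5, fun h7 => h6 ⟨h5, h7⟩⟩
      have h5 : MeasurableSet (cell a b M j ∩ {x | h x = c}) :=
        measurableSet_Ico.inter (measurableSet_eq_lev hh _)
      rw [h4, measure_sdiff inter_subset_left h5.nullMeasurableSet (mu_ne_top _), h3]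
    calc mu {x | x ∈ cell a b M j ∧ e x ≠ x} ≤ _ := h1
      _ ≤ mu (cell a b M j \ lay a b h M j c) + mu (cell a b M j ∩ {x | h x ≠ c}) :=
          measure_union_le _ _
      _ = _ := by rw [h2, two_mul]

lemma lay_disjoint (ha : -1 ≤ a) (hab : a < b) (hb : b ≤ 1) (h : ℝ → ℤ) (hM : 0 < M) {i j : ℕ}
    (hi : i < M) (hj : j < M) {k l : ℤ} (hne : i ≠ j ∨ k ≠ l) :
    Disjoint (lay a b h M i k) (lay a b h M j l) := by
  have hs : ∀ j : ℕ, -1 ≤ gpt a b M j := fun j => ha.trans (gpt_ge hab M j)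
  have ht : ∀ j : ℕ, j < M → gpt a b M (j + 1) ≤ 1 := fun j hj => (gpt_le hab hM hj).trans hb
  have hst : ∀ j : ℕ, gpt a b M j ≤ gpt a b M (j + 1) := fun j => gpt_mono hab M (Nat.le_succ j)
  by_cases hij : i = j
  · subst hij
    exact piece_disjoint (hne.resolve_left (fun h => h rfl))
  · exact (cell_disjoint (M := M) hab hij).mono
      (piece_subset (hs _) (hst _) (ht _ hi) _) (piece_subset (hs _) (hst _) (ht _ hj) _)

/-- finitely many pieces cover `[a,b)` -/
lemma exists_pieces (ha : -1 ≤ a) (hab : a < b) (hb : b ≤ 1) {h : ℝ → ℤ}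
    {N : ℤ} (hN : ∀ᵐ x ∂mu, x ∈ Ico a b → -N ≤ h x ∧ h x ≤ N) (hM : 0 < M) :
    ∃ (n : ℕ) (J : Fin n → ℕ) (k : Fin n → ℤ), (∀ i, J i < M) ∧
      (Pairwise (Function.onFun Disjoint fun i => lay a b h M (J i) (k i))) ∧
      (⋃ i, lay a b h M (J i) (k i)) = Ico a b := by
  have hNj : ∀ j : ℕ, j < M → ∀ᵐ x ∂mu, x ∈ Ico (gpt a b M j) (gpt a b M (j + 1)) →
      -N ≤ h x ∧ h x ≤ N := by
    intro j hj
    filter_upwards [hN] with x hx hx2
    exact hx (cell_subset hab hM hj hx2)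
  have hs : ∀ j : ℕ, -1 ≤ gpt a b M j := fun j => ha.trans (gpt_ge hab M j)
  have ht : ∀ j : ℕ, j < M → gpt a b M (j + 1) ≤ 1 := fun j hj => (gpt_le hab hM hj).trans hb
  have hst : ∀ j : ℕ, gpt a b M j ≤ gpt a b M (j + 1) := fun j => gpt_mono hab M (Nat.le_succ j)
  set n' := (2 * N + 1).toNat with hn'
  let σ : Fin (M * n') ≃ Fin M × Fin n' := finProdFinEquiv.symm
  refine ⟨M * n', fun i => (σ i).1, fun i => -N + ((σ i).2 : ℕ), fun i => (σ i).1.2, ?_, ?_⟩
  · intro i i' hii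
    refine lay_disjoint ha hab hb h hM (σ i).1.2 (σ i').1.2 ?_
    by_contra hcon
    push Not at hcon
    apply hii
    apply σ.injective
    refine Prod.ext (Fin.ext hcon.1) (Fin.ext ?_)
    have := hcon.2
    omega
  · ext x
    rw [mem_iUnion]
    constructor
    · rintro ⟨i, hi⟩
      exact cell_subset hab hM (σ i).1.2 (piece_subset (hs _) (hst _) (ht _ (σ i).1.2) _ hi)
    · intro hx
      obtain ⟨j, hj, hxj⟩ := exists_cell (a := a) (b := b) hM hx
      obtain ⟨k, hk1, hk2, hk⟩ := exists_piece (hs j) (hst j) (ht j hj) (hNj j hj) hxj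
      have hkn : (k + N).toNat < n' := by omega
      refine ⟨σ.symm (⟨j, hj⟩, ⟨(k + N).toNat, hkn⟩), ?_⟩
      simp only [Equiv.apply_symm_apply]
      have : -N + (((k + N).toNat : ℕ) : ℤ) = k := by omega
      rw [this]
      exact hk

end

/-- the level function -/
noncomputable def lev (F : ℝ → ℝ) (c δ : ℝ) (x : ℝ) : ℤ := ⌊(F x - c) / δ⌋

lemma measurable_lev {F : ℝ → ℝ} (hF : Measurable F) (c δ : ℝ) : Measurable (lev F c δ) :=
  Int.measurable_floor.comp ((hF.sub_const c).div_const δ)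

lemma lev_eq_iff {F : ℝ → ℝ} {c δ : ℝ} (hδ : 0 < δ) {x : ℝ} {k : ℤ} (h : lev F c δ x = k) :
    c + k * δ ≤ F x ∧ F x < c + (k + 1) * δ := by
  obtain ⟨h1, h2⟩ := Int.floor_eq_iff.1 h
  rw [le_div_iff₀ hδ] at h1
  rw [div_lt_iff₀ hδ] at h2
  constructor <;> linarith

lemma lev_bound {F : ℝ → ℝ} {c δ B : ℝ} (hδ : 0 < δ) {x : ℝ} (h : |F x| ≤ B) :
    -(⌈(|B| + |c|) / δ⌉) ≤ lev F c δ x ∧ lev F c δ x ≤ ⌈(|B| + |c|) / δ⌉ := by
  have h0 := abs_le.1 h
  have hB := le_abs_self B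
  have hc := abs_le.1 (le_refl |c|)
  have h1 : (F x - c) / δ ≤ (|B| + |c|) / δ := by
    gcongr; linarith
  have h2 : -((|B| + |c|) / δ) ≤ (F x - c) / δ := by
    rw [← neg_div]; gcongr; linarith
  have h3 := Int.le_ceil ((|B| + |c|) / δ)
  constructor
  · rw [lev, Int.le_floor]
    push_cast
    linarith
  · have h4 : lev F c δ x ≤ ⌊(|B| + |c|) / δ⌋ := Int.floor_le_floor h1
    exact h4.trans (Int.floor_le_ceil _)

/-- Sorting `[a,b)` by levels. -/
theorem exists_sort {a b : ℝ} (ha : -1 ≤ a) (hab : a < b) (hb : b ≤ 1) {F : ℝ → ℝ}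
    (hF : Measurable F) {B : ℝ} (hB : ∀ᵐ x ∂mu, x ∈ Ico a b → |F x| ≤ B) (c : ℝ) {δ : ℝ}
    (hδ : 0 < δ) :
    ∃ e : ℝ → ℝ, Iso e ∧ (∀ᵐ x ∂mu, x ∉ Ico a b → e x = x) ∧
      (∀ᵐ x ∂mu, x ∈ Ico a b → e x ∈ Ico a b) ∧
      ∃ (n : ℕ) (p q : Fin n → ℝ) (k : Fin n → ℤ), (∀ i, p i ≤ q i) ∧
        (Pairwise (Function.onFun Disjoint fun i => Ico (p i) (q i))) ∧
        (⋃ i, Ico (p i) (q i)) = Ico a b ∧
        (∀ i j, ∀ x ∈ Ico (p i) (q i), ∀ y ∈ Ico (p j) (q j), x ≤ y → k i ≤ k j) ∧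
        ∀ i, ∀ᵐ x ∂mu, x ∈ Ico (p i) (q i) → c + k i * δ ≤ F (e x) ∧ F (e x) < c + (k i + 1) * δ := by
  have hN : ∀ᵐ x ∂mu, x ∈ Ico a b → -(⌈(|B| + |c|) / δ⌉) ≤ lev F c δ x ∧
      lev F c δ x ≤ ⌈(|B| + |c|) / δ⌉ := by
    filter_upwards [hB] with x hx hx2
    exact lev_bound hδ (hx hx2)
  obtain ⟨e, he, h1, h2, h3, -⟩ := exists_layout ha hab hb (measurable_lev hF c δ) hN one_pos
  obtain ⟨n, J, k, hJ, hd, hU⟩ := exists_pieces ha hab hb hN one_pos
  refine ⟨e, he, h1, h2, n,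
    fun i => cum (gpt a b 1 (J i)) (gpt a b 1 (J i + 1)) (lev F c δ) (k i),
    fun i => cum (gpt a b 1 (J i)) (gpt a b 1 (J i + 1)) (lev F c δ) (k i + 1), k,
    fun i => cum_mono _ _ _ (by omega), hd, hU, ?_, ?_⟩
  · intro i j x hx y hy hxy
    by_contra hcon
    push Not at hcon
    have hJi : J i = 0 := by have := hJ i; omega
    have hJj : J j = 0 := by have := hJ j; omega
    simp only [hJi] at hx
    simp only [hJj] at hy
    have := cum_mono (gpt a b 1 0) (gpt a b 1 (0 + 1)) (lev F c δ) (show k j + 1 ≤ k i by omega)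
    linarith [hx.1, hy.2]
  · intro i
    filter_upwards [h3 (J i) (hJ i) (k i)] with x hx hx2
    exact lev_eq_iff hδ (hx hx2)

/-- approximation of the level function by a step function on equal cells -/
lemma exists_step {a b : ℝ} (hab : a < b) {h : ℝ → ℤ} (hh : Measurable h)
    {N : ℤ} (hN : ∀ᵐ x ∂mu, x ∈ Ico a b → -N ≤ h x ∧ h x ≤ N) {η : ℝ} (hη : 0 < η) :
    ∃ (M : ℕ) (cc : ℕ → ℤ), 0 < M ∧
      ∑ j ∈ Finset.range M, mu (cell a b M j ∩ {x | h x ≠ cc j}) ≤ ENNReal.ofReal η := by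
  have : IsFiniteMeasure mu := ⟨(mu_ne_top univ).lt_top⟩
  set H : ℝ → ℝ := (Ico a b).indicator (fun x => (h x : ℝ)) with hH
  have hHm : Measurable H := (measurable_from_top.comp hh).indicator measurableSet_Ico
  have hHi : Integrable H mu := by
    refine Integrable.of_bound hHm.aestronglyMeasurable (|(N : ℝ)|) ?_
    filter_upwards [hN] with x hx
    rw [hH]
    by_cases hxab : x ∈ Ico a b
    · rw [indicator_of_mem hxab, Real.norm_eq_abs]
      obtain ⟨h1, h2⟩ := hx hxab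
      have h3 : (-N : ℝ) ≤ h x := by exact_mod_cast h1
      have h4 : (h x : ℝ) ≤ N := by exact_mod_cast h2
      have h5 := le_abs_self (N : ℝ)
      exact abs_le.2 ⟨by linarith, by linarith⟩
    · rw [indicator_of_notMem hxab, norm_zero]; positivity
  obtain ⟨G, hGc, hGint, hGcont, hGi⟩ := hHi.exists_hasCompactSupport_integral_sub_le
    (show 0 < η / 4 by positivity)
  have hGu : UniformContinuous G := hGc.uniformContinuous_of_continuous hGcont
  obtain ⟨ρ, hρ, hGρ⟩ := Metric.uniformContinuous_iff.1 hGu (1 / 4) (by norm_num)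
  obtain ⟨M, hM⟩ := exists_nat_gt ((b - a) / ρ)
  have hM0 : 0 < M := by
    have : 0 < (b - a) / ρ := div_pos (by linarith) hρ
    have : (0 : ℝ) < M := this.trans hM
    exact_mod_cast this
  have hMr : (0 : ℝ) < M := by exact_mod_cast hM0
  refine ⟨M, fun j => round (G (gpt a b M j)), hM0, ?_⟩
  have hsub : (⋃ j ∈ Finset.range M, (cell a b M j ∩ {x | h x ≠ round (G (gpt a b M j))}))
      ⊆ {x | 1 / 4 ≤ ‖H x - G x‖} := by
    intro x hx
    simp only [mem_iUnion, Finset.mem_range] at hx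
    obtain ⟨j, hj, hxc, hxh⟩ := hx
    have hxab := cell_subset hab hM0 hj hxc
    show 1 / 4 ≤ ‖H x - G x‖
    rw [hH, indicator_of_mem hxab, Real.norm_eq_abs]
    have h1 : |G x - G (gpt a b M j)| < 1 / 4 := by
      have := hGρ (a := x) (b := gpt a b M j) (by
        rw [Real.dist_eq, abs_of_nonneg (by linarith [hxc.1])]
        have h2 : gpt a b M (j + 1) - gpt a b M j = (b - a) / M := by
          unfold gpt; push_cast; ring
        have h3 : (b - a) / M < ρ := by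
          rw [div_lt_iff₀ hMr]
          rw [div_lt_iff₀ hρ] at hM
          linarith
        linarith [hxc.2])
      rwa [Real.dist_eq] at this
    have h4 := abs_sub_round (G (gpt a b M j))
    have h5 : (1 : ℝ) ≤ |(h x : ℝ) - round (G (gpt a b M j))| := by
      have h6 : (1 : ℤ) ≤ |h x - round (G (gpt a b M j))| :=
        Int.one_le_abs (sub_ne_zero.2 hxh)
      exact_mod_cast h6
    have h7 : |(h x : ℝ) - round (G (gpt a b M j))| ≤ |(h x : ℝ) - G x|
        + |G x - G (gpt a b M j)| + |G (gpt a b M j) - round (G (gpt a b M j))| := by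
      have e : (h x : ℝ) - round (G (gpt a b M j)) = ((h x : ℝ) - G x)
        + (G x - G (gpt a b M j)) + (G (gpt a b M j) - round (G (gpt a b M j))) := by ring
      rw [e]
      exact (abs_add_le _ _).trans (by gcongr; exact abs_add_le _ _)
    linarith
  have hmk := mul_meas_ge_le_integral_of_nonneg (μ := mu) (f := fun x => ‖H x - G x‖)
    (Eventually.of_forall (fun x => norm_nonneg _)) ((hHi.sub hGi).norm) (1 / 4)
  have hreal : mu.real {x | 1 / 4 ≤ ‖H x - G x‖} ≤ η := by linarith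
  have hdisj : ∑ j ∈ Finset.range M, mu (cell a b M j ∩ {x | h x ≠ round (G (gpt a b M j))})
      = mu (⋃ j ∈ Finset.range M, (cell a b M j ∩ {x | h x ≠ round (G (gpt a b M j))})) := by
    rw [measure_biUnion_finset]
    · intro i _ j _ hij
      exact (cell_disjoint (M := M) hab hij).mono inter_subset_left inter_subset_left
    · intro j _
      exact measurableSet_Ico.inter (measurableSet_eq_lev hh _).compl
  rw [hdisj]
  refine (measure_mono hsub).trans ?_
  rw [← ENNReal.ofReal_toReal (mu_ne_top {x | 1 / 4 ≤ ‖H x - G x‖})]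
  exact ENNReal.ofReal_le_ofReal hreal

/-- Refinement: inside `[a,b)`, moving little mass, the function becomes nearly a step function. -/
theorem exists_refine {a b : ℝ} (ha : -1 ≤ a) (hab : a < b) (hb : b ≤ 1) {F : ℝ → ℝ}
    (hF : Measurable F) {B : ℝ} (hB : ∀ᵐ x ∂mu, x ∈ Ico a b → |F x| ≤ B) (c : ℝ) {δ ε : ℝ}
    (hδ : 0 < δ) (hε : 0 < ε) :
    ∃ e : ℝ → ℝ, Iso e ∧ (∀ᵐ x ∂mu, x ∉ Ico a b → e x = x) ∧
      (∀ᵐ x ∂mu, x ∈ Ico a b → e x ∈ Ico a b) ∧ mu {x | e x ≠ x} ≤ ENNReal.ofReal ε ∧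
      ∃ (n : ℕ) (p q : Fin n → ℝ) (k : Fin n → ℤ), (∀ i, p i ≤ q i) ∧
        (Pairwise (Function.onFun Disjoint fun i => Ico (p i) (q i))) ∧
        (⋃ i, Ico (p i) (q i)) = Ico a b ∧
        ∀ i, ∀ᵐ x ∂mu, x ∈ Ico (p i) (q i) →
          c + k i * δ ≤ F (e x) ∧ F (e x) < c + (k i + 1) * δ := by
  have hN : ∀ᵐ x ∂mu, x ∈ Ico a b → -(⌈(|B| + |c|) / δ⌉) ≤ lev F c δ x ∧
      lev F c δ x ≤ ⌈(|B| + |c|) / δ⌉ := by
    filter_upwards [hB] with x hx hx2
    exact lev_bound hδ (hx hx2)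
  have hh := measurable_lev hF c δ
  obtain ⟨M, cc, hM, hsum⟩ := exists_step hab hh hN (show 0 < ε / 2 by positivity)
  obtain ⟨e, he, h1, h2, h3, h4⟩ := exists_layout ha hab hb hh hN hM
  obtain ⟨n, J, k, hJ, hd, hU⟩ := exists_pieces ha hab hb hN hM
  refine ⟨e, he, h1, h2, ?_, n,
    fun i => cum (gpt a b M (J i)) (gpt a b M (J i + 1)) (lev F c δ) (k i),
    fun i => cum (gpt a b M (J i)) (gpt a b M (J i + 1)) (lev F c δ) (k i + 1), k,
    fun i => cum_mono _ _ _ (by omega), hd, hU, ?_⟩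
  · have hle : mu {x | e x ≠ x} ≤ mu (⋃ j ∈ Finset.range M, {x | x ∈ cell a b M j ∧ e x ≠ x}) := by
      refine measure_mono_ae ?_
      filter_upwards [h1] with x hx hx2
      have hxab : x ∈ Ico a b := by
        by_contra hcon
        exact hx2 (hx hcon)
      obtain ⟨j, hj, hxj⟩ := exists_cell (a := a) (b := b) hM hxab
      show x ∈ ⋃ j ∈ Finset.range M, {x | x ∈ cell a b M j ∧ e x ≠ x}
      simp only [mem_iUnion, Finset.mem_range]
      exact ⟨j, hj, hxj, hx2⟩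
    calc mu {x | e x ≠ x} ≤ _ := hle
      _ ≤ ∑ j ∈ Finset.range M, mu {x | x ∈ cell a b M j ∧ e x ≠ x} :=
          measure_biUnion_finset_le _ _
      _ ≤ ∑ j ∈ Finset.range M, 2 * mu (cell a b M j ∩ {x | lev F c δ x ≠ cc j}) :=
          Finset.sum_le_sum (fun j hj => h4 j (Finset.mem_range.1 hj) (cc j))
      _ = 2 * ∑ j ∈ Finset.range M, mu (cell a b M j ∩ {x | lev F c δ x ≠ cc j}) := by
          rw [Finset.mul_sum]
      _ ≤ 2 * ENNReal.ofReal (ε / 2) := by gcongr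
      _ = ENNReal.ofReal ε := by
          rw [show (2 : ℝ≥0∞) = ENNReal.ofReal 2 by simp, ← ENNReal.ofReal_mul (by norm_num)]
          congr 1; ring
  · intro i
    filter_upwards [h3 (J i) (hJ i) (k i)] with x hx hx2
    exact lev_eq_iff hδ (hx hx2)

end Pool.Agent.LegRe
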