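import Pool.Agent.LegRe.IsoDefs

/-! Laying out the level sets of an integer valued function as intervals (helper76). -/

set_option autoImplicit false

namespace Pool.Agent.LegRe

open MeasureTheory Set ENNReal Filter Topology

/-- cumulative position of the level `k` in the cell `[s,t)` -/
noncomputable def cum (s t : ℝ) (h : ℝ → ℤ) (k : ℤ) : ℝ :=
  s + (mu (Ico s t ∩ {x | h x < k})).toReal

lemma mu_ne_top (A : Set ℝ) : mu A ≠ ∞ := by
  unfold mu
  refine ((measure_mono (subset_univ A)).trans_lt ?_).ne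
  simp

lemma mu_Ico {s t : ℝ} (hs : -1 ≤ s) (ht : t ≤ 1) : mu (Ico s t) = ENNReal.ofReal (t - s) := by
  unfold mu
  rw [Measure.restrict_apply measurableSet_Ico, inter_eq_left.2, Real.volume_Ico]
  exact fun x hx => ⟨hs.trans hx.1, hx.2.le.trans ht⟩

lemma measurableSet_lt_lev {h : ℝ → ℤ} (hh : Measurable h) (k : ℤ) : MeasurableSet {x | h x < k} :=
  hh (MeasurableSet.of_discrete (s := {m : ℤ | m < k}))

lemma measurableSet_eq_lev {h : ℝ → ℤ} (hh : Measurable h) (k : ℤ) : MeasurableSet {x | h x = k} :=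
  hh (MeasurableSet.of_discrete (s := {m : ℤ | m = k}))

section

variable {s t : ℝ} {h : ℝ → ℤ} {N : ℤ}

lemma cum_mono (s t : ℝ) (h : ℝ → ℤ) : Monotone (cum s t h) := by
  intro k l hkl
  unfold cum
  have h1 : mu (Ico s t ∩ {x | h x < k}) ≤ mu (Ico s t ∩ {x | h x < l}) :=
    measure_mono (inter_subset_inter_right _ (fun x hx => lt_of_lt_of_le hx hkl))
  have := ENNReal.toReal_mono (mu_ne_top _) h1
  linarith

lemma cum_low (hN : ∀ᵐ x ∂mu, x ∈ Ico s t → -N ≤ h x ∧ h x ≤ N) {k : ℤ} (hk : k ≤ -N) :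
    cum s t h k = s := by
  unfold cum
  have : mu (Ico s t ∩ {x | h x < k}) = 0 := by
    refine measure_mono_null ?_ hN
    intro x hx hcon
    have := (hcon hx.1).1
    have h2 : h x < k := hx.2
    omega
  rw [this]; simp

lemma cum_high (hs : -1 ≤ s) (hst : s ≤ t) (ht : t ≤ 1)
    (hN : ∀ᵐ x ∂mu, x ∈ Ico s t → -N ≤ h x ∧ h x ≤ N) {k : ℤ} (hk : N < k) :
    cum s t h k = t := by
  unfold cum
  have : mu (Ico s t ∩ {x | h x < k}) = mu (Ico s t) := by
    refine measure_congr ?_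
    filter_upwards [hN] with x hx
    refine propext ⟨fun h1 => h1.1, fun h1 => ⟨h1, ?_⟩⟩
    have := (hx h1).2
    show h x < k
    omega
  rw [this, mu_Ico hs ht, ENNReal.toReal_ofReal (by linarith)]
  ring

lemma cum_ge (k : ℤ) : s ≤ cum s t h k := by
  unfold cum
  have := ENNReal.toReal_nonneg (a := mu (Ico s t ∩ {x | h x < k}))
  linarith

lemma cum_le (hs : -1 ≤ s) (hst : s ≤ t) (ht : t ≤ 1) (k : ℤ) : cum s t h k ≤ t := by
  unfold cum
  have h1 : mu (Ico s t ∩ {x | h x < k}) ≤ mu (Ico s t) := measure_mono inter_subset_left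
  have h2 := ENNReal.toReal_mono (mu_ne_top _) h1
  rw [mu_Ico hs ht, ENNReal.toReal_ofReal (by linarith)] at h2
  linarith

lemma mu_piece (hh : Measurable h) (hs : -1 ≤ s) (hst : s ≤ t) (ht : t ≤ 1) (k : ℤ) :
    mu (Ico (cum s t h k) (cum s t h (k + 1))) = mu (Ico s t ∩ {x | h x = k}) := by
  have h0 : s ≤ cum s t h k := by
    unfold cum
    have := ENNReal.toReal_nonneg (a := mu (Ico s t ∩ {x | h x < k}))
    linarith
  rw [mu_Ico (hs.trans h0) ((cum_le hs hst ht _).trans ht)]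
  have hsplit : mu (Ico s t ∩ {x | h x < k + 1})
      = mu (Ico s t ∩ {x | h x < k}) + mu (Ico s t ∩ {x | h x = k}) := by
    rw [← measure_union]
    · congr 1
      ext x
      simp only [mem_inter_iff, mem_ofPred_eq, mem_union]
      constructor
      · rintro ⟨h1, h2⟩
        rcases lt_or_eq_of_le (Int.lt_add_one_iff.1 h2) with h3 | h3
        · exact Or.inl ⟨h1, h3⟩
        · exact Or.inr ⟨h1, h3⟩
      · rintro (⟨h1, h2⟩ | ⟨h1, h2⟩)
        · exact ⟨h1, by omega⟩
        · exact ⟨h1, by omega⟩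
    · refine disjoint_left.2 (fun x hx hx' => ?_)
      have h1 : h x < k := hx.2
      have h2 : h x = k := hx'.2
      omega
    · exact measurableSet_Ico.inter (measurableSet_eq_lev hh k)
  unfold cum
  rw [hsplit, ENNReal.toReal_add (mu_ne_top _) (mu_ne_top _)]
  have : s + ((mu (Ico s t ∩ {x | h x < k})).toReal + (mu (Ico s t ∩ {x | h x = k})).toReal)
      - (s + (mu (Ico s t ∩ {x | h x < k})).toReal) = (mu (Ico s t ∩ {x | h x = k})).toReal := by
    ring
  rw [this, ENNReal.ofReal_toReal (mu_ne_top _)]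

lemma piece_subset (hs : -1 ≤ s) (hst : s ≤ t) (ht : t ≤ 1) (k : ℤ) :
    Ico (cum s t h k) (cum s t h (k + 1)) ⊆ Ico s t := by
  intro x hx
  refine ⟨?_, hx.2.trans_le (cum_le hs hst ht _)⟩
  refine le_trans ?_ hx.1
  unfold cum
  have := ENNReal.toReal_nonneg (a := mu (Ico s t ∩ {x | h x < k}))
  linarith

/-- every point of the cell lies in a piece with label in `[-N, N]` -/
lemma exists_piece (hs : -1 ≤ s) (hst : s ≤ t) (ht : t ≤ 1)
    (hN : ∀ᵐ x ∂mu, x ∈ Ico s t → -N ≤ h x ∧ h x ≤ N) {x : ℝ} (hx : x ∈ Ico s t) :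
    ∃ k : ℤ, -N ≤ k ∧ k ≤ N ∧ x ∈ Ico (cum s t h k) (cum s t h (k + 1)) := by
  -- largest `k ≤ N` with `cum k ≤ x`
  have hlow : cum s t h (-N) ≤ x := by rw [cum_low hN le_rfl]; exact hx.1
  have hbdd : ∀ k : ℤ, cum s t h k ≤ x → k ≤ N := by
    intro k hk
    by_contra hcon
    push Not at hcon
    rw [cum_high hs hst ht hN hcon] at hk
    exact absurd hx.2 (not_lt.2 hk)
  obtain ⟨k, hk, hmax⟩ := Int.exists_greatest_of_bdd (P := fun k => cum s t h k ≤ x) ⟨N, hbdd⟩
    ⟨-N, hlow⟩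
  refine ⟨k, hmax _ hlow, hbdd k hk, hk, ?_⟩
  by_contra hcon
  push Not at hcon
  have := hmax (k + 1) hcon
  omega

lemma piece_disjoint {k l : ℤ} (hkl : k ≠ l) :
    Disjoint (Ico (cum s t h k) (cum s t h (k + 1))) (Ico (cum s t h l) (cum s t h (l + 1))) := by
  rcases lt_or_gt_of_ne hkl with h1 | h1
  · refine disjoint_left.2 (fun x hx hx' => ?_)
    have := cum_mono s t h (show k + 1 ≤ l by omega)
    exact absurd hx.2 (not_lt.2 (this.trans hx'.1))
  · refine disjoint_left.2 (fun x hx hx' => ?_)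
    have := cum_mono s t h (show l + 1 ≤ k by omega)
    exact absurd hx'.2 (not_lt.2 (this.trans hx.1))

end

end Pool.Agent.LegRe
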