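import Pool.Agent.LegRe.Step

/-! One round of the construction. -/

namespace Pool.Agent.LegRe

open MeasureTheory Set ENNReal Filter Topology

lemma High.congr {F G F' G' : ℝ → ℝ} {m acc : ℝ} {T : Set ℝ} (h : High F G m acc T)
    (hF : ∀ᵐ x ∂mu, x ∈ T → F' x = F x) (hG : ∀ x ∈ T, G' x = G x) : High F' G' m acc T := by
  obtain ⟨ι, i1, a, b, v, x1, x2, x3, x4, x5, x6⟩ := h
  refine ⟨ι, i1, a, b, v, x1, x2, x3, x4, ?_, ?_⟩
  · intro i x hx
    rw [hG x (by rw [← x3]; exact mem_iUnion.mpr ⟨i, hx⟩)]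
    exact x5 i x hx
  · intro i
    filter_upwards [x6 i, hF] with x h1 h2 hx
    rw [h2 (by rw [← x3]; exact mem_iUnion.mpr ⟨i, hx⟩)]
    exact h1 hx

lemma High.union {F G : ℝ → ℝ} {m acc : ℝ} {T1 T2 : Set ℝ} (h1 : High F G m acc T1)
    (h2 : High F G m acc T2) (hd : Disjoint T1 T2) : High F G m acc (T1 ∪ T2) := by
  obtain ⟨ι, i1, a, b, v, x1, x2, x3, x4, x5, x6⟩ := h1
  obtain ⟨ι', i1', a', b', v', y1, y2, y3, y4, y5, y6⟩ := h2
  refine ⟨ι ⊕ ι', inferInstance, Sum.elim a a', Sum.elim b b', Sum.elim v v', ?_, ?_, ?_, ?_, ?_, ?_⟩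
  · rintro (i | i)
    exacts [x1 i, y1 i]
  · rintro (i | i) (j | j) hne
    · exact x2 (fun h => hne (by rw [h]))
    · apply hd.mono
      · rw [← x3]; exact subset_iUnion (fun i => Ico (a i) (b i)) i
      · rw [← y3]; exact subset_iUnion (fun i => Ico (a' i) (b' i)) j
    · apply hd.symm.mono
      · rw [← y3]; exact subset_iUnion (fun i => Ico (a' i) (b' i)) i
      · rw [← x3]; exact subset_iUnion (fun i => Ico (a i) (b i)) j
    · exact y2 (fun h => hne (by rw [h]))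
  · rw [iUnion_sum]
    simp only [Sum.elim_inl, Sum.elim_inr]
    rw [x3, y3]
  · rintro (i | i)
    exacts [x4 i, y4 i]
  · rintro (i | i)
    exacts [x5 i, y5 i]
  · rintro (i | i)
    exacts [x6 i, y6 i]

lemma High.mono_acc {F G : ℝ → ℝ} {m acc acc' : ℝ} {T : Set ℝ} (h : High F G m acc T)
    (hle : acc ≤ acc') : High F G m acc' T := by
  obtain ⟨ι, i1, a, b, v, x1, x2, x3, x4, x5, x6⟩ := h
  refine ⟨ι, i1, a, b, v, x1, x2, x3, x4, x5, ?_⟩
  intro i
  filter_upwards [x6 i] with x h1 hx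
  exact ⟨(h1 hx).1, by linarith [(h1 hx).2]⟩

lemma High.of_Ico {F G : ℝ → ℝ} {m acc a b v : ℝ} (hab : a ≤ b) (hm : m ≤ v)
    (hG : ∀ x ∈ Ico a b, G x = v) (hF : ∀ᵐ x ∂mu, x ∈ Ico a b → v ≤ F x ∧ F x ≤ v + acc) :
    High F G m acc (Ico a b) :=
  ⟨Unit, inferInstance, fun _ => a, fun _ => b, fun _ => v, fun _ => hab,
    fun i j h => absurd (Subsingleton.elim i j) h, iUnion_const _, fun _ => hm, fun _ => hG,
    fun _ => hF⟩

lemma High.empty (F G : ℝ → ℝ) (m acc : ℝ) : High F G m acc ∅ :=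
  ⟨Empty, inferInstance, fun i => i.elim, fun i => i.elim, fun i => i.elim, fun i => i.elim,
    fun i => i.elim, by simp, fun i => i.elim, fun i => i.elim, fun i => i.elim⟩

/-- union over a finite family -/
lemma High.iUnion_Ico {F G : ℝ → ℝ} {m acc : ℝ} {ι : Type} [Fintype ι] (p q v : ι → ℝ)
    (hpq : ∀ i, p i ≤ q i) (hd : Pairwise (Function.onFun Disjoint fun i => Ico (p i) (q i)))
    (hm : ∀ i, m ≤ v i) (hG : ∀ i, ∀ x ∈ Ico (p i) (q i), G x = v i)
    (hF : ∀ i, ∀ᵐ x ∂mu, x ∈ Ico (p i) (q i) → v i ≤ F x ∧ F x ≤ v i + acc) :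
    High F G m acc (⋃ i, Ico (p i) (q i)) :=
  ⟨ι, inferInstance, p, q, v, hpq, hd, rfl, hm, hG, hF⟩

/-- rounding towards `0` of the label -/
noncomputable def val (δ : ℝ) (k : ℤ) : ℝ := if 0 ≤ k then k * δ else (k + 1) * δ

lemma val_mono {δ : ℝ} (hδ : 0 < δ) {k k' : ℤ} (h : k ≤ k') : val δ k ≤ val δ k' := by
  unfold val
  have hr : (k : ℝ) ≤ k' := by exact_mod_cast h
  split_ifs with h1 h2 h2
  · exact mul_le_mul_of_nonneg_right hr hδ.le
  · omega
  · have a1 : (k : ℝ) + 1 ≤ 0 := by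
      have : k + 1 ≤ 0 := by omega
      exact_mod_cast this
    have a2 : (0:ℝ) ≤ k' := by exact_mod_cast h2
    nlinarith
  · nlinarith

lemma val_nonneg {δ : ℝ} (hδ : 0 < δ) {k : ℤ} (h : 0 ≤ k) : 0 ≤ val δ k := by
  unfold val
  rw [if_pos h]
  have : (0:ℝ) ≤ k := by exact_mod_cast h
  positivity

lemma val_nonpos {δ : ℝ} (hδ : 0 < δ) {k : ℤ} (h : k < 0) : val δ k ≤ 0 := by
  unfold val
  rw [if_neg (not_le.mpr h)]
  have : (k : ℝ) + 1 ≤ 0 := by
    have : k + 1 ≤ 0 := by omega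
    exact_mod_cast this
  nlinarith

/-- the step function with labels `k` -/
noncomputable def stepF {n : ℕ} (p q : Fin n → ℝ) (δ : ℝ) (k : Fin n → ℤ) (x : ℝ) : ℝ :=
  ∑ r, val δ (k r) * ind (p r) (q r) x

lemma stepF_on {n : ℕ} {p q : Fin n → ℝ} {δ : ℝ} {k : Fin n → ℤ}
    (hd : Pairwise (Function.onFun Disjoint fun i => Ico (p i) (q i))) (i : Fin n) {x : ℝ}
    (hx : x ∈ Ico (p i) (q i)) : stepF p q δ k x = val δ (k i) := by
  unfold stepF
  rw [Finset.sum_eq_single i]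
  · simp [ind, indicator_of_mem hx]
  · intro j _ hj
    have : x ∉ Ico (p j) (q j) := Set.disjoint_left.mp (hd hj.symm) hx
    simp [ind, indicator_of_notMem this]
  · intro h; exact absurd (Finset.mem_univ i) h

lemma stepF_off {n : ℕ} {p q : Fin n → ℝ} {δ : ℝ} {k : Fin n → ℤ} {x : ℝ}
    (hx : x ∉ ⋃ i, Ico (p i) (q i)) : stepF p q δ k x = 0 := by
  unfold stepF
  apply Finset.sum_eq_zero
  intro j _
  have : x ∉ Ico (p j) (q j) := fun h => hx (mem_iUnion.mpr ⟨j, h⟩)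
  simp [ind, indicator_of_notMem this]

lemma integrable_stepF {n : ℕ} (p q : Fin n → ℝ) (δ : ℝ) (k : Fin n → ℤ) :
    Integrable (stepF p q δ k) mu :=
  integrable_finset_sum _ fun r _ => (integrable_ind _ _).const_mul _

/-- Rounding a labelled family towards `m`. -/
lemma round_family {F G : ℝ → ℝ} {m δ : ℝ} (hδ : 0 < δ) {n : ℕ} {p q : Fin n → ℝ} {k : Fin n → ℤ}
    (hpq : ∀ i, p i ≤ q i) (hd : Pairwise (Function.onFun Disjoint fun i => Ico (p i) (q i)))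
    (hG : ∀ i, ∀ x ∈ Ico (p i) (q i), G x = m + val δ (k i))
    (hF : ∀ i, ∀ᵐ x ∂mu, x ∈ Ico (p i) (q i) → m + k i * δ ≤ F x ∧ F x < m + (k i + 1) * δ) :
    ∃ T1 T2 : Set ℝ, Disjoint T1 T2 ∧ T1 ∪ T2 = ⋃ i, Ico (p i) (q i) ∧
      High F G m δ T1 ∧ Low F G m δ T2 := by
  let I1 : Type := {i : Fin n // 0 ≤ k i}
  let I2 : Type := {i : Fin n // k i < 0}
  refine ⟨⋃ i : I1, Ico (p i.1) (q i.1), ⋃ i : I2, Ico (p i.1) (q i.1), ?_, ?_, ?_, ?_⟩
  · rw [Set.disjoint_left]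
    intro x h1 h2
    obtain ⟨i, hi⟩ := mem_iUnion.mp h1
    obtain ⟨j, hj⟩ := mem_iUnion.mp h2
    have hne : i.1 ≠ j.1 := by
      intro h
      have a1 := i.2
      have a2 := j.2
      rw [h] at a1
      omega
    exact Set.disjoint_left.mp (hd hne) hi hj
  · ext x
    simp only [mem_union, mem_iUnion]
    constructor
    · rintro (⟨i, hi⟩ | ⟨i, hi⟩)
      · exact ⟨i.1, hi⟩
      · exact ⟨i.1, hi⟩
    · rintro ⟨i, hi⟩
      rcases le_or_gt 0 (k i) with h | h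
      · exact Or.inl ⟨⟨i, h⟩, hi⟩
      · exact Or.inr ⟨⟨i, h⟩, hi⟩
  · apply High.iUnion_Ico (fun i : I1 => p i.1) (fun i : I1 => q i.1)
      (fun i : I1 => m + val δ (k i.1)) (fun i => hpq i.1)
      (fun i j hne => hd (fun h => hne (Subtype.ext h)))
    · intro i
      have := val_nonneg hδ i.2
      linarith
    · intro i x hx
      exact hG i.1 x hx
    · intro i
      filter_upwards [hF i.1] with x hx hxm
      obtain ⟨h1, h2⟩ := hx hxm
      have e : val δ (k i.1) = k i.1 * δ := by unfold val; rw [if_pos i.2]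
      rw [e]
      constructor <;> linarith
  · apply High.iUnion_Ico (fun i : I2 => p i.1) (fun i : I2 => q i.1)
      (fun i : I2 => -(m + val δ (k i.1))) (fun i => hpq i.1)
      (fun i j hne => hd (fun h => hne (Subtype.ext h)))
    · intro i
      have := val_nonpos hδ i.2
      linarith
    · intro i x hx
      rw [hG i.1 x hx]
    · intro i
      filter_upwards [hF i.1] with x hx hxm
      obtain ⟨h1, h2⟩ := hx hxm
      have e : val δ (k i.1) = (k i.1 + 1) * δ := by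
        unfold val; rw [if_neg (not_le.mpr i.2)]
      rw [e]
      constructor <;> linarith

/-- Sorting a block: the final treatment of `U`. -/
lemma sort_block {u0 u1 m δ B C θ : ℝ} (hu0 : 0 ≤ u0) (hu : u0 < u1) (hu1 : u1 ≤ 1 / 2)
    (hδ : 0 < δ) (hB0 : |m| ≤ B) (hC : 0 ≤ C) (hθ : 0 ≤ θ)
    (hΦ : ∀ c d : ℝ, 0 ≤ c → c ≤ d → d ≤ 1 / 2 → N (ind c d) ≤ ENNReal.ofReal (C * (d - c) ^ θ))
    {F G : ℝ → ℝ} (hFm : Measurable F) (hB : ∀ᵐ x ∂mu, x ∈ Ico u0 u1 → |F x| ≤ B)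
    (hG : ∀ x ∈ Ico u0 u1, G x = m) :
    ∃ (e D : ℝ → ℝ) (T1 T2 : Set ℝ), Iso e ∧ (∀ᵐ x ∂mu, x ∉ Ico u0 u1 → e x = x) ∧
      Disjoint T1 T2 ∧ T1 ∪ T2 = Ico u0 u1 ∧ (∀ x, x ∉ Ico u0 u1 → D x = 0) ∧ Integrable D mu ∧
      High (fun x => F (e x)) (fun x => G x + D x) m δ T1 ∧
      Low (fun x => F (e x)) (fun x => G x + D x) m δ T2 ∧
      N D ≤ ENNReal.ofReal (4 * (2 * B) * (C * (u1 - u0) ^ θ)) := by
  obtain ⟨e, he, heoff, hein, n, p, q, k, hpq, hd, hU, hmono, hF⟩ :=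
    exists_sort (by linarith) hu (by linarith) hFm hB m hδ
  set D : ℝ → ℝ := stepF p q δ k with hD
  have hDon : ∀ i, ∀ x ∈ Ico (p i) (q i), D x = val δ (k i) := fun i x hx => stepF_on hd i hx
  have hDoff : ∀ x, x ∉ Ico u0 u1 → D x = 0 := by
    intro x hx
    apply stepF_off
    rw [hU]; exact hx
  have hsub : ∀ i, Ico (p i) (q i) ⊆ Ico u0 u1 := by
    intro i; rw [← hU]; exact subset_iUnion (fun i => Ico (p i) (q i)) i
  obtain ⟨T1, T2, h1, h2, h3, h4⟩ := round_family (F := fun x => F (e x))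
    (G := fun x => G x + D x) (m := m) hδ hpq hd
    (by
      intro i x hx
      rw [hG x (hsub i hx), hDon i x hx]) hF
  refine ⟨e, D, T1, T2, he, heoff, h1, h2.trans hU, hDoff, integrable_stepF _ _ _ _, h3, h4, ?_⟩
  have hm1 := (abs_le.mp hB0).1
  have hm2 := (abs_le.mp hB0).2
  have hBnn : 0 ≤ B := (abs_nonneg m).trans hB0
  have hbd : ∀ y ∈ Ico u0 u1, |D y| ≤ 2 * B := by
    intro y hy
    rw [← hU] at hy
    obtain ⟨i, hi⟩ := mem_iUnion.mp hy
    rw [hDon i y hi]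
    have hlt : p i < q i := by linarith [hi.1, hi.2]
    have hb1 := (Ico_subset_Ico_iff hlt).mp (hsub i)
    have hcomb : ∀ᵐ x ∂mu, x ∈ Ico (p i) (q i) →
        (m + k i * δ ≤ F (e x) ∧ F (e x) < m + (k i + 1) * δ) ∧ |F (e x)| ≤ B := by
      filter_upwards [hF i, he.ae hB, hein] with x a1 a2 a3 hx
      exact ⟨a1 hx, a2 (a3 (hsub i hx))⟩
    obtain ⟨x, hx, ⟨h1, h2⟩, h3⟩ := exists_of_ae (by linarith [hb1.1]) hlt (by linarith [hb1.2]) hcomb
    have h4 := abs_le.mp h3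
    rcases le_or_gt 0 (k i) with hk | hk
    · rw [abs_of_nonneg (val_nonneg hδ hk)]
      unfold val; rw [if_pos hk]
      linarith [h4.2]
    · rw [abs_of_nonpos (val_nonpos hδ hk)]
      unfold val; rw [if_neg (not_le.mpr hk)]
      linarith [h4.1]
  have hmonoD : MonotoneOn D (Ico u0 u1) := by
    intro x hx y hy hxy
    have hx' := hx
    have hy' := hy
    rw [← hU] at hx' hy'
    obtain ⟨i, hi⟩ := mem_iUnion.mp hx'
    obtain ⟨j, hj⟩ := mem_iUnion.mp hy'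
    rw [hDon i x hi, hDon j y hj]
    exact val_mono hδ (hmono i j x hi y hj hxy)
  have hind : (Ico u0 u1).indicator D = D := by
    funext x
    by_cases hx : x ∈ Ico u0 u1
    · rw [indicator_of_mem hx]
    · rw [indicator_of_notMem hx, hDoff x hx]
  have := N_mono hC hθ hΦ hu0 hu.le hu1 (by positivity : 0 ≤ 2 * B) hmonoD hbd
  rwa [hind] at this

end Pool.Agent.LegRe
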