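import Pool.Agent.LegRe.Round

/-! One round of the construction: the state. -/

namespace Pool.Agent.LegRe

open MeasureTheory Set ENNReal Filter Topology

/-- active region -/
def act (s c cinf : ℝ) : Set ℝ := Ico (-1 + s) c ∪ Ico cinf (1 - s)

/-- the two end zones -/
def zone (s : ℝ) : Set ℝ := Ico (-1) (-1 + s) ∪ Ico (1 - s) 1

/-- the annulus between two end zones -/
def ann (s s' : ℝ) : Set ℝ := Ico (-1 + s') (-1 + s) ∪ Ico (1 - s) (1 - s')

lemma measurableSet_act (s c cinf : ℝ) : MeasurableSet (act s c cinf) :=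
  measurableSet_Ico.union measurableSet_Ico

/-- the state before a round -/
structure State (F0 F G : ℝ → ℝ) (m s c cinf v A B : ℝ) (Hi Lo : Set ℝ) : Prop where
  mF : Measurable F
  hi : High F G m A Hi
  lo : Low F G m A Lo
  dj : Disjoint Hi Lo
  un : Hi ∪ Lo = act s c cinf
  gz : ∀ x ∈ zone s, G x = v
  gm : ∀ x ∈ Ico c cinf, G x = m
  ff : ∀ᵐ x ∂mu, x ∉ act s c cinf → F x = F0 x
  fb : ∀ᵐ x ∂mu, x ∈ act s c cinf → |F x| ≤ B

lemma act_succ {s s' c c' cinf : ℝ} (hs' : s' ≤ s) (hs1 : s ≤ 1 / 4) (hc0 : 0 ≤ c) (hcc : c ≤ c')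
    (hci : c' ≤ cinf) (hcinf : cinf ≤ 1 / 2) :
    act s' c' cinf = (act s c cinf ∪ ann s s') ∪ Ico c c' := by
  unfold act ann
  ext x
  simp only [mem_union, mem_Ico]
  constructor
  · rintro (⟨h1, h2⟩ | ⟨h1, h2⟩)
    · rcases lt_or_ge x (-1 + s) with h | h
      · exact Or.inl (Or.inr (Or.inl ⟨h1, h⟩))
      · rcases lt_or_ge x c with h' | h'
        · exact Or.inl (Or.inl (Or.inl ⟨h, h'⟩))
        · exact Or.inr ⟨h', h2⟩
    · rcases lt_or_ge x (1 - s) with h | h
      · exact Or.inl (Or.inl (Or.inr ⟨h1, h⟩))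
      · exact Or.inl (Or.inr (Or.inr ⟨h, h2⟩))
  · rintro (((⟨h1, h2⟩ | ⟨h1, h2⟩) | (⟨h1, h2⟩ | ⟨h1, h2⟩)) | ⟨h1, h2⟩)
    · exact Or.inl ⟨by linarith, by linarith⟩
    · exact Or.inr ⟨by linarith, by linarith⟩
    · exact Or.inl ⟨by linarith, by linarith⟩
    · exact Or.inr ⟨by linarith, by linarith⟩
    · exact Or.inl ⟨by linarith, by linarith⟩

theorem round_step {F0 F G : ℝ → ℝ} {m γ s s' c c' cinf v v' A A' B C θ η : ℝ} {Hi Lo : Set ℝ}
    (K : ℕ) [NeZero K] (hs' : 0 < s') (hss : s' ≤ s) (hs1 : s ≤ 1 / 4) (hc0 : 0 ≤ c) (hcc : c < c')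
    (hci : c' ≤ cinf) (hcinf : cinf ≤ 1 / 2) (hA : 0 < A) (hA' : 0 < A') (hγ : 0 < γ)
    (hAγ : 2 * A ≤ γ) (hη : 0 < η) (hv : m ≤ v) (hvv : |v' - v| ≤ A)
    (hmB : |m| + γ ≤ B) (hvB : v + A ≤ B) (hKA : 4 * (A + 2 * B) / A' ≤ K)
    (hz : ∀ᵐ x ∂mu, x ∈ zone s → v ≤ F0 x ∧ F0 x ≤ v + A)
    (hblk : ∀ᵐ x ∂mu, x ∈ Ico c c' → |F0 x| ≤ B)
    (hr1 : ENNReal.ofReal (3 * A / γ) ≤ mu (Ico c c' ∩ {x | F0 x < m - γ}))
    (hr2 : ENNReal.ofReal (3 * A / γ) ≤ mu (Ico c c' ∩ {x | m + γ < F0 x}))
    (hC : 0 ≤ C) (hθ : 0 ≤ θ)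
    (hΦ : ∀ c d : ℝ, 0 ≤ c → c ≤ d → d ≤ 1 / 2 → N (ind c d) ≤ ENNReal.ofReal (C * (d - c) ^ θ))
    (st : State F0 F G m s c cinf v A B Hi Lo) :
    ∃ (e D : ℝ → ℝ) (Hi' Lo' : Set ℝ), Iso e ∧ Integrable D mu ∧
      State F0 (fun x => F (e x)) (fun x => G x + D x) m s' c' cinf v' A' B Hi' Lo' ∧
      mu {x | e x ≠ x} ≤ ENNReal.ofReal (7 * (c' - c) + 2 * η) ∧
      N D ≤ ENNReal.ofReal (2 * (CR * (A * (1 + Real.log K)) + 4 * A + η) +
        4 * (2 * B) * (C * (c' - c) ^ θ) + 2 * (A * Cu)) := by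
  obtain ⟨mF, hi, lo, dj, un, gz, gm, ff, fb⟩ := st
  have hm1 := neg_abs_le m
  have hm2 := le_abs_self m
  have hm0 := abs_nonneg m
  have hCR := CR_nonneg
  have hCu := Cu_nonneg
  have hK1 : (1:ℝ) ≤ K := by exact_mod_cast Nat.pos_of_ne_zero (NeZero.ne K)
  have hlogK : 0 ≤ Real.log K := Real.log_nonneg hK1
  have hB0 : 0 ≤ B := by linarith
  -- geometry
  have hHiact : Hi ⊆ act s c cinf := by rw [← un]; exact subset_union_left
  have hLoact : Lo ⊆ act s c cinf := by rw [← un]; exact subset_union_right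
  have hactbd : ∀ x ∈ act s c cinf, -1 + s ≤ x ∧ x < 1 - s ∧ (x < c ∨ cinf ≤ x) := by
    rintro x (⟨h1, h2⟩ | ⟨h1, h2⟩)
    · exact ⟨h1, by linarith, Or.inl h2⟩
    · exact ⟨by linarith, h2, Or.inr h1⟩
  have hannbd : ∀ x ∈ ann s s', (-1 + s' ≤ x ∧ x < -1 + s) ∨ (1 - s ≤ x ∧ x < 1 - s') := by
    rintro x (⟨h1, h2⟩ | ⟨h1, h2⟩)
    · exact Or.inl ⟨h1, h2⟩
    · exact Or.inr ⟨h1, h2⟩
  have hact_ann : Disjoint (act s c cinf) (ann s s') := by
    rw [Set.disjoint_left]
    intro x h1 h2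
    obtain ⟨a1, a2, _⟩ := hactbd x h1
    rcases hannbd x h2 with ⟨b1, b2⟩ | ⟨b1, b2⟩ <;> linarith
  have hact_U : Disjoint (act s c cinf) (Ico c c') := by
    rw [Set.disjoint_left]
    intro x h1 h2
    obtain ⟨a1, a2, a3⟩ := hactbd x h1
    rcases a3 with h | h
    · linarith [h2.1]
    · linarith [h2.2]
  have hann_U : Disjoint (ann s s') (Ico c c') := by
    rw [Set.disjoint_left]
    intro x h1 h2
    rcases hannbd x h1 with ⟨b1, b2⟩ | ⟨b1, b2⟩
    · linarith [h2.1]
    · linarith [h2.2]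
  have hann_zone : ann s s' ⊆ zone s := by
    rintro x hx
    rcases hannbd x hx with ⟨b1, b2⟩ | ⟨b1, b2⟩
    · exact Or.inl ⟨by linarith, b2⟩
    · exact Or.inr ⟨b1, by linarith⟩
  have hzone_act : Disjoint (zone s) (act s c cinf) := by
    rw [Set.disjoint_left]
    intro x h1 h2
    obtain ⟨a1, a2, _⟩ := hactbd x h2
    rcases h1 with ⟨b1, b2⟩ | ⟨b1, b2⟩ <;> linarith
  have hzone_U : Disjoint (zone s) (Ico c c') := by
    rw [Set.disjoint_left]
    intro x h1 h2
    rcases h1 with ⟨b1, b2⟩ | ⟨b1, b2⟩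
    · linarith [h2.1]
    · linarith [h2.2]
  have hmeasU : MeasurableSet (Ico c c') := measurableSet_Ico
  have hmeasact := measurableSet_act s c cinf
  -- values off the active region
  have hFann : ∀ᵐ x ∂mu, x ∈ ann s s' → v ≤ F x ∧ F x ≤ v + A := by
    filter_upwards [ff, hz] with x h1 h2 hx
    rw [h1 (Set.disjoint_right.mp hact_ann hx)]
    exact h2 (hann_zone hx)
  have hFU : ∀ᵐ x ∂mu, x ∈ Ico c c' → F x = F0 x := by
    filter_upwards [ff] with x h1 hx
    exact h1 (Set.disjoint_right.mp hact_U hx)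
  have hannHigh : High F G m A (ann s s') := by
    apply High.union
    · apply High.of_Ico (v := v) (by linarith) hv
      · intro x hx; exact gz x (hann_zone (Or.inl hx))
      · filter_upwards [hFann] with x h1 hx
        exact h1 (Or.inl hx)
    · apply High.of_Ico (v := v) (by linarith) hv
      · intro x hx; exact gz x (hann_zone (Or.inr hx))
      · filter_upwards [hFann] with x h1 hx
        exact h1 (Or.inr hx)
    · rw [Set.disjoint_left]
      intro x h1 h2
      linarith [h1.2, h2.1]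
  set R : Set ℝ := Hi ∪ ann s s' with hR
  have hRHigh : High F G m A R := hi.union hannHigh (hact_ann.mono_left hHiact)
  have hRsub : R ⊆ Ico (-1 + s') (1 - s') := by
    rintro x (h | h)
    · obtain ⟨a1, a2, _⟩ := hactbd x (hHiact h)
      exact ⟨by linarith, by linarith⟩
    · rcases hannbd x h with ⟨b1, b2⟩ | ⟨b1, b2⟩
      · exact ⟨b1, by linarith⟩
      · exact ⟨by linarith, b2⟩
  have hRU : Disjoint R (Ico c c') := by
    rw [hR, Set.disjoint_union_left]
    exact ⟨hact_U.mono_left hHiact, hann_U⟩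
  -- bound of F on the new active region
  have hbig : ∀ᵐ x ∂mu, x ∈ (act s c cinf ∪ ann s s') ∪ Ico c c' → |F x| ≤ B := by
    filter_upwards [fb, hFann, hFU, hblk] with x h1 h2 h3 h4 hx
    rcases hx with (hx | hx) | hx
    · exact h1 hx
    · obtain ⟨a1, a2⟩ := h2 hx
      rw [abs_le]; constructor <;> linarith
    · rw [h3 hx]; exact h4 hx
  have hRact : R ⊆ act s c cinf ∪ ann s s' := union_subset_union_left _ hHiact
  have hbR : ∀ᵐ x ∂mu, x ∈ R ∪ Ico c c' → |F x| ≤ B := by
    filter_upwards [hbig] with x h1 hx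
    apply h1
    rcases hx with hx | hx
    · exact Or.inl (hRact hx)
    · exact Or.inr hx
  have hmeq1 : mu (Ico c c' ∩ {x | F x < m - γ}) = mu (Ico c c' ∩ {x | F0 x < m - γ}) := by
    apply measure_congr
    filter_upwards [hFU] with x hx
    apply propext
    constructor
    · rintro ⟨h1, h2⟩
      refine ⟨h1, ?_⟩
      change F0 x < m - γ
      rw [← hx h1]; exact h2
    · rintro ⟨h1, h2⟩
      refine ⟨h1, ?_⟩
      change F x < m - γ
      rw [hx h1]; exact h2
  have hmeq2 : mu (Ico c c' ∩ {x | m + γ < F x}) = mu (Ico c c' ∩ {x | m + γ < F0 x}) := by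
    apply measure_congr
    filter_upwards [hFU] with x hx
    apply propext
    constructor
    · rintro ⟨h1, h2⟩
      refine ⟨h1, ?_⟩
      change m + γ < F0 x
      rw [← hx h1]; exact h2
    · rintro ⟨h1, h2⟩
      refine ⟨h1, ?_⟩
      change m + γ < F x
      rw [hx h1]; exact h2
  obtain ⟨e1, D1, R1, R2, he1, he1off, he1m, hR12, hR12u, hD1off, hD1i, hR1H, hR2L, hcont, hN1⟩ :=
    h_step (s := s') (b := A) hs' (by linarith) K hA hA' hγ hAγ hA hη hmB hKA mF hRsub hRHigh
      (by linarith) hcc (by linarith) hRU hbR (by rw [hmeq1]; exact hr1)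
  -- second step: the low class
  have hR1R : R1 ⊆ R := by rw [← hR12u]; exact subset_union_left
  have hR2R : R2 ⊆ R := by rw [← hR12u]; exact subset_union_right
  have hLoR : Disjoint Lo R := by
    rw [hR, Set.disjoint_union_right]
    exact ⟨dj.symm, hact_ann.mono_left hLoact⟩
  have hLoU : Disjoint Lo (Ico c c') := hact_U.mono_left hLoact
  set F1 : ℝ → ℝ := fun x => F (e1 x) with hF1
  set G1 : ℝ → ℝ := fun x => G x + D1 x with hG1
  have hLoL : Low F1 G1 m A Lo := by
    apply High.congr lo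
    · filter_upwards [he1off] with x h1 hx
      have : x ∉ R ∪ Ico c c' := by
        rintro (h | h)
        · exact Set.disjoint_left.mp hLoR hx h
        · exact Set.disjoint_left.mp hLoU hx h
      simp only [hF1]
      rw [h1 this]
    · intro x hx
      simp only [hG1]
      rw [hD1off x (Set.disjoint_left.mp hLoR hx), add_zero]
  set Lo1 : Set ℝ := R2 ∪ Lo with hLo1
  have hR2Lo : Disjoint R2 Lo := (hLoR.symm).mono_left hR2R
  have hLo1L : Low F1 G1 m A Lo1 := High.union hR2L hLoL hR2Lo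
  have hLo1U : Disjoint Lo1 (Ico c c') := by
    rw [hLo1, Set.disjoint_union_left]
    exact ⟨hRU.mono_left hR2R, hLoU⟩
  have hLo1act : Lo1 ⊆ act s c cinf ∪ ann s s' := by
    rintro x (h | h)
    · exact hRact (hR2R h)
    · exact Or.inl (hLoact h)
  have hLo1sub : Lo1 ⊆ Ico (-1 + s') (1 - s') := by
    rintro x (h | h)
    · exact hRsub (hR2R h)
    · obtain ⟨a1, a2, _⟩ := hactbd x (hLoact h)
      exact ⟨by linarith, by linarith⟩
  have mF1 : Measurable F1 := mF.comp he1.1.measurable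
  have hmeasR : MeasurableSet R := hRHigh.measurableSet
  have hbF1 : ∀ᵐ x ∂mu, x ∈ (act s c cinf ∪ ann s s') ∪ Ico c c' → |F1 x| ≤ B := by
    have hmaps := he1.maps (hmeasR.union hmeasU) he1off
    filter_upwards [he1.ae hbR, hmaps, he1off, hbig] with x h1 h2 h3 h4 hx
    by_cases hxR : x ∈ R ∪ Ico c c'
    · exact h1 (h2 hxR)
    · simp only [hF1]
      rw [h3 hxR]; exact h4 hx
  have hresneg : ENNReal.ofReal (3 * A / γ) ≤ mu (Ico c c' ∩ {x | - F1 x < - m - γ}) := by
    have : {x | - F1 x < - m - γ} = {x | m + γ < F1 x} := by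
      ext x
      constructor
      · intro h
        change - F1 x < - m - γ at h
        change m + γ < F1 x
        linarith
      · intro h
        change m + γ < F1 x at h
        change - F1 x < - m - γ
        linarith
    rw [this]
    calc ENNReal.ofReal (3 * A / γ) ≤ mu (Ico c c' ∩ {x | m + γ < F0 x}) := hr2
      _ = mu (Ico c c' ∩ {x | m + γ < F x}) := hmeq2.symm
      _ ≤ _ := hcont
  obtain ⟨e2, D2, Q1, Q2, he2, he2off, he2m, hQ12, hQ12u, hD2off, hD2i, hQ1H, hQ2L, _, hN2⟩ :=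
    h_step (s := s') (b := A') (F := fun x => - F1 x) (G := fun x => - G1 x) (m := -m) hs'
      (by linarith) K hA hA' hγ hAγ hA' hη (by rw [abs_neg]; exact hmB) hKA mF1.neg hLo1sub hLo1L
      (by linarith) hcc (by linarith) hLo1U
      (by
        filter_upwards [hbF1] with x h1 hx
        rw [abs_neg]
        apply h1
        rcases hx with hx | hx
        · exact Or.inl (hLo1act hx)
        · exact Or.inr hx) hresneg
  have hQ1Lo : Q1 ⊆ Lo1 := by rw [← hQ12u]; exact subset_union_left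
  have hQ2Lo : Q2 ⊆ Lo1 := by rw [← hQ12u]; exact subset_union_right
  set F2 : ℝ → ℝ := fun x => F1 (e2 x) with hF2
  set G2 : ℝ → ℝ := fun x => G1 x - D2 x with hG2
  have mF2 : Measurable F2 := mF1.comp he2.1.measurable
  have hQ1L : Low F2 G2 m A' Q1 := by
    apply High.congr hQ1H
    · exact Eventually.of_forall fun x _ => rfl
    · intro x _
      simp only [hG2]
      ring
  have hQ2H : High F2 G2 m A' Q2 := by
    have h := hQ2L
    unfold Low at h
    rw [neg_neg] at h
    apply High.congr h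
    · exact Eventually.of_forall fun x _ => by simp [hF2]
    · intro x _
      simp only [hG2]
      ring
  have hR1Lo1 : Disjoint R1 Lo1 := by
    rw [hLo1, Set.disjoint_union_right]
    exact ⟨hR12, (hLoR.symm).mono_left hR1R⟩
  have hR1U : Disjoint R1 (Ico c c') := hRU.mono_left hR1R
  have hR1H2 : High F2 G2 m A' R1 := by
    apply High.congr hR1H
    · filter_upwards [he2off] with x h1 hx
      have : x ∉ Lo1 ∪ Ico c c' := by
        rintro (h | h)
        · exact Set.disjoint_left.mp hR1Lo1 hx h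
        · exact Set.disjoint_left.mp hR1U hx h
      simp only [hF2]
      rw [h1 this]
    · intro x hx
      simp only [hG2]
      rw [hD2off x (Set.disjoint_left.mp hR1Lo1 hx), sub_zero]
  set Hi2 : Set ℝ := R1 ∪ Q2 with hHi2
  have hR1Q2 : Disjoint R1 Q2 := hR1Lo1.mono_right hQ2Lo
  have hHi2H : High F2 G2 m A' Hi2 := hR1H2.union hQ2H hR1Q2
  have hHi2Q1 : Disjoint Hi2 Q1 := by
    rw [hHi2, Set.disjoint_union_left]
    exact ⟨hR1Lo1.mono_right hQ1Lo, hQ12.symm⟩
  have hun2 : Hi2 ∪ Q1 = act s c cinf ∪ ann s s' := by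
    have a1 : Hi2 ∪ Q1 = R1 ∪ (Q1 ∪ Q2) := by
      rw [hHi2, union_assoc, union_comm Q2 Q1]
    rw [a1, hQ12u, hLo1, ← union_assoc, hR12u, hR, ← un]
    ext x; simp only [mem_union]; tauto
  have hbF2 : ∀ᵐ x ∂mu, x ∈ (act s c cinf ∪ ann s s') ∪ Ico c c' → |F2 x| ≤ B := by
    have hmeasL : MeasurableSet Lo1 := High.measurableSet hLo1L
    have hmaps := he2.maps (hmeasL.union hmeasU) he2off
    filter_upwards [he2.ae hbF1, hmaps, he2off, hbF1] with x h1 h2 h3 h4 hx
    by_cases hxR : x ∈ Lo1 ∪ Ico c c'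
    · apply h1
      rcases h2 hxR with h | h
      · exact Or.inl (hLo1act h)
      · exact Or.inr h
    · simp only [hF2]
      rw [h3 hxR]; exact h4 hx
  have hG2U : ∀ x ∈ Ico c c', G2 x = m := by
    intro x hx
    simp only [hG2, hG1]
    rw [hD2off x (Set.disjoint_right.mp hLo1U hx), hD1off x (Set.disjoint_right.mp hRU hx),
      gm x ⟨hx.1, by linarith [hx.2]⟩]
    ring
  obtain ⟨e3, D3, T1, T2, he3, he3off, hT12, hT12u, hD3off, hD3i, hT1H, hT2L, hN3⟩ :=
    sort_block (u0 := c) (u1 := c') (m := m) (δ := A') (B := B) hc0 hcc (by linarith) hA'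
      (by linarith) hC hθ hΦ mF2
      (by
        filter_upwards [hbF2] with x h1 hx
        exact h1 (Or.inr hx)) hG2U
  set D4 : ℝ → ℝ := fun x => (v' - v) * (ind (-1) (-1 + s') x + ind (1 - s') 1 x) with hD4
  have hD4i : Integrable D4 mu := ((integrable_ind _ _).add (integrable_ind _ _)).const_mul _
  have hD4off : ∀ x, x ∉ zone s' → D4 x = 0 := by
    intro x hx
    have h1 : x ∉ Ico (-1) (-1 + s') := fun h => hx (Or.inl h)
    have h2 : x ∉ Ico (1 - s') 1 := fun h => hx (Or.inr h)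
    simp [hD4, ind, h1, h2]
  have hD4on : ∀ x ∈ zone s', D4 x = v' - v := by
    rintro x (h | h)
    · have h2 : x ∉ Ico (1 - s') 1 := fun h' => by linarith [h.2, h'.1]
      simp [hD4, ind, h, h2]
    · have h2 : x ∉ Ico (-1) (-1 + s') := fun h' => by linarith [h.1, h'.2]
      simp [hD4, ind, h, h2]
  have hzz : zone s' ⊆ zone s := by
    rintro x (h | h)
    · exact Or.inl ⟨h.1, by linarith [h.2]⟩
    · exact Or.inr ⟨by linarith [h.1], h.2⟩
  have hz'ann : Disjoint (zone s') (ann s s') := by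
    rw [Set.disjoint_left]
    intro x h1 h2
    rcases hannbd x h2 with ⟨b1, b2⟩ | ⟨b1, b2⟩
    · rcases h1 with h | h
      · linarith [h.2]
      · linarith [h.1]
    · rcases h1 with h | h
      · linarith [h.2]
      · linarith [h.1]
  have hz'big : Disjoint (zone s') ((act s c cinf ∪ ann s s') ∪ Ico c c') := by
    rw [Set.disjoint_union_right, Set.disjoint_union_right]
    exact ⟨⟨hzone_act.mono_left hzz, hz'ann⟩, hzone_U.mono_left hzz⟩
  have hbigU : Disjoint (act s c cinf ∪ ann s s') (Ico c c') := by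
    rw [Set.disjoint_union_left]; exact ⟨hact_U, hann_U⟩
  have hHi2sub : Hi2 ⊆ act s c cinf ∪ ann s s' := by rw [← hun2]; exact subset_union_left
  have hQ1sub : Q1 ⊆ act s c cinf ∪ ann s s' := by rw [← hun2]; exact subset_union_right
  have hT1sub : T1 ⊆ Ico c c' := by rw [← hT12u]; exact subset_union_left
  have hT2sub : T2 ⊆ Ico c c' := by rw [← hT12u]; exact subset_union_right
  have hactS : act s' c' cinf = (act s c cinf ∪ ann s s') ∪ Ico c c' :=
    act_succ hss hs1 hc0 hcc.le hci hcinf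
  have hFeq : ∀ᵐ x ∂mu, x ∉ Ico c c' → F (e1 (e2 (e3 x))) = F2 x := by
    filter_upwards [he3off] with x h1 hx
    rw [h1 hx]
  have he : Iso (fun x => e1 (e2 (e3 x))) := he1.comp (he2.comp he3)
  have heoff : ∀ᵐ x ∂mu, x ∉ act s' c' cinf → e1 (e2 (e3 x)) = x := by
    rw [hactS]
    filter_upwards [he1off, he2off, he3off] with x h1 h2 h3 hx
    have a3 : x ∉ Ico c c' := fun h => hx (Or.inr h)
    have a2 : x ∉ Lo1 ∪ Ico c c' := by
      rintro (h | h)
      · exact hx (Or.inl (hLo1act h))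
      · exact a3 h
    have a1 : x ∉ R ∪ Ico c c' := by
      rintro (h | h)
      · exact hx (Or.inl (hRact h))
      · exact a3 h
    rw [h3 a3, h2 a2, h1 a1]
  have hGon : ∀ x ∈ act s c cinf ∪ ann s s', G x + (D1 x - D2 x + D3 x + D4 x) = G2 x := by
    intro x hx
    rw [hD3off x (Set.disjoint_left.mp hbigU hx),
      hD4off x (Set.disjoint_right.mp hz'big (Or.inl hx))]
    simp only [hG2, hG1]
    ring
  have hGonU : ∀ x ∈ Ico c c', G x + (D1 x - D2 x + D3 x + D4 x) = G2 x + D3 x := by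
    intro x hx
    rw [hD4off x (Set.disjoint_right.mp hz'big (Or.inr hx))]
    simp only [hG2, hG1]
    ring
  refine ⟨fun x => e1 (e2 (e3 x)), fun x => D1 x - D2 x + D3 x + D4 x, Hi2 ∪ T1, Q1 ∪ T2, he,
    ((hD1i.sub hD2i).add hD3i).add hD4i, ?_, ?_, ?_⟩
  · constructor
    · exact mF.comp he.1.measurable
    · apply High.union
      · apply High.congr hHi2H
        · filter_upwards [hFeq] with x h1 hx
          exact h1 (Set.disjoint_left.mp hbigU (hHi2sub hx))
        · intro x hx; exact hGon x (hHi2sub hx)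
      · apply High.congr hT1H
        · exact Eventually.of_forall fun x _ => rfl
        · intro x hx; exact hGonU x (hT1sub hx)
      · exact hbigU.mono hHi2sub hT1sub
    · apply High.union
      · apply High.congr hQ1L
        · filter_upwards [hFeq] with x h1 hx
          rw [h1 (Set.disjoint_left.mp hbigU (hQ1sub hx))]
        · intro x hx
          change -(G x + (D1 x - D2 x + D3 x + D4 x)) = -G2 x
          rw [hGon x (hQ1sub hx)]
      · apply High.congr hT2L
        · exact Eventually.of_forall fun x _ => rfl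
        · intro x hx
          change -(G x + (D1 x - D2 x + D3 x + D4 x)) = -(G2 x + D3 x)
          rw [hGonU x (hT2sub hx)]
      · exact hbigU.mono hQ1sub hT2sub
    · rw [Set.disjoint_union_left, Set.disjoint_union_right, Set.disjoint_union_right]
      exact ⟨⟨hHi2Q1, hbigU.mono hHi2sub hT2sub⟩, (hbigU.mono hQ1sub hT1sub).symm, hT12⟩
    · rw [hactS, ← hun2, ← hT12u]
      ext x; simp only [mem_union]; tauto
    · intro x hx
      change G x + (D1 x - D2 x + D3 x + D4 x) = v'
      rw [hD4on x hx, hD3off x (fun h => Set.disjoint_left.mp hz'big hx (Or.inr h)),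
        hD2off x (fun h => Set.disjoint_left.mp hz'big hx (Or.inl (hLo1act h))),
        hD1off x (fun h => Set.disjoint_left.mp hz'big hx (Or.inl (hRact h))), gz x (hzz hx)]
      ring
    · intro x hx
      have hxa : x ∉ act s' c' cinf := by
        rintro (h | h)
        · linarith [h.2, hx.1]
        · linarith [h.1, hx.2]
      rw [hactS] at hxa
      have hxz : x ∉ zone s' := by
        rintro (h | h)
        · linarith [h.2, hx.1]
        · linarith [h.1, hx.2]
      change G x + (D1 x - D2 x + D3 x + D4 x) = m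
      rw [hD4off x hxz, hD3off x (fun h => hxa (Or.inr h)),
        hD2off x (fun h => hxa (Or.inl (hLo1act h))),
        hD1off x (fun h => hxa (Or.inl (hRact h))), gm x ⟨by linarith [hx.1], hx.2⟩]
      ring
    · filter_upwards [heoff, ff] with x h1 h2 hx
      rw [h1 hx]
      apply h2
      intro h
      rw [hactS] at hx
      exact hx (Or.inl (Or.inl h))
    · have hmaps := he.maps (measurableSet_act s' c' cinf) heoff
      filter_upwards [he.ae hbig, hmaps] with x h1 h2 hx
      apply h1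
      rw [← hactS]
      exact h2 hx
  · have hsub : {x | e1 (e2 (e3 x)) ≠ x} ⊆ {x | e3 x ≠ x} ∪ ({x | e2 x ≠ x} ∪ {x | e1 x ≠ x}) := by
      intro x hx
      by_contra hcon
      simp only [mem_union, mem_setOf_eq, not_or, not_not] at hcon
      apply hx
      rw [hcon.1, hcon.2.1, hcon.2.2]
    have h3 : mu {x | e3 x ≠ x} ≤ mu (Ico c c') := by
      apply measure_mono_ae
      filter_upwards [he3off] with x hx hxe
      by_contra hcon
      exact hxe (hx hcon)
    have hmuU : mu (Ico c c') = ENNReal.ofReal (c' - c) := mu_Ico (by linarith) (by linarith)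
    rw [hmuU] at h3 he1m he2m
    have h3r : (3 : ℝ≥0∞) * ENNReal.ofReal (c' - c) = ENNReal.ofReal (3 * (c' - c)) := by
      rw [ENNReal.ofReal_mul (by norm_num)]
      norm_num
    rw [h3r, ← ENNReal.ofReal_add (by linarith) hη.le] at he1m he2m
    calc mu {x | e1 (e2 (e3 x)) ≠ x}
        ≤ mu ({x | e3 x ≠ x} ∪ ({x | e2 x ≠ x} ∪ {x | e1 x ≠ x})) := measure_mono hsub
      _ ≤ mu {x | e3 x ≠ x} + (mu {x | e2 x ≠ x} + mu {x | e1 x ≠ x}) :=
          (measure_union_le _ _).trans (add_le_add le_rfl (measure_union_le _ _))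
      _ ≤ ENNReal.ofReal (c' - c) + (ENNReal.ofReal (3 * (c' - c) + η) +
          ENNReal.ofReal (3 * (c' - c) + η)) := add_le_add h3 (add_le_add he2m he1m)
      _ = _ := by
          rw [← ENNReal.ofReal_add (by linarith) (by linarith),
            ← ENNReal.ofReal_add (by linarith) (by linarith)]
          congr 1; ring
  · have hN4 : N D4 ≤ ENNReal.ofReal (2 * (A * Cu)) := by
      rw [hD4, N_const_mul, Real.enorm_eq_ofReal_abs]
      calc ENNReal.ofReal |v' - v| * N (fun x => ind (-1) (-1 + s') x + ind (1 - s') 1 x)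
          ≤ ENNReal.ofReal A * (ENNReal.ofReal Cu + ENNReal.ofReal Cu) := by
            apply mul_le_mul' (ENNReal.ofReal_le_ofReal hvv)
            refine (N_add_le (integrable_ind _ _) (integrable_ind _ _)).trans ?_
            exact add_le_add (N_ind_unif le_rfl (by linarith) (by linarith))
              (N_ind_unif (by linarith) (by linarith) le_rfl)
        _ = _ := by
            rw [← ENNReal.ofReal_add hCu hCu, ← ENNReal.ofReal_mul hA.le]
            congr 1; ring
    have hp : 0 ≤ (c' - c) ^ θ := Real.rpow_nonneg (by linarith) _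
    have hX : 0 ≤ CR * (A * (1 + Real.log K)) + 4 * A + η := by positivity
    have hY : 0 ≤ 4 * (2 * B) * (C * (c' - c) ^ θ) := by positivity
    have hZ : 0 ≤ 2 * (A * Cu) := by positivity
    calc N (fun x => D1 x - D2 x + D3 x + D4 x)
        ≤ N (fun x => D1 x - D2 x + D3 x) + N D4 := N_add_le ((hD1i.sub hD2i).add hD3i) hD4i
      _ ≤ (N (fun x => D1 x - D2 x) + N D3) + N D4 :=
          add_le_add (N_add_le (hD1i.sub hD2i) hD3i) le_rfl
      _ ≤ ((N D1 + N D2) + N D3) + N D4 :=
          add_le_add (add_le_add (N_sub_le hD1i hD2i) le_rfl) le_rfl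
      _ ≤ ((ENNReal.ofReal (CR * (A * (1 + Real.log K)) + 4 * A + η) +
            ENNReal.ofReal (CR * (A * (1 + Real.log K)) + 4 * A + η)) +
            ENNReal.ofReal (4 * (2 * B) * (C * (c' - c) ^ θ))) + ENNReal.ofReal (2 * (A * Cu)) :=
          add_le_add (add_le_add (add_le_add hN1 hN2) hN3) hN4
      _ = _ := by
          rw [← ENNReal.ofReal_add hX hX, ← ENNReal.ofReal_add (by linarith) hY,
            ← ENNReal.ofReal_add (by linarith) hZ]
          congr 1; ring

end Pool.Agent.LegRe
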