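import Pool.Agent.LegRe.Pulse3
import Pool.Agent.LegRe.Refine

/-! One step of the construction (processing the high pieces). -/

namespace Pool.Agent.LegRe

open MeasureTheory Set ENNReal Filter Topology

lemma exists_of_ae {p q : ℝ} (hp : -1 ≤ p) (hpq : p < q) (hq : q ≤ 1) {P : ℝ → Prop}
    (h : ∀ᵐ x ∂mu, x ∈ Ico p q → P x) : ∃ x ∈ Ico p q, P x := by
  by_contra hcon
  push Not at hcon
  have h1 : mu (Ico p q) = 0 := by
    rw [ae_iff] at h
    refine measure_mono_null ?_ h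
    intro x hx
    simp only [mem_setOf_eq, Classical.not_imp]
    exact ⟨hx, hcon x hx⟩
  rw [mu_Ico hp hq] at h1
  rw [ENNReal.ofReal_eq_zero] at h1
  linarith

lemma refine_any {a b : ℝ} (ha : -1 ≤ a) (hab : a ≤ b) (hb : b ≤ 1) {F : ℝ → ℝ}
    (hF : Measurable F) {B : ℝ} (hB : ∀ᵐ x ∂mu, x ∈ Ico a b → |F x| ≤ B) (c : ℝ) {δ ε : ℝ}
    (hδ : 0 < δ) (hε : 0 < ε) :
    ∃ e : ℝ → ℝ, Iso e ∧ (∀ᵐ x ∂mu, x ∉ Ico a b → e x = x) ∧
      (∀ᵐ x ∂mu, x ∈ Ico a b → e x ∈ Ico a b) ∧ mu {x | e x ≠ x} ≤ ENNReal.ofReal ε ∧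
      ∃ (n : ℕ) (p q : Fin n → ℝ) (k : Fin n → ℤ), (∀ i, p i ≤ q i) ∧
        (Pairwise (Function.onFun Disjoint fun i => Ico (p i) (q i))) ∧
        (⋃ i, Ico (p i) (q i)) = Ico a b ∧
        ∀ i, ∀ᵐ x ∂mu, x ∈ Ico (p i) (q i) →
          c + k i * δ ≤ F (e x) ∧ F (e x) < c + (k i + 1) * δ := by
  rcases eq_or_lt_of_le hab with rfl | hlt
  · refine ⟨fun x => x, Iso.id, by simp, by simp, by simp, 0, Fin.elim0, Fin.elim0, Fin.elim0,
      fun i => i.elim0, fun i => i.elim0, by simp, fun i => i.elim0⟩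
  · exact exists_refine ha hlt hb hF hB c hδ hε

lemma piece_bounds {J : Type} {a b : J → ℝ} {T : Set ℝ} {x0 x1 : ℝ} (hT : T ⊆ Ico x0 x1)
    (hU : (⋃ j, Ico (a j) (b j)) = T) (j : J) (hab : a j < b j) : x0 ≤ a j ∧ b j ≤ x1 := by
  have hsub : Ico (a j) (b j) ⊆ Ico x0 x1 := by
    refine Subset.trans ?_ hT
    rw [← hU]
    exact subset_iUnion (fun j => Ico (a j) (b j)) j
  exact (Ico_subset_Ico_iff hab).mp hsub

theorem h_step {s A A' γ B b m η : ℝ} (hs : 0 < s) (hs1 : s ≤ 1) (K : ℕ) [NeZero K]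
    (hA : 0 < A) (hA' : 0 < A') (hγ : 0 < γ) (hAγ : 2 * A ≤ γ) (hb : 0 < b) (hη : 0 < η)
    (hmB : |m| + γ ≤ B) (hKA : 4 * (A + 2 * B) / A' ≤ K)
    {F G : ℝ → ℝ} (hFm : Measurable F) {R : Set ℝ} (hR : R ⊆ Ico (-1 + s) (1 - s))
    (hH : High F G m A R) {u0 u1 : ℝ} (hu0 : -1 ≤ u0) (hu : u0 < u1) (hu1 : u1 ≤ 1)
    (hRU : Disjoint R (Ico u0 u1)) (hB : ∀ᵐ x ∂mu, x ∈ R ∪ Ico u0 u1 → |F x| ≤ B)
    (hres : ENNReal.ofReal (3 * A / γ) ≤ mu (Ico u0 u1 ∩ {x | F x < m - γ})) :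
    ∃ (e D : ℝ → ℝ) (R1 R2 : Set ℝ), Iso e ∧ (∀ᵐ x ∂mu, x ∉ R ∪ Ico u0 u1 → e x = x) ∧
      mu {x | e x ≠ x} ≤ 3 * mu (Ico u0 u1) + ENNReal.ofReal η ∧
      Disjoint R1 R2 ∧ R1 ∪ R2 = R ∧ (∀ x, x ∉ R → D x = 0) ∧ Integrable D mu ∧
      High (fun x => F (e x)) (fun x => G x + D x) m A' R1 ∧
      Low (fun x => F (e x)) (fun x => G x + D x) m b R2 ∧
      mu (Ico u0 u1 ∩ {x | m + γ < F x}) ≤ mu (Ico u0 u1 ∩ {x | m + γ < F (e x)}) ∧
      N D ≤ ENNReal.ofReal (CR * (A * (1 + Real.log K)) + 4 * A + η) := by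
  classical
  have hKn : 0 < K := Nat.pos_of_ne_zero (NeZero.ne K)
  have hKr : (0:ℝ) < K := by exact_mod_cast hKn
  have hm1 := neg_abs_le m
  have hm2 := le_abs_self m
  have hm0 := abs_nonneg m
  have hRmeas := hH.measurableSet
  obtain ⟨J0, _, a, b0, v0, hab, hd0, hU0, hmv, hG0, hF0⟩ := hH
  have hs1' : ∀ j, a j < b0 j → -1 + s ≤ a j ∧ b0 j ≤ 1 - s := fun j hj =>
    piece_bounds hR hU0 j hj
  have hsubR : ∀ j, Ico (a j) (b0 j) ⊆ R := by
    intro j; rw [← hU0]; exact subset_iUnion (fun j => Ico (a j) (b0 j)) j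
  set ε : ℝ := η / ((Fintype.card J0 : ℝ) + 1) with hε
  have hεpos : 0 < ε := by positivity
  have hδ : 0 < A' / 2 := by positivity
  -- (1) refinement of each piece
  have hstep1 : ∀ j, ∃ (e : ℝ → ℝ) (n : ℕ) (p q : Fin n → ℝ) (k : Fin n → ℤ), Iso e ∧
      (∀ᵐ x ∂mu, x ∉ Ico (a j) (b0 j) → e x = x) ∧
      (∀ᵐ x ∂mu, x ∈ Ico (a j) (b0 j) → e x ∈ Ico (a j) (b0 j)) ∧
      mu {x | e x ≠ x} ≤ ENNReal.ofReal ε ∧
      (∀ i, p i ≤ q i) ∧ (Pairwise (Function.onFun Disjoint fun i => Ico (p i) (q i))) ∧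
        (⋃ i, Ico (p i) (q i)) = Ico (a j) (b0 j) ∧
        ∀ i, ∀ᵐ x ∂mu, x ∈ Ico (p i) (q i) →
          v0 j + k i * (A' / 2) ≤ F (e x) ∧ F (e x) < v0 j + (k i + 1) * (A' / 2) := by
    intro j
    rcases eq_or_lt_of_le (hab j) with h | h
    · refine ⟨fun x => x, 0, Fin.elim0, Fin.elim0, Fin.elim0, Iso.id, by simp, by simp, by simp,
        fun i => i.elim0, fun i => i.elim0, by simp [h], fun i => i.elim0⟩
    · have h1 := hs1' j h
      have hBj : ∀ᵐ x ∂mu, x ∈ Ico (a j) (b0 j) → |F x| ≤ B := by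
        filter_upwards [hB] with x hx hxj
        exact hx (Or.inl (hsubR j hxj))
      obtain ⟨e, c1, c2, c3, c4, n, p, q, k, c5, c6, c7, c8⟩ :=
        exists_refine (by linarith [h1.1]) h (by linarith [h1.2]) hFm hBj (v0 j) hδ hεpos
      exact ⟨e, n, p, q, k, c1, c2, c3, c4, c5, c6, c7, c8⟩
  choose ej n p q k hj1 hj2 hj3 hj4 hj5 hj6 hj7 hj8 using hstep1
  obtain ⟨E1, hE1, hE1a, hE1b, hE1c⟩ := Iso.glue Finset.univ (fun j => Ico (a j) (b0 j))
    (fun j => measurableSet_Ico) hd0 ej (fun j _ => hj1 j) (fun j _ => hj2 j)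
  have hE1off : ∀ᵐ x ∂mu, x ∉ R → E1 x = x := by
    filter_upwards [hE1b] with x hx hxR
    apply hx
    intro h
    simp only [mem_iUnion] at h
    obtain ⟨j, _, hj⟩ := h
    exact hxR (hsubR j hj)
  have hE1m : mu {x | E1 x ≠ x} ≤ ENNReal.ofReal η := by
    refine hE1c.trans ?_
    calc ∑ j : J0, mu {x | ej j x ≠ x} ≤ ∑ _j : J0, ENNReal.ofReal ε :=
          Finset.sum_le_sum fun j _ => hj4 j
      _ = ENNReal.ofReal ((Fintype.card J0 : ℝ) * ε) := by
          rw [Finset.sum_const, nsmul_eq_mul, Finset.card_univ, ← ENNReal.ofReal_natCast,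
            ← ENNReal.ofReal_mul (by positivity)]
      _ ≤ ENNReal.ofReal η := by
          apply ENNReal.ofReal_le_ofReal
          rw [hε, mul_div_assoc', div_le_iff₀ (by positivity)]
          nlinarith [Nat.cast_nonneg (α := ℝ) (Fintype.card J0)]
  set F1 : ℝ → ℝ := fun x => F (E1 x) with hF1
  have hF1m : Measurable F1 := hFm.comp hE1.1.measurable
  -- values on the refined pieces
  have hF1p : ∀ j i, ∀ᵐ x ∂mu, x ∈ Ico (p j i) (q j i) →
      v0 j + k j i * (A' / 2) ≤ F1 x ∧ F1 x < v0 j + (k j i + 1) * (A' / 2) ∧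
      v0 j ≤ F1 x ∧ F1 x ≤ v0 j + A := by
    intro j i
    have h1 := hE1a j (Finset.mem_univ j)
    have h2 := (hj1 j).ae (hF0 j)
    filter_upwards [h1, h2, hj3 j, hj8 j i] with x x1 x2 x3 x4 hx
    have hxj : x ∈ Ico (a j) (b0 j) := by
      rw [← hj7 j]; exact mem_iUnion.mpr ⟨i, hx⟩
    have e1 : F1 x = F (ej j x) := by
      simp only [hF1]
      rw [x1 hxj]
    rw [e1]
    exact ⟨(x4 hx).1, (x4 hx).2, x2 (x3 hxj)⟩
  -- (2) sorting U
  have hF1U : ∀ᵐ x ∂mu, x ∈ Ico u0 u1 → F1 x = F x := by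
    filter_upwards [hE1off] with x hx hxU
    simp only [hF1]
    rw [hx (fun h => Set.disjoint_left.mp hRU h hxU)]
  have hF1B : ∀ᵐ x ∂mu, x ∈ Ico u0 u1 → |F1 x| ≤ B := by
    filter_upwards [hF1U, hB] with x hx1 hx2 hxU
    rw [hx1 hxU]; exact hx2 (Or.inr hxU)
  obtain ⟨E2, hE2, hE2off, hE2in, nU, pU, qU, kU, hU1, hU2, hU3, _, hU4⟩ :=
    exists_sort hu0 hu hu1 hF1m hF1B (m - γ) hb
  set F2 : ℝ → ℝ := fun x => F1 (E2 x) with hF2
  have hF2m : Measurable F2 := hF1m.comp hE2.1.measurable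
  have hF2B : ∀ᵐ x ∂mu, x ∈ Ico u0 u1 → |F2 x| ≤ B := by
    filter_upwards [hE2.ae hF1B, hE2in] with x hx1 hx2 hxU
    exact hx1 (hx2 hxU)
  have hF2R : ∀ᵐ x ∂mu, x ∈ R → F2 x = F1 x := by
    filter_upwards [hE2off] with x hx hxR
    simp only [hF2]
    rw [hx (fun h => Set.disjoint_left.mp hRU hxR h)]
  -- (3) the families for the core lemma
  let JJ : Type := Σ j : J0, Fin (n j)
  let RR : Type := {r : Fin nU // kU r < 0}
  let pp : JJ → ℝ := fun i => p i.1 i.2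
  let qq : JJ → ℝ := fun i => q i.1 i.2
  let vv : JJ → ℝ := fun i => if pp i < qq i then v0 i.1 else m
  let gg : JJ → ℝ := fun i => if pp i < qq i then v0 i.1 + k i.1 i.2 * (A' / 2) else m
  let uu : RR → ℝ := fun r => if pU r.1 < qU r.1 then m - γ + (kU r.1 + 1) * b else m - γ
  have hsubp : ∀ i : JJ, Ico (pp i) (qq i) ⊆ Ico (a i.1) (b0 i.1) := by
    intro i
    rw [← hj7 i.1]
    exact subset_iUnion (fun r => Ico (p i.1 r) (q i.1 r)) i.2
  have hppR : ∀ i : JJ, pp i < qq i → -1 + s ≤ pp i ∧ qq i ≤ 1 - s := by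
    intro i hi
    have h1 := (Ico_subset_Ico_iff hi).mp (hsubp i)
    have h2 := hs1' i.1 (by linarith [h1.1, h1.2])
    exact ⟨by linarith [h1.1, h2.1], by linarith [h1.2, h2.2]⟩
  -- degenerate pieces are moved to 0
  let pp' : JJ → ℝ := fun i => if pp i < qq i then pp i else 0
  let qq' : JJ → ℝ := fun i => if pp i < qq i then qq i else 0
  have hIco : ∀ i : JJ, Ico (pp' i) (qq' i) = Ico (pp i) (qq i) := by
    intro i
    simp only [pp', qq']
    split_ifs with h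
    · rfl
    · rw [Ico_self, Ico_eq_empty h]
  have hUfin : (⋃ i : JJ, Ico (pp' i) (qq' i)) = R := by
    rw [← hU0]
    ext x
    simp only [mem_iUnion, hIco]
    constructor
    · rintro ⟨i, hi⟩; exact ⟨i.1, hsubp i hi⟩
    · rintro ⟨j, hj⟩
      rw [← hj7 j] at hj
      obtain ⟨r, hr⟩ := mem_iUnion.mp hj
      exact ⟨⟨j, r⟩, hr⟩
  have hdfin : Pairwise (Function.onFun Disjoint fun i : JJ => Ico (pp' i) (qq' i)) := by
    rintro ⟨j, r⟩ ⟨j', r'⟩ hne
    simp only [Function.onFun, hIco]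
    by_cases hjj : j = j'
    · subst hjj
      exact hj6 j (fun h => hne (congrArg (Sigma.mk j) h))
    · exact (hd0 hjj).mono (hsubp ⟨j, r⟩) (hsubp ⟨j', r'⟩)
  have hwit : ∀ i : JJ, pp i < qq i → ∃ x ∈ Ico (pp i) (qq i),
      (v0 i.1 + k i.1 i.2 * (A' / 2) ≤ F1 x ∧ F1 x < v0 i.1 + (k i.1 i.2 + 1) * (A' / 2) ∧
      v0 i.1 ≤ F1 x ∧ F1 x ≤ v0 i.1 + A) ∧ |F1 x| ≤ B := by
    intro i hi
    have hb1 := hppR i hi
    have hBR : ∀ᵐ x ∂mu, x ∈ R → |F1 x| ≤ B := by
      have h1 := hE1.ae hB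
      have h2 := hE1.maps hRmeas hE1off
      filter_upwards [h1, h2] with x hx1 hx2 hxR
      exact hx1 (Or.inl (hx2 hxR))
    have := hF1p i.1 i.2
    have hcomb : ∀ᵐ x ∂mu, x ∈ Ico (pp i) (qq i) →
        (v0 i.1 + k i.1 i.2 * (A' / 2) ≤ F1 x ∧ F1 x < v0 i.1 + (k i.1 i.2 + 1) * (A' / 2) ∧
        v0 i.1 ≤ F1 x ∧ F1 x ≤ v0 i.1 + A) ∧ |F1 x| ≤ B := by
      filter_upwards [this, hBR] with x hx1 hx2 hx
      exact ⟨hx1 hx, hx2 (hsubR i.1 (hsubp i hx))⟩
    exact exists_of_ae (by linarith [hb1.1]) hi (by linarith [hb1.2]) hcomb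
  have hvB : ∀ i : JJ, m ≤ vv i ∧ vv i ≤ B := by
    intro i
    simp only [vv]
    split_ifs with h
    · obtain ⟨x, hx, ⟨_, _, h1, _⟩, h2⟩ := hwit i h
      have := (abs_le.mp h2).2
      exact ⟨hmv i.1, by linarith⟩
    · exact ⟨le_rfl, by linarith⟩
  have hvg : ∀ i : JJ, vv i ≤ gg i ∧ gg i ≤ vv i + A := by
    intro i
    simp only [vv, gg]
    split_ifs with h
    · obtain ⟨x, hx, ⟨h1, h2, h3, h4⟩, h5⟩ := hwit i h
      have hk : 0 ≤ k i.1 i.2 := by
        have : (0:ℝ) < ((k i.1 i.2 : ℝ) + 1) * (A' / 2) := by linarith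
        have h6 : (0:ℝ) < (k i.1 i.2 : ℝ) + 1 := by
          by_contra hcon
          push Not at hcon
          have := mul_nonpos_of_nonpos_of_nonneg hcon hδ.le
          linarith
        have h7 : (-1:ℝ) < k i.1 i.2 := by linarith
        have h8 : (-1 : ℤ) < k i.1 i.2 := by exact_mod_cast h7
        omega
      have hk' : (0:ℝ) ≤ k i.1 i.2 := by exact_mod_cast hk
      have : 0 ≤ (k i.1 i.2 : ℝ) * (A' / 2) := by positivity
      exact ⟨by linarith, by linarith⟩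
    · exact ⟨le_rfl, by linarith⟩
  have hFfin : ∀ i : JJ, ∀ᵐ x ∂mu, x ∈ Ico (pp' i) (qq' i) →
      gg i ≤ F2 x ∧ F2 x ≤ gg i + A' / 2 := by
    intro i
    have := hF1p i.1 i.2
    filter_upwards [this, hF2R] with x hx1 hx2 hx
    rw [hIco] at hx
    have hlt : pp i < qq i := by linarith [hx.1, hx.2]
    have hxR : x ∈ R := hsubR i.1 (hsubp i hx)
    rw [hx2 hxR]
    obtain ⟨h1, h2, _, _⟩ := hx1 hx
    simp only [gg, if_pos hlt]
    constructor
    · exact h1
    · linarith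
  have hUr : ∀ r : Fin nU, Ico (pU r) (qU r) ⊆ Ico u0 u1 := by
    intro r; rw [← hU3]; exact subset_iUnion (fun r => Ico (pU r) (qU r)) r
  let pU' : RR → ℝ := fun r => if pU r.1 < qU r.1 then pU r.1 else 0
  let qU' : RR → ℝ := fun r => if pU r.1 < qU r.1 then qU r.1 else 0
  have hIcoU : ∀ r : RR, Ico (pU' r) (qU' r) = Ico (pU r.1) (qU r.1) := by
    intro r
    simp only [pU', qU']
    split_ifs with h
    · rfl
    · rw [Ico_self, Ico_eq_empty h]
  have huwit : ∀ r : RR, -B ≤ uu r ∧ uu r ≤ m - γ := by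
    intro r
    simp only [uu]
    split_ifs with h
    · have hb1 := (Ico_subset_Ico_iff h).mp (hUr r.1)
      have hcomb : ∀ᵐ x ∂mu, x ∈ Ico (pU r.1) (qU r.1) →
          F2 x < m - γ + (kU r.1 + 1) * b ∧ |F2 x| ≤ B := by
        filter_upwards [hU4 r.1, hF2B] with x hx1 hx2 hx
        exact ⟨(hx1 hx).2, hx2 (hUr r.1 hx)⟩
      obtain ⟨x, hx, h1, h2⟩ := exists_of_ae (by linarith [hb1.1]) h (by linarith [hb1.2]) hcomb
      have h3 := (abs_le.mp h2).1
      have h4 : (kU r.1 : ℝ) + 1 ≤ 0 := by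
        have : kU r.1 + 1 ≤ 0 := r.2
        exact_mod_cast this
      have : ((kU r.1 : ℝ) + 1) * b ≤ 0 := mul_nonpos_of_nonpos_of_nonneg h4 hb.le
      exact ⟨by linarith, by linarith⟩
    · exact ⟨by linarith, le_rfl⟩
  have hFU : ∀ r : RR, ∀ᵐ x ∂mu, x ∈ Ico (pU' r) (qU' r) → uu r - b ≤ F2 x ∧ F2 x ≤ uu r := by
    intro r
    filter_upwards [hU4 r.1] with x hx1 hx
    rw [hIcoU] at hx
    have hlt : pU r.1 < qU r.1 := by linarith [hx.1, hx.2]
    obtain ⟨h1, h2⟩ := hx1 hx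
    simp only [uu, if_pos hlt]
    exact ⟨by linarith, h2.le⟩
  have hsum : 3 * A / γ ≤ ∑ r, (qU' r - pU' r) := by
    -- measure of the low content
    have h1 : mu (Ico u0 u1 ∩ {x | F x < m - γ}) = mu (Ico u0 u1 ∩ {x | F2 x < m - γ}) := by
      have h2 : mu (Ico u0 u1 ∩ {x | F x < m - γ}) = mu (Ico u0 u1 ∩ {x | F1 x < m - γ}) := by
        apply measure_congr
        filter_upwards [hF1U] with x hx
        apply propext
        constructor
        · rintro ⟨h1, h2⟩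
          refine ⟨h1, ?_⟩
          change F1 x < m - γ
          rw [hx h1]; exact h2
        · rintro ⟨h1, h2⟩
          refine ⟨h1, ?_⟩
          change F x < m - γ
          rw [← hx h1]; exact h2
      rw [h2]
      exact (hE2.measure_inter measurableSet_Ico hE2off
        (measurableSet_lt hF1m measurable_const)).symm
    rw [h1] at hres
    have h3 : mu (Ico u0 u1 ∩ {x | F2 x < m - γ}) ≤ mu (⋃ r : RR, Ico (pU' r) (qU' r)) := by
      apply measure_mono_ae
      have hall : ∀ᵐ x ∂mu, ∀ r, x ∈ Ico (pU r) (qU r) →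
          m - γ + kU r * b ≤ F1 (E2 x) ∧ F1 (E2 x) < m - γ + (kU r + 1) * b := ae_all_iff.mpr hU4
      filter_upwards [hall] with x hx hxm
      obtain ⟨hxU, hxF⟩ := hxm
      rw [← hU3] at hxU
      obtain ⟨r, hr⟩ := mem_iUnion.mp hxU
      have h5 := (hx r hr).1
      have h6 : F2 x < m - γ := hxF
      have h7 : (kU r : ℝ) * b < 0 := by
        have : F2 x = F1 (E2 x) := rfl
        linarith
      have h8 : (kU r : ℝ) < 0 := by
        by_contra hcon
        push Not at hcon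
        have : 0 ≤ (kU r : ℝ) * b := by positivity
        linarith
      have h9 : kU r < 0 := by exact_mod_cast h8
      refine mem_iUnion.mpr ⟨⟨r, h9⟩, ?_⟩
      rw [hIcoU]; exact hr
    have h4 : mu (⋃ r : RR, Ico (pU' r) (qU' r)) ≤ ENNReal.ofReal (∑ r, (qU' r - pU' r)) := by
      have hnn : ∀ r : RR, 0 ≤ qU' r - pU' r := by
        intro r
        simp only [pU', qU']
        split_ifs with h
        · linarith
        · linarith
      rw [ENNReal.ofReal_sum_of_nonneg (fun r _ => hnn r)]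
      refine (measure_iUnion_le _).trans ?_
      rw [tsum_fintype]
      apply Finset.sum_le_sum
      intro r _
      calc mu (Ico (pU' r) (qU' r)) ≤ volume (Ico (pU' r) (qU' r)) := Measure.restrict_apply_le _ _
        _ = ENNReal.ofReal (qU' r - pU' r) := by rw [Real.volume_Ico]
    have h5 := hres.trans (h3.trans h4)
    have h6 : 0 < 3 * A / γ := by positivity
    by_contra hcon
    push Not at hcon
    have h7 : ENNReal.ofReal (∑ r, (qU' r - pU' r)) < ENNReal.ofReal (3 * A / γ) := by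
      rw [ENNReal.ofReal_lt_ofReal_iff h6]; exact hcon
    exact absurd h5 (not_le.mpr h7)
  have hB0 : 0 < B := by linarith
  obtain ⟨E3, D, R1, R2, hE3, c1, c2, c3, c4, c5, c6, c7, c8, c9⟩ :=
    pulse_core (B2 := 2 * B) (b := b) (m := m) (δ' := A' / 2) (η := η) hs hs1 K hA hγ hAγ
      (by linarith) hη pp' qq' vv gg pU' qU' uu (F := F2) (G := G)
      (by
        intro i
        simp only [pp', qq']
        split_ifs with h
        · exact h.le
        · exact le_rfl) hdfin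
      (by
        intro i
        simp only [pp', qq']
        split_ifs with h
        · exact hppR i h
        · exact ⟨by linarith, by linarith⟩)
      (by
        intro r
        simp only [pU', qU']
        split_ifs with h
        · exact h.le
        · exact le_rfl)
      (by
        intro r r' hne
        simp only [Function.onFun, hIcoU]
        exact hU2 (fun h => hne (Subtype.ext h)))
      (by
        intro r
        simp only [pU', qU']
        split_ifs with h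
        · have hb1 := (Ico_subset_Ico_iff h).mp (hUr r.1)
          exact ⟨by linarith [hb1.1], by linarith [hb1.2]⟩
        · exact ⟨by linarith, by linarith⟩)
      (by
        intro i r
        rw [hIco, hIcoU]
        exact hRU.mono ((hsubp i).trans (hsubR i.1)) (hUr r.1))
      (fun i => (hvB i).1) hvg
      (by
        intro i x hx
        rw [hIco] at hx
        have hlt : pp i < qq i := by linarith [hx.1, hx.2]
        simp only [vv, if_pos hlt]
        exact hG0 i.1 x (hsubp i hx))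
      hFfin (fun r => by linarith [(huwit r).2]) hFU
      (fun i r => by linarith [(hvB i).1, (huwit r).2])
      (fun i r => by linarith [(hvB i).2, (huwit r).1]) hsum
  rw [hUfin] at c1 c4 c5
  have hresU : (⋃ r : RR, Ico (pU' r) (qU' r)) ⊆ Ico u0 u1 := by
    apply iUnion_subset
    intro r
    rw [hIcoU]; exact hUr r.1
  have hE3off : ∀ᵐ x ∂mu, x ∉ R ∪ Ico u0 u1 → E3 x = x := by
    filter_upwards [c1] with x hx hxn
    apply hx
    rintro (h | h)
    · exact hxn (Or.inl h)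
    · exact hxn (Or.inr (hresU h))
  refine ⟨fun x => E1 (E2 (E3 x)), D, R1, R2, ?_, ?_, ?_, c3, c4, c5, c6, ?_, c8, ?_, c9⟩
  · exact hE1.comp (hE2.comp hE3)
  · filter_upwards [hE3off, hE2off, hE1off] with x h3 h2 h1 hx
    have hxR : x ∉ R := fun h => hx (Or.inl h)
    have hxU : x ∉ Ico u0 u1 := fun h => hx (Or.inr h)
    rw [h3 hx, h2 hxU, h1 hxR]
  · have hsub : {x | E1 (E2 (E3 x)) ≠ x} ⊆ {x | E3 x ≠ x} ∪ ({x | E2 x ≠ x} ∪ {x | E1 x ≠ x}) := by
      intro x hx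
      by_contra hcon
      simp only [mem_union, mem_setOf_eq, not_or, not_not] at hcon
      apply hx
      rw [hcon.1, hcon.2.1, hcon.2.2]
    have h2 : mu {x | E2 x ≠ x} ≤ mu (Ico u0 u1) := by
      apply measure_mono_ae
      filter_upwards [hE2off] with x hx hxe
      by_contra hcon
      exact hxe (hx hcon)
    have h3 : mu {x | E3 x ≠ x} ≤ 2 * mu (Ico u0 u1) :=
      c2.trans (mul_le_mul_right (measure_mono hresU) _)
    calc mu {x | E1 (E2 (E3 x)) ≠ x} ≤ mu ({x | E3 x ≠ x} ∪ ({x | E2 x ≠ x} ∪ {x | E1 x ≠ x})) :=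
          measure_mono hsub
      _ ≤ mu {x | E3 x ≠ x} + (mu {x | E2 x ≠ x} + mu {x | E1 x ≠ x}) :=
          (measure_union_le _ _).trans (add_le_add le_rfl (measure_union_le _ _))
      _ ≤ 2 * mu (Ico u0 u1) + (mu (Ico u0 u1) + ENNReal.ofReal η) :=
          add_le_add h3 (add_le_add h2 hE1m)
      _ = _ := by ring
  · -- accuracy
    obtain ⟨ι, i1, a', b', v', x1, x2, x3, x4, x5, x6⟩ := c7
    refine ⟨ι, i1, a', b', v', x1, x2, x3, x4, x5, ?_⟩
    intro i
    filter_upwards [x6 i] with x hx hxm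
    obtain ⟨y1, y2⟩ := hx hxm
    refine ⟨y1, y2.trans ?_⟩
    have : 2 * (A + 2 * B) / K ≤ A' / 2 := by
      rw [div_le_iff₀ hA'] at hKA
      rw [div_le_iff₀ hKr]
      linarith
    linarith
  · -- high content
    have h1 : mu (Ico u0 u1 ∩ {x | m + γ < F x}) = mu (Ico u0 u1 ∩ {x | m + γ < F2 x}) := by
      have h2 : mu (Ico u0 u1 ∩ {x | m + γ < F x}) = mu (Ico u0 u1 ∩ {x | m + γ < F1 x}) := by
        apply measure_congr
        filter_upwards [hF1U] with x hx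
        apply propext
        constructor
        · rintro ⟨h1, h2⟩
          refine ⟨h1, ?_⟩
          change m + γ < F1 x
          rw [hx h1]; exact h2
        · rintro ⟨h1, h2⟩
          refine ⟨h1, ?_⟩
          change m + γ < F x
          rw [← hx h1]; exact h2
      rw [h2]
      exact (hE2.measure_inter measurableSet_Ico hE2off
        (measurableSet_lt measurable_const hF1m)).symm
    rw [h1]
    apply measure_mono_ae
    have hall : ∀ᵐ x ∂mu, ∀ r : RR, x ∈ Ico (pU' r) (qU' r) → uu r - b ≤ F2 x ∧ F2 x ≤ uu r :=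
      ae_all_iff.mpr hFU
    filter_upwards [c1, hall] with x hx1 hx2 hxm
    obtain ⟨hxU, hxF⟩ := hxm
    have hxF' : m + γ < F2 x := hxF
    refine ⟨hxU, ?_⟩
    change m + γ < F (E1 (E2 (E3 x)))
    have : E3 x = x := by
      apply hx1
      rintro (h | h)
      · exact Set.disjoint_left.mp hRU h hxU
      · obtain ⟨r, hr⟩ := mem_iUnion.mp h
        have h3 := (hx2 r hr).2
        have h4 := (huwit r).2
        linarith
    rw [this]
    exact hxF'

end Pool.Agent.LegRe
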