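import Pool.Agent.LegRe.Random2

/-! Subdivision of intervals in cells and slots. -/

namespace Pool.Agent.LegRe

open MeasureTheory Set ENNReal Filter Topology

/-- number of cells of length `ℓ` in `[p,q)` -/
noncomputable def nc (p q ℓ : ℝ) : ℕ := ⌊(q - p) / ℓ⌋₊

section
variable {p q ℓ : ℝ} (hℓ : 0 < ℓ) (hpq : p ≤ q)
include hℓ hpq

lemma nc_mul_le : (nc p q ℓ : ℝ) * ℓ ≤ q - p := by
  have h : (nc p q ℓ : ℝ) ≤ (q - p) / ℓ := by
    have h0 : 0 ≤ (q - p) / ℓ := div_nonneg (by linarith) hℓ.le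
    exact Nat.floor_le h0
  rwa [le_div_iff₀ hℓ] at h

lemma lt_nc_mul : q - p < (nc p q ℓ : ℝ) * ℓ + ℓ := by
  have h : (q - p) / ℓ < (nc p q ℓ : ℝ) + 1 := Nat.lt_floor_add_one _
  rw [div_lt_iff₀ hℓ] at h
  linarith

lemma cell_sub {c : ℕ} (hc : c < nc p q ℓ) : Ico (p + c * ℓ) (p + c * ℓ + ℓ) ⊆ Ico p q := by
  have h1 := nc_mul_le hℓ hpq
  have h2 : ((c : ℝ) + 1) ≤ nc p q ℓ := by exact_mod_cast hc
  have h3 : ((c : ℝ) + 1) * ℓ ≤ nc p q ℓ * ℓ := mul_le_mul_of_nonneg_right h2 hℓ.le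
  have h4 : (0:ℝ) ≤ c * ℓ := by positivity
  intro y hy
  exact ⟨by linarith [hy.1], by linarith [hy.2]⟩

lemma left_sub : Ico (p + nc p q ℓ * ℓ) q ⊆ Ico p q := by
  have h4 : (0:ℝ) ≤ nc p q ℓ * ℓ := by positivity
  intro y hy
  exact ⟨by linarith [hy.1], hy.2⟩

lemma Ico_subdiv : Ico p q = (⋃ c : Fin (nc p q ℓ), Ico (p + (c : ℕ) * ℓ) (p + (c : ℕ) * ℓ + ℓ)) ∪
    Ico (p + nc p q ℓ * ℓ) q := by
  apply Subset.antisymm
  · intro y hy
    rcases le_or_gt (p + nc p q ℓ * ℓ) y with h | h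
    · exact Or.inr ⟨h, hy.2⟩
    · left
      have h0 : 0 ≤ (y - p) / ℓ := div_nonneg (by linarith [hy.1]) hℓ.le
      have h1 := Nat.floor_le h0
      have h2 := Nat.lt_floor_add_one ((y - p) / ℓ)
      rw [le_div_iff₀ hℓ] at h1
      rw [div_lt_iff₀ hℓ] at h2
      have h3 : ⌊(y - p) / ℓ⌋₊ < nc p q ℓ := by
        have : ((⌊(y - p) / ℓ⌋₊ : ℝ)) * ℓ < nc p q ℓ * ℓ := by linarith
        have := lt_of_mul_lt_mul_right this hℓ.le
        exact_mod_cast this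
      refine mem_iUnion.mpr ⟨⟨⌊(y - p) / ℓ⌋₊, h3⟩, ?_⟩
      simp only
      exact ⟨by linarith, by linarith⟩
  · apply union_subset
    · apply iUnion_subset
      intro c
      exact cell_sub hℓ hpq c.2
    · exact left_sub hℓ hpq

omit hpq in
lemma cells_disj {c c' : ℕ} (h : c ≠ c') :
    Disjoint (Ico (p + c * ℓ) (p + c * ℓ + ℓ)) (Ico (p + c' * ℓ) (p + c' * ℓ + ℓ)) := by
  rw [Set.disjoint_left]
  intro y hy hy'
  rcases lt_or_gt_of_ne h with h1 | h1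
  · have : ((c : ℝ) + 1) ≤ c' := by exact_mod_cast h1
    have : ((c : ℝ) + 1) * ℓ ≤ c' * ℓ := mul_le_mul_of_nonneg_right this hℓ.le
    linarith [hy.2, hy'.1]
  · have : ((c' : ℝ) + 1) ≤ c := by exact_mod_cast h1
    have : ((c' : ℝ) + 1) * ℓ ≤ c * ℓ := mul_le_mul_of_nonneg_right this hℓ.le
    linarith [hy.1, hy'.2]

omit hpq in
lemma cell_left_disj {c : ℕ} (hc : c < nc p q ℓ) :
    Disjoint (Ico (p + c * ℓ) (p + c * ℓ + ℓ)) (Ico (p + nc p q ℓ * ℓ) q) := by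
  rw [Set.disjoint_left]
  intro y hy hy'
  have : ((c : ℝ) + 1) ≤ nc p q ℓ := by exact_mod_cast hc
  have : ((c : ℝ) + 1) * ℓ ≤ nc p q ℓ * ℓ := mul_le_mul_of_nonneg_right this hℓ.le
  linarith [hy.2, hy'.1]

end

section
variable {a ℓ : ℝ} {K : ℕ} (hℓ : 0 < ℓ)
include hℓ

lemma slots_disj {k k' : Fin K} (h : k ≠ k') :
    Disjoint (Ico (a + (k : ℝ) * (ℓ / K)) (a + ((k : ℝ) + 1) * (ℓ / K)))
      (Ico (a + (k' : ℝ) * (ℓ / K)) (a + ((k' : ℝ) + 1) * (ℓ / K))) := by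
  have hσ : 0 < ℓ / K := div_pos hℓ (K_pos_of_fin k)
  have h' : (k : ℕ) ≠ k' := fun e => h (Fin.ext e)
  have := cells_disj (p := a) hσ h'
  have e1 : ∀ j : ℝ, a + (j + 1) * (ℓ / K) = a + j * (ℓ / K) + ℓ / K := by intro j; ring
  rw [e1, e1]
  exact this

lemma slot_sub (k : Fin K) : Ico (a + (k : ℝ) * (ℓ / K)) (a + ((k : ℝ) + 1) * (ℓ / K)) ⊆
    Ico a (a + ℓ) := by
  obtain ⟨f1, f2, f3, f4⟩ := slot_facts (a := a) hℓ k
  intro y hy
  exact ⟨by linarith [hy.1], by linarith [hy.2]⟩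

lemma cell_eq_slots (hK : 0 < K) : Ico a (a + ℓ) =
    ⋃ k : Fin K, Ico (a + (k : ℝ) * (ℓ / K)) (a + ((k : ℝ) + 1) * (ℓ / K)) := by
  have hKr : (0:ℝ) < K := by exact_mod_cast hK
  have hσ : 0 < ℓ / K := by positivity
  apply Subset.antisymm
  · intro y hy
    have h0 : 0 ≤ (y - a) / (ℓ / K) := div_nonneg (by linarith [hy.1]) hσ.le
    have h1 := Nat.floor_le h0
    have h2 := Nat.lt_floor_add_one ((y - a) / (ℓ / K))
    rw [le_div_iff₀ hσ] at h1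
    rw [div_lt_iff₀ hσ] at h2
    have h3 : ⌊(y - a) / (ℓ / K)⌋₊ < K := by
      have e : (K:ℝ) * (ℓ / K) = ℓ := by field_simp
      have : ((⌊(y - a) / (ℓ / K)⌋₊ : ℝ)) * (ℓ / K) < K * (ℓ / K) := by
        rw [e]; linarith [hy.2]
      have := lt_of_mul_lt_mul_right this hσ.le
      exact_mod_cast this
    refine mem_iUnion.mpr ⟨⟨_, h3⟩, ?_⟩
    simp only
    exact ⟨by linarith, by linarith⟩
  · exact iUnion_subset fun k => slot_sub hℓ k

lemma cellFn_slot (φ : Fin K → ℝ) (k : Fin K) {x : ℝ}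
    (hx : x ∈ Ico (a + (k : ℝ) * (ℓ / K)) (a + ((k : ℝ) + 1) * (ℓ / K))) :
    cellFn a ℓ K φ x = φ k := by
  unfold cellFn
  rw [Finset.sum_eq_single k]
  · simp [ind, indicator_of_mem hx]
  · intro j _ hj
    have := (Set.disjoint_left.mp (slots_disj (a := a) hℓ hj.symm)) hx
    simp [ind, indicator_of_notMem this]
  · intro h; exact absurd (Finset.mem_univ k) h

lemma cellFn_off (φ : Fin K → ℝ) {x : ℝ} (hx : x ∉ Ico a (a + ℓ)) : cellFn a ℓ K φ x = 0 := by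
  unfold cellFn
  apply Finset.sum_eq_zero
  intro j _
  have : x ∉ Ico (a + (j : ℝ) * (ℓ / K)) (a + ((j : ℝ) + 1) * (ℓ / K)) :=
    fun h => hx (slot_sub hℓ j h)
  simp [ind, indicator_of_notMem this]

lemma Dfun_slot {ι : Type*} [Fintype ι] {a : ι → ℝ} [NeZero K] {ψ : ι → Fin K → ℝ}
    {τ : ι → Fin K} (hdisj : Pairwise (Function.onFun Disjoint fun i => Ico (a i) (a i + ℓ)))
    (i : ι) (k : Fin K) {x : ℝ}
    (hx : x ∈ Ico (a i + (k : ℝ) * (ℓ / K)) (a i + ((k : ℝ) + 1) * (ℓ / K))) :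
    Dfun a ℓ K ψ τ x = ψ i (k + τ i) := by
  unfold Dfun
  rw [Finset.sum_eq_single i]
  · exact cellFn_slot hℓ _ k hx
  · intro j _ hj
    apply cellFn_off hℓ
    exact Set.disjoint_left.mp (hdisj hj.symm) (slot_sub hℓ k hx)
  · intro h; exact absurd (Finset.mem_univ i) h

lemma Dfun_off {ι : Type*} [Fintype ι] {a : ι → ℝ} [NeZero K] {ψ : ι → Fin K → ℝ}
    {τ : ι → Fin K} {x : ℝ} (hx : ∀ i, x ∉ Ico (a i) (a i + ℓ)) : Dfun a ℓ K ψ τ x = 0 := by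
  unfold Dfun
  apply Finset.sum_eq_zero
  intro j _
  exact cellFn_off hℓ _ (hx j)

end

lemma mu_Ico {p q : ℝ} (hp : -1 ≤ p) (hq : q ≤ 1) : mu (Ico p q) = ENNReal.ofReal (q - p) := by
  unfold mu
  rw [Measure.restrict_apply measurableSet_Ico]
  have : Ico p q ∩ Icc (-1) 1 = Ico p q := by
    apply inter_eq_left.mpr
    intro y hy
    exact ⟨by linarith [hy.1], by linarith [hy.2]⟩
  rw [this, Real.volume_Ico]

lemma sum_len_le {J : Type*} [Fintype J] {p q : J → ℝ} (hpq : ∀ j, p j ≤ q j)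
    (hdisj : Pairwise (Function.onFun Disjoint fun j => Ico (p j) (q j)))
    (hsub : ∀ j, -1 ≤ p j ∧ q j ≤ 1) {T : Set ℝ} (hT : ∀ j, Ico (p j) (q j) ⊆ T) :
    ENNReal.ofReal (∑ j, (q j - p j)) ≤ mu T := by
  rw [ENNReal.ofReal_sum_of_nonneg (fun j _ => by linarith [hpq j])]
  calc ∑ j, ENNReal.ofReal (q j - p j) = ∑ j, mu (Ico (p j) (q j)) := by
        apply Finset.sum_congr rfl
        intro j _
        rw [mu_Ico (hsub j).1 (hsub j).2]
    _ = mu (⋃ j ∈ (Finset.univ : Finset J), Ico (p j) (q j)) := by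
        rw [measure_biUnion_finset (fun i _ j _ hij => hdisj hij) (fun i _ => measurableSet_Ico)]
    _ ≤ mu T := by
        apply measure_mono
        intro y hy
        simp only [mem_iUnion] at hy
        obtain ⟨j, _, hy⟩ := hy
        exact hT j hy

/-- counting cells in a family of disjoint intervals -/
lemma card_cells_le {J : Type*} [Fintype J] {p q : J → ℝ} {ℓ : ℝ} (hℓ : 0 < ℓ)
    (hpq : ∀ j, p j ≤ q j) :
    (Fintype.card (Σ j, Fin (nc (p j) (q j) ℓ)) : ℝ) * ℓ ≤ ∑ j, (q j - p j) := by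
  rw [Fintype.card_sigma]
  push_cast
  rw [Finset.sum_mul]
  apply Finset.sum_le_sum
  intro j _
  rw [Fintype.card_fin]
  exact nc_mul_le hℓ (hpq j)

lemma le_card_cells {J : Type*} [Fintype J] {p q : J → ℝ} {ℓ : ℝ} (hℓ : 0 < ℓ)
    (hpq : ∀ j, p j ≤ q j) :
    ∑ j, (q j - p j) ≤ (Fintype.card (Σ j, Fin (nc (p j) (q j) ℓ)) : ℝ) * ℓ +
      (Fintype.card J) * ℓ := by
  rw [Fintype.card_sigma]
  push_cast
  rw [Finset.sum_mul]
  have : ((Fintype.card J : ℝ)) * ℓ = ∑ _j : J, ℓ := by simp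
  rw [this, ← Finset.sum_add_distrib]
  apply Finset.sum_le_sum
  intro j _
  rw [Fintype.card_fin]
  exact (lt_nc_mul hℓ (hpq j)).le

lemma sigma_cells_disj {J : Type*} {p q : J → ℝ} {ℓ : ℝ} (hℓ : 0 < ℓ)
    (hpq : ∀ j, p j ≤ q j)
    (hdisj : Pairwise (Function.onFun Disjoint fun j => Ico (p j) (q j))) :
    Pairwise (Function.onFun Disjoint fun i : (Σ j, Fin (nc (p j) (q j) ℓ)) =>
      Ico (p i.1 + ((i.2 : ℕ) : ℝ) * ℓ) (p i.1 + ((i.2 : ℕ) : ℝ) * ℓ + ℓ)) := by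
  rintro ⟨j, c⟩ ⟨j', c'⟩ hne
  by_cases hj : j = j'
  · subst hj
    have hc : (c : ℕ) ≠ c' := by
      intro e
      apply hne
      rw [Fin.ext e]
    exact cells_disj hℓ hc
  · have := hdisj hj
    exact this.mono (cell_sub hℓ (hpq j) c.2) (cell_sub hℓ (hpq j') c'.2)

end Pool.Agent.LegRe
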