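import Pool.Agent.LegRe.Interval

/-! Uniform cost of intervals, and cost of monotone functions. -/

namespace Pool.Agent.LegRe

open MeasureTheory Set ENNReal Filter Topology

lemma one_sub_abs_le {x : ℝ} (hx : x ∈ Ioo (-1 : ℝ) 1) {θ : ℝ} :
    (1 - |x|) ^ (-θ) ≤ |x - 1| ^ (-θ) + |x - (-1)| ^ (-θ) := by
  rcases le_total 0 x with h | h
  · have : 0 ≤ |x - (-1)| ^ (-θ) := by positivity
    rw [abs_of_nonneg h, abs_of_neg (by linarith [hx.2] : x - 1 < 0), neg_sub]
    linarith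
  · have : 0 ≤ |x - 1| ^ (-θ) := by positivity
    rw [abs_of_nonpos h, abs_of_pos (by linarith [hx.1] : 0 < x - (-1))]
    have e : 1 - -x = x - (-1) := by ring
    rw [e]
    linarith

lemma w_le_rpow {x : ℝ} (hx : x ∈ Ioo (-1 : ℝ) 1) : w x ≤ (1 - |x|) ^ (-(1/4) : ℝ) := by
  have h0 := one_sub_sq_pos hx
  have h1 : 0 < 1 - |x| := by have := abs_lt.mpr hx; linarith
  unfold w
  rw [Real.sqrt_eq_rpow, Real.sqrt_eq_rpow, ← Real.rpow_mul h0.le, ← Real.rpow_neg h0.le]
  have e : -(1 / 2 * (1 / 2)) = (-(1/4) : ℝ) := by norm_num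
  rw [e]
  apply Real.rpow_le_rpow_of_nonpos h1 _ (by norm_num)
  rw [← sq_abs x]
  have := abs_nonneg x
  nlinarith

lemma young_sing {u v : ℝ} (hu : 0 < u) (hv : 0 < v) :
    u ^ (-(1/4) : ℝ) * v ^ (-(1/2) : ℝ) ≤ u ^ (-(3/4) : ℝ) + v ^ (-(3/4) : ℝ) := by
  have pu : 0 ≤ u ^ (-(3/4) : ℝ) := by positivity
  have pv : 0 ≤ v ^ (-(3/4) : ℝ) := by positivity
  rcases le_total u v with h | h
  · have h1 : v ^ (-(1/2) : ℝ) ≤ u ^ (-(1/2) : ℝ) :=
      Real.rpow_le_rpow_of_nonpos hu h (by norm_num)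
    have h2 : u ^ (-(1/4) : ℝ) * u ^ (-(1/2) : ℝ) = u ^ (-(3/4) : ℝ) := by
      rw [← Real.rpow_add hu]; norm_num
    have : u ^ (-(1/4) : ℝ) * v ^ (-(1/2) : ℝ) ≤ u ^ (-(1/4) : ℝ) * u ^ (-(1/2) : ℝ) :=
      mul_le_mul_of_nonneg_left h1 (by positivity)
    linarith
  · have h1 : u ^ (-(1/4) : ℝ) ≤ v ^ (-(1/4) : ℝ) :=
      Real.rpow_le_rpow_of_nonpos hv h (by norm_num)
    have h2 : v ^ (-(1/4) : ℝ) * v ^ (-(1/2) : ℝ) = v ^ (-(3/4) : ℝ) := by
      rw [← Real.rpow_add hv]; norm_num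
    have : u ^ (-(1/4) : ℝ) * v ^ (-(1/2) : ℝ) ≤ v ^ (-(1/4) : ℝ) * v ^ (-(1/2) : ℝ) :=
      mul_le_mul_of_nonneg_right h1 (by positivity)
    linarith

/-- contribution of the far part of the kernel -/
lemma far_part {n : ℕ} {x ρ : ℝ} (hx : x ∈ Ioo (-1 : ℝ) 1) (hρ : 0 < ρ) {T : Set ℝ}
    (hT : MeasurableSet T) (hd : ∀ y ∈ T, ρ ≤ |x - y|) :
    ∫ y in T, |K n x y| ∂mu ≤ w x * (ρ ^ (-(1/2) : ℝ) * (3 * Ic (3/4))) := by
  have hθ : (3/4 : ℝ) < 1 := by norm_num
  have hx1 : x ∈ Icc (-1 : ℝ) 1 := ⟨hx.1.le, hx.2.le⟩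
  have i1 := sing_integrable hθ (show (1:ℝ) ∈ Icc (-1:ℝ) 1 by constructor <;> norm_num)
  have i2 := sing_integrable hθ (show (-1:ℝ) ∈ Icc (-1:ℝ) 1 by constructor <;> norm_num)
  have i3 := sing_integrable hθ hx1
  have j1 := sing_integral_le hθ (show (1:ℝ) ∈ Icc (-1:ℝ) 1 by constructor <;> norm_num)
  have j2 := sing_integral_le hθ (show (-1:ℝ) ∈ Icc (-1:ℝ) 1 by constructor <;> norm_num)
  have j3 := sing_integral_le hθ hx1
  have hw0 := w_nonneg x
  have i12 : Integrable (fun y => |y - 1| ^ (-(3/4) : ℝ) + |y - (-1)| ^ (-(3/4) : ℝ)) mu := i1.add i2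
  have i123 : Integrable (fun y => |y - 1| ^ (-(3/4) : ℝ) + |y - (-1)| ^ (-(3/4) : ℝ) +
      |y - x| ^ (-(3/4) : ℝ)) mu := i12.add i3
  have hh : Integrable (fun y => w x * (ρ ^ (-(1/2) : ℝ) * (|y - 1| ^ (-(3/4) : ℝ) +
      |y - (-1)| ^ (-(3/4) : ℝ) + |y - x| ^ (-(3/4) : ℝ)))) mu := (i123.const_mul _).const_mul _
  have hKi : Integrable (fun y => |K n x y|) mu := by
    have h := integrable_K_mul n x (integrable_const (1:ℝ))
    simp only [mul_one] at h
    exact h.abs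
  calc ∫ y in T, |K n x y| ∂mu
      ≤ ∫ y in T, w x * (ρ ^ (-(1/2) : ℝ) * (|y - 1| ^ (-(3/4) : ℝ) +
      |y - (-1)| ^ (-(3/4) : ℝ) + |y - x| ^ (-(3/4) : ℝ))) ∂mu := by
        apply setIntegral_mono_ae_restrict hKi.integrableOn hh.integrableOn
        have h1 : ∀ᵐ y ∂(mu.restrict T), y ∈ Ioo (-1 : ℝ) 1 := ae_restrict_of_ae ae_Ioo
        filter_upwards [ae_restrict_mem hT, h1] with y hyT hy
        have hyd := hd y hyT
        have hpos : 0 < |x - y| := lt_of_lt_of_le hρ hyd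
        have k1 := K_mul_le n hx hy
        have k2 : |K n x y| ≤ w x * w y / |x - y| := by
          rw [le_div_iff₀ hpos, mul_comm]; exact k1
        refine k2.trans ?_
        rw [mul_div_assoc]
        apply mul_le_mul_of_nonneg_left _ hw0
        have e1 : |x - y|⁻¹ = |x - y| ^ (-(1/2) : ℝ) * |x - y| ^ (-(1/2) : ℝ) := by
          rw [← Real.rpow_add hpos, ← Real.rpow_neg_one]; norm_num
        have k3 : |x - y| ^ (-(1/2) : ℝ) ≤ ρ ^ (-(1/2) : ℝ) :=
          Real.rpow_le_rpow_of_nonpos hρ hyd (by norm_num)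
        have hu : 0 < 1 - |y| := by have := abs_lt.mpr hy; linarith
        have k4 := w_le_rpow hy
        have k5 := young_sing hu hpos
        have k6 := one_sub_abs_le hy (θ := 3/4)
        have k7 : |x - y| = |y - x| := abs_sub_comm _ _
        rw [div_eq_mul_inv, e1]
        calc w y * (|x - y| ^ (-(1/2) : ℝ) * |x - y| ^ (-(1/2) : ℝ))
            = |x - y| ^ (-(1/2) : ℝ) * (w y * |x - y| ^ (-(1/2) : ℝ)) := by ring
          _ ≤ ρ ^ (-(1/2) : ℝ) * ((1 - |y|) ^ (-(1/4) : ℝ) * |x - y| ^ (-(1/2) : ℝ)) := by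
              apply mul_le_mul k3 _ (by have := w_nonneg y; positivity) (by positivity)
              exact mul_le_mul_of_nonneg_right k4 (by positivity)
          _ ≤ _ := by
              apply mul_le_mul_of_nonneg_left _ (by positivity)
              rw [k7] at k5 ⊢
              linarith
    _ ≤ ∫ y, w x * (ρ ^ (-(1/2) : ℝ) * (|y - 1| ^ (-(3/4) : ℝ) +
      |y - (-1)| ^ (-(3/4) : ℝ) + |y - x| ^ (-(3/4) : ℝ))) ∂mu := by
        apply setIntegral_le_integral hh
        filter_upwards with y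
        positivity
    _ ≤ _ := by
        rw [integral_const_mul, integral_const_mul, integral_add i12 i3, integral_add i1 i2]
        apply mul_le_mul_of_nonneg_left _ hw0
        apply mul_le_mul_of_nonneg_left _ (by positivity)
        linarith

lemma abs_interval_le {n : ℕ} {x a b : ℝ} (ha : -1 ≤ a) (hab : a ≤ b) (hb : b ≤ 1) :
    |∫ y in a..b, K n x y| ≤ ∫ y in Ioc a b, |K n x y| ∂mu := by
  have e : ∫ y in Ioc a b, |K n x y| ∂mu = ∫ y in a..b, |K n x y| := by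
    unfold mu
    rw [Measure.restrict_restrict measurableSet_Ioc, intervalIntegral.integral_of_le hab]
    have : Ioc a b ∩ Icc (-1) 1 = Ioc a b := by
      apply inter_eq_left.mpr
      intro y hy
      exact ⟨by linarith [hy.1], by linarith [hy.2]⟩
    rw [this]
  rw [e]
  exact intervalIntegral.abs_integral_le_integral_abs hab

/-- uniform pointwise bound for the partial sums of an indicator function of an interval -/
lemma S_ind_unif {n : ℕ} {x c d : ℝ} (hx : x ∈ Ioo (-1 : ℝ) 1) (hc : -1 ≤ c) (hcd : c ≤ d)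
    (hd : d ≤ 1) :
    |S n (ind c d) x| ≤ (56 + 12 * Ic (3/4)) *
      (|x - 1| ^ (-(3/4) : ℝ) + |x - (-1)| ^ (-(3/4) : ℝ)) := by
  rw [S_ind n hc hcd hd]
  have hax : |x| < 1 := abs_lt.mpr hx
  set ρ : ℝ := (1 - |x|) / 2 with hρdef
  have hρ : 0 < ρ := by rw [hρdef]; linarith
  have hw0 := w_nonneg x
  have hI := Ic_nonneg (show (3/4 : ℝ) < 1 by norm_num)
  obtain ⟨c', hc'⟩ : ∃ c', c' = max c (min d (x - ρ)) := ⟨_, rfl⟩
  obtain ⟨d', hd'⟩ : ∃ d', d' = min d (max c (x + ρ)) := ⟨_, rfl⟩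
  have h1 : c ≤ c' := hc' ▸ le_max_left _ _
  have h2 : d' ≤ d := hd' ▸ min_le_left _ _
  have h3 : c' ≤ d' := by
    rw [hc', hd']
    apply max_le
    · exact le_min hcd (le_max_left _ _)
    · exact le_min (min_le_left _ _)
        ((min_le_right _ _).trans ((by linarith : x - ρ ≤ x + ρ).trans (le_max_right _ _)))
  have hi : ∀ a b, IntervalIntegrable (K n x) volume a b :=
    fun a b => (continuous_K n x).intervalIntegrable _ _
  have hsplit : ∫ y in c..d, K n x y =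
      (∫ y in c..c', K n x y) + (∫ y in c'..d', K n x y) + ∫ y in d'..d, K n x y := by
    rw [intervalIntegral.integral_add_adjacent_intervals (hi _ _) (hi _ _),
      intervalIntegral.integral_add_adjacent_intervals (hi _ _) (hi _ _)]
  set F : ℝ := w x * (ρ ^ (-(1/2) : ℝ) * (3 * Ic (3/4))) with hF
  have hF0 : 0 ≤ F := by positivity
  have b1 : |∫ y in c..c', K n x y| ≤ F := by
    rcases eq_or_lt_of_le h1 with e | e
    · rw [← e]; simp; exact hF0
    · have hcx : c' ≤ x - ρ := by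
        rw [hc'] at e ⊢
        rcases le_total c (min d (x - ρ)) with a | a
        · rw [max_eq_right a]; exact min_le_right _ _
        · rw [max_eq_left a] at e; exact absurd e (lt_irrefl _)
      refine (abs_interval_le hc h1 (by linarith)).trans ?_
      apply far_part hx hρ measurableSet_Ioc
      intro y hy
      rw [abs_of_nonneg (by linarith [hy.2])]; linarith [hy.2]
  have b3 : |∫ y in d'..d, K n x y| ≤ F := by
    rcases eq_or_lt_of_le h2 with e | e
    · rw [← e]; simp; exact hF0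
    · have hcx : x + ρ ≤ d' := by
        rw [hd'] at e ⊢
        rcases le_total d (max c (x + ρ)) with a | a
        · rw [min_eq_left a] at e; exact absurd e (lt_irrefl _)
        · rw [min_eq_right a]; exact le_max_right _ _
      refine (abs_interval_le (by linarith) h2 hd).trans ?_
      apply far_part hx hρ measurableSet_Ioc
      intro y hy
      rw [abs_of_nonpos (by linarith [hy.1])]; linarith [hy.1]
  have b2 : |∫ y in c'..d', K n x y| ≤ 28 * w x ^ 2 := by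
    rcases eq_or_lt_of_le h3 with e | e
    · rw [← e]; simp; positivity
    · have e1 : x - ρ ≤ c' := by
        by_contra hcon
        push Not at hcon
        have : min d (x - ρ) ≤ c' := hc' ▸ le_max_right _ _
        rcases min_choice d (x - ρ) with m | m
        · rw [m] at this; linarith
        · rw [m] at this; linarith
      have e2 : d' ≤ x + ρ := by
        by_contra hcon
        push Not at hcon
        have : d' ≤ max c (x + ρ) := hd' ▸ min_le_right _ _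
        rcases max_choice c (x + ρ) with m | m
        · rw [m] at this; linarith
        · rw [m] at this; linarith
      have hcl : ∀ y ∈ Icc c' d', |x - y| ≤ (1 - |x|) / 2 := by
        intro y hy
        rw [← hρdef]
        exact abs_le.mpr ⟨by linarith [hy.2], by linarith [hy.1]⟩
      have g1 := (w_le_of_close hx (hcl c' ⟨le_rfl, h3⟩)).1
      have g2 := (w_le_of_close hx (hcl d' ⟨h3, le_rfl⟩)).1
      have := integral_K_le (n := n) (W := 2 * w x) hx h3 g1.1 g2.2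
        (fun y hy => w_le_of_close' hx (hcl y hy))
      calc _ ≤ _ := this
        _ = _ := by ring
  -- compare with the singular weights
  set E : ℝ := (1 - |x|) ^ (-(3/4) : ℝ) with hE
  have h1x : 0 < 1 - |x| := by linarith
  have hE0 : 0 ≤ E := by positivity
  have hEle : E ≤ |x - 1| ^ (-(3/4) : ℝ) + |x - (-1)| ^ (-(3/4) : ℝ) := one_sub_abs_le hx
  have hwE := w_le_rpow hx
  have c1 : w x ^ 2 ≤ E := by
    have e : ((1 - |x|) ^ (-(1/4) : ℝ)) ^ 2 = (1 - |x|) ^ (-(1/2) : ℝ) := by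
      rw [← Real.rpow_natCast, ← Real.rpow_mul h1x.le]; norm_num
    calc w x ^ 2 ≤ ((1 - |x|) ^ (-(1/4) : ℝ)) ^ 2 := pow_le_pow_left₀ hw0 hwE 2
      _ = (1 - |x|) ^ (-(1/2) : ℝ) := e
      _ ≤ E := Real.rpow_le_rpow_of_exponent_ge h1x (by linarith [abs_nonneg x]) (by norm_num)
  have c2 : w x * ρ ^ (-(1/2) : ℝ) ≤ 2 * E := by
    have e1 : ρ ^ (-(1/2) : ℝ) = (1 - |x|) ^ (-(1/2) : ℝ) * 2 ^ (1/2 : ℝ) := by
      rw [hρdef, Real.div_rpow h1x.le (by norm_num), Real.rpow_neg (by norm_num : (0:ℝ) ≤ 2)]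
      rw [div_inv_eq_mul]
    have e2 : (2:ℝ) ^ (1/2 : ℝ) ≤ 2 := by
      calc (2:ℝ) ^ (1/2 : ℝ) ≤ 2 ^ (1:ℝ) :=
            Real.rpow_le_rpow_of_exponent_le (by norm_num) (by norm_num)
        _ = 2 := by simp
    have e3 : (1 - |x|) ^ (-(1/4) : ℝ) * (1 - |x|) ^ (-(1/2) : ℝ) = E := by
      rw [← Real.rpow_add h1x, hE]; norm_num
    rw [e1]
    calc w x * ((1 - |x|) ^ (-(1/2) : ℝ) * 2 ^ (1/2 : ℝ))
        ≤ (1 - |x|) ^ (-(1/4) : ℝ) * ((1 - |x|) ^ (-(1/2) : ℝ) * 2) := by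
          apply mul_le_mul hwE _ (by positivity) (by positivity)
          exact mul_le_mul_of_nonneg_left e2 (by positivity)
      _ = 2 * ((1 - |x|) ^ (-(1/4) : ℝ) * (1 - |x|) ^ (-(1/2) : ℝ)) := by ring
      _ = 2 * E := by rw [e3]
  have c3 : F ≤ 6 * Ic (3/4) * E := by
    rw [hF]
    calc w x * (ρ ^ (-(1/2) : ℝ) * (3 * Ic (3/4))) = (w x * ρ ^ (-(1/2) : ℝ)) * (3 * Ic (3/4)) := by
          ring
      _ ≤ (2 * E) * (3 * Ic (3/4)) := mul_le_mul_of_nonneg_right c2 (by positivity)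
      _ = _ := by ring
  rw [hsplit]
  have t1 := abs_add_le ((∫ y in c..c', K n x y) + (∫ y in c'..d', K n x y)) (∫ y in d'..d, K n x y)
  have t2 := abs_add_le (∫ y in c..c', K n x y) (∫ y in c'..d', K n x y)
  calc _ ≤ 28 * E + 2 * (6 * Ic (3/4) * E) := by linarith
    _ ≤ (56 + 12 * Ic (3/4)) * E := by nlinarith
    _ ≤ _ := mul_le_mul_of_nonneg_left hEle (by positivity)

/-- uniform constant for intervals -/
noncomputable def Cu : ℝ := (56 + 12 * Ic (3/4)) * (2 * Ic (3/4)) + 2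

lemma Cu_nonneg : 0 ≤ Cu := by
  have hI := Ic_nonneg (show (3/4 : ℝ) < 1 by norm_num)
  unfold Cu; positivity

lemma N_ind_unif {c d : ℝ} (hc : -1 ≤ c) (hcd : c ≤ d) (hd : d ≤ 1) :
    N (ind c d) ≤ ENNReal.ofReal Cu := by
  have hI := Ic_nonneg (show (3/4 : ℝ) < 1 by norm_num)
  have hθ : (3/4 : ℝ) < 1 := by norm_num
  have i1 := sing_integrable hθ (show (1:ℝ) ∈ Icc (-1:ℝ) 1 by constructor <;> norm_num)
  have i2 := sing_integrable hθ (show (-1:ℝ) ∈ Icc (-1:ℝ) 1 by constructor <;> norm_num)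
  have j1 := sing_integral_le hθ (show (1:ℝ) ∈ Icc (-1:ℝ) 1 by constructor <;> norm_num)
  have j2 := sing_integral_le hθ (show (-1:ℝ) ∈ Icc (-1:ℝ) 1 by constructor <;> norm_num)
  have i12 : Integrable (fun y => |y - 1| ^ (-(3/4) : ℝ) + |y - (-1)| ^ (-(3/4) : ℝ)) mu := i1.add i2
  have h1 := N1_le_integral (g := ind c d) (i12.const_mul (56 + 12 * Ic (3/4)))
    (fun x hx n => S_ind_unif hx hc hcd hd)
  have h2 : ∫ x, (56 + 12 * Ic (3/4)) * (|x - 1| ^ (-(3/4) : ℝ) + |x - (-1)| ^ (-(3/4) : ℝ)) ∂mu ≤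
      (56 + 12 * Ic (3/4)) * (2 * Ic (3/4)) := by
    rw [integral_const_mul, integral_add i1 i2]
    apply mul_le_mul_of_nonneg_left _ (by positivity)
    linarith
  unfold N Cu
  rw [ENNReal.ofReal_add (by positivity) (by norm_num)]
  exact add_le_add (h1.trans (ENNReal.ofReal_le_ofReal h2))
    (lintegral_ind.trans (ENNReal.ofReal_le_ofReal (by linarith)))

end Pool.Agent.LegRe
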